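import Mathlib

/-!
# UNIV, module M4: the abstract moment lemma
-/

set_option autoImplicit false
open Classical Finset

namespace Pool.H15.Univ

namespace M4

variable {Ω T : Type*} [Fintype Ω] [Fintype T] (bad : T → Ω → Prop) (E0 : Ω → Prop)

/-- The `a`-th moment of the number of bad indices, on the event that all of `A` is bad. -/
noncomputable def S (a : ℕ) (A : Finset T) : ℝ :=
  ∑ ω ∈ univ.filter (fun ω => E0 ω ∧ ∀ v ∈ A, bad v ω),
    ((univ.filter fun v => bad v ω).card : ℝ) ^ a

theorem S_zero (A : Finset T) : S bad E0 0 A =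
    ((univ.filter fun ω => E0 ω ∧ ∀ v ∈ A, bad v ω).card : ℝ) := by
  simp [S]

theorem S_nonneg (a : ℕ) (A : Finset T) : 0 ≤ S bad E0 a A :=
  sum_nonneg fun _ _ => by positivity

theorem S_mono (a : ℕ) (A : Finset T) (v : T) : S bad E0 a (insert v A) ≤ S bad E0 a A := by
  unfold S
  refine sum_le_sum_of_subset_of_nonneg ?_ (fun _ _ _ => by positivity)
  intro ω hω
  rw [mem_filter] at hω ⊢
  exact ⟨hω.1, hω.2.1, fun w hw => hω.2.2 w (mem_insert_of_mem hw)⟩

theorem S_succ (a : ℕ) (A : Finset T) :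
    S bad E0 (a + 1) A = ∑ v : T, S bad E0 a (insert v A) := by
  unfold S
  have h1 : ∀ v : T, univ.filter (fun ω => E0 ω ∧ ∀ w ∈ insert v A, bad w ω) =
      (univ.filter (fun ω => E0 ω ∧ ∀ w ∈ A, bad w ω)).filter (fun ω => bad v ω) := by
    intro v
    ext ω
    simp only [mem_filter, mem_univ, true_and, mem_insert, forall_eq_or_imp]
    tauto
  simp_rw [h1, sum_filter (fun ω => bad _ ω)]
  rw [sum_comm]
  refine sum_congr rfl fun ω _ => ?_
  rw [← sum_filter, sum_const, nsmul_eq_mul, pow_succ, mul_comm]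

variable {bad E0} {conf : T → T → Prop}

theorem bound (hrefl : ∀ v, conf v v) (hsymm : ∀ v w, conf v w → conf w v)
    (K : ℕ) (hK : ∀ v, (univ.filter fun w => conf v w).card ≤ K)
    (c p : ℝ) (hc : 0 ≤ c) (hp : 0 ≤ p)
    (hA : ∀ A : Finset T, (∀ v ∈ A, ∀ w ∈ A, v ≠ w → ¬ conf v w) →
      ((univ.filter fun ω => E0 ω ∧ ∀ v ∈ A, bad v ω).card : ℝ) ≤ c * p ^ A.card)
    (a : ℕ) : ∀ A : Finset T, (∀ v ∈ A, ∀ w ∈ A, v ≠ w → ¬ conf v w) →
      S bad E0 a A ≤ c * p ^ A.card * (Fintype.card T * p + ((A.card : ℝ) + a) * K) ^ a := by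
  induction a with
  | zero =>
    intro A h
    rw [S_zero, pow_zero, mul_one]
    exact hA A h
  | succ a ih =>
    intro A h
    rw [S_succ]
    set X : ℝ := Fintype.card T * p + ((A.card : ℝ) + (a + 1 : ℕ)) * K with hX
    have hT0 : (0:ℝ) ≤ Fintype.card T * p := by positivity
    have hK0 : (0:ℝ) ≤ K := by positivity
    have hX0 : 0 ≤ X := by positivity
    have hb0 : 0 ≤ c * p ^ A.card * X ^ a := by positivity
    -- conflicting indices
    set C : Finset T := A.biUnion (fun u => univ.filter fun w => conf u w) with hC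
    have hCc : (C.card : ℝ) ≤ A.card * K := by
      have h1 : C.card ≤ A.card * K := card_biUnion_le_card_mul _ _ _ (fun u _ => hK u)
      exact_mod_cast h1
    have h1 : ∀ v ∈ C, S bad E0 a (insert v A) ≤ c * p ^ A.card * X ^ a := by
      intro v _
      refine (S_mono bad E0 a A v).trans ((ih A h).trans ?_)
      refine mul_le_mul_of_nonneg_left ?_ (by positivity)
      refine pow_le_pow_left₀ (by positivity) ?_ a
      rw [hX]
      push_cast
      nlinarith
    have h2 : ∀ v ∈ univ \ C, S bad E0 a (insert v A) ≤ c * p ^ A.card * X ^ a * p := by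
      intro v hv
      rw [mem_sdiff] at hv
      have hvA : v ∉ A := by
        intro hvA
        apply hv.2
        rw [hC, mem_biUnion]
        exact ⟨v, hvA, mem_filter.mpr ⟨mem_univ _, hrefl v⟩⟩
      have hncv : ∀ u ∈ A, ¬ conf u v := by
        intro u hu huv
        apply hv.2
        rw [hC, mem_biUnion]
        exact ⟨u, hu, mem_filter.mpr ⟨mem_univ _, huv⟩⟩
      have h' : ∀ x ∈ insert v A, ∀ y ∈ insert v A, x ≠ y → ¬ conf x y := by
        intro x hx y hy hxy
        rw [mem_insert] at hx hy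
        rcases hx with rfl | hx
        · rcases hy with rfl | hy
          · exact absurd rfl hxy
          · exact fun hcf => hncv y hy (hsymm _ _ hcf)
        · rcases hy with rfl | hy
          · exact hncv x hx
          · exact h x hx y hy hxy
      refine (ih _ h').trans (le_of_eq ?_)
      rw [card_insert_of_notMem hvA, pow_succ, hX]
      push_cast
      ring
    have h3 : ∑ v : T, S bad E0 a (insert v A) =
        ∑ v ∈ univ \ C, S bad E0 a (insert v A) + ∑ v ∈ C, S bad E0 a (insert v A) :=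
      (sum_sdiff (subset_univ C)).symm
    rw [h3]
    have h4 : ∑ v ∈ univ \ C, S bad E0 a (insert v A) ≤
        Fintype.card T * (c * p ^ A.card * X ^ a * p) := by
      refine (sum_le_card_nsmul _ _ _ h2).trans ?_
      rw [nsmul_eq_mul]
      refine mul_le_mul_of_nonneg_right ?_ (by positivity)
      exact_mod_cast card_le_univ (univ \ C)
    have h5 : ∑ v ∈ C, S bad E0 a (insert v A) ≤ (A.card * K) * (c * p ^ A.card * X ^ a) := by
      refine (sum_le_card_nsmul _ _ _ h1).trans ?_
      rw [nsmul_eq_mul]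
      exact mul_le_mul_of_nonneg_right hCc hb0
    have h6 : Fintype.card T * p + A.card * K ≤ X := by
      rw [hX]
      push_cast
      nlinarith
    calc _ ≤ Fintype.card T * (c * p ^ A.card * X ^ a * p) +
          (A.card * K) * (c * p ^ A.card * X ^ a) := add_le_add h4 h5
      _ = (c * p ^ A.card * X ^ a) * (Fintype.card T * p + A.card * K) := by ring
      _ ≤ (c * p ^ A.card * X ^ a) * X := mul_le_mul_of_nonneg_left h6 hb0
      _ = c * p ^ A.card * X ^ (a + 1) := by ring

end M4

/-- **M4.** The abstract moment lemma. -/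
theorem moment {Ω T : Type*} [Fintype Ω] [Fintype T] (bad : T → Ω → Prop) (E0 : Ω → Prop)
    (conf : T → T → Prop) (hrefl : ∀ v, conf v v) (hsymm : ∀ v w, conf v w → conf w v)
    (K : ℕ) (hK : ∀ v, (univ.filter fun w => conf v w).card ≤ K)
    (c p : ℝ) (hc : 0 ≤ c) (hp : 0 ≤ p)
    (hA : ∀ A : Finset T, (∀ v ∈ A, ∀ w ∈ A, v ≠ w → ¬ conf v w) →
      ((univ.filter fun ω => E0 ω ∧ ∀ v ∈ A, bad v ω).card : ℝ) ≤ c * p ^ A.card)
    (a : ℕ) (θ : ℝ) (hθ : 0 < θ) :
    ((univ.filter fun ω => E0 ω ∧ θ ≤ ((univ.filter fun v => bad v ω).card : ℝ)).card : ℝ) ≤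
      c * ((Fintype.card T * p + a * K) / θ) ^ a := by
  have h := M4.bound hrefl hsymm K hK c p hc hp hA a ∅ (by simp)
  simp only [card_empty, pow_zero, mul_one, CharP.cast_eq_zero, zero_add] at h
  have h1 : ((univ.filter fun ω => E0 ω ∧
      θ ≤ ((univ.filter fun v => bad v ω).card : ℝ)).card : ℝ) * θ ^ a ≤ M4.S bad E0 a ∅ := by
    unfold M4.S
    rw [← nsmul_eq_mul, ← sum_const]
    have hsub : (univ.filter fun ω => E0 ω ∧ θ ≤ ((univ.filter fun v => bad v ω).card : ℝ)) ⊆
        univ.filter (fun ω => E0 ω ∧ ∀ v ∈ (∅ : Finset T), bad v ω) := by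
      intro ω hω
      rw [mem_filter] at hω ⊢
      exact ⟨hω.1, hω.2.1, fun v hv => absurd hv (notMem_empty v)⟩
    refine le_trans (sum_le_sum (fun ω hω => ?_))
      (sum_le_sum_of_subset_of_nonneg hsub (fun _ _ _ => by positivity))
    rw [mem_filter] at hω
    exact pow_le_pow_left₀ hθ.le hω.2.2 a
  rw [div_pow, ← mul_div_assoc, le_div_iff₀ (pow_pos hθ a)]
  exact h1.trans h

end Pool.H15.Univ
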