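import Mathlib

/-!
# UNIV, module M2: symmetric local lemma by Rosenfeld counting
-/

set_option autoImplicit false
open Classical Finset

namespace Pool.H15.Univ

namespace M2

variable {ι E : Type*} [Fintype ι] [DecidableEq ι] [Fintype E] {r : ℕ}

/-- The number of assignments which are good for every constraint inside `S`. -/
noncomputable def P (vars : E → Finset ι) (bad : E → (ι → Fin r) → Prop) (S : Finset ι) : ℕ :=
  (univ.filter fun f : ι → Fin r => ∀ e, vars e ⊆ S → ¬ bad e f).card

/-- Independence of events depending on disjoint sets of coordinates. -/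
theorem indep (S : Finset ι) (a b : (ι → Fin r) → Prop)
    (ha : ∀ f g : ι → Fin r, (∀ i ∈ S, f i = g i) → a f → a g)
    (hb : ∀ f g : ι → Fin r, (∀ i, i ∉ S → f i = g i) → b f → b g) :
    (univ.filter fun f => a f ∧ b f).card * r ^ Fintype.card ι =
      (univ.filter fun f => a f).card * (univ.filter fun f => b f).card := by
  have hc : r ^ Fintype.card ι = (univ : Finset (ι → Fin r)).card := by
    rw [card_univ, Fintype.card_fun, Fintype.card_fin]
  rw [hc, ← card_product, ← card_product]
  refine card_bij' (fun p _ => (fun i => if i ∈ S then p.1 i else p.2 i,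
      fun i => if i ∈ S then p.2 i else p.1 i))
    (fun p _ => (fun i => if i ∈ S then p.1 i else p.2 i,
      fun i => if i ∈ S then p.2 i else p.1 i)) ?_ ?_ ?_ ?_
  · rintro ⟨f, g⟩ h
    simp only [mem_product, mem_filter, mem_univ, true_and, and_true] at h ⊢
    refine ⟨ha f _ (fun i hi => by simp [hi]) h.1, hb f _ (fun i hi => by simp [hi]) h.2⟩
  · rintro ⟨f, g⟩ h
    simp only [mem_product, mem_filter, mem_univ, true_and, and_true] at h ⊢
    refine ⟨ha f _ (fun i hi => by simp [hi]) h.1, hb g _ (fun i hi => by simp [hi]) h.2⟩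
  · rintro ⟨f, g⟩ _
    simp only [Prod.mk.injEq]
    constructor
    · funext i
      by_cases hi : i ∈ S <;> simp [hi]
    · funext i
      by_cases hi : i ∈ S <;> simp [hi]
  · rintro ⟨f, g⟩ _
    simp only [Prod.mk.injEq]
    constructor
    · funext i
      by_cases hi : i ∈ S <;> simp [hi]
    · funext i
      by_cases hi : i ∈ S <;> simp [hi]

theorem pow_three {R : ℕ} (hR : 0 < R) : (R + 1) ^ R ≤ 3 * R ^ R := by
  have hR' : (0:ℝ) < R := by exact_mod_cast hR
  have h1 : (1 + 1 / (R:ℝ)) ^ R ≤ 3 := by
    have h2 : 1 + 1 / (R:ℝ) ≤ Real.exp (1 / R) := by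
      have := Real.add_one_le_exp (1 / (R:ℝ))
      linarith
    calc (1 + 1 / (R:ℝ)) ^ R ≤ (Real.exp (1 / R)) ^ R :=
          pow_le_pow_left₀ (by positivity) h2 R
      _ = Real.exp 1 := by
          rw [← Real.exp_nat_mul]
          congr 1
          field_simp
      _ ≤ 3 := by
          have := Real.exp_one_lt_d9
          linarith
  have h3 : ((R:ℝ) + 1) ^ R ≤ 3 * (R:ℝ) ^ R := by
    have h4 : (R:ℝ) + 1 = R * (1 + 1 / (R:ℝ)) := by
      field_simp
    rw [h4, mul_pow]
    have := pow_pos hR' R
    nlinarith
  exact_mod_cast h3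

variable {vars : E → Finset ι} {bad : E → (ι → Fin r) → Prop} {R m : ℕ}

/-- Removing `T` from `S` changes the count by a bounded factor. -/
theorem remove (N : ℕ) (hcl : ∀ S : Finset ι, S.card < N → ∀ v, v ∉ S →
      R * P vars bad S ≤ (R + 1) * P vars bad (insert v S)) :
    ∀ (T S : Finset ι), Disjoint T S → (S ∪ T).card ≤ N →
      R ^ T.card * P vars bad S ≤ (R + 1) ^ T.card * P vars bad (S ∪ T) := by
  intro T
  induction T using Finset.induction_on with
  | empty =>
    intro S _ _
    simp
  | insert v T hv ih =>
    intro S hd hN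
    rw [disjoint_insert_left] at hd
    have hvST : v ∉ S ∪ T := by
      rw [mem_union]
      tauto
    have e1 : S ∪ insert v T = insert v (S ∪ T) := by
      rw [union_insert]
    rw [e1] at hN ⊢
    rw [card_insert_of_notMem hvST] at hN
    have h1 := ih S hd.2 (by omega)
    have h2 := hcl (S ∪ T) (by omega) v hvST
    rw [card_insert_of_notMem hv, pow_succ, pow_succ]
    calc R ^ T.card * R * P vars bad S = R * (R ^ T.card * P vars bad S) := by ring
      _ ≤ R * ((R + 1) ^ T.card * P vars bad (S ∪ T)) := Nat.mul_le_mul_left _ h1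
      _ = (R + 1) ^ T.card * (R * P vars bad (S ∪ T)) := by ring
      _ ≤ (R + 1) ^ T.card * ((R + 1) * P vars bad (insert v (S ∪ T))) :=
          Nat.mul_le_mul_left _ h2
      _ = _ := by ring

theorem remove_three (hR : 0 < R) (N : ℕ) (hcl : ∀ S : Finset ι, S.card < N → ∀ v, v ∉ S →
      R * P vars bad S ≤ (R + 1) * P vars bad (insert v S)) (S T : Finset ι) (hS : S.card ≤ N)
      (hT : (S ∩ T).card ≤ R) : P vars bad (S \ T) ≤ 3 * P vars bad S := by
  have h := remove N hcl (S ∩ T) (S \ T) (by
    rw [disjoint_comm]
    exact disjoint_sdiff_inter S T) (by rwa [sdiff_union_inter])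
  rw [sdiff_union_inter] at h
  set j := (S ∩ T).card
  have h1 : R ^ R * P vars bad (S \ T) ≤ (R + 1) ^ R * P vars bad S := by
    have e1 : R = (R - j) + j := by omega
    calc R ^ R * P vars bad (S \ T) = R ^ (R - j) * (R ^ j * P vars bad (S \ T)) := by
          rw [← mul_assoc, ← pow_add, ← e1]
      _ ≤ (R + 1) ^ (R - j) * ((R + 1) ^ j * P vars bad S) :=
          Nat.mul_le_mul (Nat.pow_le_pow_left (by omega) _) h
      _ = (R + 1) ^ R * P vars bad S := by
          rw [← mul_assoc, ← pow_add, ← e1]
  have h2 : R ^ R * P vars bad (S \ T) ≤ R ^ R * (3 * P vars bad S) := by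
    calc R ^ R * P vars bad (S \ T) ≤ (R + 1) ^ R * P vars bad S := h1
      _ ≤ (3 * R ^ R) * P vars bad S := Nat.mul_le_mul_right _ (pow_three hR)
      _ = R ^ R * (3 * P vars bad S) := by ring
  exact Nat.le_of_mul_le_mul_left h2 (pow_pos hR R)

theorem claim (hr : 0 < r) (hR : 0 < R) (hm : 0 < m)
    (hdep : ∀ e f g, (∀ i ∈ vars e, f i = g i) → bad e f → bad e g)
    (hcard : ∀ e, (vars e).card ≤ R + 1)
    (hdeg : ∀ i, (univ.filter fun e => i ∈ vars e).card ≤ m)
    (hP : ∀ e, 3 * (R + 1) * m * (univ.filter fun f : ι → Fin r => bad e f).card ≤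
      r ^ Fintype.card ι) (N : ℕ) :
    ∀ S : Finset ι, S.card < N → ∀ v, v ∉ S →
      R * P vars bad S ≤ (R + 1) * P vars bad (insert v S) := by
  induction N with
  | zero => intro S hS; omega
  | succ N ih =>
    intro S hS v hv
    -- the constraints through `v` which become active
    set Ev := univ.filter fun e => v ∈ vars e ∧ vars e ⊆ insert v S with hEv
    have hEvm : Ev.card ≤ m := by
      refine (card_le_card ?_).trans (hdeg v)
      intro e he
      rw [hEv, mem_filter] at he
      rw [mem_filter]
      exact ⟨mem_univ _, he.2.1⟩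
    have hone : ∀ e ∈ Ev, (R + 1) * m *
        (univ.filter fun f : ι → Fin r => (∀ e', vars e' ⊆ S \ vars e → ¬ bad e' f) ∧
          bad e f).card ≤ P vars bad S := by
      intro e he
      rw [hEv, mem_filter] at he
      have hind := indep (r := r) (S \ vars e)
        (fun f => ∀ e', vars e' ⊆ S \ vars e → ¬ bad e' f) (fun f => bad e f)
        (fun f g hfg hf e' he' hb => hf e' he'
          (hdep e' g f (fun i hi => (hfg i (he' hi)).symm) hb))
        (fun f g hfg hf => hdep e f g (fun i hi => hfg i (fun h => by
          rw [mem_sdiff] at h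
          exact h.2 hi)) hf)
      have hST : (S ∩ vars e).card ≤ R := by
        have h1 : insert v (S ∩ vars e) ⊆ vars e := by
          intro i hi
          rw [mem_insert] at hi
          rcases hi with rfl | hi
          · exact he.2.1
          · exact (mem_inter.mp hi).2
        have h2 := card_le_card h1
        rw [card_insert_of_notMem (fun h => hv (mem_inter.mp h).1)] at h2
        have := hcard e
        omega
      have h3 : P vars bad (S \ vars e) ≤ 3 * P vars bad S :=
        remove_three hR N ih S (vars e) (by omega) hST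
      set x := (univ.filter fun f : ι → Fin r => (∀ e', vars e' ⊆ S \ vars e → ¬ bad e' f) ∧
          bad e f).card
      set q := (univ.filter fun f : ι → Fin r => bad e f).card with hq
      have hind' : x * r ^ Fintype.card ι = P vars bad (S \ vars e) * q := by
        unfold P
        convert hind using 2
        · simp only [x]
          congr!
        · congr!
      have hrn : 0 < r ^ Fintype.card ι := pow_pos hr _
      have h4 : ((R + 1) * m * x) * r ^ Fintype.card ι ≤ P vars bad S * r ^ Fintype.card ι := by
        calc ((R + 1) * m * x) * r ^ Fintype.card ι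
            = (R + 1) * m * (P vars bad (S \ vars e) * q) := by rw [← hind']; ring
          _ ≤ (R + 1) * m * ((3 * P vars bad S) * q) :=
              Nat.mul_le_mul_left _ (Nat.mul_le_mul_right _ h3)
          _ = P vars bad S * (3 * (R + 1) * m * q) := by ring
          _ ≤ P vars bad S * r ^ Fintype.card ι := Nat.mul_le_mul_left _ (hP e)
      exact Nat.le_of_mul_le_mul_right h4 hrn
    have hsub : (univ.filter fun f : ι → Fin r => ∀ e, vars e ⊆ S → ¬ bad e f) ⊆
        (univ.filter fun f : ι → Fin r => ∀ e, vars e ⊆ insert v S → ¬ bad e f) ∪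
        Ev.biUnion (fun e => univ.filter fun f : ι → Fin r =>
          (∀ e', vars e' ⊆ S \ vars e → ¬ bad e' f) ∧ bad e f) := by
      intro f hf
      rw [mem_filter] at hf
      by_cases hall : ∀ e, vars e ⊆ insert v S → ¬ bad e f
      · rw [mem_union, mem_filter]
        exact Or.inl ⟨mem_univ _, hall⟩
      · push Not at hall
        obtain ⟨e, he, hbe⟩ := hall
        rw [mem_union, mem_biUnion]
        right
        refine ⟨e, ?_, ?_⟩
        · rw [hEv, mem_filter]
          refine ⟨mem_univ _, ?_, he⟩
          by_contra hve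
          exact hf.2 e (fun i hi => by
            rcases mem_insert.mp (he hi) with h | h
            · exact absurd (h ▸ hi) hve
            · exact h) hbe
        · rw [mem_filter]
          exact ⟨mem_univ _, fun e' he' => hf.2 e' (he'.trans sdiff_subset), hbe⟩
    have hle : P vars bad S ≤ P vars bad (insert v S) +
        ∑ e ∈ Ev, (univ.filter fun f : ι → Fin r =>
          (∀ e', vars e' ⊆ S \ vars e → ¬ bad e' f) ∧ bad e f).card :=
      (card_le_card hsub).trans ((card_union_le _ _).trans
        (Nat.add_le_add_left card_biUnion_le _))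
    have hsum : (R + 1) * m * ∑ e ∈ Ev, (univ.filter fun f : ι → Fin r =>
          (∀ e', vars e' ⊆ S \ vars e → ¬ bad e' f) ∧ bad e f).card ≤ m * P vars bad S := by
      rw [mul_sum]
      refine (sum_le_card_nsmul _ _ _ hone).trans ?_
      rw [smul_eq_mul]
      exact Nat.mul_le_mul_right _ hEvm
    have hsum' : (R + 1) * ∑ e ∈ Ev, (univ.filter fun f : ι → Fin r =>
          (∀ e', vars e' ⊆ S \ vars e → ¬ bad e' f) ∧ bad e f).card ≤ P vars bad S := by
      refine Nat.le_of_mul_le_mul_left ?_ hm
      calc m * ((R + 1) * _) = (R + 1) * m * _ := by ring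
        _ ≤ _ := hsum
    have h5 := Nat.mul_le_mul_left (R + 1) hle
    rw [mul_add] at h5
    have h6 : (R + 1) * P vars bad S = R * P vars bad S + P vars bad S := by ring
    omega

end M2

open M2 in
/-- **M2.** Symmetric local lemma for finitely many uniform variables. -/
theorem local_lemma {ι E : Type*} [Fintype ι] [DecidableEq ι] [Fintype E] {r R m : ℕ}
    (hr : 0 < r) (hR : 0 < R) (hm : 0 < m)
    (vars : E → Finset ι) (bad : E → (ι → Fin r) → Prop)
    (hdep : ∀ e f g, (∀ i ∈ vars e, f i = g i) → bad e f → bad e g)
    (hcard : ∀ e, (vars e).card ≤ R + 1)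
    (hdeg : ∀ i, (univ.filter fun e => i ∈ vars e).card ≤ m)
    (hP : ∀ e, 3 * (R + 1) * m * (univ.filter fun f : ι → Fin r => bad e f).card ≤
      r ^ Fintype.card ι) :
    ∃ f : ι → Fin r, ∀ e, ¬ bad e f := by
  have hpos : ∀ S : Finset ι, 0 < P vars bad S := by
    intro S
    induction S using Finset.induction_on with
    | empty =>
      have hrn : 0 < r ^ Fintype.card ι := pow_pos hr _
      have hall : (univ.filter fun f : ι → Fin r => ∀ e, vars e ⊆ ∅ → ¬ bad e f) = univ := by
        rw [filter_eq_self]
        intro f _ e he hb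
        rw [subset_empty] at he
        have hfull : (univ.filter fun f : ι → Fin r => bad e f) = univ := by
          rw [filter_eq_self]
          intro g _
          exact hdep e f g (fun i hi => by rw [he] at hi; exact absurd hi (notMem_empty i)) hb
        have h1 := hP e
        rw [hfull, card_univ, Fintype.card_fun, Fintype.card_fin] at h1
        have h2 : 1 < 3 * (R + 1) * m := by
          have : 0 < (R + 1) * m := Nat.mul_pos (by omega) hm
          rw [mul_assoc]
          omega
        have h3 : r ^ Fintype.card ι < 3 * (R + 1) * m * r ^ Fintype.card ι := by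
          calc r ^ Fintype.card ι = 1 * r ^ Fintype.card ι := (one_mul _).symm
            _ < _ := Nat.mul_lt_mul_of_pos_right h2 hrn
        omega
      unfold P
      rw [hall, card_univ, Fintype.card_fun, Fintype.card_fin]
      exact hrn
    | insert v S hv ih =>
      have h := claim hr hR hm hdep hcard hdeg hP (S.card + 1) S (Nat.lt_succ_self _) v hv
      have h1 : 0 < R * P vars bad S := Nat.mul_pos hR ih
      by_contra h0
      have h2 : P vars bad (insert v S) = 0 := by omega
      rw [h2] at h
      omega
  obtain ⟨f, hf⟩ := card_pos.mp (hpos univ)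
  rw [mem_filter] at hf
  exact ⟨f, fun e => hf.2 e (subset_univ _)⟩

end Pool.H15.Univ
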