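import Mathlib

/-!
# Approximate fixed points give trichromatic cells
-/

set_option autoImplicit false

namespace Pool.Agent.H74.PPAD

open Finset

/-- total weight of a colour -/
noncomputable def wsum (Wx Wy : Bool → ℝ) (κ : Bool → Bool → ℕ) (c : ℕ) : ℝ :=
  ∑ a, ∑ b, if c = κ a b then min (Wx a) (Wy b) else 0

lemma wsum_nonneg {Wx Wy : Bool → ℝ} (κ : Bool → Bool → ℕ) (c : ℕ) (hx : ∀ a, 0 ≤ Wx a)
    (hy : ∀ a, 0 ≤ Wy a) : 0 ≤ wsum Wx Wy κ c := by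
  refine sum_nonneg fun a _ => sum_nonneg fun b _ => ?_
  split_ifs
  · exact le_min (hx a) (hy b)
  · exact le_rfl

lemma wsum_zero {Wx Wy : Bool → ℝ} (κ : Bool → Bool → ℕ) (c : ℕ) (hx : ∀ a, 0 ≤ Wx a)
    (hy : ∀ a, 0 ≤ Wy a) (h : ∀ a b, 0 < Wx a → 0 < Wy b → κ a b ≠ c) : wsum Wx Wy κ c = 0 := by
  refine sum_eq_zero fun a _ => sum_eq_zero fun b _ => ?_
  split_ifs with hc
  · by_cases h1 : 0 < Wx a
    · by_cases h2 : 0 < Wy b
      · exact absurd hc.symm (h a b h1 h2)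
      · have : Wy b = 0 := le_antisymm (not_lt.1 h2) (hy b)
        rw [this]; exact min_eq_right (hx a)
    · have : Wx a = 0 := le_antisymm (not_lt.1 h1) (hx a)
      rw [this]; exact min_eq_left (hy b)
  · rfl

lemma wsum_total {Wx Wy : Bool → ℝ} (κ : Bool → Bool → ℕ) (hx : ∀ a, 0 ≤ Wx a)
    (hy : ∀ a, 0 ≤ Wy a) (hx1 : ∃ a, 1 ≤ Wx a) (hy1 : ∃ a, 1 ≤ Wy a) (hκ : ∀ a b, κ a b < 3) :
    1 ≤ wsum Wx Wy κ 0 + wsum Wx Wy κ 1 + wsum Wx Wy κ 2 := by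
  obtain ⟨a, ha⟩ := hx1
  obtain ⟨b, hb⟩ := hy1
  have h1 : wsum Wx Wy κ 0 + wsum Wx Wy κ 1 + wsum Wx Wy κ 2 = ∑ a, ∑ b, min (Wx a) (Wy b) := by
    unfold wsum
    rw [← sum_add_distrib, ← sum_add_distrib]
    refine sum_congr rfl fun a _ => ?_
    rw [← sum_add_distrib, ← sum_add_distrib]
    refine sum_congr rfl fun b _ => ?_
    have := hκ a b
    interval_cases κ a b <;> simp
  rw [h1]
  calc (1:ℝ) ≤ min (Wx a) (Wy b) := le_min ha hb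
    _ ≤ ∑ b, min (Wx a) (Wy b) := single_le_sum (f := fun b => min (Wx a) (Wy b))
        (fun b _ => le_min (hx a) (hy b)) (mem_univ b)
    _ ≤ _ := single_le_sum (f := fun a => ∑ b, min (Wx a) (Wy b))
        (fun a _ => sum_nonneg fun b _ => le_min (hx a) (hy b)) (mem_univ a)

/-- one coordinate of an approximate fixed point: the displacement is small -/
lemma disp_small (m : ℕ) (u D ε : ℝ) (hu : 0 ≤ u) (hε0 : 0 ≤ ε) (hε : 2 ^ m * ε ≤ 1 / 8)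
    (hfix : |u - max 0 (min 1 (u + D))| ≤ ε)
    (hl : min (2 ^ m * u) (2 ^ m - 1) ≤ 1 / 8 → 0 ≤ D)
    (hr : min (2 ^ m * u) (2 ^ m - 1) = 2 ^ m - 1 → D ≤ 0) : |D| ≤ ε := by
  have h2m : (1:ℝ) ≤ 2 ^ m := one_le_pow₀ (by norm_num)
  rw [abs_le] at hfix ⊢
  rcases lt_or_ge (u + D) 0 with h | h
  · rw [min_eq_right (by linarith), max_eq_left h.le] at hfix
    have h1 : 2 ^ m * u ≤ 1 / 8 := by nlinarith [hfix.2]
    have := hl ((min_le_left _ _).trans h1)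
    linarith
  · rcases le_or_gt (u + D) 1 with h' | h'
    · rw [min_eq_right h', max_eq_right h] at hfix
      constructor <;> linarith [hfix.1, hfix.2]
    · rw [min_eq_left h'.le, max_eq_right (by norm_num)] at hfix
      have h1 : 2 ^ m - 1 ≤ 2 ^ m * u := by nlinarith [hfix.1]
      have := hr (min_eq_right h1)
      constructor <;> linarith [hfix.1, hfix.2]

theorem analysis2 (m : ℕ) (color : ℕ → ℕ → ℕ) (u₀ u₁ ε : ℝ) (hu₀ : 0 ≤ u₀) (hu₁ : 0 ≤ u₁)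
    (hε0 : 0 ≤ ε) (hε : 2 ^ m * ε ≤ 1 / 8) (Wx Wy : Bool → ℝ) (hx : ∀ a, 0 ≤ Wx a)
    (hy : ∀ a, 0 ≤ Wy a) (hx1 : ∃ a, 1 ≤ Wx a) (hy1 : ∃ a, 1 ≤ Wy a)
    (rx ry : Bool → ℕ) (κ : Bool → Bool → ℕ) (hκ3 : ∀ a b, κ a b < 3)
    (hrx : ∀ a, 0 < Wx a → rx a < 2 ^ m ∧ |min (2 ^ m * u₀) (2 ^ m - 1) - rx a| < 3 / 4)
    (hry : ∀ a, 0 < Wy a → ry a < 2 ^ m ∧ |min (2 ^ m * u₁) (2 ^ m - 1) - ry a| < 3 / 4)
    (hκ : ∀ a b, 0 < Wx a → 0 < Wy b → κ a b = color (rx a) (ry b))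
    (hleft : ∀ y < 2 ^ m, color 0 y ≠ 0) (hright : ∀ y < 2 ^ m, color (2 ^ m - 1) y ≠ 1)
    (hbot : ∀ x < 2 ^ m, color x 0 ≠ 0) (htop : ∀ x < 2 ^ m, color x (2 ^ m - 1) ≠ 2)
    (hfx : |u₀ - max 0 (min 1 (u₀ + (wsum Wx Wy κ 1 - wsum Wx Wy κ 0)))| ≤ ε)
    (hfy : |u₁ - max 0 (min 1 (u₁ + (wsum Wx Wy κ 2 - wsum Wx Wy κ 0)))| ≤ ε) :
    ¬ ∃ c < 3, ∀ a ≤ 1, ∀ b ≤ 1,
      color (⌊min (2 ^ m * u₀) (2 ^ m - 1)⌋₊ + a) (⌊min (2 ^ m * u₁) (2 ^ m - 1)⌋₊ + b) ≠ c := by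
  rintro ⟨c, hc, hmiss⟩
  have h2m : (1:ℝ) ≤ 2 ^ m := one_le_pow₀ (by norm_num)
  have h2n : 1 ≤ 2 ^ m := Nat.one_le_two_pow
  have n0 := wsum_nonneg κ 0 hx hy
  have n1 := wsum_nonneg κ 1 hx hy
  have n2 := wsum_nonneg κ 2 hx hy
  have ht := wsum_total κ hx hy hx1 hy1 hκ3
  -- edges
  have edge0 : ∀ (X : ℝ) (r : ℕ), X ≤ 1 / 8 → |X - r| < 3 / 4 → r = 0 := by
    intro X r h1 h2
    rw [abs_lt] at h2
    have : (r : ℝ) < 1 := by linarith [h2.1]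
    have : r < 1 := by exact_mod_cast this
    omega
  have edge1 : ∀ (X : ℝ) (r : ℕ), X = 2 ^ m - 1 → r < 2 ^ m → |X - r| < 3 / 4 → r = 2 ^ m - 1 := by
    intro X r h1 h3 h2
    rw [abs_lt, h1] at h2
    have : (2:ℝ) ^ m < r + 2 := by linarith [h2.2]
    have : 2 ^ m < r + 2 := by exact_mod_cast this
    omega
  have dx := disp_small m u₀ _ ε hu₀ hε0 hε hfx (fun h => by
    have : wsum Wx Wy κ 0 = 0 := wsum_zero κ 0 hx hy fun a b ha hb => by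
      rw [hκ a b ha hb, edge0 _ _ h (hrx a ha).2]
      exact hleft _ (hry b hb).1
    rw [this]; linarith) (fun h => by
    have : wsum Wx Wy κ 1 = 0 := wsum_zero κ 1 hx hy fun a b ha hb => by
      rw [hκ a b ha hb, edge1 _ _ h (hrx a ha).1 (hrx a ha).2]
      exact hright _ (hry b hb).1
    rw [this]; linarith)
  have dy := disp_small m u₁ _ ε hu₁ hε0 hε hfy (fun h => by
    have : wsum Wx Wy κ 0 = 0 := wsum_zero κ 0 hx hy fun a b ha hb => by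
      rw [hκ a b ha hb, edge0 _ _ h (hry b hb).2]
      exact hbot _ (hrx a ha).1
    rw [this]; linarith) (fun h => by
    have : wsum Wx Wy κ 2 = 0 := wsum_zero κ 2 hx hy fun a b ha hb => by
      rw [hκ a b ha hb, edge1 _ _ h (hry b hb).1 (hry b hb).2]
      exact htop _ (hrx a ha).1
    rw [this]; linarith)
  rw [abs_le] at dx dy
  have hεs : ε ≤ 1 / 8 := by nlinarith
  -- the missing colour
  have corner : ∀ (X : ℝ) (r : ℕ), 0 ≤ X → |X - r| < 3 / 4 → ∃ a ≤ 1, r = ⌊X⌋₊ + a := by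
    intro X r hX h
    rw [abs_lt] at h
    have h1 := Nat.floor_le hX
    have h2 := Nat.lt_floor_add_one X
    have h3 : ⌊X⌋₊ ≤ r := by
      have : (⌊X⌋₊ : ℝ) < r + 1 := by linarith
      have : ⌊X⌋₊ < r + 1 := by exact_mod_cast this
      omega
    have h4 : r ≤ ⌊X⌋₊ + 1 := by
      have : (r : ℝ) < ⌊X⌋₊ + 2 := by linarith
      have : r < ⌊X⌋₊ + 2 := by exact_mod_cast this
      omega
    exact ⟨r - ⌊X⌋₊, by omega, by omega⟩
  have hX0 : 0 ≤ min (2 ^ m * u₀) (2 ^ m - 1) := le_min (by positivity) (by linarith)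
  have hY0 : 0 ≤ min (2 ^ m * u₁) (2 ^ m - 1) := le_min (by positivity) (by linarith)
  have hz : wsum Wx Wy κ c = 0 := wsum_zero κ c hx hy fun a b ha hb => by
    rw [hκ a b ha hb]
    obtain ⟨a', ha', e1⟩ := corner _ _ hX0 (hrx a ha).2
    obtain ⟨b', hb', e2⟩ := corner _ _ hY0 (hry b hb).2
    rw [e1, e2]
    exact hmiss a' ha' b' hb'
  interval_cases c <;> linarith [dx.1, dx.2, dy.1, dy.2]

end Pool.Agent.H74.PPAD
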