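import Pool.Agent.H74.PPADDec

/-!
# Circuits with AND, OR and NOT gates
-/

set_option autoImplicit false

namespace Pool.Agent.H74.PPAD

open TMLib N487b59b3

/-- value of a gate: `(0, i, j)` is `i AND j`, `(1, i, j)` is `i OR j`, else `NOT i` -/
def aval (w : List Bool) (g : ℕ × ℕ × ℕ) : Bool :=
  if g.1 = 0 then w.getD g.2.1 false && w.getD g.2.2 false
  else if g.1 = 1 then w.getD g.2.1 false || w.getD g.2.2 false
  else !(w.getD g.2.1 false)

/-- append the value of a gate -/
def astep (w : List Bool) (g : ℕ × ℕ × ℕ) : List Bool := w ++ [aval w g]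

/-- values of all wires -/
def evA (gs : List (ℕ × ℕ × ℕ)) (w : List Bool) : List Bool := gs.foldl astep w

/-- circuits: gates and output wires -/
abbrev ACirc := List (ℕ × ℕ × ℕ) × List ℕ

/-- outputs -/
def runA (C : ACirc) (v : List Bool) : List Bool := C.2.map fun i => (evA C.1 v).getD i false

/-- well-formed circuits with `n` inputs and `n` outputs -/
def wfA (n : ℕ) (C : ACirc) : Prop := C.2.length = n ∧ (∀ i ∈ C.2, i < n + C.1.length) ∧
  ∀ k < C.1.length, (C.1.getD k (0, 0, 0)).2.1 < n + k ∧ (C.1.getD k (0, 0, 0)).2.2 < n + k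

/-- renumbering -/
def ren (n i : ℕ) : ℕ := if i < n then i else n + 3 * (i - n) + 2

lemma ren_lt {n i k : ℕ} (h : i < n + k) : ren n i < n + 3 * k := by
  unfold ren; split_ifs <;> omega

/-- three NOR gates for one gate -/
def blk3 (n k : ℕ) (g : ℕ × ℕ × ℕ) : Gates :=
  if g.1 = 0 then [(ren n g.2.1, ren n g.2.1), (ren n g.2.2, ren n g.2.2),
    (n + 3 * k, n + 3 * k + 1)]
  else if g.1 = 1 then [(ren n g.2.1, ren n g.2.2), (ren n g.2.1, ren n g.2.2),
    (n + 3 * k, n + 3 * k)]
  else [(ren n g.2.1, ren n g.2.1), (n + 3 * k, n + 3 * k), (n + 3 * k + 1, n + 3 * k + 1)]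

lemma length_blk3 (n k : ℕ) (g : ℕ × ℕ × ℕ) : (blk3 n k g).length = 3 := by
  unfold blk3; split_ifs <;> rfl

/-- NOR gates -/
def norG (n : ℕ) (gs : List (ℕ × ℕ × ℕ)) : Gates :=
  (List.range gs.length).flatMap fun k => blk3 n k (gs.getD k (0, 0, 0))

lemma norG_concat (n : ℕ) (gs : List (ℕ × ℕ × ℕ)) (g : ℕ × ℕ × ℕ) :
    norG n (gs ++ [g]) = norG n gs ++ blk3 n gs.length g := by
  unfold norG
  rw [List.length_append, List.length_singleton, List.range_succ, List.flatMap_append]
  congr 1
  · rw [List.flatMap_def, List.flatMap_def]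
    congr 1
    refine List.map_congr_left fun k hk => ?_
    rw [List.mem_range] at hk
    rw [List.getD_append _ _ _ _ hk]
  · simp [List.getD_eq_getElem?_getD]

@[simp] lemma length_norG (n : ℕ) (gs : List (ℕ × ℕ × ℕ)) : (norG n gs).length = 3 * gs.length := by
  induction gs using List.reverseRecOn with
  | nil => rfl
  | append_singleton gs g ih => rw [norG_concat]; simp [length_blk3, ih]; omega

lemma length_evA (gs : List (ℕ × ℕ × ℕ)) (w : List Bool) :
    (evA gs w).length = w.length + gs.length := by
  induction gs using List.reverseRecOn with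
  | nil => rfl
  | append_singleton gs g ih =>
    have : evA (gs ++ [g]) w = astep (evA gs w) g := by simp [evA]
    rw [this]; simp [astep, ih]; omega

lemma evG_three (W : List Bool) (g₁ g₂ g₃ : ℕ × ℕ) : evG [g₁, g₂, g₃] W =
    W ++ [!(W.getD g₁.1 false || W.getD g₁.2 false),
      !((W ++ [!(W.getD g₁.1 false || W.getD g₁.2 false)]).getD g₂.1 false ||
        (W ++ [!(W.getD g₁.1 false || W.getD g₁.2 false)]).getD g₂.2 false),
      !((W ++ [!(W.getD g₁.1 false || W.getD g₁.2 false),
      !((W ++ [!(W.getD g₁.1 false || W.getD g₁.2 false)]).getD g₂.1 false ||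
        (W ++ [!(W.getD g₁.1 false || W.getD g₁.2 false)]).getD g₂.2 false)]).getD g₃.1 false ||
        (W ++ [!(W.getD g₁.1 false || W.getD g₁.2 false),
      !((W ++ [!(W.getD g₁.1 false || W.getD g₁.2 false)]).getD g₂.1 false ||
        (W ++ [!(W.getD g₁.1 false || W.getD g₁.2 false)]).getD g₂.2 false)]).getD g₃.2 false)] := by
  simp [evG, nstep]

lemma getD_at (W : List Bool) (l : List Bool) (i j : ℕ) (h : i = W.length + j) :
    (W ++ l).getD i false = l.getD j false := by
  subst h
  rw [List.getD_append_right _ _ _ _ (by omega)]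
  congr 1; omega

lemma evG_norG (n : ℕ) (v : List Bool) (hv : v.length = n) (gs : List (ℕ × ℕ × ℕ)) :
    (∀ k < gs.length, (gs.getD k (0, 0, 0)).2.1 < n + k ∧ (gs.getD k (0, 0, 0)).2.2 < n + k) →
    ∀ i < n + gs.length, (evG (norG n gs) v).getD (ren n i) false = (evA gs v).getD i false := by
  induction gs using List.reverseRecOn with
  | nil =>
    intro _ i hi
    simp only [List.length_nil, Nat.add_zero] at hi
    simp [norG, evA, ren, hi]
  | append_singleton gs g ih =>
    intro hwf i hi
    have hwf' : ∀ k < gs.length, (gs.getD k (0, 0, 0)).2.1 < n + k ∧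
        (gs.getD k (0, 0, 0)).2.2 < n + k := by
      intro k hk
      have := hwf k (by simp; omega)
      rwa [List.getD_append _ _ _ _ hk] at this
    have hg : g.2.1 < n + gs.length ∧ g.2.2 < n + gs.length := by
      have := hwf gs.length (by simp)
      simpa [List.getD_eq_getElem?_getD] using this
    have ih' := ih hwf'
    have e1 : evA (gs ++ [g]) v = astep (evA gs v) g := by simp [evA]
    rw [norG_concat, evG_append, e1]
    set W := evG (norG n gs) v with hW
    have hWl : W.length = n + 3 * gs.length := by rw [hW, length_evG, length_norG, hv]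
    have hAl : (evA gs v).length = n + gs.length := by rw [length_evA, hv]
    obtain ⟨t, ht⟩ := evG_prefix (blk3 n gs.length g) W
    rcases Nat.lt_or_ge i (n + gs.length) with h | h
    · rw [ht, List.getD_append _ _ _ _ (by rw [hWl]; exact ren_lt h), ih' i h]
      unfold astep
      rw [List.getD_append _ _ _ _ (by rw [hAl]; exact h)]
    · have hi' : i = n + gs.length := by simp at hi; omega
      subst hi'
      have er : ren n (n + gs.length) = W.length + 2 := by
        unfold ren; rw [if_neg (by omega), hWl]; omega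
      have ea : W.getD (ren n g.2.1) false = (evA gs v).getD g.2.1 false := ih' _ hg.1
      have eb : W.getD (ren n g.2.2) false = (evA gs v).getD g.2.2 false := ih' _ hg.2
      have la : ren n g.2.1 < W.length := by rw [hWl]; exact ren_lt hg.1
      have lb : ren n g.2.2 < W.length := by rw [hWl]; exact ren_lt hg.2
      unfold astep
      rw [getD_at (evA gs v) _ _ 0 (by rw [hAl]; rfl), er]
      unfold blk3 aval
      split_ifs with h0 h1
      · rw [evG_three, getD_at W _ _ 2 rfl]
        simp only [List.getD_append _ _ _ _ lb, ea, eb,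
          getD_at W _ (n + 3 * gs.length) 0 (by omega),
          getD_at W _ (n + 3 * gs.length + 1) 1 (by omega)]
        simp
      · rw [evG_three, getD_at W _ _ 2 rfl]
        simp only [List.getD_append _ _ _ _ la, List.getD_append _ _ _ _ lb, ea, eb,
          getD_at W _ (n + 3 * gs.length) 0 (by omega)]
        simp
      · rw [evG_three, getD_at W _ _ 2 rfl]
        simp only [ea,
          getD_at W _ (n + 3 * gs.length) 0 (by omega),
          getD_at W _ (n + 3 * gs.length + 1) 1 (by omega)]
        simp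

/-- NOR circuit -/
def norC (n : ℕ) (C : ACirc) : Circ := (norG n C.1, C.2.map (ren n))

lemma evC_norC {n : ℕ} {C : ACirc} (h : wfA n C) {v : List Bool} (hv : v.length = n) :
    evC (norC n C) v = runA C v := by
  unfold evC norC runA
  rw [List.map_map]
  refine List.map_congr_left fun i hi => ?_
  exact evG_norG n v hv C.1 h.2.2 i (h.2.1 i hi)

lemma okOut_norC {n : ℕ} {C : ACirc} (h : wfA n C) : okOut n (norC n C) := by
  intro i hi
  unfold norC at *
  simp only [List.mem_map] at hi
  obtain ⟨j, hj, rfl⟩ := hi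
  rw [length_norG]
  exact ren_lt (h.2.1 j hj)

/-- numbers of wires are capped -/
def capC (n : ℕ) (C : ACirc) : ACirc :=
  (C.1.map fun g => (min 2 g.1, min (n + C.1.length) g.2.1, min (n + C.1.length) g.2.2),
    C.2.map fun i => min (n + C.1.length) i)

lemma capC_of_wf {n : ℕ} {C : ACirc} (h : wfA n C) :
    capC n C = (C.1.map fun g => (min 2 g.1, g.2), C.2) := by
  obtain ⟨h1, h2, h3⟩ := h
  unfold capC
  rw [Prod.mk.injEq]
  constructor
  · refine List.map_congr_left fun g hg => ?_
    obtain ⟨k, hk, rfl⟩ := List.mem_iff_getElem.1 hg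
    have := h3 k hk
    rw [List.getD_eq_getElem _ _ hk] at this
    have e1 : min (n + C.1.length) C.1[k].2.1 = C.1[k].2.1 := min_eq_right (by omega)
    have e2 : min (n + C.1.length) C.1[k].2.2 = C.1[k].2.2 := min_eq_right (by omega)
    rw [e1, e2]
  · conv_rhs => rw [← List.map_id C.2]
    refine List.map_congr_left fun i hi => ?_
    have := h2 i hi
    rw [min_eq_right (by omega)]; rfl

lemma wf_capC {n : ℕ} {C : ACirc} (h : wfA n C) : wfA n (capC n C) := by
  rw [capC_of_wf h]
  obtain ⟨h1, h2, h3⟩ := h
  refine ⟨h1, by simpa using h2, fun k hk => ?_⟩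
  simp only [List.length_map] at hk
  have := h3 k hk
  rw [List.getD_eq_getElem _ _ hk] at this
  rw [List.getD_eq_getElem _ _ (by simpa using hk)]
  simpa using this

lemma aval_min (w : List Bool) (g : ℕ × ℕ × ℕ) : aval w (min 2 g.1, g.2) = aval w g := by
  unfold aval
  have h0 : min 2 g.1 = 0 ↔ g.1 = 0 := by omega
  have h1 : min 2 g.1 = 1 ↔ g.1 = 1 := by omega
  simp only [h0, h1]

lemma runA_capC {n : ℕ} {C : ACirc} (h : wfA n C) (v : List Bool) :
    runA (capC n C) v = runA C v := by
  rw [capC_of_wf h]
  unfold runA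
  have : ∀ (gs : List (ℕ × ℕ × ℕ)) (w : List Bool),
      evA (gs.map fun g => (min 2 g.1, g.2)) w = evA gs w := by
    intro gs
    induction gs with
    | nil => intro w; rfl
    | cons g gs ih =>
      intro w
      have e1 : evA (g :: gs) w = evA gs (astep w g) := rfl
      have e2 : evA ((g :: gs).map fun g => (min 2 g.1, g.2)) w =
        evA (gs.map fun g => (min 2 g.1, g.2)) (astep w (min 2 g.1, g.2)) := rfl
      rw [e1, e2, ih]
      congr 1
      unfold astep
      rw [aval_min]
  simp only [this]

lemma length_runA (C : ACirc) (v : List Bool) : (runA C v).length = C.2.length := by simp [runA]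

/-- the NOR circuit of a circuit -/
def toNor (n : ℕ) (C : ACirc) : Circ := norC n (capC n C)

lemma evC_toNor {n : ℕ} {C : ACirc} (h : wfA n C) {v : List Bool} (hv : v.length = n) :
    evC (toNor n C) v = runA C v := by
  unfold toNor
  rw [evC_norC (wf_capC h) hv, runA_capC h]

lemma okOut_toNor {n : ℕ} {C : ACirc} (h : wfA n C) : okOut n (toNor n C) := okOut_norC (wf_capC h)

lemma length_toNor {n : ℕ} (C : ACirc) : (toNor n C).2.length = C.2.length := by
  simp [toNor, norC, capC]

lemma natF_toNor {n : ℕ} {C : ACirc} (h : wfA n C) {v : List Bool} (hv : v.length = n) :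
    natF n (toNor n C) (num v) = num (runA C v) := by
  rw [natF_num _ _ hv, evC_toNor h hv]

section ptime

variable {α : Type} [Enc α]

@[fun_prop] lemma ptime_ren {n i : α → ℕ} (h : PTime n) (h' : PTime i) :
    PTime (fun x => ren (n x) (i x)) := by
  unfold ren; fun_prop

attribute [local irreducible] ren

@[fun_prop] lemma ptime_blk3 {n k : α → ℕ} {g : α → ℕ × ℕ × ℕ} (h : PTime n) (h' : PTime k)
    (h'' : PTime g) : PTime (fun x => blk3 (n x) (k x) (g x)) := by
  unfold blk3; fun_prop

attribute [local irreducible] blk3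

@[fun_prop] lemma ptime_norC {n : α → ℕ} {C : α → ACirc} (h : PTime n) (h' : PTime C) :
    PTime (fun x => norC (n x) (C x)) := by
  unfold norC norG; fun_prop

end ptime

end Pool.Agent.H74.PPAD
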