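import Pool.Agent.H74.PPADCmp
import Pool.Agent.TM.BitEnc

/-!
# Binary arithmetic in polynomial time
-/

set_option autoImplicit false

namespace Pool.Agent.H74.PPAD

open TMLib

/-- carry into position `i` of the sum -/
def carry (a b : List Bool) (i : ℕ) : Bool :=
  (List.range i).foldl (fun c j => (a.getD j false && b.getD j false) ||
    (c && (a.getD j false || b.getD j false))) false

/-- borrow into position `i` of the difference -/
def borrow (a b : List Bool) (i : ℕ) : Bool :=
  (List.range i).foldl (fun c j => if a.getD j false = b.getD j false then c else b.getD j false)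
    false

/-- the `i` lowest bits as a number -/
def low (a : List Bool) (i : ℕ) : ℕ := num (a.take i)

lemma num_take_succ (a : List Bool) (i : ℕ) :
    low a (i + 1) = low a i + 2 ^ i * (a.getD i false).toNat := by
  unfold low
  rcases Nat.lt_or_ge i a.length with h | h
  · rw [take_succ_getD a i h, num_append]
    have : (a.take i).length = i := by simp; omega
    rw [this]
    simp [num]
  · rw [List.take_of_length_le (by omega), List.take_of_length_le h, List.getD_eq_default _ _ h]
    simp

lemma low_lt (a : List Bool) (i : ℕ) : low a i < 2 ^ i := by
  have h := num_lt (a.take i)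
  have h2 : (a.take i).length ≤ i := by simp
  exact lt_of_lt_of_le h (Nat.pow_le_pow_right (by norm_num) h2)

lemma low_all (a : List Bool) (i : ℕ) (h : a.length ≤ i) : low a i = num a := by
  unfold low; rw [List.take_of_length_le h]

lemma carry_spec (a b : List Bool) (i : ℕ) :
    carry a b i = decide (2 ^ i ≤ low a i + low b i) := by
  induction i with
  | zero => simp [carry, low, num]
  | succ i ih =>
    have e : carry a b (i + 1) = ((a.getD i false && b.getD i false) ||
        (carry a b i && (a.getD i false || b.getD i false))) := by
      simp [carry, List.range_succ]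
    rw [e, ih, num_take_succ, num_take_succ]
    have h1 := low_lt a i
    have h2 := low_lt b i
    generalize low a i = x at *
    generalize low b i = y at *
    have hp : 2 ^ (i + 1) = 2 * 2 ^ i := by ring
    rw [hp]
    cases a.getD i false <;> cases b.getD i false <;> simp <;> omega

lemma borrow_spec (a b : List Bool) (i : ℕ) :
    borrow a b i = decide (low a i < low b i) := by
  induction i with
  | zero => simp [borrow, low, num]
  | succ i ih =>
    have e : borrow a b (i + 1) = if a.getD i false = b.getD i false then borrow a b i
        else b.getD i false := by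
      simp [borrow, List.range_succ]
    rw [e, ih, num_take_succ, num_take_succ]
    have h1 := low_lt a i
    have h2 := low_lt b i
    generalize low a i = x at *
    generalize low b i = y at *
    cases a.getD i false <;> cases b.getD i false <;> simp <;> omega

/-- addition -/
def addB (a b : List Bool) : List Bool :=
  (List.range (a.length + b.length + 1)).map fun i =>
    (a.getD i false ^^ b.getD i false) ^^ carry a b i

/-- subtraction -/
def subB (a b : List Bool) : List Bool :=
  (List.range a.length).map fun i => (a.getD i false ^^ b.getD i false) ^^ borrow a b i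

/-- less than -/
def ltB (a b : List Bool) : Bool := borrow a b (a.length + b.length)

lemma ltB_spec (a b : List Bool) : ltB a b = decide (num a < num b) := by
  unfold ltB
  rw [borrow_spec, low_all a _ (by omega), low_all b _ (by omega)]

lemma num_map_range_succ (f : ℕ → Bool) (n : ℕ) :
    num ((List.range (n + 1)).map f) = num ((List.range n).map f) + 2 ^ n * (f n).toNat := by
  rw [List.range_succ, List.map_append, num_append]
  simp [num]

lemma addB_spec (a b : List Bool) : num (addB a b) = num a + num b := by
  have key : ∀ n, num ((List.range n).map fun i => (a.getD i false ^^ b.getD i false) ^^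
      carry a b i) + 2 ^ n * (carry a b n).toNat = low a n + low b n := by
    intro n
    induction n with
    | zero => simp [num, carry, low]
    | succ n ih =>
      rw [num_map_range_succ, num_take_succ, num_take_succ]
      have e : carry a b (n + 1) = ((a.getD n false && b.getD n false) ||
          (carry a b n && (a.getD n false || b.getD n false))) := by
        simp [carry, List.range_succ]
      rw [e]
      generalize num _ = X at *
      generalize carry a b n = c at *
      have hp : 2 ^ (n + 1) = 2 * 2 ^ n := by ring
      rw [hp]
      cases a.getD n false <;> cases b.getD n false <;> cases c <;> simp at * <;> omega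
  have h := key (a.length + b.length + 1)
  have h2 := carry_spec a b (a.length + b.length + 1)
  rw [low_all a _ (by omega), low_all b _ (by omega)] at h h2
  have h3 : ¬ 2 ^ (a.length + b.length + 1) ≤ num a + num b := by
    have := num_lt a
    have := num_lt b
    have e1 : 2 ^ (a.length + b.length + 1) = 2 * 2 ^ (a.length + b.length) := by ring
    have e2 : 2 ^ a.length ≤ 2 ^ (a.length + b.length) :=
      Nat.pow_le_pow_right (by norm_num) (by omega)
    have e3 : 2 ^ b.length ≤ 2 ^ (a.length + b.length) :=
      Nat.pow_le_pow_right (by norm_num) (by omega)
    omega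
  rw [h2] at h
  simp only [h3, decide_false, Bool.toNat_false, Nat.mul_zero, Nat.add_zero] at h
  exact h

lemma subB_spec (a b : List Bool) (hab : num b ≤ num a) : num (subB a b) + num b = num a := by
  have key : ∀ n, num ((List.range n).map fun i => (a.getD i false ^^ b.getD i false) ^^
      borrow a b i) + low b n = low a n + 2 ^ n * (borrow a b n).toNat := by
    intro n
    induction n with
    | zero => simp [num, borrow, low]
    | succ n ih =>
      rw [num_map_range_succ, num_take_succ, num_take_succ]
      have e : borrow a b (n + 1) = if a.getD n false = b.getD n false then borrow a b n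
          else b.getD n false := by
        simp [borrow, List.range_succ]
      rw [e]
      generalize num _ = X at *
      generalize borrow a b n = c at *
      have hp : 2 ^ (n + 1) = 2 * 2 ^ n := by ring
      rw [hp]
      cases a.getD n false <;> cases b.getD n false <;> cases c <;> simp at * <;> omega
  have h := key a.length
  have h2 := borrow_spec a b a.length
  rw [low_all a _ le_rfl] at h h2
  have hb : low b a.length = num b := by
    -- since num b ≤ num a < 2 ^ length a
    have h3 : num b < 2 ^ a.length := lt_of_le_of_lt hab (num_lt a)
    have h4 : num b = low b a.length + 2 ^ a.length * num (b.drop a.length) := by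
      unfold low
      conv_lhs => rw [← List.take_append_drop a.length b, num_append]
      rcases Nat.lt_or_ge a.length b.length with h5 | h5
      · have : (b.take a.length).length = a.length := by simp; omega
        rw [this]
      · rw [List.drop_of_length_le h5]
        simp [num]
    rcases Nat.eq_zero_or_pos (num (b.drop a.length)) with h5 | h5
    · rw [h5] at h4; omega
    · have : 2 ^ a.length * 1 ≤ 2 ^ a.length * num (b.drop a.length) :=
        Nat.mul_le_mul_left _ h5
      omega
  rw [hb] at h h2
  have h3 : ¬ num a < num b := by omega
  rw [h2] at h
  simp only [h3, decide_false, Bool.toNat_false, Nat.mul_zero, Nat.add_zero] at h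
  exact h

/-- multiplication -/
def mulB (a b : List Bool) : List Bool :=
  b.reverse.foldl (fun acc c => addB (false :: acc) (if c then a else [])) []

lemma mulB_spec (a b : List Bool) : num (mulB a b) = num a * num b := by
  have key : ∀ (l : List Bool) (acc : List Bool),
      num (l.foldl (fun acc c => addB (false :: acc) (if c then a else [])) acc) =
        num acc * 2 ^ l.length + num a * num l.reverse := by
    intro l
    induction l with
    | nil => intro acc; simp [num]
    | cons c l ih =>
      intro acc
      rw [List.foldl_cons, ih, addB_spec, List.reverse_cons, num_append]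
      simp only [num, List.length_cons, List.length_reverse]
      cases c <;> simp [num] <;> ring
  unfold mulB
  rw [key]
  simp [num]

/-- one step of the division -/
def divStep (b : List Bool) (s : List Bool × List Bool) : List Bool × List Bool :=
  if ltB (false :: s.1) b = true then (false :: s.1, false :: s.2)
  else (subB (false :: s.1) b, true :: s.2)

/-- the `n` highest bits after the binary point of `a / b` (all bits are 1 if `a ≥ b`) -/
def divB (n : ℕ) (a b : List Bool) : List Bool := ((divStep b)^[n] (a, [])).2

lemma length_divB (n : ℕ) (a b : List Bool) : (divB n a b).length = n := by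
  unfold divB
  induction n with
  | zero => rfl
  | succ n ih =>
    rw [Function.iterate_succ_apply']
    generalize (divStep b)^[n] (a, []) = s at *
    unfold divStep
    split_ifs <;> simp [ih]

lemma divB_spec (n : ℕ) (a b : List Bool) (hb : 0 < num b) :
    num (divB n a b) = min (2 ^ n * num a / num b) (2 ^ n - 1) := by
  have key : ∀ n, ∃ r V, num ((divStep b)^[n] (a, [])).1 = r ∧ num ((divStep b)^[n] (a, [])).2 = V ∧
      2 ^ n * num a = V * num b + r ∧ ((num a < num b → r < num b)) ∧
      (num b ≤ num a → num b ≤ r ∧ V = 2 ^ n - 1) := by
    intro n
    induction n with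
    | zero => exact ⟨num a, 0, rfl, rfl, by simp, fun h => h, fun h => ⟨h, by simp⟩⟩
    | succ n ih =>
      obtain ⟨r, V, h1, h2, h3, h4, h5⟩ := ih
      rw [Function.iterate_succ_apply']
      generalize (divStep b)^[n] (a, []) = s at *
      have e1 : num (false :: s.1) = 2 * r := by simp [num, h1]
      unfold divStep
      rw [ltB_spec, e1]
      have hp : 2 ^ (n + 1) = 2 * 2 ^ n := by ring
      split_ifs with h
      · rw [decide_eq_true_eq] at h
        refine ⟨2 * r, 2 * V, e1, by simp [num, h2], ?_, ?_, ?_⟩
        · rw [hp, Nat.mul_assoc, h3]; ring
        · intro h6; omega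
        · intro h6
          have := (h5 h6).1
          omega
      · rw [decide_eq_true_eq, not_lt] at h
        have hs := subB_spec (false :: s.1) b (by rw [e1]; exact h)
        rw [e1] at hs
        refine ⟨num (subB (false :: s.1) b), 2 * V + 1, rfl, by simp [num, h2]; ring, ?_, ?_, ?_⟩
        · rw [hp, Nat.mul_assoc, h3]
          have : (2 * V + 1) * num b = 2 * (V * num b) + num b := by ring
          rw [this]
          omega
        · intro h6
          have := h4 h6
          omega
        · intro h6
          obtain ⟨h7, h8⟩ := h5 h6
          have := Nat.one_le_two_pow (n := n)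
          refine ⟨by omega, by omega⟩
  obtain ⟨r, V, -, h2, h3, h4, h5⟩ := key n
  have h2' : num (divB n a b) = V := h2
  rw [h2']
  have hp := Nat.one_le_two_pow (n := n)
  rcases Nat.lt_or_ge (num a) (num b) with h | h
  · have h6 := h4 h
    have h7 : 2 ^ n * num a / num b = V := by
      rw [h3, Nat.add_comm, Nat.add_mul_div_right _ _ hb, Nat.div_eq_of_lt h6]; ring
    have h8 : V < 2 ^ n := by
      rw [← h7]
      apply Nat.div_lt_of_lt_mul
      rw [Nat.mul_comm]
      exact Nat.mul_lt_mul_of_pos_right h (by omega)
    rw [h7, min_eq_left (by omega)]
  · obtain ⟨h7, h8⟩ := h5 h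
    have h9 : 2 ^ n ≤ 2 ^ n * num a / num b := by
      rw [Nat.le_div_iff_mul_le hb]
      exact Nat.mul_le_mul_left _ h
    rw [h8, min_eq_right (by omega)]

section ptime

variable {α : Type} [Enc α]

lemma ptime_boolfold {f : α → Bool → ℕ → Bool} {n : α → ℕ}
    (hf : PTime fun p : α × Bool × ℕ => f p.1 p.2.1 p.2.2) (hn : PTime n) :
    PTime (fun x => (List.range (n x)).foldl (f x) false) :=
  PTime.foldl (f := f) (init := fun _ => false) (l := fun x => List.range (n x)) hf (by fun_prop)
    (by fun_prop) (h := fun _ => 3) (PB.const 3) (fun _ _ _ => sz_bool_le _)

@[fun_prop] lemma ptime_carry {a b : α → List Bool} {i : α → ℕ} (h1 : PTime a) (h2 : PTime b)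
    (h3 : PTime i) : PTime (fun x => carry (a x) (b x) (i x)) := by
  unfold carry
  refine ptime_boolfold (f := fun x c j => ((a x).getD j false && (b x).getD j false) ||
    (c && ((a x).getD j false || (b x).getD j false))) ?_ h3
  fun_prop

@[fun_prop] lemma ptime_borrow {a b : α → List Bool} {i : α → ℕ} (h1 : PTime a) (h2 : PTime b)
    (h3 : PTime i) : PTime (fun x => borrow (a x) (b x) (i x)) := by
  unfold borrow
  refine ptime_boolfold (f := fun x c j => if (a x).getD j false = (b x).getD j false then c
    else (b x).getD j false) ?_ h3
  fun_prop

attribute [local irreducible] carry borrow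

lemma xor_eq (a b : Bool) : (a ^^ b) = ((a && !b) || (!a && b)) := by cases a <;> cases b <;> rfl

@[fun_prop] lemma ptime_xor {a b : α → Bool} (h1 : PTime a) (h2 : PTime b) :
    PTime (fun x => (a x ^^ b x)) := by
  simp only [xor_eq]; fun_prop

@[fun_prop] lemma ptime_addB {a b : α → List Bool} (h1 : PTime a) (h2 : PTime b) :
    PTime (fun x => addB (a x) (b x)) := by
  unfold addB; fun_prop

@[fun_prop] lemma ptime_subB {a b : α → List Bool} (h1 : PTime a) (h2 : PTime b) :
    PTime (fun x => subB (a x) (b x)) := by
  unfold subB; fun_prop

@[fun_prop] lemma ptime_ltB {a b : α → List Bool} (h1 : PTime a) (h2 : PTime b) :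
    PTime (fun x => ltB (a x) (b x)) := by
  unfold ltB; fun_prop

lemma sz_bits_le' (l : List Bool) : sz l ≤ 1 + 4 * l.length := by
  induction l with
  | nil => simp
  | cons b l ih => have := sz_bool_le b; simp; omega

lemma length_addB (a b : List Bool) : (addB a b).length = a.length + b.length + 1 := by
  simp [addB]

@[fun_prop] lemma ptime_mulB {a b : α → List Bool} (h1 : PTime a) (h2 : PTime b) :
    PTime (fun x => mulB (a x) (b x)) := by
  unfold mulB
  refine PTime.foldl (f := fun x acc c => addB (false :: acc) (if c = true then a x else []))
    (init := fun _ => ([] : List Bool)) (l := fun x => (b x).reverse) (by fun_prop) (by fun_prop)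
    (by fun_prop) (h := fun x => 1 + 4 * (sz (b x) * (sz (a x) + 2)))
    ((PB.const 1).add ((PB.const 4).mul (h2.pb.mul (h1.pb.add (PB.const 2))))) ?_
  intro x l' hl'
  refine (sz_bits_le' _).trans ?_
  have key : ∀ (l acc : List Bool), (l.foldl (fun acc c => addB (false :: acc)
      (if c = true then a x else [])) acc).length ≤ acc.length + l.length * (sz (a x) + 2) := by
    intro l
    induction l with
    | nil => intro acc; simp
    | cons c l ih =>
      intro acc
      rw [List.foldl_cons]
      refine (ih _).trans ?_
      rw [length_addB, List.length_cons, List.length_cons, Nat.add_mul, Nat.one_mul]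
      have h3 := length_lt_sz (a x)
      have h4 : (if c = true then a x else []).length ≤ (a x).length := by
        split_ifs <;> simp
      omega
  have h3 := key l' []
  have h4 := hl'.length_le
  have h5 := length_lt_sz (b x)
  rw [List.length_reverse] at h4
  have h6 : l'.length * (sz (a x) + 2) ≤ sz (b x) * (sz (a x) + 2) :=
    Nat.mul_le_mul_right _ (by omega)
  simp only [List.length_nil, Nat.zero_add] at h3
  omega

lemma length_divStep (b : List Bool) (s : List Bool × List Bool) :
    (divStep b s).1.length = s.1.length + 1 ∧ (divStep b s).2.length = s.2.length + 1 := by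
  unfold divStep
  split_ifs <;> simp [subB]

attribute [local irreducible] addB subB ltB mulB

@[fun_prop] lemma ptime_divB {n : α → ℕ} {a b : α → List Bool} (h0 : PTime n) (h1 : PTime a)
    (h2 : PTime b) : PTime (fun x => divB (n x) (a x) (b x)) := by
  -- iterate on triples (b, r, out)
  have hstep : PTime (fun s : List Bool × List Bool × List Bool => (s.1, divStep s.1 s.2)) := by
    unfold divStep; fun_prop
  have hit : ∀ (k : ℕ) (b' : List Bool) (s : List Bool × List Bool),
      (fun s : List Bool × List Bool × List Bool => (s.1, divStep s.1 s.2))^[k] (b', s) =
        (b', (divStep b')^[k] s) := by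
    intro k b'
    induction k with
    | zero => intro s; rfl
    | succ k ih => intro s; rw [Function.iterate_succ_apply, ih, Function.iterate_succ_apply]
  have hlen : ∀ (k : ℕ) (b' : List Bool) (s : List Bool × List Bool),
      ((divStep b')^[k] s).1.length = s.1.length + k ∧
      ((divStep b')^[k] s).2.length = s.2.length + k := by
    intro k b' s
    induction k with
    | zero => simp
    | succ k ih =>
      rw [Function.iterate_succ_apply']
      have := length_divStep b' ((divStep b')^[k] s)
      omega
  have := PTime.iter (f := fun s : List Bool × List Bool × List Bool => (s.1, divStep s.1 s.2))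
    (s := fun x => (b x, a x, ([] : List Bool))) (n := n) hstep (by fun_prop) h0
    (h := fun x => 1 + sz (b x) + (1 + (1 + 4 * (sz (a x) + sz (n x))) + (1 + 4 * sz (n x))))
    (((PB.const 1).add h2.pb).add (((PB.const 1).add ((PB.const 1).add ((PB.const 4).mul
      (h1.pb.add h0.pb)))).add ((PB.const 1).add ((PB.const 4).mul h0.pb))))
    (fun x i hi => by
      rw [hit]
      obtain ⟨h3, h4⟩ := hlen i (b x) (a x, [])
      have h5 := sz_bits_le' ((divStep (b x))^[i] (a x, [])).1
      have h6 := sz_bits_le' ((divStep (b x))^[i] (a x, [])).2
      have h7 := length_lt_sz (a x)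
      simp only [sz_pair, sz_nat, List.length_nil] at *
      omega)
  refine (PTime.snd (PTime.snd this)).congr fun x => ?_
  rw [hit]
  rfl

end ptime

end Pool.Agent.H74.PPAD
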