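import Pool.Agent.H74.PPADCoord

/-!
# The two-dimensional instance
-/

set_option autoImplicit false

namespace Pool.Agent.H74.PPAD

/-- `-3` -/
abbrev bm3 : BInt := (true, [true, true])

/-- gates interpolating the colours at one pair of rounded coordinates -/
def blockG (C : Circ) (is : List ℕ) (wx wy s : ℕ) : List RG :=
  (inst C.1 is s).map norR ++
    [gt bz [(wx, b1), (wy, bm1)],
     gt bz [(wx, b1), (s + C.1.length, bm1)],
     gt bz [(s + C.1.length + 1, b1), (reloc is s (C.2.getD 0 0), bm3)],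
     gt bz [(s + C.1.length + 1, b1), (reloc is s (C.2.getD 1 0), bm3)],
     gt bz [(s + C.1.length + 1, b1), (reloc is s (C.2.getD 2 0), bm3)]]

lemma length_blockG (C : Circ) (is : List ℕ) (wx wy s : ℕ) :
    (blockG C is wx wy s).length = C.1.length + 5 := by
  simp [blockG]

section

variable {u₀ u₁ : ℝ}

lemma bval_m3 : bval bm3 = -3 := by simp [bval, num]

/-- values of a product gate -/
lemma RV.prod {gs : List RG} {i j : ℕ} {w f : ℝ} (h : RV u₀ u₁ gs i w) (h' : RV u₀ u₁ gs j f)
    (hij : i ≠ j) : RV u₀ u₁ (gs ++ [gt bz [(i, b1), (j, bm3)]]) gs.length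
      (max 0 (w - 3 * f)) := by
  convert h.two h' hij bz b1 bm3 using 2
  rw [bval_bz, bval_b1, bval_m3]
  push_cast; ring

lemma RV.diff {gs : List RG} {i j : ℕ} {w f : ℝ} (h : RV u₀ u₁ gs i w) (h' : RV u₀ u₁ gs j f)
    (hij : i ≠ j) : RV u₀ u₁ (gs ++ [gt bz [(i, b1), (j, bm1)]]) gs.length
      (max 0 (w - f)) := by
  convert h.two h' hij bz b1 bm1 using 2
  rw [bval_bz, bval_b1, bval_bm1]
  push_cast; ring

lemma blockG_vals {gs : List RG} {is : List ℕ} {wx wy s x y z : ℕ} {a b f0 f1 f2 : ℝ} (G : Gates)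
    (hs : gs.length = s) (ha : RV u₀ u₁ gs wx a) (hb : RV u₀ u₁ gs wy b) (hne : wx ≠ wy)
    (hf0 : RV u₀ u₁ (gs ++ (inst G is s).map norR) (reloc is s x) f0)
    (hf1 : RV u₀ u₁ (gs ++ (inst G is s).map norR) (reloc is s y) f1)
    (hf2 : RV u₀ u₁ (gs ++ (inst G is s).map norR) (reloc is s z) f2) :
    RV u₀ u₁ (gs ++ blockG (G, [x, y, z]) is wx wy s) (s + G.length + 2 + 0)
      (max 0 (min a b - 3 * f0)) ∧
    RV u₀ u₁ (gs ++ blockG (G, [x, y, z]) is wx wy s) (s + G.length + 2 + 1)
      (max 0 (min a b - 3 * f1)) ∧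
    RV u₀ u₁ (gs ++ blockG (G, [x, y, z]) is wx wy s) (s + G.length + 2 + 2)
      (max 0 (min a b - 3 * f2)) := by
  have ha0 := ha.nonneg
  have hb0 := hb.nonneg
  have e : gs ++ blockG (G, [x, y, z]) is wx wy s = gs ++ (inst G is s).map norR ++
      [gt bz [(wx, b1), (wy, bm1)]] ++ [gt bz [(wx, b1), (s + G.length, bm1)]] ++
      [gt bz [(s + G.length + 1, b1), (reloc is s x, bm3)]] ++
      [gt bz [(s + G.length + 1, b1), (reloc is s y, bm3)]] ++
      [gt bz [(s + G.length + 1, b1), (reloc is s z, bm3)]] := by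
    simp [blockG]
  rw [e]
  have l1 : (gs ++ (inst G is s).map norR).length = s + G.length := by simp [hs]
  have ha1 : RV u₀ u₁ (gs ++ (inst G is s).map norR) wx a := ha.append _
  have hb1 : RV u₀ u₁ (gs ++ (inst G is s).map norR) wy b := hb.append _
  generalize gs ++ (inst G is s).map norR = gs1 at *
  have hwx : wx < s := by rw [← hs]; exact ha.1
  have hq := ha1.diff hb1 hne
  rw [l1] at hq
  have l2 : (gs1 ++ [gt bz [(wx, b1), (wy, bm1)]]).length = s + G.length + 1 := by
    rw [List.length_append, l1]; rfl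
  have ha2 := ha1.append [gt bz [(wx, b1), (wy, bm1)]]
  have hf02 := hf0.append [gt bz [(wx, b1), (wy, bm1)]]
  have hf12 := hf1.append [gt bz [(wx, b1), (wy, bm1)]]
  have hf22 := hf2.append [gt bz [(wx, b1), (wy, bm1)]]
  generalize gs1 ++ [gt bz [(wx, b1), (wy, bm1)]] = gs2 at *
  have hw := ha2.diff hq (by omega)
  rw [l2] at hw
  have hwv : max 0 (a - max 0 (a - b)) = min a b := by
    rcases le_total a b with h | h
    · rw [max_eq_left (a := (0:ℝ)) (b := a - b) (by linarith), min_eq_left h,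
        max_eq_right (by linarith)]; ring
    · rw [max_eq_right (a := (0:ℝ)) (b := a - b) (by linarith), min_eq_right h,
        max_eq_right (by linarith)]; ring
  rw [hwv] at hw
  have l3 : (gs2 ++ [gt bz [(wx, b1), (s + G.length, bm1)]]).length = s + G.length + 2 := by
    rw [List.length_append, l2]; rfl
  have hf03 := hf02.append [gt bz [(wx, b1), (s + G.length, bm1)]]
  have hf13 := hf12.append [gt bz [(wx, b1), (s + G.length, bm1)]]
  have hf23 := hf22.append [gt bz [(wx, b1), (s + G.length, bm1)]]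
  generalize gs2 ++ [gt bz [(wx, b1), (s + G.length, bm1)]] = gs3 at *
  have n0 : s + G.length + 1 ≠ reloc is s x := by have := hf0.1; rw [l1] at this; omega
  have n1 : s + G.length + 1 ≠ reloc is s y := by have := hf1.1; rw [l1] at this; omega
  have n2 : s + G.length + 1 ≠ reloc is s z := by have := hf2.1; rw [l1] at this; omega
  have p0 := hw.prod hf03 n0
  rw [l3] at p0
  have l4 : (gs3 ++ [gt bz [(s + G.length + 1, b1), (reloc is s x, bm3)]]).length =
    s + G.length + 3 := by rw [List.length_append, l3]; rfl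
  have hw4 := hw.append [gt bz [(s + G.length + 1, b1), (reloc is s x, bm3)]]
  have hf14 := hf13.append [gt bz [(s + G.length + 1, b1), (reloc is s x, bm3)]]
  have hf24 := hf23.append [gt bz [(s + G.length + 1, b1), (reloc is s x, bm3)]]
  generalize gs3 ++ [gt bz [(s + G.length + 1, b1), (reloc is s x, bm3)]] = gs4 at *
  have p1 := hw4.prod hf14 n1
  rw [l4] at p1
  have l5 : (gs4 ++ [gt bz [(s + G.length + 1, b1), (reloc is s y, bm3)]]).length =
    s + G.length + 4 := by rw [List.length_append, l4]; rfl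
  have hw5 := hw4.append [gt bz [(s + G.length + 1, b1), (reloc is s y, bm3)]]
  have hf25 := hf24.append [gt bz [(s + G.length + 1, b1), (reloc is s y, bm3)]]
  have p0' := p0.append [gt bz [(s + G.length + 1, b1), (reloc is s y, bm3)]]
  generalize gs4 ++ [gt bz [(s + G.length + 1, b1), (reloc is s y, bm3)]] = gs5 at *
  have p2 := hw5.prod hf25 n2
  rw [l5] at p2
  exact ⟨p0'.append _, p1.append _, p2⟩

lemma RVs_three {gs : List RG} {x y z : ℕ} {a b c : ℝ}
    (h : RVs (u₀ := u₀) (u₁ := u₁) gs [x, y, z] [a, b, c]) :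
    RV u₀ u₁ gs x a ∧ RV u₀ u₁ gs y b ∧ RV u₀ u₁ gs z c := by
  obtain ⟨h1, h2⟩ := h
  simp only [List.map_cons, List.map_nil, List.cons.injEq, and_true] at h2
  exact ⟨⟨h1 x (by simp), h2.1⟩, ⟨h1 y (by simp), h2.2.1⟩, ⟨h1 z (by simp), h2.2.2⟩⟩

theorem block_sum {gs : List RG} {is : List ℕ} {wx wy s : ℕ} {a b : ℝ} (C : Circ)
    (hs : gs.length = s) (ha : RV u₀ u₁ gs wx a) (hb : RV u₀ u₁ gs wy b) (hne : wx ≠ wy)
    (ha3 : a ≤ 3) (his : ∀ i ∈ is, i < gs.length)
    (hC : okOut is.length C) (hC3 : C.2.length = 3) (Q : ℕ → Prop)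
    (hQ : 0 < a → 0 < b → ∃ (bs : List Bool) (κ : ℕ), κ < 3 ∧
        RVs (u₀ := u₀) (u₁ := u₁) gs is (bs.map b2r) ∧
        evC C bs = [decide (κ ≠ 0), decide (κ ≠ 1), decide (κ ≠ 2)] ∧ Q κ) :
    ∃ κ < 3, (∀ c < 3, RV u₀ u₁ (gs ++ blockG C is wx wy s)
        (s + C.1.length + 2 + c) (if c = κ then min a b else 0)) ∧
      (0 < a → 0 < b → Q κ) := by
  have ha0 := ha.nonneg
  have hb0 := hb.nonneg
  obtain ⟨G, o⟩ := C
  obtain ⟨x, y, z, rfl⟩ : ∃ x y z, o = [x, y, z] := by
    match o, hC3 with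
    | [x, y, z], _ => exact ⟨x, y, z, rfl⟩
  simp only at *
  have hmin0 : 0 ≤ min a b := le_min ha0 hb0
  have hmin3 : min a b ≤ 3 := (min_le_left _ _).trans ha3
  by_cases hab : 0 < a ∧ 0 < b
  · obtain ⟨bs, κ, hκ, hbs, hev, hq⟩ := hQ hab.1 hab.2
    have hvals := hbs.circ (G, [x, y, z]) hC
    rw [hs, hev] at hvals
    simp only [List.map_cons, List.map_nil] at hvals
    obtain ⟨h0, h1, h2⟩ := RVs_three hvals
    obtain ⟨p0, p1, p2⟩ := blockG_vals G hs ha hb hne h0 h1 h2
    have hval : ∀ c, max 0 (min a b - 3 * b2r (decide (κ ≠ c))) = if c = κ then min a b else 0 := by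
      intro c
      by_cases h : c = κ
      · subst h; simp [b2r, hmin0]
      · have h' : κ ≠ c := fun e => h e.symm
        simp only [h, if_false, h', ne_eq, not_false_eq_true, decide_true, b2r, if_true]
        rw [max_eq_left (by linarith)]
    rw [hval] at p0 p1 p2
    refine ⟨κ, hκ, fun c hc => ?_, fun _ _ => hq⟩
    interval_cases c
    · exact p0
    · exact p1
    · exact p2
  · have hmin : min a b = 0 := by
      rcases not_and_or.1 hab with h | h
      · have : a = 0 := le_antisymm (not_lt.1 h) ha0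
        rw [this, min_eq_left hb0]
      · have : b = 0 := le_antisymm (not_lt.1 h) hb0
        rw [this, min_eq_right ha0]
    have l1 : (gs ++ (inst G is s).map norR).length = s + G.length := by simp [hs]
    have hex : ∀ v ∈ [x, y, z], RV u₀ u₁ (gs ++ (inst G is s).map norR) (reloc is s v)
        ((rrun u₀ u₁ (gs ++ (inst G is s).map norR)).getD (reloc is s v) 0) := by
      intro v hv
      refine ⟨?_, rfl⟩
      rw [l1]
      exact reloc_lt is s v G.length (fun i hi => by rw [← hs]; exact his i hi) (hC v hv)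
    have h0 := hex x (by simp)
    have h1 := hex y (by simp)
    have h2 := hex z (by simp)
    obtain ⟨p0, p1, p2⟩ := blockG_vals G hs ha hb hne h0 h1 h2
    have hval : ∀ f : ℝ, 0 ≤ f → max 0 (min a b - 3 * f) = 0 := by
      intro f hf
      rw [hmin, max_eq_left (by linarith)]
    rw [hval _ h0.nonneg] at p0
    rw [hval _ h1.nonneg] at p1
    rw [hval _ h2.nonneg] at p2
    refine ⟨0, by norm_num, fun c hc => ?_, fun h1 h2 => absurd ⟨h1, h2⟩ hab⟩
    rw [hmin, ite_self]
    interval_cases c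
    · exact p0
    · exact p1
    · exact p2

end

end Pool.Agent.H74.PPAD
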