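import Pool.Agent.H74.PPADTile
import Pool.Agent.TM.Cert

/-!
# NOR circuits
-/

set_option autoImplicit false

namespace Pool.Agent.H74.PPAD

open TMLib

/-- A list of NOR gates; a gate is given by the numbers of its two input wires. -/
abbrev Gates := List (ℕ × ℕ)

/-- Append the value of a NOR gate to the list of wire values (missing wires have value `false`). -/
def nstep (w : List Bool) (g : ℕ × ℕ) : List Bool := w ++ [!(w.getD g.1 false || w.getD g.2 false)]

/-- Values of all wires: the input values followed by the values of the gates. -/
def evG (gs : Gates) (w : List Bool) : List Bool := gs.foldl nstep w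

/-- A circuit: its gates and the numbers of its output wires. -/
abbrev Circ := Gates × List ℕ

/-- The outputs of a circuit. -/
def evC (C : Circ) (w : List Bool) : List Bool := C.2.map fun i => (evG C.1 w).getD i false

@[simp] lemma evG_nil (w : List Bool) : evG [] w = w := rfl

lemma evG_append (gs hs : Gates) (w : List Bool) : evG (gs ++ hs) w = evG hs (evG gs w) := by
  simp [evG]

lemma evG_concat (gs : Gates) (g : ℕ × ℕ) (w : List Bool) :
    evG (gs ++ [g]) w = nstep (evG gs w) g := by simp [evG]

@[simp] lemma length_evG (gs : Gates) (w : List Bool) :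
    (evG gs w).length = w.length + gs.length := by
  induction gs using List.reverseRecOn with
  | nil => rfl
  | append_singleton gs g ih => rw [evG_concat]; simp [nstep, ih]; omega

lemma evG_prefix (gs : Gates) (w : List Bool) : ∃ t, evG gs w = w ++ t := by
  induction gs using List.reverseRecOn with
  | nil => exact ⟨[], by simp⟩
  | append_singleton gs g ih =>
    obtain ⟨t, ht⟩ := ih
    rw [evG_concat, ht]
    exact ⟨t ++ [_], by rw [nstep, List.append_assoc]⟩

lemma getD_evG (gs : Gates) (w : List Bool) {i : ℕ} (hi : i < w.length) (d : Bool) :
    (evG gs w).getD i d = w.getD i d := by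
  obtain ⟨t, ht⟩ := evG_prefix gs w
  rw [ht, List.getD_append _ _ _ _ hi]

/-- renumbering of wires -/
def reloc (inp : List ℕ) (b i : ℕ) : ℕ := if i < inp.length then inp.getD i 0 else b + (i - inp.length)

/-- a copy of the gates with input wires `inp`, placed after `b` wires -/
def inst (gs : Gates) (inp : List ℕ) (b : ℕ) : Gates :=
  gs.map fun g => (reloc inp b g.1, reloc inp b g.2)

@[simp] lemma length_inst (gs : Gates) (inp : List ℕ) (b : ℕ) :
    (inst gs inp b).length = gs.length := by simp [inst]

lemma reloc_lt (inp : List ℕ) (b i c : ℕ) (hinp : ∀ j ∈ inp, j < b) (hi : i < inp.length + c) :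
    reloc inp b i < b + c := by
  unfold reloc
  split_ifs with h
  · have : inp.getD i 0 ∈ inp := by
      rw [List.getD_eq_getElem _ _ h]; exact List.getElem_mem _
    have := hinp _ this
    omega
  · omega

lemma evG_inst (gs : Gates) (inp : List ℕ) (w : List Bool) (hinp : ∀ i ∈ inp, i < w.length) :
    ∀ i, (evG (inst gs inp w.length) w).getD (reloc inp w.length i) false =
      (evG gs (inp.map fun j => w.getD j false)).getD i false := by
  induction gs using List.reverseRecOn with
  | nil =>
    intro i
    simp only [inst, List.map_nil, evG_nil]
    unfold reloc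
    split_ifs with h
    · simp [List.getD_eq_getElem?_getD, List.getElem?_map, h]
    · rw [List.getD_eq_default _ _ (by omega), List.getD_eq_default _ _ (by simp; omega)]
  | append_singleton gs g ih =>
    intro i
    have e : inst (gs ++ [g]) inp w.length = inst gs inp w.length ++
        [(reloc inp w.length g.1, reloc inp w.length g.2)] := by simp [inst]
    rw [e, evG_concat, evG_concat, nstep, nstep, ih, ih]
    set W := evG (inst gs inp w.length) w with hW
    set U := evG gs (inp.map fun j => w.getD j false) with hU
    have hWl : W.length = w.length + gs.length := by simp [hW]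
    have hUl : U.length = inp.length + gs.length := by simp [hU]
    rcases lt_trichotomy i (inp.length + gs.length) with h | h | h
    · rw [List.getD_append _ _ _ _ (by rw [hWl]; exact reloc_lt _ _ _ _ hinp h),
        List.getD_append _ _ _ _ (by rw [hUl]; exact h)]
      exact ih i
    · have h1 : reloc inp w.length i = W.length := by
        unfold reloc
        rw [if_neg (by omega), hWl]; omega
      rw [h1, show i = U.length by omega]
      simp [List.getD_eq_getElem?_getD]
    · have h1 : W.length < reloc inp w.length i := by
        unfold reloc
        rw [if_neg (by omega), hWl]; omega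
      rw [List.getD_eq_default _ _ (by simp; omega), List.getD_eq_default _ _ (by simp; omega)]

/-- the wires `is` exist and have values `bs` -/
def Vals (inp : List Bool) (gs : Gates) (is : List ℕ) (bs : List Bool) : Prop :=
  (∀ i ∈ is, i < inp.length + gs.length) ∧ is.map (fun i => (evG gs inp).getD i false) = bs

lemma Vals.append {inp : List Bool} {gs : Gates} {is : List ℕ} {bs : List Bool}
    (h : Vals inp gs is bs) (hs : Gates) : Vals inp (gs ++ hs) is bs := by
  refine ⟨fun i hi => ?_, ?_⟩
  · have := h.1 i hi
    simp; omega
  · rw [← h.2]
    refine List.map_congr_left fun i hi => ?_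
    rw [evG_append, getD_evG]
    simpa using h.1 i hi

lemma Vals.length {inp : List Bool} {gs : Gates} {is : List ℕ} {bs : List Bool}
    (h : Vals inp gs is bs) : is.length = bs.length := by rw [← h.2]; simp

/-- all outputs exist -/
def okOut (k : ℕ) (C : Circ) : Prop := ∀ i ∈ C.2, i < k + C.1.length

lemma Vals.circ {inp : List Bool} {gs : Gates} {is : List ℕ} {bs : List Bool}
    (h : Vals inp gs is bs) (C : Circ) (hC : okOut is.length C) :
    Vals inp (gs ++ inst C.1 is (inp.length + gs.length))
      (C.2.map (reloc is (inp.length + gs.length))) (evC C bs) := by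
  have hl : (evG gs inp).length = inp.length + gs.length := length_evG _ _
  refine ⟨fun i hi => ?_, ?_⟩
  · obtain ⟨j, hj, rfl⟩ := List.mem_map.1 hi
    have := reloc_lt is (inp.length + gs.length) j C.1.length h.1 (hC j hj)
    simp; omega
  · rw [evC, ← h.2, List.map_map]
    refine List.map_congr_left fun i _ => ?_
    have := evG_inst C.1 is (evG gs inp) (fun j hj => by rw [hl]; exact h.1 j hj) i
    rw [hl] at this
    rw [← this, evG_append]
    rfl

/-! ### Every function of finitely many bits is computed by a circuit -/

/-- expressions -/
inductive BExp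
  | var (i : ℕ)
  | nor (a b : BExp)

/-- value of an expression -/
def BExp.ev (w : List Bool) : BExp → Bool
  | .var i => w.getD i false
  | .nor a b => !(a.ev w || b.ev w)

/-- all variables are less than `k` -/
def BExp.ok (k : ℕ) : BExp → Prop
  | .var i => i < k
  | .nor a b => a.ok k ∧ b.ok k

/-- gates computing an expression after `b` wires, and the wire with the result -/
def BExp.comp : BExp → ℕ → Gates × ℕ
  | .var i, _ => ([], i)
  | .nor x y, b =>
    ((x.comp b).1 ++ (y.comp (b + (x.comp b).1.length)).1 ++
      [((x.comp b).2, (y.comp (b + (x.comp b).1.length)).2)],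
      b + (x.comp b).1.length + (y.comp (b + (x.comp b).1.length)).1.length)

lemma BExp.ev_append (e : BExp) (k : ℕ) (w t : List Bool) (he : e.ok k) (hk : k ≤ w.length) :
    e.ev (w ++ t) = e.ev w := by
  induction e with
  | var i => exact List.getD_append _ _ _ _ (lt_of_lt_of_le he hk)
  | nor a b iha ihb => rw [BExp.ev, BExp.ev, iha he.1, ihb he.2]

lemma BExp.comp_correct (e : BExp) (k : ℕ) (he : e.ok k) : ∀ w : List Bool, k ≤ w.length →
    (e.comp w.length).2 < w.length + (e.comp w.length).1.length ∧
    (evG (e.comp w.length).1 w).getD (e.comp w.length).2 false = e.ev w := by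
  induction e with
  | var i => intro w hw; exact ⟨by simp [BExp.comp]; exact lt_of_lt_of_le he hw, rfl⟩
  | nor x y ihx ihy =>
    intro w hw
    obtain ⟨hx1, hx2⟩ := ihx he.1 w hw
    set gx := x.comp w.length with hgx
    obtain ⟨t, ht⟩ := evG_prefix gx.1 w
    have hl : (evG gx.1 w).length = w.length + gx.1.length := length_evG _ _
    obtain ⟨hy1, hy2⟩ := ihy he.2 (evG gx.1 w) (by rw [hl]; omega)
    rw [hl] at hy1 hy2
    set gy := y.comp (w.length + gx.1.length) with hgy
    have e1 : (BExp.nor x y).comp w.length = (gx.1 ++ gy.1 ++ [(gx.2, gy.2)],
        w.length + gx.1.length + gy.1.length) := rfl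
    rw [e1]
    refine ⟨by simp; omega, ?_⟩
    rw [evG_concat, evG_append, nstep, hy2]
    have h1 : (evG gy.1 (evG gx.1 w)).getD gx.2 false = x.ev w := by
      rw [getD_evG _ _ (by rw [hl]; exact hx1), hx2]
    have h2 : y.ev (evG gx.1 w) = y.ev w := by rw [ht, y.ev_append k w t he.2 hw]
    rw [h1, h2]
    have h3 : (evG gy.1 (evG gx.1 w)).length = w.length + gx.1.length + gy.1.length := by simp
    rw [← h3]
    simp [List.getD_eq_getElem?_getD, BExp.ev]

/-- a function on lists of length `k` given by an expression -/
def Expr (k : ℕ) (f : List Bool → Bool) : Prop :=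
  ∃ e : BExp, e.ok k ∧ ∀ w : List Bool, w.length = k → e.ev w = f w

lemma Expr.nor {k : ℕ} {f g : List Bool → Bool} (hf : Expr k f) (hg : Expr k g) :
    Expr k (fun w => !(f w || g w)) := by
  obtain ⟨e, he, he'⟩ := hf
  obtain ⟨e2, he2, he2'⟩ := hg
  exact ⟨.nor e e2, ⟨he, he2⟩, fun w hw => by rw [BExp.ev, he' w hw, he2' w hw]⟩

lemma Expr.congr {k : ℕ} {f g : List Bool → Bool} (hf : Expr k f)
    (h : ∀ w : List Bool, w.length = k → g w = f w) : Expr k g := by
  obtain ⟨e, he, he'⟩ := hf
  exact ⟨e, he, fun w hw => by rw [he' w hw, h w hw]⟩

lemma Expr.not {k : ℕ} {f : List Bool → Bool} (hf : Expr k f) : Expr k (fun w => !f w) :=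
  (hf.nor hf).congr fun w _ => by simp

lemma Expr.or {k : ℕ} {f g : List Bool → Bool} (hf : Expr k f) (hg : Expr k g) :
    Expr k (fun w => f w || g w) := (hf.nor hg).not.congr fun w _ => by simp

lemma Expr.and {k : ℕ} {f g : List Bool → Bool} (hf : Expr k f) (hg : Expr k g) :
    Expr k (fun w => f w && g w) := (hf.not.nor hg.not).congr fun w _ => by simp

lemma Expr.var {k i : ℕ} (hi : i < k) : Expr k (fun w => w.getD i false) :=
  ⟨.var i, hi, fun _ _ => rfl⟩

lemma Expr.const {k : ℕ} (hk : 0 < k) (b : Bool) : Expr k (fun _ => b) := by
  have h1 := (Expr.var hk).and (Expr.var hk).not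
  cases b with
  | false => exact h1.congr fun w _ => by simp
  | true => exact h1.not.congr fun w _ => by simp

lemma expr_all {k : ℕ} (hk : 0 < k) (f : List Bool → Bool) : Expr k f := by
  have key : ∀ j ≤ k, ∀ f : List Bool → Bool, (∀ w w' : List Bool, w.length = k → w'.length = k →
      w.take j = w'.take j → f w = f w') → Expr k f := by
    intro j
    induction j with
    | zero =>
      intro _ f hf
      refine (Expr.const hk (f (List.replicate k false))).congr fun w hw => ?_
      exact hf _ _ hw (by simp) (by simp)
    | succ j ih =>
      intro hj f hf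
      have h1 : ∀ b, Expr k (fun w => f (w.set j b)) := fun b => by
        refine ih (by omega) _ fun w w' hw hw' h => ?_
        refine hf _ _ (by simpa using hw) (by simpa using hw') ?_
        apply List.ext_getElem
        · simp [hw, hw']
        · intro i h2 h3
          simp only [List.getElem_take, List.getElem_set]
          split_ifs with h4
          · rfl
          · simp only [List.length_take, List.length_set] at h2
            have h5 : i < j := by omega
            have h6 : (w.take j)[i]'(by simp; omega) = (w'.take j)[i]'(by simp; omega) := by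
              simp only [h]
            simpa using h6
      have h2 := ((Expr.var (i := j) (by omega)).and (h1 true)).or
        ((Expr.var (i := j) (by omega)).not.and (h1 false))
      refine h2.congr fun w hw => ?_
      have hjw : j < w.length := by omega
      have h3 : w.set j (w[j]) = w := List.set_getElem_self hjw
      rw [List.getD_eq_getElem _ _ hjw]
      cases hb : w[j] with
      | false => rw [hb] at h3; simp [h3]
      | true => rw [hb] at h3; simp [h3]
  exact key k le_rfl f fun w w' hw hw' h => by
    rw [List.take_of_length_le (by omega), List.take_of_length_le (by omega)] at h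
    rw [h]

/-- there is a circuit for every function with finitely many outputs; its outputs are gates -/
lemma exists_circ {k : ℕ} (hk : 0 < k) (fs : List (List Bool → Bool)) :
    ∃ C : Circ, C.2.length = fs.length ∧ (∀ i ∈ C.2, k ≤ i ∧ i < k + C.1.length) ∧
      ∀ w : List Bool, w.length = k → evC C w = fs.map fun f => f w := by
  induction fs using List.reverseRecOn with
  | nil => exact ⟨([], []), rfl, by simp, fun w _ => rfl⟩
  | append_singleton fs f ih =>
    obtain ⟨C, h1, h2, h3⟩ := ih
    obtain ⟨e, he, he'⟩ := ((expr_all hk f).not.not)
    obtain ⟨e', rfl⟩ | ⟨a, b, rfl⟩ : (∃ i, e = .var i) ∨ ∃ a b, e = .nor a b := by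
      cases e with
      | var i => exact Or.inl ⟨i, rfl⟩
      | nor a b => exact Or.inr ⟨a, b, rfl⟩
    · -- replace by double negation
      set d : BExp := .nor (.nor (.var e') (.var e')) (.nor (.var e') (.var e')) with hd
      have hdo : d.ok k := ⟨⟨he, he⟩, he, he⟩
      set r := d.comp (k + C.1.length) with hr
      refine ⟨(C.1 ++ r.1, C.2 ++ [r.2]), by simp [h1], ?_, fun w hw => ?_⟩
      · intro i hi
        rcases List.mem_append.1 hi with hi | hi
        · have := h2 i hi; simp; omega
        · rw [List.mem_singleton] at hi
          subst hi
          simp [hr, hd, BExp.comp]; omega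
      · have hl : (evG C.1 w).length = k + C.1.length := by simp [hw]
        have h4 := d.comp_correct k hdo (evG C.1 w) (by rw [hl]; omega)
        rw [hl, ← hr] at h4
        rw [List.map_append, ← h3 w hw, evC, evC, List.map_append]
        congr 1
        · refine List.map_congr_left fun i hi => ?_
          rw [evG_append, getD_evG]
          rw [hl]; exact (h2 i hi).2
        · simp only [List.map_cons, List.map_nil, evG_append]
          rw [h4.2]
          obtain ⟨t, ht⟩ := evG_prefix C.1 w
          rw [ht, d.ev_append k w t hdo (by omega)]
          have := he' w hw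
          simp only [Bool.not_not] at this
          rw [← this]
          simp [hd, BExp.ev]
    · set d : BExp := .nor a b with hd
      set r := d.comp (k + C.1.length) with hr
      refine ⟨(C.1 ++ r.1, C.2 ++ [r.2]), by simp [h1], ?_, fun w hw => ?_⟩
      · intro i hi
        rcases List.mem_append.1 hi with hi | hi
        · have := h2 i hi; simp; omega
        · rw [List.mem_singleton] at hi
          subst hi
          simp [hr, hd, BExp.comp]; omega
      · have hl : (evG C.1 w).length = k + C.1.length := by simp [hw]
        have h4 := d.comp_correct k he (evG C.1 w) (by rw [hl]; omega)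
        rw [hl, ← hr] at h4
        rw [List.map_append, ← h3 w hw, evC, evC, List.map_append]
        congr 1
        · refine List.map_congr_left fun i hi => ?_
          rw [evG_append, getD_evG]
          rw [hl]; exact (h2 i hi).2
        · simp only [List.map_cons, List.map_nil, evG_append]
          rw [h4.2]
          obtain ⟨t, ht⟩ := evG_prefix C.1 w
          rw [ht, d.ev_append k w t he (by omega)]
          have := he' w hw
          simp only [Bool.not_not] at this
          rw [← this]

end Pool.Agent.H74.PPAD
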