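import Pool.Agent.H74.PPADCirc

/-!
# Comparison of binary numbers by NOR circuits
-/

set_option autoImplicit false

namespace Pool.Agent.H74.PPAD

open TMLib

/-- value of a bit list, least significant bit first -/
def num : List Bool → ℕ
  | [] => 0
  | b :: l => b.toNat + 2 * num l

/-- the `n` lowest bits of `x`, least significant bit first -/
def bits (n x : ℕ) : List Bool := (List.range n).map fun i => x.testBit i

@[simp] lemma length_bits (n x : ℕ) : (bits n x).length = n := by simp [bits]

lemma bits_succ (n x : ℕ) : bits (n + 1) x = (x.testBit 0) :: bits n (x / 2) := by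
  unfold bits
  rw [List.range_succ_eq_map, List.map_cons, List.map_map]
  congr 1
  refine List.map_congr_left fun i _ => ?_
  simp [Nat.testBit_succ]

lemma num_lt (l : List Bool) : num l < 2 ^ l.length := by
  induction l with
  | nil => simp [num]
  | cons b l ih =>
    rw [num, List.length_cons, pow_succ]
    have : b.toNat ≤ 1 := Bool.toNat_le b
    omega

lemma bits_num (l : List Bool) : bits l.length (num l) = l := by
  induction l with
  | nil => rfl
  | cons b l ih =>
    rw [List.length_cons, bits_succ, num]
    have h1 : (b.toNat + 2 * num l) / 2 = num l := by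
      have : b.toNat ≤ 1 := Bool.toNat_le b
      omega
    have h2 : (b.toNat + 2 * num l).testBit 0 = b := by
      rw [Nat.testBit_zero]
      cases b <;> simp [Nat.add_mod]
    rw [h1, h2, ih]

lemma num_bits (n x : ℕ) : num (bits n x) = x % 2 ^ n := by
  induction n generalizing x with
  | zero => simp [bits, num, Nat.mod_one]
  | succ n ih =>
    rw [bits_succ, num, ih, pow_succ, Nat.mul_comm (2 ^ n) 2, Nat.mod_mul, Nat.testBit_zero]
    rcases Nat.mod_two_eq_zero_or_one x with h | h <;> simp [h]

lemma num_bits_of_lt {n x : ℕ} (h : x < 2 ^ n) : num (bits n x) = x := by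
  rw [num_bits, Nat.mod_eq_of_lt h]

lemma num_inj {l l' : List Bool} (h : l.length = l'.length) : num l = num l' ↔ l = l' := by
  constructor
  · intro h2
    rw [← bits_num l, ← bits_num l', h2, h]
  · rintro rfl; rfl

lemma num_append (l l' : List Bool) : num (l ++ l') = num l + 2 ^ l.length * num l' := by
  induction l with
  | nil => simp [num]
  | cons b l ih => rw [List.cons_append, num, num, ih, List.length_cons, pow_succ]; ring

lemma num_replicate_false (n : ℕ) : num (List.replicate n false) = 0 := by
  induction n with
  | zero => rfl
  | succ n ih => rw [List.replicate_succ, num, ih]; rfl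

lemma num_replicate_true (n : ℕ) : num (List.replicate n true) = 2 ^ n - 1 := by
  induction n with
  | zero => rfl
  | succ n ih =>
    rw [List.replicate_succ, num, ih, pow_succ]
    have := Nat.one_le_two_pow (n := n)
    simp; omega

/-- less-than bit of the comparison step -/
def flt (w : List Bool) : Bool :=
  if w.getD 2 false = w.getD 3 false then w.getD 0 false else w.getD 3 false

/-- equality bit of the comparison step -/
def feq (w : List Bool) : Bool := w.getD 1 false && (w.getD 2 false == w.getD 3 false)

/-- circuit for the comparison step -/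
noncomputable def cmpT : Circ := (exists_circ (k := 4) (by norm_num) [flt, feq]).choose

lemma cmpT_spec : cmpT.2.length = 2 ∧ (∀ i ∈ cmpT.2, 4 ≤ i ∧ i < 4 + cmpT.1.length) ∧
    ∀ w : List Bool, w.length = 4 → evC cmpT w = [flt w, feq w] := by
  have h := (exists_circ (k := 4) (by norm_num) [flt, feq]).choose_spec
  exact h

/-- number of gates of a comparison step -/
noncomputable def cmpLen : ℕ := cmpT.1.length

/-- wires with the state before step `i` -/
noncomputable def cw (b i : ℕ) : ℕ × ℕ :=
  if i = 0 then (0, 1) else
    (b + cmpLen * (i - 1) + (cmpT.2.getD 0 0 - 4), b + cmpLen * (i - 1) + (cmpT.2.getD 1 0 - 4))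

/-- comparison of two numbers given by wires -/
noncomputable def cmpG (as bs : List ℕ) (n b : ℕ) : Gates :=
  (List.range n).flatMap fun i =>
    inst cmpT.1 [(cw b i).1, (cw b i).2, as.getD i 0, bs.getD i 0] (b + cmpLen * i)

lemma cmpG_succ (as bs : List ℕ) (n b : ℕ) : cmpG as bs (n + 1) b = cmpG as bs n b ++
    inst cmpT.1 [(cw b n).1, (cw b n).2, as.getD n 0, bs.getD n 0] (b + cmpLen * n) := by
  simp [cmpG, List.range_succ]

lemma length_cmpG (as bs : List ℕ) (n b : ℕ) : (cmpG as bs n b).length = cmpLen * n := by
  induction n with
  | zero => simp [cmpG]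
  | succ n ih => rw [cmpG_succ, List.length_append, ih, length_inst]; simp [cmpLen]; ring

lemma cw_succ (b i : ℕ) (inp : List ℕ) (hi : inp.length = 4) :
    [(cw b (i + 1)).1, (cw b (i + 1)).2] = cmpT.2.map (reloc inp (b + cmpLen * i)) := by
  obtain ⟨h1, h2, -⟩ := cmpT_spec
  obtain ⟨x, y, hxy⟩ : ∃ x y, cmpT.2 = [x, y] := by
    match h : cmpT.2 with
    | [x, y] => exact ⟨x, y, rfl⟩
    | [] => rw [h] at h1; simp at h1
    | [_] => rw [h] at h1; simp at h1
    | _ :: _ :: _ :: _ => rw [h] at h1; simp at h1
  have hx := h2 x (by rw [hxy]; simp)
  have hy := h2 y (by rw [hxy]; simp)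
  have r1 : reloc inp (b + cmpLen * i) x = b + cmpLen * i + (x - 4) := by
    unfold reloc; rw [if_neg (by omega), hi]
  have r2 : reloc inp (b + cmpLen * i) y = b + cmpLen * i + (y - 4) := by
    unfold reloc; rw [if_neg (by omega), hi]
  rw [hxy, List.map_cons, List.map_cons, List.map_nil, r1, r2]
  unfold cw
  rw [if_neg (by omega), hxy]
  simp

lemma Vals.getD {inp : List Bool} {gs : Gates} {is : List ℕ} {bs : List Bool}
    (h : Vals inp gs is bs) {j : ℕ} (hj : j < is.length) :
    Vals inp gs [is.getD j 0] [bs.getD j false] := by
  obtain ⟨h1, h2⟩ := h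
  refine ⟨?_, ?_⟩
  · intro i hi
    rw [List.mem_singleton] at hi
    rw [hi, List.getD_eq_getElem _ _ hj]
    exact h1 _ (List.getElem_mem _)
  · rw [← h2]
    simp [List.getD_eq_getElem?_getD, hj]

lemma Vals.concat {inp : List Bool} {gs : Gates} {is is' : List ℕ} {bs bs' : List Bool}
    (h : Vals inp gs is bs) (h' : Vals inp gs is' bs') : Vals inp gs (is ++ is') (bs ++ bs') := by
  refine ⟨fun i hi => ?_, ?_⟩
  · rcases List.mem_append.1 hi with hi | hi
    · exact h.1 i hi
    · exact h'.1 i hi
  · rw [List.map_append, h.2, h'.2]

lemma take_succ_getD (A : List Bool) (j : ℕ) (hj : j < A.length) :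
    A.take (j + 1) = A.take j ++ [A.getD j false] := by
  rw [List.take_add_one, List.getD_eq_getElem?_getD]
  simp [hj]

lemma cmp_step (A B : List Bool) (j : ℕ) (hA : j < A.length) (hB : j < B.length) :
    [flt [decide (num (A.take j) < num (B.take j)), decide (A.take j = B.take j),
        A.getD j false, B.getD j false],
      feq [decide (num (A.take j) < num (B.take j)), decide (A.take j = B.take j),
        A.getD j false, B.getD j false]] =
    [decide (num (A.take (j + 1)) < num (B.take (j + 1))),
      decide (A.take (j + 1) = B.take (j + 1))] := by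
  have lA : (A.take j).length = j := by simp; omega
  have lB : (B.take j).length = j := by simp; omega
  have h1 := num_lt (A.take j)
  have h2 := num_lt (B.take j)
  rw [lA] at h1
  rw [lB] at h2
  rw [take_succ_getD A j hA, take_succ_getD B j hB, num_append, num_append, lA, lB]
  have e1 : ∀ b : Bool, num [b] = b.toNat := fun b => by simp [num]
  rw [e1, e1]
  have e2 : (A.take j ++ [A.getD j false] = B.take j ++ [B.getD j false]) ↔
      (A.take j = B.take j ∧ A.getD j false = B.getD j false) := by
    constructor
    · intro h
      have := List.append_inj h (by rw [lA, lB])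
      exact ⟨this.1, by simpa using this.2⟩
    · intro h
      rw [h.1, h.2]
  simp only [flt, feq, e2]
  generalize A.getD j false = a
  generalize B.getD j false = b
  cases a <;> cases b <;> simp <;> omega

theorem Vals.cmp {inp : List Bool} {gs : Gates} {as bs : List ℕ} {A B : List Bool} {n : ℕ}
    (hA : Vals inp gs as A) (hB : Vals inp gs bs B) (lA : A.length = n) (lB : B.length = n)
    (h0 : Vals inp gs [0, 1] [false, true]) :
    Vals inp (gs ++ cmpG as bs n (inp.length + gs.length))
      [(cw (inp.length + gs.length) n).1, (cw (inp.length + gs.length) n).2]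
      [decide (num A < num B), decide (A = B)] := by
  have key : ∀ j ≤ n, Vals inp (gs ++ cmpG as bs j (inp.length + gs.length))
      [(cw (inp.length + gs.length) j).1, (cw (inp.length + gs.length) j).2]
      [decide (num (A.take j) < num (B.take j)), decide (A.take j = B.take j)] := by
    intro j
    induction j with
    | zero =>
      intro _
      simpa [cmpG, cw, num] using h0
    | succ j ih =>
      intro hj
      have h1 := ih (by omega)
      have h2 := (hA.append (cmpG as bs j (inp.length + gs.length))).getD (j := j)
        (by rw [hA.length]; omega)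
      have h3 := (hB.append (cmpG as bs j (inp.length + gs.length))).getD (j := j)
        (by rw [hB.length]; omega)
      have h4 := (h1.concat h2).concat h3
      have h5 := h4.circ cmpT (fun i hi => by
        have := (cmpT_spec.2.1 i hi).2
        simpa using this)
      have e1 : inp.length + (gs ++ cmpG as bs j (inp.length + gs.length)).length =
          inp.length + gs.length + cmpLen * j := by
        rw [List.length_append, length_cmpG]; omega
      rw [e1] at h5
      rw [cmpG_succ, ← List.append_assoc, cw_succ _ _ ([(cw (inp.length + gs.length) j).1,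
        (cw (inp.length + gs.length) j).2] ++ [as.getD j 0] ++ [bs.getD j 0]) (by simp),
        ← cmp_step A B j (by omega) (by omega)]
      rw [cmpT_spec.2.2 _ (by simp)] at h5
      exact h5
  have := key n le_rfl
  rwa [List.take_of_length_le (by omega), List.take_of_length_le (by omega)] at this

end Pool.Agent.H74.PPAD
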