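import Pool.Agent.H74.PPADCmp

/-!
# A circuit for the colour of a grid point
-/

set_option autoImplicit false

namespace Pool.Agent.H74.PPAD

open TMLib

/-- Instructions of the construction of the colouring circuit. -/
inductive Ins
  | circ (s : Bool) (src : ℕ)
  | cmp (a b : ℕ)

/-- Execute an instruction: `k` is the number of input wires, the state consists of the gates
constructed so far and the wires of the registers. -/
noncomputable def exI (n : ℕ) (S P : Circ) (k : ℕ) (st : Gates × List (List ℕ)) :
    Ins → Gates × List (List ℕ)
  | .circ true src => (st.1 ++ inst S.1 (st.2.getD src []) (k + st.1.length),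
      st.2 ++ [S.2.map (reloc (st.2.getD src []) (k + st.1.length))])
  | .circ false src => (st.1 ++ inst P.1 (st.2.getD src []) (k + st.1.length),
      st.2 ++ [P.2.map (reloc (st.2.getD src []) (k + st.1.length))])
  | .cmp a b => (st.1 ++ cmpG (st.2.getD a []) (st.2.getD b []) n (k + st.1.length),
      st.2 ++ [[(cw (k + st.1.length) n).1, (cw (k + st.1.length) n).2]])

/-- Meaning of an instruction. -/
def exS (S P : Circ) (env : List (List Bool)) : Ins → List (List Bool)
  | .circ true src => env ++ [evC S (env.getD src [])]
  | .circ false src => env ++ [evC P (env.getD src [])]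
  | .cmp a b => env ++ [[decide (num (env.getD a []) < num (env.getD b [])),
      decide (env.getD a [] = env.getD b [])]]

/-- The sources of an instruction exist and have length `n`. -/
def insOK (n : ℕ) (env : List (List Bool)) : Ins → Prop
  | .circ _ src => src < env.length ∧ (env.getD src []).length = n
  | .cmp a b => a < env.length ∧ (env.getD a []).length = n ∧ b < env.length ∧
      (env.getD b []).length = n

/-- The registers have the right values. -/
def EnvOK (inp : List Bool) (gs : Gates) (e : List (List ℕ)) (env : List (List Bool)) : Prop :=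
  e.length = env.length ∧ ∀ i < e.length, Vals inp gs (e.getD i []) (env.getD i [])

lemma EnvOK.snoc {inp : List Bool} {gs hs : Gates} {e : List (List ℕ)} {env : List (List Bool)}
    (h : EnvOK inp gs e env) {x : List ℕ} {y : List Bool} (hx : Vals inp (gs ++ hs) x y) :
    EnvOK inp (gs ++ hs) (e ++ [x]) (env ++ [y]) := by
  refine ⟨by simp [h.1], fun i hi => ?_⟩
  rcases Nat.lt_or_ge i e.length with h1 | h1
  · rw [List.getD_append _ _ _ _ h1, List.getD_append _ _ _ _ (by rw [← h.1]; exact h1)]
    exact (h.2 i h1).append hs
  · have h2 : i = e.length := by simp at hi; omega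
    subst h2
    rw [List.getD_append_right _ _ _ _ le_rfl]
    rw [List.getD_append_right _ _ _ _ (by rw [h.1])]
    simpa [h.1] using hx

lemma exI_correct {n : ℕ} {S P : Circ} (hS : okOut n S) (hP : okOut n P) {inp : List Bool}
    {st : Gates × List (List ℕ)} {env : List (List Bool)} (h : EnvOK inp st.1 st.2 env)
    (h0 : Vals inp [] [0, 1] [false, true]) (i : Ins) (hi : insOK n env i) :
    EnvOK inp (exI n S P inp.length st i).1 (exI n S P inp.length st i).2 (exS S P env i) := by
  cases i with
  | circ s src =>
    have h1 := h.2 src (by rw [h.1]; exact hi.1)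
    have hl : (st.2.getD src []).length = n := by rw [h1.length]; exact hi.2
    cases s with
    | true => exact h.snoc (h1.circ S (by rw [hl]; exact hS))
    | false => exact h.snoc (h1.circ P (by rw [hl]; exact hP))
  | cmp a b =>
    have h1 := h.2 a (by rw [h.1]; exact hi.1)
    have h2 := h.2 b (by rw [h.1]; exact hi.2.2.1)
    have h3 : Vals inp st.1 [0, 1] [false, true] := by simpa using h0.append st.1
    exact h.snoc (h1.cmp h2 hi.2.1 hi.2.2.2 h3)

/-- the program -/
def prog : List Ins := [.circ true 0, .circ false 3, .circ false 0, .circ true 5, .circ true 1,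
  .circ false 7, .cmp 1 0, .cmp 1 5, .cmp 0 7, .cmp 3 0, .cmp 4 0, .cmp 5 0, .cmp 6 0, .cmp 7 1,
  .cmp 8 1, .cmp 0 2, .cmp 1 2]

lemma prog_correct {n : ℕ} {S P : Circ} (hS : okOut n S) (hP : okOut n P) {inp : List Bool}
    (h0 : Vals inp [] [0, 1] [false, true]) (L : List Ins) :
    ∀ (st : Gates × List (List ℕ)) (env : List (List Bool)), EnvOK inp st.1 st.2 env →
    (∀ L' i, L' ++ [i] <+: L → insOK n (L'.foldl (exS S P) env) i) →
    EnvOK inp (L.foldl (exI n S P inp.length) st).1 (L.foldl (exI n S P inp.length) st).2
      (L.foldl (exS S P) env) := by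
  induction L with
  | nil => intro st env h _; exact h
  | cons i L ih =>
    intro st env h hok
    rw [List.foldl_cons, List.foldl_cons]
    refine ih _ _ (exI_correct hS hP h h0 i (hok [] i (by simp))) fun L' j hj => ?_
    have := hok (i :: L') j (by simpa using hj)
    simpa using this

/-- wires of the inputs: constants, low bits of `x`, `v`, low bits of `y`, `u` -/
def regs (n : ℕ) : List (List ℕ) :=
  [(List.range n).map (· + 7), (List.range n).map (· + (n + 12)), List.replicate n 0]

/-- colour from the low bits and the results of the comparisons -/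
def colorW (w : List Bool) : ℕ :=
  let g := fun i => w.getD i false
  let l := (g 0).toNat + 2 * ((g 1).toNat + 2 * ((g 2).toNat + 2 * (g 3).toNat))
  let t := g 4
  let k := (g 5).toNat + 2 * ((g 6).toNat + 2 * ((g 7).toNat + 2 * (g 8).toNat))
  let s := g 9
  let uvl := g 10
  let uve := g 11
  let upl := g 12
  let upe := g 13
  let vsl := g 14
  let vse := g 15
  let hsv := !(g 17) && g 19
  let hpv := !(g 21) && g 23
  let hsu := !(g 25) && g 27
  let v0 := g 29
  let u0 := g 31
  let N := if t then (if hsv && (uvl || (uve && !s)) then 1 else 0)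
    else (if hpv && (upl || (upe && !s)) then 2 else 0)
  let So := if t then (if hsv && (uvl || uve) && !(u0 && !s) then 1 else 0)
    else (if hpv && (upl || upe) && !(u0 && !s) then 2 else 0)
  let E := if s then
      (if hsu && (uvl || (uve && t)) && vsl then 1
      else if hsu && !vsl && ((!uvl && !uve) || (uve && !t)) then 2 else 0)
    else if u0 && (v0 || hpv) && hsv && !t then 1 else 0
  let W := if s then
      (if hsu && uvl && (vsl || (vse && !t)) then 1
      else if hsu && ((!vsl && !vse) || (vse && t)) && !uvl then 2 else 0)
    else if u0 && (v0 || hpv) && hsv && t then 1 else 0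
  tcol (v0 && !t) (u0 && !s) N E So W l k

/-- circuit for the final stage -/
noncomputable def finC : Circ := (exists_circ (k := 32) (by norm_num)
  [fun w => decide (colorW w ≠ 0), fun w => decide (colorW w ≠ 1), fun w => decide (colorW w ≠ 2)]).choose

lemma finC_spec : finC.2.length = 3 ∧ (∀ i ∈ finC.2, 32 ≤ i ∧ i < 32 + finC.1.length) ∧
    ∀ w : List Bool, w.length = 32 → evC finC w =
      [decide (colorW w ≠ 0), decide (colorW w ≠ 1), decide (colorW w ≠ 2)] := by
  have h := (exists_circ (k := 32) (by norm_num) [fun w => decide (colorW w ≠ 0),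
    fun w => decide (colorW w ≠ 1), fun w => decide (colorW w ≠ 2)]).choose_spec
  exact h

/-- state after the program -/
noncomputable def stP (n : ℕ) (S P : Circ) : Gates × List (List ℕ) :=
  prog.foldl (exI n S P (2 * n + 12)) ([], regs n)

/-- input wires of the final stage -/
noncomputable def finI (n : ℕ) (e : List (List ℕ)) : List ℕ :=
  [2, 3, 4, 5, 6] ++ [n + 7, n + 8, n + 9, n + 10, n + 11] ++
    (e.getD 9 [] ++ e.getD 10 [] ++ e.getD 11 [] ++ e.getD 12 [] ++ e.getD 13 [] ++ e.getD 14 [] ++
      e.getD 15 [] ++ e.getD 16 [] ++ e.getD 17 [] ++ e.getD 18 [] ++ e.getD 19 [])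

/-- the circuit computing which colours a grid point does not have -/
noncomputable def colorC (n : ℕ) (S P : Circ) : Circ :=
  ((stP n S P).1 ++ inst finC.1 (finI n (stP n S P).2) (2 * n + 12 + (stP n S P).1.length),
    finC.2.map (reloc (finI n (stP n S P).2) (2 * n + 12 + (stP n S P).1.length)))

lemma Vals.seg (a b c : List Bool) :
    Vals (a ++ b ++ c) [] ((List.range b.length).map (· + a.length)) b := by
  refine ⟨fun i hi => ?_, ?_⟩
  · obtain ⟨j, hj, rfl⟩ := List.mem_map.1 hi
    have := List.mem_range.1 hj
    simp; omega
  · rw [List.map_map]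
    apply List.ext_getElem
    · simp
    · intro i h1 h2
      simp only [List.getElem_map, List.getElem_range, Function.comp, evG_nil]
      rw [List.getD_append _ _ _ _ (by simp; omega), List.getD_append_right _ _ _ _ (by omega)]
      rw [Nat.add_sub_cancel, List.getD_eq_getElem _ _ h2]

lemma Vals.rep (inp : List Bool) (h0 : Vals inp [] [0, 1] [false, true]) (n : ℕ) :
    Vals inp [] (List.replicate n 0) (List.replicate n false) := by
  obtain ⟨h1, h2⟩ := h0
  simp only [evG_nil, List.map_cons, List.map_nil, List.cons.injEq, and_true] at h2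
  refine ⟨fun i hi => ?_, ?_⟩
  · rw [List.eq_of_mem_replicate hi]; exact h1 0 (by simp)
  · rw [List.map_replicate, evG_nil, h2.1]

/-- the function computed by a circuit on numbers -/
def natF (n : ℕ) (C : Circ) (v : ℕ) : ℕ := num (evC C (bits n v))

section

variable {n : ℕ} {S P : Circ} (hS : okOut n S) (hP : okOut n P) (lS : S.2.length = n)
  (lP : P.2.length = n) (lx v ly u : List Bool) (hlx : lx.length = 5) (hv : v.length = n)
  (hly : ly.length = 5) (hu : u.length = n)

lemma length_evC (C : Circ) (w : List Bool) : (evC C w).length = C.2.length := by simp [evC]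

lemma sem_prog : prog.foldl (exS S P) [v, u, List.replicate n false] =
    [v, u, List.replicate n false, evC S v, evC P (evC S v), evC P v, evC S (evC P v), evC S u,
      evC P (evC S u),
      [decide (num u < num v), decide (u = v)],
      [decide (num u < num (evC P v)), decide (u = evC P v)],
      [decide (num v < num (evC S u)), decide (v = evC S u)],
      [decide (num (evC S v) < num v), decide (evC S v = v)],
      [decide (num (evC P (evC S v)) < num v), decide (evC P (evC S v) = v)],
      [decide (num (evC P v) < num v), decide (evC P v = v)],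
      [decide (num (evC S (evC P v)) < num v), decide (evC S (evC P v) = v)],
      [decide (num (evC S u) < num u), decide (evC S u = u)],
      [decide (num (evC P (evC S u)) < num u), decide (evC P (evC S u) = u)],
      [decide (num v < num (List.replicate n false)), decide (v = List.replicate n false)],
      [decide (num u < num (List.replicate n false)), decide (u = List.replicate n false)]] := by
  simp only [prog, List.foldl_cons, List.foldl_nil, exS, List.cons_append, List.nil_append,
    List.getD_cons_zero, List.getD_cons_succ]

include lS lP hv hu in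
lemma insOK_prog : ∀ L' i, L' ++ [i] <+: prog →
    insOK n (L'.foldl (exS S P) [v, u, List.replicate n false]) i := by
  intro L' i h
  have hl := h.length_le
  obtain ⟨t, ht⟩ := h
  have e1 : ∀ C : Circ, ∀ w, C.2.length = n → (evC C w).length = n := fun C w h => by
    rw [length_evC, h]
  simp only [prog, List.length_append, List.length_cons, List.length_nil] at hl
  have h2 : L'.length < 17 := by omega
  have h3 : prog[L'.length]? = some i := by
    rw [← ht]; simp
  have h4 : L' = prog.take L'.length := by
    rw [← ht]; simp
  rw [h4]
  generalize L'.length = m at h2 h3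
  interval_cases m <;> simp only [prog, List.getElem?_cons_zero, List.getElem?_cons_succ,
    Option.some.injEq] at h3 <;> subst h3 <;>
    simp [prog, exS, insOK, hv, hu, e1, lS, lP]

/-- results of the comparisons -/
def cmps (S P : Circ) (n : ℕ) (v u : List Bool) : List Bool :=
  [decide (num u < num v), decide (u = v),
   decide (num u < num (evC P v)), decide (u = evC P v),
   decide (num v < num (evC S u)), decide (v = evC S u),
   decide (num (evC S v) < num v), decide (evC S v = v),
   decide (num (evC P (evC S v)) < num v), decide (evC P (evC S v) = v),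
   decide (num (evC P v) < num v), decide (evC P v = v),
   decide (num (evC S (evC P v)) < num v), decide (evC S (evC P v) = v),
   decide (num (evC S u) < num u), decide (evC S u = u),
   decide (num (evC P (evC S u)) < num u), decide (evC P (evC S u) = u),
   decide (num v < num (List.replicate n false)), decide (v = List.replicate n false),
   decide (num u < num (List.replicate n false)), decide (u = List.replicate n false)]

lemma cmps_of_env (inp : List Bool) (gs : Gates) (e : List (List ℕ))
    (h : EnvOK inp gs e (prog.foldl (exS S P) [v, u, List.replicate n false])) :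
    Vals inp gs (e.getD 9 [] ++ e.getD 10 [] ++ e.getD 11 [] ++ e.getD 12 [] ++ e.getD 13 [] ++
      e.getD 14 [] ++ e.getD 15 [] ++ e.getD 16 [] ++ e.getD 17 [] ++ e.getD 18 [] ++ e.getD 19 [])
      (cmps S P n v u) := by
  rw [sem_prog] at h
  have hlen : e.length = 20 := by
    rw [h.1]; simp only [List.length_cons, List.length_nil]
  have h2 := h.2
  rw [hlen] at h2
  have hv9 : Vals inp gs (e.getD 9 [])
      [decide (num u < num v), decide (u = v)] := h2 9 (by norm_num)
  have hv10 : Vals inp gs (e.getD 10 [])
      [decide (num u < num (evC P v)), decide (u = evC P v)] := h2 10 (by norm_num)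
  have hv11 : Vals inp gs (e.getD 11 [])
      [decide (num v < num (evC S u)), decide (v = evC S u)] := h2 11 (by norm_num)
  have hv12 : Vals inp gs (e.getD 12 [])
      [decide (num (evC S v) < num v), decide (evC S v = v)] := h2 12 (by norm_num)
  have hv13 : Vals inp gs (e.getD 13 [])
      [decide (num (evC P (evC S v)) < num v), decide (evC P (evC S v) = v)] := h2 13 (by norm_num)
  have hv14 : Vals inp gs (e.getD 14 [])
      [decide (num (evC P v) < num v), decide (evC P v = v)] := h2 14 (by norm_num)
  have hv15 : Vals inp gs (e.getD 15 [])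
      [decide (num (evC S (evC P v)) < num v), decide (evC S (evC P v) = v)] := h2 15 (by norm_num)
  have hv16 : Vals inp gs (e.getD 16 [])
      [decide (num (evC S u) < num u), decide (evC S u = u)] := h2 16 (by norm_num)
  have hv17 : Vals inp gs (e.getD 17 [])
      [decide (num (evC P (evC S u)) < num u), decide (evC P (evC S u) = u)] := h2 17 (by norm_num)
  have hv18 : Vals inp gs (e.getD 18 [])
      [decide (num v < num (List.replicate n false)), decide (v = List.replicate n false)] := h2 18 (by norm_num)
  have hv19 : Vals inp gs (e.getD 19 [])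
      [decide (num u < num (List.replicate n false)), decide (u = List.replicate n false)] := h2 19 (by norm_num)
  have key := (((((((((hv9.concat hv10).concat hv11).concat hv12).concat
    hv13).concat hv14).concat hv15).concat hv16).concat hv17).concat hv18).concat hv19
  simp only [List.cons_append, List.nil_append] at key
  unfold cmps
  exact key

lemma natF_num (C : Circ) (w : List Bool) (hw : w.length = n) : natF n C (num w) = num (evC C w) := by
  subst hw
  rw [natF, bits_num]

lemma hasS_iff (lS : S.2.length = n) (lP : P.2.length = n) (w : List Bool) (hw : w.length = n) :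
    hasS (natF n S) (natF n P) (num w) ↔ (evC S w ≠ w ∧ evC P (evC S w) = w) := by
  have l1 : (evC S w).length = n := by rw [length_evC, lS]
  have l2 : (evC P (evC S w)).length = n := by rw [length_evC, lP]
  unfold hasS
  rw [natF_num S w hw, natF_num P _ l1, Ne, num_inj (by rw [l1, hw]), num_inj (by rw [l2, hw])]

lemma hasP_iff (lS : S.2.length = n) (lP : P.2.length = n) (w : List Bool) (hw : w.length = n) :
    hasP (natF n S) (natF n P) (num w) ↔ (evC P w ≠ w ∧ evC S (evC P w) = w) := by
  have l1 : (evC P w).length = n := by rw [length_evC, lP]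
  have l2 : (evC S (evC P w)).length = n := by rw [length_evC, lS]
  unfold hasP
  rw [natF_num P w hw, natF_num S _ l1, Ne, num_inj (by rw [l1, hw]), num_inj (by rw [l2, hw])]

include lS lP hlx hv hly hu in
lemma colorW_eq : colorW (lx ++ ly ++ cmps S P n v u) =
    color (natF n S) (natF n P) (num (lx ++ v)) (num (ly ++ u)) := by
  obtain ⟨x0, x1, x2, x3, x4, rfl⟩ : ∃ x0 x1 x2 x3 x4, lx = [x0, x1, x2, x3, x4] := by
    match lx, hlx with
    | [a, b, c, d, e], _ => exact ⟨a, b, c, d, e, rfl⟩
  obtain ⟨y0, y1, y2, y3, y4, rfl⟩ : ∃ x0 x1 x2 x3 x4, ly = [x0, x1, x2, x3, x4] := by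
    match ly, hly with
    | [a, b, c, d, e], _ => exact ⟨a, b, c, d, e, rfl⟩
  have bt : ∀ b : Bool, b.toNat ≤ 1 := Bool.toNat_le
  have nx : num ([x0, x1, x2, x3, x4] ++ v) = x0.toNat + 2 * (x1.toNat + 2 * (x2.toNat +
      2 * (x3.toNat + 2 * (x4.toNat + 2 * num v)))) := by simp only [List.cons_append,
        List.nil_append, num]
  have ny : num ([y0, y1, y2, y3, y4] ++ u) = y0.toNat + 2 * (y1.toNat + 2 * (y2.toNat +
      2 * (y3.toNat + 2 * (y4.toNat + 2 * num u)))) := by simp only [List.cons_append,
        List.nil_append, num]
  have x_32 : num ([x0, x1, x2, x3, x4] ++ v) / 32 = num v := by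
    rw [nx]; have := bt x0; have := bt x1; have := bt x2; have := bt x3; have := bt x4; omega
  have x_16 : num ([x0, x1, x2, x3, x4] ++ v) / 16 = x4.toNat + 2 * num v := by
    rw [nx]; have := bt x0; have := bt x1; have := bt x2; have := bt x3; have := bt x4; omega
  have x_m : num ([x0, x1, x2, x3, x4] ++ v) % 16 =
      x0.toNat + 2 * (x1.toNat + 2 * (x2.toNat + 2 * x3.toNat)) := by
    rw [nx]; have := bt x0; have := bt x1; have := bt x2; have := bt x3; have := bt x4; omega
  have y_32 : num ([y0, y1, y2, y3, y4] ++ u) / 32 = num u := by
    rw [ny]; have := bt y0; have := bt y1; have := bt y2; have := bt y3; have := bt y4; omega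
  have y_16 : num ([y0, y1, y2, y3, y4] ++ u) / 16 = y4.toNat + 2 * num u := by
    rw [ny]; have := bt y0; have := bt y1; have := bt y2; have := bt y3; have := bt y4; omega
  have y_m : num ([y0, y1, y2, y3, y4] ++ u) % 16 =
      y0.toNat + 2 * (y1.toNat + 2 * (y2.toNat + 2 * y3.toNat)) := by
    rw [ny]; have := bt y0; have := bt y1; have := bt y2; have := bt y3; have := bt y4; omega
  have x_t : (x4.toNat + 2 * num v) % 2 = x4.toNat := by have := bt x4; omega
  have y_t : (y4.toNat + 2 * num u) % 2 = y4.toNat := by have := bt y4; omega
  unfold color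
  rw [x_32, x_16, x_m, y_32, y_16, y_m, x_t, y_t]
  have lPv : (evC P v).length = n := by rw [length_evC, lP]
  have lSu : (evC S u).length = n := by rw [length_evC, lS]
  have z0 : ∀ w : List Bool, w.length = n → ((w = List.replicate n false) ↔ num w = 0) := by
    intro w hw
    rw [← num_replicate_false n, num_inj (by simp [hw])]
  -- abbreviations
  have h1 := hasS_iff (S := S) (P := P) lS lP v hv
  have h2 := hasP_iff (S := S) (P := P) lS lP v hv
  have h3 := hasS_iff (S := S) (P := P) lS lP u hu
  have h4 := natF_num P v hv
  have h5 := natF_num S u hu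
  have i1 : (num u = num v) ↔ u = v := num_inj (by rw [hu, hv])
  have i2 : (num u = num (evC P v)) ↔ u = evC P v := num_inj (by rw [hu, lPv])
  have i3 : (num v = num (evC S u)) ↔ v = evC S u := num_inj (by rw [hv, lSu])
  have z1 := z0 v hv
  have z2 := z0 u hu
  unfold stN stE stS stW
  simp only [h1, h2, h3, h4, h5, i1, i2, i3]
  unfold colorW cmps
  simp only [List.cons_append, List.nil_append, List.getD_cons_zero, List.getD_cons_succ]
  congr 1
  · cases x4 <;> simp [z1]
  · cases y4 <;> simp [z2]
  · cases x4 <;> cases y4 <;> simp [and_assoc]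
  · cases x4 <;> cases y4 <;> simp [and_assoc, z1, z2]
  · cases x4 <;> cases y4 <;> simp [and_assoc, z2]
  · cases x4 <;> cases y4 <;> simp [and_assoc, z1, z2]

include hS hP lS lP hlx hv hly hu in
theorem colorC_correct :
    okOut (2 * n + 12) (colorC n S P) ∧ (colorC n S P).2.length = 3 ∧
    evC (colorC n S P) ([false, true] ++ lx ++ v ++ ly ++ u) =
      [decide (color (natF n S) (natF n P) (num (lx ++ v)) (num (ly ++ u)) ≠ 0),
       decide (color (natF n S) (natF n P) (num (lx ++ v)) (num (ly ++ u)) ≠ 1),
       decide (color (natF n S) (natF n P) (num (lx ++ v)) (num (ly ++ u)) ≠ 2)] := by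
  obtain ⟨inp, hinp⟩ : ∃ inp, inp = [false, true] ++ lx ++ v ++ ly ++ u := ⟨_, rfl⟩
  rw [← hinp]
  have hil : inp.length = 2 * n + 12 := by simp [hinp, hlx, hv, hly, hu]; omega
  have h0 : Vals inp [] [0, 1] [false, true] := by
    have := Vals.seg [] [false, true] (lx ++ v ++ ly ++ u)
    have e : (List.range 2).map (· + 0) = [0, 1] := rfl
    rw [hinp]
    simpa [List.range_succ] using this
  have r0 : Vals inp [] ((List.range n).map (· + 7)) v := by
    have := Vals.seg ([false, true] ++ lx) v (ly ++ u)
    simpa [hinp, hv, hlx] using this
  have r1 : Vals inp [] ((List.range n).map (· + (n + 12))) u := by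
    have := Vals.seg ([false, true] ++ lx ++ v ++ ly) u []
    have e : (([false, true] ++ lx ++ v ++ ly).length) = n + 12 := by simp [hlx, hv, hly]; omega
    rw [e, hu] at this
    simpa [hinp] using this
  have r3 : Vals inp [] [2, 3, 4, 5, 6] lx := by
    have := Vals.seg ([false, true]) lx (v ++ ly ++ u)
    rw [hlx] at this
    rw [hinp]
    simpa [List.range_succ] using this
  have r4 : Vals inp [] [n + 7, n + 8, n + 9, n + 10, n + 11] ly := by
    have := Vals.seg ([false, true] ++ lx ++ v) ly u
    rw [hly] at this
    have e : (([false, true] ++ lx ++ v).length) = n + 7 := by simp [hlx, hv]; omega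
    rw [e] at this
    have e2 : (List.range 5).map (· + (n + 7)) = [n + 7, n + 8, n + 9, n + 10, n + 11] := by
      simp [List.range_succ]; omega
    rw [e2] at this
    rw [hinp]
    exact this
  have hE : EnvOK inp ([] : Gates) (regs n) [v, u, List.replicate n false] := by
    refine ⟨rfl, fun i hi => ?_⟩
    have hi' : i < 3 := hi
    interval_cases i
    · exact r0
    · exact r1
    · exact Vals.rep inp h0 n
  have hprog := prog_correct hS hP h0 prog ([], regs n) _ hE
    (insOK_prog lS lP v u hv hu)
  rw [hil] at hprog
  change EnvOK inp (stP n S P).1 (stP n S P).2 _ at hprog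
  have r3' : Vals inp (stP n S P).1 [2, 3, 4, 5, 6] lx := by simpa using r3.append (stP n S P).1
  have r4' : Vals inp (stP n S P).1 [n + 7, n + 8, n + 9, n + 10, n + 11] ly := by
    simpa using r4.append (stP n S P).1
  have hfin : Vals inp (stP n S P).1 (finI n (stP n S P).2) (lx ++ ly ++ cmps S P n v u) :=
    (r3'.concat r4').concat (cmps_of_env v u inp _ _ hprog)
  have hWl : (lx ++ ly ++ cmps S P n v u).length = 32 := by
    simp only [List.length_append, hlx, hly]
    rfl
  have hcirc := hfin.circ finC (by
    intro i hi
    rw [hfin.length, hWl]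
    exact (finC_spec.2.1 i hi).2)
  rw [hil, finC_spec.2.2 _ hWl, colorW_eq lS lP lx v ly u hlx hv hly hu] at hcirc
  refine ⟨fun i hi => ?_, by simp [colorC, finC_spec.1], ?_⟩
  · have := hcirc.1 i hi
    rw [hil] at this
    exact this
  · exact hcirc.2

end

end Pool.Agent.H74.PPAD
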