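import Pool.Agent.H74.PPADNet

/-!
# Rounding a coordinate by ReLU gates
-/

set_option autoImplicit false

namespace Pool.Agent.H74.PPAD

/-- `2 ^ j` -/
def pow2 (j : ℕ) : BInt := (false, List.replicate j false ++ [true])
/-- `-2 ^ j` -/
def npow2 (j : ℕ) : BInt := (true, List.replicate j false ++ [true])
/-- `2 ^ j - 1` -/
def ones (j : ℕ) : BInt := (false, List.replicate j true)
/-- `-(2 ^ j - 1)` -/
def nones (j : ℕ) : BInt := (true, List.replicate j true)

lemma num_pow2 (j : ℕ) : num (List.replicate j false ++ [true]) = 2 ^ j := by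
  rw [num_append, num_replicate_false]; simp [num]

lemma bval_pow2 (j : ℕ) : bval (pow2 j) = 2 ^ j := by simp [bval, pow2, num_pow2]
lemma bval_npow2 (j : ℕ) : bval (npow2 j) = -2 ^ j := by simp [bval, npow2, num_pow2]
lemma bval_ones (j : ℕ) : bval (ones j) = 2 ^ j - 1 := by
  simp [bval, ones, num_replicate_true, Nat.one_le_two_pow]
lemma bval_nones (j : ℕ) : bval (nones j) = -(2 ^ j - 1) := by
  simp [bval, nones, num_replicate_true, Nat.one_le_two_pow]

/-- the clipped and scaled coordinate -/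
def headG (k : Bool) (m b : ℕ) : List RG :=
  [(ones m, (if k then (npow2 m, bz) else (bz, npow2 m)), []), gt (ones m) [(b, bm1)]]

/-- one folding step, reading wire `i`, threshold `2 ^ j`, placed at `s` -/
def foldS (i j s : ℕ) : List RG :=
  [gt (npow2 j) [(i, b1)], gt (pow2 j) [(i, bm1)], gt bz [(s, b1), (s + 1, b1)]]

/-- the folding steps -/
def foldG (m b : ℕ) : ℕ → List RG := fun t => (List.range t).flatMap fun i =>
  foldS (b + 1 + 3 * i) (m - 1 - i) (b + 2 + 3 * i)

/-- the two weights -/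
def wG (m b : ℕ) : List RG :=
  [gt bm1 [(b + 1 + 3 * m, pow2 2)], gt (ones 2) [(b + 1 + 3 * m, npow2 2)]]

/-- one step of the bit extraction, reading wire `i`, threshold `2 ^ j`, placed at `s` -/
def bitS (i j s : ℕ) : List RG :=
  [gt (nones (j + 2)) [(i, pow2 2)], gt b1 [(s, bm1)], gt b1 [(s + 1, bm1)],
    gt bz [(i, b1), (s + 2, npow2 j)]]

/-- the bit extraction -/
def bitG (m e : ℕ) : ℕ → List RG := fun t => (List.range t).flatMap fun i =>
  bitS (e + 4 * i) (m - 1 - i) (e + 1 + 4 * i)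

/-- the gates for one coordinate and one parity -/
def parG (a : Bool) (m b e : ℕ) : List RG :=
  gt (if a then bz else b1) [(b + 1, b1)] :: bitG m e (m - 1)

/-- wires with the bits -/
def bitW (a : Bool) (m e : ℕ) : List ℕ :=
  (if a then 1 else 0) :: (List.range (m - 1)).map fun j => e + 3 + 4 * (m - 2 - j)

/-- all gates for one coordinate, placed at `b` -/
def coordG (k : Bool) (m b : ℕ) : List RG :=
  headG k m b ++ foldG m b m ++ wG m b ++ parG false m b (b + 4 + 3 * m) ++
    parG true m b (b + 4 + 3 * m + (4 * (m - 1) + 1))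

section

variable {u₀ u₁ : ℝ}

lemma foldG_succ (m b t : ℕ) : foldG m b (t + 1) = foldG m b t ++
    foldS (b + 1 + 3 * t) (m - 1 - t) (b + 2 + 3 * t) := by simp [foldG, List.range_succ]

lemma length_foldG (m b t : ℕ) : (foldG m b t).length = 3 * t := by
  induction t with
  | zero => rfl
  | succ t ih => rw [foldG_succ, List.length_append, ih]; simp [foldS]; ring

lemma bitG_succ (m e t : ℕ) : bitG m e (t + 1) = bitG m e t ++
    bitS (e + 4 * t) (m - 1 - t) (e + 1 + 4 * t) := by simp [bitG, List.range_succ]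

lemma length_bitG (m e t : ℕ) : (bitG m e t).length = 4 * t := by
  induction t with
  | zero => rfl
  | succ t ih => rw [bitG_succ, List.length_append, ih]; simp [bitS]; ring

lemma length_parG (a : Bool) (m b e : ℕ) : (parG a m b e).length = 4 * (m - 1) + 1 := by
  simp [parG, length_bitG]

lemma length_coordG (k : Bool) (m b : ℕ) :
    (coordG k m b).length = 4 + 3 * m + 2 * (4 * (m - 1) + 1) := by
  simp [coordG, length_parG, length_foldG, headG, wG]; omega

lemma RV.head (k : Bool) (m : ℕ) (gs : List RG) (b : ℕ) (hb : gs.length = b)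
    (hu : 0 ≤ (if k then u₀ else u₁)) :
    RV u₀ u₁ (gs ++ headG k m b) (b + 1) (min (2 ^ m * (if k then u₀ else u₁)) (2 ^ m - 1)) := by
  have h1 : RV u₀ u₁ (gs ++ [(ones m, (if k then (npow2 m, bz) else (bz, npow2 m)), [])]) b
      (max 0 ((2 ^ m - 1) - 2 ^ m * (if k then u₀ else u₁))) := by
    have := RV.new (u₀ := u₀) (u₁ := u₁) gs
      (ones m, (if k then (npow2 m, bz) else (bz, npow2 m)), [])
    rw [hb] at this
    cases k
    · simp only [Bool.false_eq_true, if_false, bval_ones, bval_bz, bval_npow2, dotp_nil] at this ⊢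
      push_cast at this
      convert this using 2
      ring
    · simp only [if_true, bval_ones, bval_bz, bval_npow2, dotp_nil] at this ⊢
      push_cast at this
      convert this using 2
      ring
  have h2 := h1.one (ones m) bm1
  have e : gs ++ headG k m b =
      (gs ++ [(ones m, (if k then (npow2 m, bz) else (bz, npow2 m)), [])]) ++
        [gt (ones m) [(b, bm1)]] := by simp [headG]
  rw [e]
  have hl : (gs ++ [(ones m, (if k then (npow2 m, bz) else (bz, npow2 m)), [])] : List RG).length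
      = b + 1 := by simp [hb]
  rw [hl] at h2
  convert h2 using 1
  rw [bval_ones, bval_bm1]
  push_cast
  have h2m : (1:ℝ) ≤ 2 ^ m := one_le_pow₀ (by norm_num)
  have hu' : 0 ≤ 2 ^ m * (if k then u₀ else u₁) := by positivity
  rcases le_total (2 ^ m * (if k then u₀ else u₁)) (2 ^ m - 1) with h | h
  · rw [min_eq_left h, max_eq_right (a := (0:ℝ)) (b := 2 ^ m - 1 - _) (by linarith),
      max_eq_right (by linarith)]
    ring
  · rw [min_eq_right h, max_eq_left (a := (0:ℝ)) (b := 2 ^ m - 1 - _) (by linarith),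
      max_eq_right (by linarith)]
    ring

lemma RV.foldS {gs : List RG} {i j s : ℕ} {z : ℝ} (h : RV u₀ u₁ gs i z) (hs : gs.length = s) :
    RV u₀ u₁ (gs ++ foldS i j s) (s + 2) |z - 2 ^ j| := by
  have h1 := h.one (npow2 j) b1
  rw [hs] at h1
  have h2 := (h.append [gt (npow2 j) [(i, b1)]]).one (pow2 j) bm1
  have l2 : (gs ++ [gt (npow2 j) [(i, b1)]]).length = s + 1 := by simp [hs]
  rw [l2] at h2
  have h3 := (h1.append [gt (pow2 j) [(i, bm1)]]).two h2 (by omega) bz b1 b1
  have l3 : (gs ++ [gt (npow2 j) [(i, b1)]] ++ [gt (pow2 j) [(i, bm1)]]).length = s + 2 := by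
    simp [hs]
  rw [l3] at h3
  have e : gs ++ PPAD.foldS i j s = gs ++ [gt (npow2 j) [(i, b1)]] ++ [gt (pow2 j) [(i, bm1)]] ++
      [gt bz [(s, b1), (s + 1, b1)]] := by simp [PPAD.foldS]
  rw [e]
  convert h3 using 1
  rw [bval_npow2, bval_pow2, bval_bz, bval_b1, bval_bm1]
  push_cast
  rcases le_total z (2 ^ j) with hz | hz
  · rw [abs_of_nonpos (by linarith), max_eq_left (a := (0:ℝ)) (b := -2 ^ j + 1 * z) (by linarith),
      max_eq_right (a := (0:ℝ)) (b := 2 ^ j + -1 * z) (by linarith), max_eq_right (by linarith)]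
    ring
  · rw [abs_of_nonneg (by linarith), max_eq_right (a := (0:ℝ)) (b := -2 ^ j + 1 * z) (by linarith),
      max_eq_left (a := (0:ℝ)) (b := 2 ^ j + -1 * z) (by linarith), max_eq_right (by linarith)]
    ring

/-- the folding computes the distance to the nearest odd integer -/
lemma RV.foldG {gs : List RG} {m b : ℕ} {X : ℝ} (hm : 1 ≤ m) (h : RV u₀ u₁ gs (b + 1) X)
    (hs : gs.length = b + 2) (k : ℕ) (hk : k < 2 ^ (m - 1)) (h1 : 2 * (k:ℝ) ≤ X)
    (h2 : X ≤ 2 * k + 2) :
    RV u₀ u₁ (gs ++ foldG m b m) (b + 1 + 3 * m) |X - (2 * k + 1)| := by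
  have key : ∀ t ≤ m - 1, ∃ (z : ℝ) (k' : ℕ), RV u₀ u₁ (gs ++ PPAD.foldG m b t) (b + 1 + 3 * t) z ∧
      k' < 2 ^ (m - 1 - t) ∧ 2 * (k':ℝ) ≤ z ∧ z ≤ 2 * k' + 2 ∧
      |z - (2 * k' + 1)| = |X - (2 * k + 1)| := by
    intro t
    induction t with
    | zero =>
      intro _
      exact ⟨X, k, by simpa [PPAD.foldG] using h, by simpa using hk, h1, h2, rfl⟩
    | succ t ih =>
      intro ht
      obtain ⟨z, k', hz, hk', a1, a2, a3⟩ := ih (by omega)
      have hl : (gs ++ PPAD.foldG m b t).length = b + 2 + 3 * t := by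
        rw [List.length_append, length_foldG, hs]
      have h3 := hz.foldS (j := m - 1 - t) hl
      rw [foldG_succ, ← List.append_assoc]
      obtain ⟨j, hj⟩ : ∃ j, m - 1 - t = j + 1 := ⟨m - 1 - (t + 1), by omega⟩
      have hj' : m - 1 - (t + 1) = j := by omega
      rw [hj] at hk' h3 ⊢
      rw [hj']
      have e1 : b + 1 + 3 * (t + 1) = b + 2 + 3 * t + 2 := by ring
      rw [e1]
      have hp : (2:ℝ) ^ (j + 1) = 2 * 2 ^ j := by ring
      rcases Nat.lt_or_ge k' (2 ^ j) with hc | hc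
      · have hc' : (k' : ℝ) + 1 ≤ 2 ^ j := by exact_mod_cast hc
        refine ⟨_, 2 ^ j - 1 - k', h3, by omega, ?_, ?_, ?_⟩
        · rw [Nat.sub_sub, Nat.cast_sub (by omega)]
          push_cast
          rw [abs_of_nonpos (by rw [hp]; linarith), hp]
          linarith
        · rw [Nat.sub_sub, Nat.cast_sub (by omega)]
          push_cast
          rw [abs_of_nonpos (by rw [hp]; linarith), hp]
          linarith
        · rw [← a3, Nat.sub_sub, Nat.cast_sub (by omega)]
          push_cast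
          rw [abs_of_nonpos (a := z - 2 ^ (j + 1)) (by rw [hp]; linarith), hp,
            ← abs_neg (z - (2 * (k':ℝ) + 1))]
          congr 1
          ring
      · have hc' : (2:ℝ) ^ j ≤ k' := by exact_mod_cast hc
        refine ⟨_, k' - 2 ^ j, h3, by rw [pow_succ] at hk'; omega, ?_, ?_, ?_⟩
        · rw [Nat.cast_sub hc]
          push_cast
          rw [abs_of_nonneg (by rw [hp]; linarith), hp]
          linarith
        · rw [Nat.cast_sub hc]
          push_cast
          rw [abs_of_nonneg (by rw [hp]; linarith), hp]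
          linarith
        · rw [← a3, Nat.cast_sub hc]
          push_cast
          rw [abs_of_nonneg (a := z - 2 ^ (j + 1)) (by rw [hp]; linarith), hp]
          congr 1
          ring
  obtain ⟨z, k', hz, hk', a1, a2, a3⟩ := key (m - 1) le_rfl
  have hk0 : k' = 0 := by simpa using hk'
  subst hk0
  have hl : (gs ++ PPAD.foldG m b (m - 1)).length = b + 2 + 3 * (m - 1) := by
    rw [List.length_append, length_foldG, hs]
  have h3 := hz.foldS (j := 0) hl
  obtain ⟨m', rfl⟩ : ∃ m', m = m' + 1 := ⟨m - 1, by omega⟩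
  simp only [Nat.add_sub_cancel] at *
  rw [foldG_succ, ← List.append_assoc]
  simp only [Nat.add_sub_cancel, Nat.sub_self]
  have e1 : b + 1 + 3 * (m' + 1) = b + 2 + 3 * m' + 2 := by ring
  rw [e1]
  convert h3 using 1
  rw [← a3]
  simp

lemma RV.wG {gs : List RG} {m b : ℕ} {w : ℝ} (h : RV u₀ u₁ gs (b + 1 + 3 * m) w)
    (hs : gs.length = b + 2 + 3 * m) :
    RV u₀ u₁ (gs ++ wG m b) (b + 2 + 3 * m) (max 0 (4 * w - 1)) ∧
    RV u₀ u₁ (gs ++ wG m b) (b + 3 + 3 * m) (max 0 (3 - 4 * w)) := by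
  have h1 := h.one bm1 (pow2 2)
  rw [hs] at h1
  have h2 := (h.append [gt bm1 [(b + 1 + 3 * m, pow2 2)]]).one (ones 2) (npow2 2)
  have l2 : (gs ++ [gt bm1 [(b + 1 + 3 * m, pow2 2)]]).length = b + 3 + 3 * m := by
    simp [hs]; ring
  rw [l2] at h2
  have e : gs ++ PPAD.wG m b = gs ++ [gt bm1 [(b + 1 + 3 * m, pow2 2)]] ++
    [gt (ones 2) [(b + 1 + 3 * m, npow2 2)]] := by simp [PPAD.wG]
  rw [e]
  constructor
  · convert h1.append _ using 2
    rw [bval_bm1, bval_pow2]; push_cast; ring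
  · convert h2 using 2
    rw [bval_ones, bval_npow2]; push_cast; ring

lemma RV.bitS {gs : List RG} {i j s : ℕ} {z : ℝ} (h : RV u₀ u₁ gs i z) (hs : gs.length = s)
    (c : Bool) (hc : (c = true ∧ 2 ^ j ≤ z) ∨ (c = false ∧ 0 ≤ z ∧ z ≤ 2 ^ j - 1 / 4)) :
    RV u₀ u₁ (gs ++ bitS i j s) (s + 2) (b2r c) ∧
    RV u₀ u₁ (gs ++ bitS i j s) (s + 3) (z - 2 ^ j * b2r c) := by
  have h1 := h.one (nones (j + 2)) (pow2 2)
  rw [hs] at h1
  have l1 : (gs ++ [gt (nones (j + 2)) [(i, pow2 2)]]).length = s + 1 := by simp [hs]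
  have h2 := h1.one b1 bm1
  rw [l1] at h2
  have l2 : (gs ++ [gt (nones (j + 2)) [(i, pow2 2)]] ++ [gt b1 [(s, bm1)]]).length = s + 2 := by
    simp [hs]
  have h3 := h2.one b1 bm1
  rw [l2] at h3
  have l3 : (gs ++ [gt (nones (j + 2)) [(i, pow2 2)]] ++ [gt b1 [(s, bm1)]] ++
    [gt b1 [(s + 1, bm1)]]).length = s + 3 := by simp [hs]
  have hi := h.1
  have h4 := (((h.append [gt (nones (j + 2)) [(i, pow2 2)]]).append [gt b1 [(s, bm1)]]).append
    [gt b1 [(s + 1, bm1)]]).two h3 (by omega) bz b1 (npow2 j)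
  rw [l3] at h4
  have e : gs ++ PPAD.bitS i j s = gs ++ [gt (nones (j + 2)) [(i, pow2 2)]] ++ [gt b1 [(s, bm1)]] ++
      [gt b1 [(s + 1, bm1)]] ++ [gt bz [(i, b1), (s + 2, npow2 j)]] := by simp [PPAD.bitS]
  rw [e]
  have v1 : max 0 (((bval b1 : ℤ) : ℝ) + (bval bm1 : ℤ) * max 0 (((bval b1 : ℤ) : ℝ) +
      (bval bm1 : ℤ) * max 0 (((bval (nones (j + 2)) : ℤ) : ℝ) + (bval (pow2 2) : ℤ) * z))) =
      b2r c := by
    rw [bval_b1, bval_bm1, bval_nones, bval_pow2]
    push_cast
    have hp : (2:ℝ) ^ (j + 2) = 4 * 2 ^ j := by ring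
    have hp0 : (0:ℝ) < 2 ^ j := by positivity
    rcases hc with ⟨rfl, hc⟩ | ⟨rfl, hc, hc'⟩
    · have h5 : 1 ≤ max 0 (-((2:ℝ) ^ (j + 2) - 1) + 4 * z) := by
        apply le_max_of_le_right
        rw [hp]; linarith
      rw [max_eq_left (a := (0:ℝ)) (b := 1 + -1 * max 0 (-((2:ℝ) ^ (j + 2) - 1) + 4 * z))
        (by linarith)]
      simp [b2r]
    · rw [max_eq_left (a := (0:ℝ)) (b := -((2:ℝ) ^ (j + 2) - 1) + 4 * z)
        (by rw [hp]; linarith)]
      simp [b2r]
  rw [v1] at h3 h4
  refine ⟨h3.append _, ?_⟩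
  convert h4 using 1
  rw [bval_bz, bval_b1, bval_npow2]
  push_cast
  rcases hc with ⟨rfl, hc⟩ | ⟨rfl, hc, hc'⟩
  · rw [max_eq_right (by simp [b2r]; linarith)]; ring
  · rw [max_eq_right (by simp [b2r]; linarith)]; ring

/-- the bits of the rounded coordinate -/
lemma RV.bitG {gs : List RG} {m e : ℕ} {Z : ℝ} (hm : 1 ≤ m) (h : RV u₀ u₁ gs e Z)
    (hs : gs.length = e + 1) (k : ℕ) (hk : k < 2 ^ (m - 1)) (h1 : 2 * (k:ℝ) ≤ Z)
    (h2 : Z ≤ 2 * k + 7 / 4) :
    ∀ i < m - 1, RV u₀ u₁ (gs ++ bitG m e (m - 1)) (e + 3 + 4 * i) (b2r (k.testBit (m - 2 - i))) := by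
  have key : ∀ t ≤ m - 1, RV u₀ u₁ (gs ++ PPAD.bitG m e t) (e + 4 * t)
        (Z - 2 * k + 2 * ((k % 2 ^ (m - 1 - t) : ℕ) : ℝ)) ∧
      ∀ i < t, RV u₀ u₁ (gs ++ PPAD.bitG m e t) (e + 3 + 4 * i) (b2r (k.testBit (m - 2 - i))) := by
    intro t
    induction t with
    | zero =>
      intro _
      refine ⟨?_, by simp⟩
      have : k % 2 ^ (m - 1 - 0) = k := by rw [Nat.sub_zero]; exact Nat.mod_eq_of_lt hk
      rw [this]
      simpa [PPAD.bitG] using h
    | succ t ih =>
      intro ht
      obtain ⟨a1, a2⟩ := ih (by omega)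
      have hl : (gs ++ PPAD.bitG m e t).length = e + 1 + 4 * t := by
        rw [List.length_append, length_bitG, hs]
      obtain ⟨j, hj⟩ : ∃ j, m - 1 - t = j + 1 := ⟨m - 1 - (t + 1), by omega⟩
      have hj' : m - 1 - (t + 1) = j := by omega
      have hj'' : m - 2 - t = j := by omega
      have hmod : k % 2 ^ (j + 1) = k % 2 ^ j + 2 ^ j * (k.testBit j).toNat := by
        rw [Nat.mod_pow_succ, Nat.toNat_testBit]
      have hlt : k % 2 ^ j < 2 ^ j := Nat.mod_lt _ (by positivity)
      rw [hj] at a1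
      have hp : (2:ℝ) ^ (j + 1) = 2 * 2 ^ j := by ring
      have hlt' : ((k % 2 ^ j : ℕ) : ℝ) + 1 ≤ 2 ^ j := by exact_mod_cast hlt
      have hnn : (0:ℝ) ≤ ((k % 2 ^ j : ℕ) : ℝ) := Nat.cast_nonneg _
      have h3 := a1.bitS (j := j + 1) hl (k.testBit j) (by
        rw [hmod]
        cases k.testBit j with
        | false =>
          right
          refine ⟨rfl, ?_, ?_⟩
          · push_cast
            simp only [Bool.toNat_false, Nat.cast_zero, mul_zero, add_zero]
            linarith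
          · push_cast
            simp only [Bool.toNat_false, Nat.cast_zero, mul_zero, add_zero]
            rw [hp]; linarith
        | true =>
          left
          refine ⟨rfl, ?_⟩
          push_cast
          simp only [Bool.toNat_true, Nat.cast_one, mul_one]
          rw [hp]; linarith)
      rw [bitG_succ, ← List.append_assoc, hj, hj']
      refine ⟨?_, fun i hi => ?_⟩
      · have e1 : e + 4 * (t + 1) = e + 1 + 4 * t + 3 := by ring
        rw [e1]
        convert h3.2 using 1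
        rw [hmod]
        push_cast
        cases k.testBit j
        · simp [b2r]
        · simp only [Bool.toNat_true, Nat.cast_one, b2r, if_true]
          rw [hp]; ring
      · rcases Nat.lt_or_ge i t with hi' | hi'
        · exact (a2 i hi').append _
        · have : i = t := by omega
          subst this
          rw [hj'']
          have e1 : e + 3 + 4 * i = e + 1 + 4 * i + 2 := by ring
          rw [e1]
          exact h3.1
  exact (key (m - 1) le_rfl).2

lemma RVs_bitW {gs : List RG} {m e k : ℕ} (hm : 2 ≤ m) (a : Bool)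
    (hc : RV u₀ u₁ gs (if a then 1 else 0) (b2r a))
    (h : ∀ i < m - 1, RV u₀ u₁ gs (e + 3 + 4 * i) (b2r (k.testBit (m - 2 - i)))) :
    RVs (u₀ := u₀) (u₁ := u₁) gs (bitW a m e) ((bits m (2 * k + a.toNat)).map b2r) := by
  obtain ⟨m', rfl⟩ : ∃ m', m = m' + 1 := ⟨m - 1, by omega⟩
  have e1 : (2 * k + a.toNat) / 2 = k := by have := Bool.toNat_le a; omega
  have e2 : (2 * k + a.toNat).testBit 0 = a := by
    rw [Nat.testBit_zero]
    cases a <;> simp [Nat.add_mod]
  rw [bits_succ, e1, e2]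
  unfold bitW
  simp only [Nat.add_sub_cancel] at h ⊢
  refine ⟨?_, ?_⟩
  · intro i hi
    rcases List.mem_cons.1 hi with rfl | hi
    · exact hc.1
    · obtain ⟨j, hj, rfl⟩ := List.mem_map.1 hi
      have hj' := List.mem_range.1 hj
      exact (h (m' + 1 - 2 - j) (by omega)).1
  · rw [List.map_cons, List.map_cons, List.map_map, bits, List.map_map]
    congr 1
    · exact hc.2
    · refine List.map_congr_left fun j hj => ?_
      have hj' := List.mem_range.1 hj
      have h1 := (h (m' + 1 - 2 - j) (by omega)).2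
      simp only [Function.comp]
      rw [h1]
      congr 2
      omega

lemma RV.parG {gs : List RG} {m b e : ℕ} {X : ℝ} (hm : 2 ≤ m) (a : Bool)
    (h0 : RV u₀ u₁ gs 0 0) (h1 : RV u₀ u₁ gs 1 1) (hX : RV u₀ u₁ gs (b + 1) X) (hX0 : 0 ≤ X)
    (hs : gs.length = e) (k : ℕ) (hk : k < 2 ^ (m - 1))
    (h2 : 2 * (k:ℝ) ≤ X + (1 - b2r a)) (h3 : X + (1 - b2r a) ≤ 2 * k + 7 / 4) :
    RVs (u₀ := u₀) (u₁ := u₁) (gs ++ parG a m b e) (bitW a m e)
      ((bits m (2 * k + a.toNat)).map b2r) := by
  have h4 := hX.one (if a then bz else b1) b1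
  rw [hs] at h4
  have e1 : gs ++ PPAD.parG a m b e = gs ++ [gt (if a then bz else b1) [(b + 1, b1)]] ++
      PPAD.bitG m e (m - 1) := by simp [PPAD.parG]
  rw [e1]
  refine RVs_bitW hm a ?_ ?_
  · cases a
    · rw [show b2r false = 0 by simp [b2r]]; exact (h0.append _).append _
    · rw [show b2r true = 1 by simp [b2r]]; exact (h1.append _).append _
  · have hb0 : 0 ≤ 1 - b2r a := by cases a <;> simp [b2r]
    refine RV.bitG (Z := X + (1 - b2r a)) (by omega) ?_ (by simp [hs]) k hk h2 h3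
    convert h4 using 1
    rw [max_eq_right]
    · cases a <;> simp [b2r, bval_bz, bval_b1, add_comm]
    · cases a
      · simp [bval_b1]; linarith
      · simpa [bval_bz, bval_b1] using hX0

lemma RVs.append {gs : List RG} {is : List ℕ} {rs : List ℝ}
    (h : RVs (u₀ := u₀) (u₁ := u₁) gs is rs) (hs : List RG) :
    RVs (u₀ := u₀) (u₁ := u₁) (gs ++ hs) is rs := by
  refine ⟨fun i hi => by rw [List.length_append]; have := h.1 i hi; omega, ?_⟩
  rw [← h.2]
  exact List.map_congr_left fun i hi => getD_rrun_append _ _ _ _ (h.1 i hi)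

/-- **Summary for one coordinate.** -/
theorem coord_sum (k : Bool) (m b : ℕ) (gs : List RG) (hm : 2 ≤ m) (hb : gs.length = b)
    (h0 : RV u₀ u₁ gs 0 0) (h1 : RV u₀ u₁ gs 1 1) (hu : 0 ≤ (if k then u₀ else u₁)) :
    ∃ W : Bool → ℝ, ∃ X : ℝ, X = min (2 ^ m * (if k then u₀ else u₁)) (2 ^ m - 1) ∧
      RV u₀ u₁ (gs ++ coordG k m b) (b + 2 + 3 * m) (W false) ∧
      RV u₀ u₁ (gs ++ coordG k m b) (b + 3 + 3 * m) (W true) ∧
      (∀ a, 0 ≤ W a ∧ W a ≤ 3) ∧ (∃ a, 1 ≤ W a) ∧
      ∀ a, 0 < W a → ∃ r : ℕ, r < 2 ^ m ∧ |X - r| < 3 / 4 ∧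
        RVs (u₀ := u₀) (u₁ := u₁) (gs ++ coordG k m b)
          (bitW a m (if a then b + 4 + 3 * m + (4 * (m - 1) + 1) else b + 4 + 3 * m))
          ((bits m r).map b2r) := by
  set u := (if k then u₀ else u₁) with hu_def
  set X := min (2 ^ m * u) (2 ^ m - 1) with hX
  have h2m : (1:ℝ) ≤ 2 ^ m := one_le_pow₀ (by norm_num)
  have hX0 : 0 ≤ X := le_min (by positivity) (by linarith)
  have hXm : X ≤ 2 ^ m - 1 := min_le_right _ _
  have hhead := RV.head k m gs b hb hu
  rw [← hu_def, ← hX] at hhead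
  have lhead : (gs ++ headG k m b).length = b + 2 := by simp [hb, headG]
  -- k₀ = floor (X / 2)
  obtain ⟨k₀, hk1, hk2⟩ : ∃ k₀ : ℕ, 2 * (k₀:ℝ) ≤ X ∧ X < 2 * k₀ + 2 := by
    refine ⟨⌊X / 2⌋₊, ?_, ?_⟩
    · have := Nat.floor_le (a := X / 2) (by positivity)
      linarith
    · have := Nat.lt_floor_add_one (X / 2)
      linarith
  have hp : (2:ℝ) ^ m = 2 * 2 ^ (m - 1) := by
    rw [← pow_succ']; congr 1; omega
  have hk3 : k₀ < 2 ^ (m - 1) := by
    have : (k₀ : ℝ) < 2 ^ (m - 1) := by rw [hp] at hXm; linarith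
    exact_mod_cast this
  have hfold := hhead.foldG (by omega) lhead k₀ hk3 hk1 hk2.le
  have lfold : (gs ++ headG k m b ++ foldG m b m).length = b + 2 + 3 * m := by
    rw [List.length_append, lhead, length_foldG]
  obtain ⟨hW0, hW1⟩ := hfold.wG lfold
  set w := |X - (2 * (k₀:ℝ) + 1)| with hw
  have hw0 : 0 ≤ w := abs_nonneg _
  have hw1 : w ≤ 1 := by
    rw [hw, abs_le]; constructor <;> linarith
  set gs1 := gs ++ headG k m b ++ foldG m b m ++ wG m b with hgs1
  have l1 : gs1.length = b + 4 + 3 * m := by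
    rw [hgs1, List.length_append, lfold]; simp [wG]; ring
  set gs2 := gs1 ++ parG false m b (b + 4 + 3 * m) with hgs2
  have l2 : gs2.length = b + 4 + 3 * m + (4 * (m - 1) + 1) := by
    rw [hgs2, List.length_append, l1, length_parG]
  have e : gs ++ coordG k m b = gs2 ++ parG true m b (b + 4 + 3 * m + (4 * (m - 1) + 1)) := by
    simp [hgs2, hgs1, coordG]
  have h0' : RV u₀ u₁ gs1 0 0 := ((h0.append _).append _).append _
  have h1' : RV u₀ u₁ gs1 1 1 := ((h1.append _).append _).append _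
  have hX1 : RV u₀ u₁ gs1 (b + 1) X := (hhead.append _).append _
  have hm1 : ((2:ℕ) ^ m : ℝ) = 2 ^ m := by norm_num
  refine ⟨fun a => if a then max 0 (3 - 4 * w) else max 0 (4 * w - 1), X, rfl, ?_, ?_, ?_, ?_, ?_⟩
  · rw [e]
    exact (hW0.append (parG false m b (b + 4 + 3 * m))).append _
  · rw [e]
    exact (hW1.append (parG false m b (b + 4 + 3 * m))).append _
  · intro a
    cases a
    · exact ⟨by simp, by simp; linarith⟩
    · exact ⟨by simp, by simp; linarith⟩
  · rcases le_total (1 / 2) w with h | h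
    · exact ⟨false, by simp; right; linarith⟩
    · exact ⟨true, by simp; right; linarith⟩
  · intro a ha
    rw [e]
    cases a
    · simp only [Bool.false_eq_true, if_false] at ha ⊢
      have hw14 : 1 / 4 < w := by
        by_contra hcon
        rw [max_eq_left (by linarith)] at ha
        exact lt_irrefl _ ha
      rcases lt_or_ge X (2 * k₀ + 1) with hc | hc
      · have hwe : w = 2 * k₀ + 1 - X := by rw [hw, abs_of_nonpos (by linarith)]; ring
        refine ⟨2 * k₀, ?_, ?_, ?_⟩
        · have : 2 ^ m = 2 * 2 ^ (m - 1) := by rw [← pow_succ']; congr 1; omega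
          omega
        · push_cast
          rw [abs_lt]; constructor <;> linarith
        · have := RV.parG hm false h0' h1' hX1 hX0 l1 k₀ hk3 (by simp [b2r]; linarith)
            (by simp [b2r]; linarith)
          exact this.append (parG true m b (b + 4 + 3 * m + (4 * (m - 1) + 1)))
      · have hwe : w = X - (2 * k₀ + 1) := by rw [hw, abs_of_nonneg (by linarith)]
        have hk4 : k₀ + 1 < 2 ^ (m - 1) := by
          by_contra hcon
          have h5 : k₀ + 1 = 2 ^ (m - 1) := by omega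
          have h6 : (k₀ : ℝ) + 1 = 2 ^ (m - 1) := by exact_mod_cast h5
          rw [hp, ← h6] at hXm
          linarith
        refine ⟨2 * (k₀ + 1), ?_, ?_, ?_⟩
        · have : 2 ^ m = 2 * 2 ^ (m - 1) := by rw [← pow_succ']; congr 1; omega
          omega
        · push_cast
          rw [abs_lt]; constructor <;> linarith
        · have := RV.parG hm false h0' h1' hX1 hX0 l1 (k₀ + 1) hk4 (by simp [b2r]; linarith)
            (by simp [b2r]; linarith)
          exact this.append (parG true m b (b + 4 + 3 * m + (4 * (m - 1) + 1)))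
    · simp only [if_true] at ha ⊢
      have hw34 : w < 3 / 4 := by
        by_contra hcon
        rw [max_eq_left (by linarith)] at ha
        exact lt_irrefl _ ha
      have hw34' := abs_lt.1 (hw ▸ hw34 : |X - (2 * (k₀:ℝ) + 1)| < 3 / 4)
      refine ⟨2 * k₀ + 1, ?_, ?_, ?_⟩
      · have : 2 ^ m = 2 * 2 ^ (m - 1) := by rw [← pow_succ']; congr 1; omega
        omega
      · push_cast
        exact hw34
      · have := RV.parG hm true (h0'.append _) (h1'.append _) (hX1.append _) hX0 l2 k₀ hk3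
          (by simp [b2r]; linarith) (by simp [b2r]; linarith)
        exact this

end

end Pool.Agent.H74.PPAD
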