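import Pool.Agent.H74.PPADTotal

/-!
# Correctness of the network
-/

set_option autoImplicit false

namespace Pool.Agent.H74.PPAD

section

variable {u₀ u₁ : ℝ}

lemma wW_ne (m : ℕ) (a b : Bool) : wW m 2 a ≠ wW m (2 + Lc m) b := by
  unfold wW Lc
  split_ifs <;> omega

lemma bits_split (n r : ℕ) : bits (n + 5) r = bits 5 r ++ bits n (r / 32) := by
  have h : ∀ k n r, bits (k + n) r = bits k r ++ bits n (r / 2 ^ k) := by
    intro k
    induction k with
    | zero => intro n r; simp [bits]
    | succ k ih =>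
      intro n r
      have e1 : k + 1 + n = (k + n) + 1 := by ring
      rw [e1, bits_succ, bits_succ, ih, List.cons_append, Nat.div_div_eq_div_mul, pow_succ,
        Nat.mul_comm 2 (2 ^ k)]
  have := h 5 n r
  rw [show 5 + n = n + 5 by ring] at this
  exact this

/-- **The network computes the interpolated displacement.** -/
theorem net_correct {n : ℕ} {S P : Circ} (hS : okOut n S) (hP : okOut n P) (lS : S.2.length = n)
    (lP : P.2.length = n) (hu₀ : 0 ≤ u₀) (hu₁ : 0 ≤ u₁) :
    ∃ Wx Wy : Bool → ℝ, ∃ rx ry : Bool → ℕ, ∃ κ : Bool → Bool → ℕ,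
      (∀ a, 0 ≤ Wx a) ∧ (∀ a, 0 ≤ Wy a) ∧ (∃ a, 1 ≤ Wx a) ∧ (∃ a, 1 ≤ Wy a) ∧
      (∀ a, 0 < Wx a → rx a < 2 ^ (n + 5) ∧
        |min (2 ^ (n + 5) * u₀) (2 ^ (n + 5) - 1) - rx a| < 3 / 4) ∧
      (∀ a, 0 < Wy a → ry a < 2 ^ (n + 5) ∧
        |min (2 ^ (n + 5) * u₁) (2 ^ (n + 5) - 1) - ry a| < 3 / 4) ∧
      (∀ a b, κ a b < 3) ∧
      (∀ a b, 0 < Wx a → 0 < Wy b → κ a b = color (natF n S) (natF n P) (rx a) (ry b)) ∧
      dotp (outG (colorC n S P) (n + 5) (2 + 2 * Lc (n + 5)) 1)
        (rrun u₀ u₁ (totG (colorC n S P) (n + 5))) = u₀ + (wsum Wx Wy κ 1 - wsum Wx Wy κ 0) ∧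
      dotp (outG (colorC n S P) (n + 5) (3 + 2 * Lc (n + 5)) 2)
        (rrun u₀ u₁ (totG (colorC n S P) (n + 5))) = u₁ + (wsum Wx Wy κ 2 - wsum Wx Wy κ 0) := by
  obtain ⟨Wx, Wy, rx, ry, x0, y0, x3, x1, y1, hrx, hry, hWx, hWy, hi0, hi1, hbits⟩ :=
    pre_sum (u₀ := u₀) (u₁ := u₁) (n + 5) (by omega) hu₀ hu₁
  have hCok : okOut (2 * n + 12) (colorC n S P) ∧ (colorC n S P).2.length = 3 := by
    have := colorC_correct hS hP lS lP (List.replicate 5 false) (List.replicate n false)
      (List.replicate 5 false) (List.replicate n false) (by simp) (by simp) (by simp) (by simp)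
    exact ⟨this.1, this.2.1⟩
  have hCev : ∀ r s : ℕ, r < 2 ^ (n + 5) → s < 2 ^ (n + 5) →
      evC (colorC n S P) ([false, true] ++ bits (n + 5) r ++ bits (n + 5) s) =
      [decide (color (natF n S) (natF n P) r s ≠ 0), decide (color (natF n S) (natF n P) r s ≠ 1),
       decide (color (natF n S) (natF n P) r s ≠ 2)] := by
    intro r s hr hs
    have := (colorC_correct hS hP lS lP (bits 5 r) (bits n (r / 32))
      (bits 5 s) (bits n (s / 32)) (by simp) (by simp) (by simp) (by simp)).2.2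
    rw [← bits_split, ← bits_split, num_bits_of_lt hr, num_bits_of_lt hs] at this
    rw [← this, bits_split n r, bits_split n s]
    simp only [List.append_assoc]
  generalize hCd : colorC n S P = C at *
  set m := n + 5 with hm
  obtain ⟨hC, hC3⟩ := hCok
  have hlen : ∀ a b, (isW m a b).length = 2 * n + 12 := fun a b => by
    rw [length_isW m (by omega)]; omega
  -- one block
  have hblock : ∀ (gs : List RG) (t : ℕ) (a b : Bool), gs.length = 4 + 2 * Lc m + t * (C.1.length + 5) →
      (∀ i r, RV u₀ u₁ (preG m) i r → RV u₀ u₁ gs i r) →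
      (∀ is rs, RVs (u₀ := u₀) (u₁ := u₁) (preG m) is rs → RVs (u₀ := u₀) (u₁ := u₁) gs is rs) →
      ∃ κ < 3, (∀ c < 3, RV u₀ u₁ (gs ++ blkG C m t a b) (pW C m t c)
          (if c = κ then min (Wx a) (Wy b) else 0)) ∧
        (0 < Wx a → 0 < Wy b → κ = color (natF n S) (natF n P) (rx a) (ry b)) := by
    intro gs t a b hgs hmono hmonos
    have hbase : 4 + 2 * Lc m ≤ gs.length := by rw [hgs]; exact Nat.le_add_right _ _
    exact block_sum C hgs (hmono _ _ (hWx a)) (hmono _ _ (hWy b)) (wW_ne m a b) (x3 a)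
      (fun i hi => lt_of_lt_of_le (isW_lt m (by omega) a b i hi) hbase)
      (by rw [hlen]; exact hC) hC3 (fun κ => κ = color (natF n S) (natF n P) (rx a) (ry b))
      (fun ha hb => ⟨_, _, color_lt (rx a) (ry b), hmonos _ _ (hbits a b ha hb),
        hCev _ _ (hrx a ha).1 (hry b hb).1, rfl⟩)
  have l0 := length_preG m
  obtain ⟨k0, hk0, v0, c0⟩ := hblock (preG m) 0 false false (by rw [l0]; ring)
    (fun i r h => h) (fun i r h => h)
  have l1 : (preG m ++ blkG C m 0 false false).length = 4 + 2 * Lc m + 1 * (C.1.length + 5) := by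
    rw [List.length_append, l0, length_blkG]; ring
  obtain ⟨k1, hk1, v1, c1⟩ := hblock (preG m ++ blkG C m 0 false false) 1 false true l1
    (fun i r h => h.append _) (fun i r h => h.append _)
  have l2 : (preG m ++ blkG C m 0 false false ++ blkG C m 1 false true).length =
      4 + 2 * Lc m + 2 * (C.1.length + 5) := by
    rw [List.length_append, l1, length_blkG]; ring
  obtain ⟨k2, hk2, v2, c2⟩ := hblock (preG m ++ blkG C m 0 false false ++ blkG C m 1 false true) 2
    true false l2 (fun i r h => (h.append _).append _) (fun i r h => (h.append _).append _)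
  have l3 : (preG m ++ blkG C m 0 false false ++ blkG C m 1 false true ++
      blkG C m 2 true false).length = 4 + 2 * Lc m + 3 * (C.1.length + 5) := by
    rw [List.length_append, l2, length_blkG]; ring
  obtain ⟨k3, hk3, v3, c3⟩ := hblock (preG m ++ blkG C m 0 false false ++ blkG C m 1 false true ++
    blkG C m 2 true false) 3 true true l3 (fun i r h => ((h.append _).append _).append _)
    (fun i r h => ((h.append _).append _).append _)
  -- values in the complete network
  have w0 : ∀ c < 3, RV u₀ u₁ (totG C m) (pW C m 0 c)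
      (if c = k0 then min (Wx false) (Wy false) else 0) :=
    fun c hc => (((v0 c hc).append _).append _).append _
  have w1 : ∀ c < 3, RV u₀ u₁ (totG C m) (pW C m 1 c)
      (if c = k1 then min (Wx false) (Wy true) else 0) :=
    fun c hc => ((v1 c hc).append _).append _
  have w2 : ∀ c < 3, RV u₀ u₁ (totG C m) (pW C m 2 c)
      (if c = k2 then min (Wx true) (Wy false) else 0) :=
    fun c hc => (v2 c hc).append _
  have w3 : ∀ c < 3, RV u₀ u₁ (totG C m) (pW C m 3 c)
      (if c = k3 then min (Wx true) (Wy true) else 0) := v3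
  have i0 : RV u₀ u₁ (totG C m) (2 + 2 * Lc m) u₀ := (((hi0.append _).append _).append _).append _
  have i1 : RV u₀ u₁ (totG C m) (3 + 2 * Lc m) u₁ := (((hi1.append _).append _).append _).append _
  refine ⟨Wx, Wy, rx, ry, fun a b => if a then (if b then k3 else k2) else (if b then k1 else k0),
    x0, y0, x1, y1, hrx, hry, ?_, ?_, ?_, ?_⟩
  · intro a b; cases a <;> cases b <;> simp <;> assumption
  · intro a b
    cases a <;> cases b
    · simpa using c0
    · simpa using c1
    · simpa using c2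
    · simpa using c3
  · unfold outG
    rw [dotp_cons, dotp_cons, dotp_cons, dotp_cons, dotp_cons, dotp_cons, dotp_cons, dotp_cons,
      dotp_cons, dotp_nil, i0.2, (w0 1 (by norm_num)).2, (w0 0 (by norm_num)).2,
      (w1 1 (by norm_num)).2, (w1 0 (by norm_num)).2, (w2 1 (by norm_num)).2,
      (w2 0 (by norm_num)).2, (w3 1 (by norm_num)).2, (w3 0 (by norm_num)).2, bval_b1, bval_bm1]
    · simp only [wsum, Fintype.sum_bool, if_true, Bool.false_eq_true, if_false]
      push_cast; ring
    all_goals (simp only [pW, List.map_cons, List.map_nil, List.mem_cons, List.not_mem_nil,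
      or_false, not_or, not_false_eq_true, true_and]; try omega)
  · unfold outG
    rw [dotp_cons, dotp_cons, dotp_cons, dotp_cons, dotp_cons, dotp_cons, dotp_cons, dotp_cons,
      dotp_cons, dotp_nil, i1.2, (w0 2 (by norm_num)).2, (w0 0 (by norm_num)).2,
      (w1 2 (by norm_num)).2, (w1 0 (by norm_num)).2, (w2 2 (by norm_num)).2,
      (w2 0 (by norm_num)).2, (w3 2 (by norm_num)).2, (w3 0 (by norm_num)).2, bval_b1, bval_bm1]
    · simp only [wsum, Fintype.sum_bool, if_true, Bool.false_eq_true, if_false]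
      push_cast; ring
    all_goals (simp only [pW, List.map_cons, List.map_nil, List.mem_cons, List.not_mem_nil,
      or_false, not_or, not_false_eq_true, true_and]; try omega)

/-- **Approximate fixed points of the network solve the end of the line problem.** -/
theorem sol_of_fix {n : ℕ} {S P : Circ} (hS : okOut n S) (hP : okOut n P) (lS : S.2.length = n)
    (lP : P.2.length = n) (h0 : natF n P 0 = 0) (h1 : natF n S 0 ≠ 0) (hu₀ : 0 ≤ u₀)
    (hu₁ : 0 ≤ u₁) (ε : ℝ) (hε0 : 0 ≤ ε) (hε : 2 ^ (n + 5) * ε ≤ 1 / 8)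
    (hfx : |u₀ - max 0 (min 1 (dotp (outG (colorC n S P) (n + 5) (2 + 2 * Lc (n + 5)) 1)
        (rrun u₀ u₁ (totG (colorC n S P) (n + 5)))))| ≤ ε)
    (hfy : |u₁ - max 0 (min 1 (dotp (outG (colorC n S P) (n + 5) (3 + 2 * Lc (n + 5)) 2)
        (rrun u₀ u₁ (totG (colorC n S P) (n + 5)))))| ≤ ε) :
    isSol (natF n S) (natF n P) (⌊min (2 ^ (n + 5) * u₀) (2 ^ (n + 5) - 1)⌋₊ / 32) := by
  obtain ⟨Wx, Wy, rx, ry, κ, x0, y0, x1, y1, hrx, hry, hκ3, hκ, o0, o1⟩ :=
    net_correct hS hP lS lP hu₀ hu₁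
  rw [o0] at hfx
  rw [o1] at hfy
  by_contra hcon
  have hSlt : ∀ v < 2 ^ n, natF n S v < 2 ^ n := fun v _ => by
    have := num_lt (evC S (bits n v))
    rwa [length_evC, lS] at this
  have hPlt : ∀ v < 2 ^ n, natF n P v < 2 ^ n := fun v _ => by
    have := num_lt (evC P (bits n v))
    rwa [length_evC, lP] at this
  have e32 : 2 ^ (n + 5) = 32 * 2 ^ n := by rw [pow_add]; ring
  refine analysis2 (n + 5) (color (natF n S) (natF n P)) u₀ u₁ ε hu₀ hu₁ hε0 hε Wx Wy x0 y0 x1 y1
    rx ry κ hκ3 hrx hry hκ ?_ ?_ ?_ ?_ hfx hfy (cell h0 h1 _ _ hcon)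
  · intro y _
    by_cases hy : y = 0
    · subst hy; rw [color_bottom h0 h1]; norm_num
    · rw [color_left h0 h1 y hy]; norm_num
  · intro y hy
    rw [e32] at hy ⊢
    exact color_right n hSlt y hy
  · intro x _
    rw [color_bottom h0 h1]; norm_num
  · intro x hx
    rw [e32] at hx ⊢
    exact color_top n hPlt x hx

end

end Pool.Agent.H74.PPAD
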