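import Pool.Agent.H74.PPADSem

/-!
# The reduction is computable in polynomial time
-/

set_option autoImplicit false

namespace Pool.Agent.H74.PPAD

open TMLib Pool.Agent.H74.RankTwoGame Pool.Agent.H74.RankTwo

variable {α : Type} [Enc α]

@[fun_prop] lemma ptime_shl {e : α → ℕ} {q : α → BInt} (h : PTime e) (h' : PTime q) :
    PTime (fun x => shl (e x) (q x)) := by
  unfold shl; fun_prop

@[fun_prop] lemma ptime_bneg {q : α → BInt} (h' : PTime q) :
    PTime (fun x => bneg (q x)) := by
  unfold bneg; fun_prop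

@[fun_prop] lemma ptime_coef {l : α → List (ℕ × BInt)} {j : α → ℕ} (h : PTime l) (h' : PTime j) :
    PTime (fun x => coef (l x) (j x)) := by
  unfold coef; fun_prop

@[fun_prop] lemma ptime_gateOf {l : α → List RG} {j : α → ℕ} (h : PTime l) (h' : PTime j) :
    PTime (fun x => gateOf (l x) (j x)) := by
  unfold gateOf; fun_prop

@[fun_prop] lemma ptime_hasU {a b : α → ℕ} (h : PTime a) (h' : PTime b) :
    PTime (fun x => hasU (a x) (b x)) := by
  unfold hasU; fun_prop

attribute [local irreducible] shl bneg coef gateOf hasU pow2 npow2 ones nones gt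

@[fun_prop] lemma ptime_entU {gs : α → List RG} {o₀ o₁ : α → List (ℕ × BInt)} {n p om : α → ℕ}
    {i j : α → Code} (h1 : PTime gs) (h2 : PTime o₀) (h3 : PTime o₁) (h4 : PTime n) (h5 : PTime p)
    (h6 : PTime om) (h7 : PTime i) (h8 : PTime j) :
    PTime (fun x => entU (gs x) (o₀ x) (o₁ x) (n x) (p x) (om x) (i x) (j x)) := by
  unfold entU; fun_prop

attribute [local irreducible] entU

@[fun_prop] lemma ptime_entA {gs : α → List RG} {o₀ o₁ : α → List (ℕ × BInt)} {n p om : α → ℕ}
    {i j : α → Code} (h1 : PTime gs) (h2 : PTime o₀) (h3 : PTime o₁) (h4 : PTime n) (h5 : PTime p)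
    (h6 : PTime om) (h7 : PTime i) (h8 : PTime j) :
    PTime (fun x => entA (gs x) (o₀ x) (o₁ x) (n x) (p x) (om x) (i x) (j x)) := by
  unfold entA; fun_prop

attribute [local irreducible] entA

@[fun_prop] lemma ptime_codes {a b : α → ℕ} (h : PTime a) (h' : PTime b) :
    PTime (fun x => codes (a x) (b x)) := by
  unfold codes; fun_prop

@[fun_prop] lemma ptime_toR {q : α → BInt} (h' : PTime q) :
    PTime (fun x => toR (q x)) := by
  unfold toR; fun_prop

attribute [local irreducible] codes toR

@[fun_prop] lemma ptime_gameL {gs : α → List RG} {o₀ o₁ : α → List (ℕ × BInt)} {n p om : α → ℕ}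
    (h1 : PTime gs) (h2 : PTime o₀) (h3 : PTime o₁) (h4 : PTime n) (h5 : PTime p)
    (h6 : PTime om) : PTime (fun x => gameL (gs x) (o₀ x) (o₁ x) (n x) (p x) (om x)) := by
  unfold gameL; fun_prop

@[fun_prop] lemma ptime_gatesOf {f : α → Circ × Circ} (h : PTime f) :
    PTime (fun x => gatesOf (f x)) := by
  unfold gatesOf; fun_prop

@[fun_prop] lemma ptime_outOf {f : α → Circ × Circ} (c : ℕ) (h : PTime f) :
    PTime (fun x => outOf (f x) c) := by
  unfold outOf; fun_prop

attribute [local irreducible] gameL gatesOf outOf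

@[fun_prop] lemma ptime_lv {n N : α → ℕ} (h : PTime n) (h' : PTime N) :
    PTime (fun x => lv (n x) (N x)) := by
  unfold lv lev RankTwo.om LL pp; fun_prop

@[fun_prop] lemma ptime_om {L N : α → ℕ} (h : PTime L) (h' : PTime N) :
    PTime (fun x => RankTwo.om 2 (N x) (L x)) := by
  unfold RankTwo.om; fun_prop

/-- **The reduction is computable in polynomial time.** -/
theorem ptime_redF : PTime redF := by
  unfold redF LL pp
  fun_prop

end Pool.Agent.H74.PPAD
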