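import Pool.Agent.TM.BitEnc
import Pool.Agent.H74.PPADPoly2
import Pool.Agent.H74.PPADArith

/-!
# Reading and writing the encodings of the prelude in polynomial time
-/

set_option autoImplicit false

namespace Pool.Agent.H74.PPAD

open TMLib N487b59b3

variable {α β γ : Type} [Enc α] [Enc β] [Enc γ]

/-- split off one block -/
def unblk (z : List Bool) : List Bool × List Bool := ((chunks 2 1 z).1, (chunks 2 1 z).2.tail)

lemma chunks_delimit (l r : List Bool) : chunks 2 1 (delimit l ++ r) = (l, false :: r) := by
  have key : ∀ (l acc : List Bool) (n : ℕ), l.length ≤ n →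
      (chunkStep 2 1)^[n] (acc, delimit l ++ r) = (l.reverse ++ acc, false :: r) := by
    intro l
    induction l with
    | nil =>
      intro acc n _
      rw [chunkStep_fix _ _ _ _ rfl]
      rfl
    | cons b l ih =>
      intro acc n hn
      cases n with
      | zero => simp at hn
      | succ n =>
        rw [Function.iterate_succ_apply]
        have : chunkStep 2 1 (acc, delimit (b :: l) ++ r) = (b :: acc, delimit l ++ r) := rfl
        rw [this, ih _ _ (by simpa using hn)]
        simp
  unfold chunks
  rw [key l [] _ (by rw [List.length_append, length_delimit]; omega)]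
  simp

lemma unblk_delimit (l r : List Bool) : unblk (delimit l ++ r) = (l, r) := by
  unfold unblk
  rw [chunks_delimit]
  rfl

@[fun_prop] lemma ptime_unblk {f : α → List Bool} (hf : PTime f) : PTime (fun x => unblk (f x)) := by
  unfold unblk; fun_prop

lemma sz_reverse (l : List β) : sz l.reverse = sz l := by
  rw [sz_list, sz_list, List.map_reverse, List.sum_reverse]

lemma sz_tail_le (l : List β) : sz l.tail ≤ sz l := by
  cases l with
  | nil => simp
  | cons a l => simp

lemma sz_chunkStep (s : List Bool × List Bool) :
    sz (chunkStep 2 1 s).1 + sz (chunkStep 2 1 s).2 ≤ sz s.1 + sz s.2 := by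
  obtain ⟨acc, rest⟩ := s
  unfold chunkStep
  split_ifs with h
  · cases rest with
    | nil => simp at h
    | cons b t =>
      simp only [List.headD_cons] at h
      subst h
      have e1 : sz true = 3 := rfl
      have e2 : sz false = 1 := rfl
      cases t with
      | nil => simp [e1, e2]; omega
      | cons c t => simp [e1]; omega
  · exact le_rfl

lemma sz_chunks (z : List Bool) : sz (chunks 2 1 z).1 + sz (chunks 2 1 z).2 ≤ 1 + sz z := by
  have key : ∀ (n : ℕ) (s : List Bool × List Bool),
      sz ((chunkStep 2 1)^[n] s).1 + sz ((chunkStep 2 1)^[n] s).2 ≤ sz s.1 + sz s.2 := by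
    intro n s
    induction n with
    | zero => exact le_rfl
    | succ n ih => rw [Function.iterate_succ_apply']; exact (sz_chunkStep _).trans ih
  unfold chunks
  have := key z.length ([], z)
  simp only [sz_reverse]
  simpa using this

lemma sz_unblk (z : List Bool) : sz (unblk z).1 + sz (unblk z).2 ≤ 1 + sz z := by
  unfold unblk
  have := sz_chunks z
  have := sz_tail_le (chunks 2 1 z).2
  simp only at *
  omega

/-- one more block -/
def blkStep (s : List (List Bool) × List Bool) : List (List Bool) × List Bool :=
  if s.2.isEmpty = true then s else ((unblk s.2).1 :: s.1, (unblk s.2).2)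

/-- the list of blocks -/
def unblks (z : List Bool) : List (List Bool) := (blkStep^[z.length] ([], z)).1.reverse

lemma blkStep_fix (acc : List (List Bool)) (n : ℕ) : blkStep^[n] (acc, []) = (acc, []) := by
  induction n with
  | zero => rfl
  | succ n ih => rw [Function.iterate_succ_apply, show blkStep (acc, []) = (acc, []) from rfl, ih]

lemma unblks_flatten (L : List (List Bool)) : unblks ((L.map delimit).flatten) = L := by
  have key : ∀ (L : List (List Bool)) (acc : List (List Bool)) (n : ℕ), L.length ≤ n →
      blkStep^[n] (acc, (L.map delimit).flatten) = (L.reverse ++ acc, []) := by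
    intro L
    induction L with
    | nil => intro acc n _; simp [blkStep_fix]
    | cons l L ih =>
      intro acc n hn
      cases n with
      | zero => simp at hn
      | succ n =>
        rw [Function.iterate_succ_apply]
        have : blkStep (acc, ((l :: L).map delimit).flatten) =
            (l :: acc, (L.map delimit).flatten) := by
          unfold blkStep
          have h1 : ((l :: L).map delimit).flatten = delimit l ++ (L.map delimit).flatten := by simp
          rw [h1]
          dsimp only
          rw [unblk_delimit]
          have h2 : (delimit l ++ (L.map delimit).flatten).isEmpty = false := by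
            cases l <;> rfl
          rw [h2]
          simp
        rw [this, ih _ _ (by simpa using hn)]
        simp
  unfold unblks
  rw [key L [] _ (length_le_length_flatten_delimit L)]
  simp

@[fun_prop] lemma ptime_unblks {f : α → List Bool} (hf : PTime f) :
    PTime (fun x => unblks (f x)) := by
  have hstep : PTime blkStep := by unfold blkStep; fun_prop
  have h := PTime.iter hstep (s := fun z : List Bool => (([] : List (List Bool)), z))
    (n := fun z : List Bool => z.length) (by fun_prop) (by fun_prop)
    (h := fun z : List Bool => 2 + 3 * sz z)
    ((PB.const 2).add ((PB.const 3).mul PB.sz_self))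
    (fun z i hi => by
      have key : ∀ n, sz (blkStep^[n] ([], z)).1 + sz (blkStep^[n] ([], z)).2 ≤ 1 + sz z + 2 * n := by
        intro n
        induction n with
        | zero => simp
        | succ n ih =>
          rw [Function.iterate_succ_apply']
          generalize blkStep^[n] ([], z) = s at ih
          unfold blkStep
          split_ifs
          · omega
          · have := sz_unblk s.2
            simp only [sz_cons] at *
            omega
      have h1 := key i
      have h2 := length_lt_sz z
      rw [sz_pair]
      omega)
  refine PTime.comp (g := fun z => unblks z) ?_ hf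
  exact PTime.reverse (PTime.fst h)

/-- read a pair -/
def decP (f : List Bool → β) (g : List Bool → γ) (z : List Bool) : β × γ :=
  (f (unblk z).1, g (unblk z).2)

/-- read a list -/
def decL (f : List Bool → β) (z : List Bool) : List β := (unblks z).map f

lemma decP_enc {δ ε : Type} [N487b59b3 δ] [N487b59b3 ε] (f : List Bool → β) (g : List Bool → γ)
    (a : δ) (b : ε) : decP f g (bitEncode (a, b)) = (f (bitEncode a), g (bitEncode b)) := by
  unfold decP
  rw [show bitEncode (a, b) = delimit (bitEncode a) ++ bitEncode b from rfl, unblk_delimit]

lemma decL_enc {δ : Type} [N487b59b3 δ] (f : List Bool → β) (l : List δ) :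
    decL f (bitEncode l) = l.map fun a => f (bitEncode a) := by
  unfold decL
  rw [show bitEncode l = ((l.map bitEncode).map delimit).flatten from rfl, unblks_flatten,
    List.map_map]
  rfl

lemma ptime_decP {f : List Bool → β} {g : List Bool → γ} (hf : PTime f) (hg : PTime g) :
    PTime (decP f g) := by
  unfold decP
  exact PTime.pair (hf.comp (by fun_prop)) (hg.comp (by fun_prop))

lemma ptime_decL {f : List Bool → β} (hf : PTime f) : PTime (decL f) := by
  unfold decL
  exact PTime.map (by fun_prop) (hf.comp (f := fun p : List Bool × List Bool => p.2) (by fun_prop))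

/-! ### Numbers -/

lemma num_cons (b : Bool) (l : List Bool) : num (b :: l) = b.toNat + 2 * num l := by
  cases b <;> simp [num]

lemma bits_eq (n : ℕ) (hn : n ≠ 0) : n.bits = decide (n % 2 = 1) :: (n / 2).bits := by
  rcases Nat.even_or_odd' n with ⟨m, rfl | rfl⟩
  · have hm : m ≠ 0 := by omega
    rw [Nat.bit0_bits m hm]
    simp
  · rw [Nat.bit1_bits]
    have e1 : (2 * m + 1) / 2 = m := by omega
    have e2 : (2 * m + 1) % 2 = 1 := by omega
    rw [e1, e2]
    simp

lemma num_nat_bits (n : ℕ) : num n.bits = n := by
  induction n using Nat.strong_induction_on with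
  | _ n ih =>
    rcases Nat.eq_zero_or_pos n with rfl | hn
    · simp [num]
    · rw [bits_eq n hn.ne', num_cons, ih _ (by omega)]
      rcases Nat.mod_two_eq_zero_or_one n with h | h <;> simp [h] <;> omega

/-- remove the leading zeros -/
def strip (l : List Bool) : List Bool :=
  l.reverse.foldl (fun acc b => if acc.isEmpty = true ∧ b = false then [] else b :: acc) []

lemma strip_cons (b : Bool) (l : List Bool) :
    strip (b :: l) = if (strip l).isEmpty = true ∧ b = false then [] else b :: strip l := by
  unfold strip
  rw [List.reverse_cons, List.foldl_append]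
  rfl

lemma strip_eq (l : List Bool) : strip l = (num l).bits := by
  induction l with
  | nil => simp [strip, num]
  | cons b l ih =>
    rw [strip_cons, ih, num_cons]
    rcases Nat.eq_zero_or_pos (num l) with h | h
    · rw [h]; cases b <;> simp
    · have h1 : (num l).bits.isEmpty = false := by
        rw [bits_eq _ h.ne']; rfl
      rw [h1]
      cases b
      · simp only [Bool.false_eq_true, false_and, if_false, Bool.toNat_false, Nat.zero_add]
        rw [Nat.bit0_bits _ h.ne']
      · simp only [Bool.false_eq_true, false_and, if_false, Bool.toNat_true]
        rw [Nat.add_comm, Nat.bit1_bits]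

@[fun_prop] lemma ptime_strip {f : α → List Bool} (hf : PTime f) : PTime (fun x => strip (f x)) := by
  refine PTime.comp (g := fun z => strip z) ?_ hf
  unfold strip
  refine PTime.foldl (f := fun (_ : List Bool) acc b => if acc.isEmpty = true ∧ b = false then []
    else b :: acc) (init := fun _ => ([] : List Bool)) (l := fun z : List Bool => z.reverse)
    (by fun_prop) (by fun_prop) (by fun_prop) (h := fun z => 1 + 4 * sz z)
    ((PB.const 1).add ((PB.const 4).mul PB.sz_self)) ?_
  intro z l' hl'
  refine (sz_bits_le' _).trans ?_
  have key : ∀ (l acc : List Bool), (l.foldl (fun acc b => if acc.isEmpty = true ∧ b = false then []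
      else b :: acc) acc).length ≤ acc.length + l.length := by
    intro l
    induction l with
    | nil => intro acc; simp
    | cons c l ih =>
      intro acc
      rw [List.foldl_cons]
      refine (ih _).trans ?_
      split_ifs <;> simp <;> omega
  have h3 := key l' []
  have h4 := hl'.length_le
  have h5 := length_lt_sz z
  rw [List.length_reverse] at h4
  simp only [List.length_nil, Nat.zero_add] at h3
  omega

/-- the value of a bit list, capped -/
def capN (B : ℕ) (l : List Bool) : ℕ := l.reverse.foldl (fun acc b => min B (2 * acc + b.toNat)) 0

lemma capN_eq (B : ℕ) (l : List Bool) : capN B l = min B (num l) := by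
  induction l with
  | nil => simp [capN, num]
  | cons b l ih =>
    have : capN B (b :: l) = min B (2 * capN B l + b.toNat) := by
      unfold capN
      rw [List.reverse_cons, List.foldl_append]
      rfl
    rw [this, ih, num_cons]
    omega

@[fun_prop] lemma ptime_toNat {f : α → Bool} (hf : PTime f) : PTime (fun x => (f x).toNat) := by
  have h : PTime (fun x => if f x = true then 1 else 0) := by fun_prop
  refine h.congr fun x => ?_
  cases f x <;> rfl

@[fun_prop] lemma ptime_capN {B : α → ℕ} {f : α → List Bool} (hB : PTime B) (hf : PTime f) :
    PTime (fun x => capN (B x) (f x)) := by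
  unfold capN
  refine PTime.foldl (f := fun x acc b => min (B x) (2 * acc + b.toNat))
    (init := fun _ => 0) (l := fun x => (f x).reverse)
    (by fun_prop) (by fun_prop) (by fun_prop) (h := fun x => 1 + 2 * sz (B x))
    ((PB.const 1).add ((PB.const 2).mul hB.pb)) ?_
  intro x l' _
  have key : ∀ (l : List Bool) (acc : ℕ), acc ≤ B x →
      l.foldl (fun acc b => min (B x) (2 * acc + b.toNat)) acc ≤ B x := by
    intro l
    induction l with
    | nil => intro acc h; exact h
    | cons c l ih =>
      intro acc h
      rw [List.foldl_cons]
      exact ih _ (min_le_left _ _)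
  have h3 := key l' 0 (Nat.zero_le _)
  simp only [sz_nat] at *
  omega

/-! ### Writing rational numbers -/

/-- code of an integer, as the rational number with denominator `1` -/
def encZ (q : BInt) : List Bool :=
  delimit (delimit (if q.1 = true then [] else strip q.2) ++ (if q.1 = true then strip q.2 else []))
    ++ [true]

lemma bitEncode_int (z : ℤ) : bitEncode z = delimit z.toNat.bits ++ (-z).toNat.bits := by
  have h : bitEncode z = delimit (bitEncode z.toNat) ++ bitEncode (-z).toNat := rfl
  rw [h]
  have h1 : ∀ n : ℕ, bitEncode n = n.bits := fun n => encodeNat_eq n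
  rw [h1, h1]

lemma bitEncode_rat (q : ℚ) : bitEncode q = delimit (bitEncode q.num) ++ q.den.bits := by
  have h : bitEncode q = delimit (bitEncode q.num) ++ bitEncode q.den := rfl
  rw [h]
  have h1 : ∀ n : ℕ, bitEncode n = n.bits := fun n => encodeNat_eq n
  rw [h1]

lemma encZ_eq (q : BInt) : encZ q = bitEncode ((bval q : ℤ) : ℚ) := by
  rw [bitEncode_rat, Rat.num_intCast, Rat.den_intCast, bitEncode_int, Nat.one_bits]
  unfold encZ bval
  rw [strip_eq]
  cases q.1 <;> simp

@[fun_prop] lemma ptime_encZ {f : α → BInt} (hf : PTime f) : PTime (fun x => encZ (f x)) := by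
  unfold encZ; fun_prop

end Pool.Agent.H74.PPAD
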