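import Pool.Agent.H74.PPADAnd

/-!
# The reduction from End-of-the-Line to symmetric equilibria of games of rank two
-/

set_option autoImplicit false

namespace Pool.Agent.H74.PPAD

open TMLib N487b59b3 N68a2faeb Pool.Agent.H74.RankTwoGame Pool.Agent.H74.RankTwo

/-- the pair of NOR circuits -/
def inX (x : ACirc × ACirc) : Circ × Circ :=
  (toNor x.1.2.length x.1, toNor x.1.2.length x.2)

/-- the matrix with integer entries -/
noncomputable def redZ (x : Circ × Circ) : List (List BInt) :=
  (codes (gatesOf x).length (lv x.1.2.length (gatesOf x).length)).map fun i =>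
    (codes (gatesOf x).length (lv x.1.2.length (gatesOf x).length)).map fun j =>
      entA (gatesOf x) (outOf x 1) (outOf x 2) (lv x.1.2.length (gatesOf x).length)
        (pp x.1.2.length) (om 2 (gatesOf x).length (LL x.1.2.length)) i j

lemma redF_eq (x : Circ × Circ) : redF x = (redZ x).map fun r => r.map toR := by
  unfold redF gameL redZ
  rw [List.map_map]
  refine List.map_congr_left fun i _ => ?_
  simp only [Function.comp_def, List.map_map]

/-- the forward map of the reduction -/
noncomputable def fwd (x : ACirc × ACirc) : List (List ℚ) :=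
  (redZ (inX x)).map fun r => r.map fun z => ((bval z : ℤ) : ℚ)

/-- the backward map of the reduction -/
def bwd (p : (ACirc × ACirc) × List ℚ) : List Bool :=
  divB p.1.1.2.length
    (mulB (p.2.getD 3 0).num.toNat.bits (p.2.getD 0 0).den.bits)
    (mulB (p.2.getD 3 0).den.bits (p.2.getD 0 0).num.toNat.bits)

/-! ### Correctness -/

/-- a rational number as a binary rational -/
def ofQ (q : ℚ) : BRat := (decide (q.num < 0), q.num.natAbs.bits, q.den.bits)

lemma rval_ofQ (q : ℚ) : rval (ofQ q) = q := by
  unfold rval ofQ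
  simp only [num_nat_bits, decide_eq_true_eq]
  conv_rhs => rw [← Rat.num_div_den q]
  congr 1
  split_ifs with h
  · have h1 : (q.num.natAbs : ℤ) = - q.num := by omega
    have h2 : ((q.num.natAbs : ℤ) : ℚ) = - (q.num : ℚ) := by rw [h1]; push_cast; ring
    rw [← Int.cast_natCast, h2]; ring
  · have h1 : (q.num.natAbs : ℤ) = q.num := by omega
    rw [← Int.cast_natCast, h1]

lemma floor_aux (n a b : ℕ) (hb : 0 < b) :
    ⌊min ((2:ℝ) ^ (n + 5) * ((a : ℝ) / b)) (2 ^ (n + 5) - 1)⌋₊ / 32 =
      min (2 ^ n * a / b) (2 ^ n - 1) := by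
  have h1 : (2:ℝ) ^ (n + 5) * ((a : ℝ) / b) = ((2 ^ (n + 5) * a : ℕ) : ℝ) / (b : ℕ) := by
    push_cast; ring
  have h2 : (2:ℝ) ^ (n + 5) - 1 = ((2 ^ (n + 5) - 1 : ℕ) : ℝ) := by
    rw [Nat.cast_sub Nat.one_le_two_pow]; push_cast; ring
  rw [h1, h2, (Nat.floor_mono (R := ℝ)).map_min, Nat.floor_natCast, Nat.floor_div_eq_div]
  have h3 : ∀ x y : ℕ, min x y / 32 = min (x / 32) (y / 32) := by intro x y; omega
  rw [h3]
  congr 1
  · rw [Nat.div_div_eq_div_mul, pow_add, Nat.mul_comm b 32]
    have : 2 ^ n * 2 ^ 5 * a = 32 * (2 ^ n * a) := by ring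
    rw [this, Nat.mul_div_mul_left _ _ (by norm_num)]
  · have : 2 ^ (n + 5) = 32 * 2 ^ n := by rw [pow_add]; ring
    rw [this]
    have := Nat.one_le_two_pow (n := n)
    omega

lemma num_quot {n : ℕ} {p q : ℚ} (hp : 0 ≤ p) (hq : 0 < q) :
    num (divB n (mulB p.num.toNat.bits q.den.bits) (mulB p.den.bits q.num.toNat.bits)) =
      ⌊min ((2:ℝ) ^ (n + 5) * ((p : ℝ) / q)) (2 ^ (n + 5) - 1)⌋₊ / 32 := by
  have hpn : 0 ≤ p.num := Rat.num_nonneg.2 hp
  have hqn : 0 < q.num := Rat.num_pos.2 hq
  have hpd : 0 < p.den := p.den_pos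
  have hqd : 0 < q.den := q.den_pos
  obtain ⟨a, ha⟩ := Int.eq_ofNat_of_zero_le hpn
  obtain ⟨b, hb⟩ := Int.eq_ofNat_of_zero_le hqn.le
  have hb0 : 0 < b := by omega
  have h0 : 0 < p.den * b := Nat.mul_pos hpd hb0
  rw [divB_spec _ _ _ (by
    rw [mulB_spec, num_nat_bits, num_nat_bits, hb]
    exact h0)]
  rw [mulB_spec, mulB_spec, num_nat_bits, num_nat_bits, num_nat_bits, num_nat_bits, ha, hb,
    Int.toNat_natCast, Int.toNat_natCast, ← floor_aux n _ _ h0]
  congr 4
  have e1 : (p : ℝ) = (a : ℝ) / p.den := by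
    conv_lhs => rw [← Rat.num_div_den p, ha]
    push_cast; rfl
  have e2 : (q : ℝ) = (b : ℝ) / q.den := by
    conv_lhs => rw [← Rat.num_div_den q, hb]
    push_cast; rfl
  have h3 : ((b : ℕ) : ℝ) ≠ 0 := by positivity
  have h4 : ((p.den : ℕ) : ℝ) ≠ 0 := by positivity
  have h5 : ((q.den : ℕ) : ℝ) ≠ 0 := by positivity
  rw [e1, e2]
  push_cast
  field_simp

/-- the real matrix with rows `A` -/
noncomputable def matQ (A : List (List ℚ)) : Matrix (Fin A.length) (Fin A.length) ℝ :=
  fun i j => (((A.getD i.1 []).getD j.1 0 : ℚ) : ℝ)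

/-- the real vector with entries `y` -/
noncomputable def vecQ (M : ℕ) (y : List ℚ) : Fin M → ℝ := fun i => ((y.getD i.1 0 : ℚ) : ℝ)

lemma matQ_map (Z : List (List BInt)) (h : (Z.map fun r => r.map toR).length =
    (Z.map fun r => r.map fun z => ((bval z : ℤ) : ℚ)).length) :
    matOf (Z.map fun r => r.map toR) =
      (matQ (Z.map fun r => r.map fun z => ((bval z : ℤ) : ℚ))).submatrix (finCongr h)
        (finCongr h) := by
  ext i j
  unfold matOf matQ
  simp only [Matrix.submatrix_apply, finCongr_apply, Fin.val_cast]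
  have e1 : (Z.map fun r => r.map toR).getD i.1 [] = (Z.getD i.1 []).map toR := by
    rw [show ([] : List BRat) = ([] : List BInt).map toR from rfl, List.getD_map]
  have e2 : (Z.map fun r => r.map fun z => ((bval z : ℤ) : ℚ)).getD i.1 [] =
      (Z.getD i.1 []).map fun z => ((bval z : ℤ) : ℚ) := by
    rw [show ([] : List ℚ) = ([] : List BInt).map (fun z => ((bval z : ℤ) : ℚ)) from rfl,
      List.getD_map]
  rw [e1, e2]
  have e3 : ((Z.getD i.1 []).map fun z => ((bval z : ℤ) : ℚ)).getD j.1 0 =
      ((bval ((Z.getD i.1 []).getD j.1 bz) : ℤ) : ℚ) := by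
    rw [show (0 : ℚ) = (fun z => ((bval z : ℤ) : ℚ)) bz by simp [bval_bz], List.getD_map]
  rw [e3]
  rcases Nat.lt_or_ge j.1 (Z.getD i.1 []).length with hj | hj
  · rw [List.getD_eq_getElem _ _ (by simpa using hj), List.getElem_map, rval_toR,
      List.getD_eq_getElem _ _ hj]
  · rw [List.getD_eq_default _ _ (by simpa using hj), List.getD_eq_default _ _ hj]
    simp [rval, bval_bz, num]

lemma rank_transfer (Z : List (List BInt)) (A : List (List ℚ))
    (hA : A = Z.map fun r => r.map fun z => ((bval z : ℤ) : ℚ))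
    (h : (matOf (Z.map fun r => r.map toR) + (matOf (Z.map fun r => r.map toR)).transpose).rank ≤ 2) :
    (matQ A + (matQ A).transpose).rank ≤ 2 := by
  subst hA
  have hlen : (Z.map fun r => r.map toR).length =
    (Z.map fun r => r.map fun z => ((bval z : ℤ) : ℚ)).length := by simp
  rw [matQ_map Z hlen] at h
  generalize matQ (Z.map fun r => r.map fun z => ((bval z : ℤ) : ℚ)) = M at h ⊢
  have h2 : M.submatrix (finCongr hlen) (finCongr hlen) +
      (M.submatrix (finCongr hlen) (finCongr hlen)).transpose =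
      (M + M.transpose).submatrix (finCongr hlen) (finCongr hlen) := by
    ext i j; simp
  rw [h2, Matrix.rank_submatrix] at h
  exact h

lemma rval_getD (y : List ℚ) (t : ℕ) : rval ((y.map ofQ).getD t rz) = y.getD t 0 := by
  rcases Nat.lt_or_ge t y.length with hi | hi
  · rw [List.getD_eq_getElem _ _ (by simpa using hi), List.getElem_map, rval_ofQ,
      List.getD_eq_getElem _ _ hi]
  · rw [List.getD_eq_default _ _ (by simpa using hi), List.getD_eq_default _ _ hi]
    simp [rval, num]

lemma ne_transfer (Z : List (List BInt)) (A : List (List ℚ))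
    (hA : A = Z.map fun r => r.map fun z => ((bval z : ℤ) : ℚ)) (y : List ℚ)
    (h : IsSymNE (matQ A) (vecQ A.length y)) :
    IsSymNE (matOf (Z.map fun r => r.map toR))
      (vecOf (Z.map fun r => r.map toR).length (y.map ofQ)) := by
  subst hA
  have hlen : (Z.map fun r => r.map toR).length =
    (Z.map fun r => r.map fun z => ((bval z : ℤ) : ℚ)).length := by simp
  have hv : vecOf (Z.map fun r => r.map toR).length (y.map ofQ) =
      vecQ (Z.map fun r => r.map fun z => ((bval z : ℤ) : ℚ)).length y ∘ finCongr hlen := by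
    ext i
    unfold vecOf vecQ
    simp only [Function.comp, finCongr_apply, Fin.val_cast]
    rw [rval_getD]
  rw [matQ_map Z hlen, hv]
  generalize matQ (Z.map fun r => r.map fun z => ((bval z : ℤ) : ℚ)) = M at h ⊢
  generalize vecQ (Z.map fun r => r.map fun z => ((bval z : ℤ) : ℚ)).length y = v at h ⊢
  refine isSymNE_submatrix (finCongr hlen).symm _ _ ?_
  have e1 : (M.submatrix (finCongr hlen) (finCongr hlen)).submatrix
      (finCongr hlen).symm (finCongr hlen).symm = M := by
    ext i j; simp
  have e2 : (v ∘ finCongr hlen) ∘ (finCongr hlen).symm = v := by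
    ext i; simp
  rw [e2, e1]
  exact h

lemma codes_pos (N n : ℕ) : 0 < (codes N n).length := by
  unfold codes; simp

/-- correctness of the reduction -/
theorem fwd_correct (x : ACirc × ACirc) (hS : wfA x.1.2.length x.1) (hP : wfA x.1.2.length x.2)
    (h0 : runA x.2 (List.replicate x.1.2.length false) = List.replicate x.1.2.length false)
    (h1 : runA x.1 (List.replicate x.1.2.length false) ≠ List.replicate x.1.2.length false) :
    (0 < (fwd x).length ∧ ∀ r ∈ fwd x, r.length = (fwd x).length) ∧
    (matQ (fwd x) + (matQ (fwd x)).transpose).rank ≤ 2 ∧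
    ∀ y : List ℚ, IsSymNE (matQ (fwd x)) (vecQ (fwd x).length y) →
      (bwd (x, y)).length = x.1.2.length ∧
      (runA x.2 (runA x.1 (bwd (x, y))) ≠ bwd (x, y) ∨
        (runA x.1 (runA x.2 (bwd (x, y))) ≠ bwd (x, y) ∧
          bwd (x, y) ≠ List.replicate x.1.2.length false)) := by
  set n := x.1.2.length with hn
  have hz := num_replicate_false n
  have hl0 : (List.replicate n false).length = n := by simp
  have lS : (inX x).1.2.length = n := by unfold inX; rw [length_toNor]
  have lP : (inX x).2.2.length = n := by unfold inX; rw [length_toNor]; exact hP.1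
  have eS : ∀ v : List Bool, v.length = n → natF n (inX x).1 (num v) = num (runA x.1 v) :=
    fun v hv => natF_toNor hS hv
  have eP : ∀ v : List Bool, v.length = n → natF n (inX x).2 (num v) = num (runA x.2 v) :=
    fun v hv => natF_toNor hP hv
  have key := redF_correct (inX x)
  rw [lS] at key
  obtain ⟨k1, k2, k3⟩ := key (okOut_toNor hS) (okOut_toNor hP) lP
    (by have := eP _ hl0; rw [hz, h0, hz] at this; exact this)
    (by
      have := eS _ hl0
      rw [hz] at this
      rw [this]
      intro h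
      rw [← hz, num_inj (by rw [length_runA]; simp [hn])] at h
      exact h1 h)
  rw [redF_eq] at k1 k2 k3
  have hpos : 0 < (redZ (inX x)).length := by
    unfold redZ
    rw [List.length_map]
    exact codes_pos _ _
  have hF : fwd x = (redZ (inX x)).map fun r => r.map fun z => ((bval z : ℤ) : ℚ) := rfl
  generalize fwd x = A at hF ⊢
  generalize redZ (inX x) = Z at k1 k2 k3 hpos hF
  refine ⟨⟨?_, ?_⟩, ?_, ?_⟩
  · rw [hF, List.length_map]; exact hpos
  · intro r hr
    rw [hF] at hr ⊢
    obtain ⟨s, hs, rfl⟩ := List.mem_map.1 hr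
    have := (k1 (s.map toR) (List.mem_map.2 ⟨s, hs, rfl⟩)).1
    simpa using this
  · exact rank_transfer Z A hF k2
  · intro y hy
    obtain ⟨a1, a2, a3⟩ := k3 _ (ne_transfer Z A hF y hy)
    rw [rval_getD] at a1 a2
    rw [rval_getD, rval_getD, ← num_quot a1 a2] at a3
    have hb : (bwd (x, y)).length = n := by unfold bwd; rw [length_divB]
    have a3' : isSol (natF n (inX x).1) (natF n (inX x).2) (num (bwd (x, y))) := a3
    refine ⟨hb, ?_⟩
    generalize bwd (x, y) = w at hb a3'
    unfold isSol at a3'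
    rw [eS _ hb, eP _ hb, eP _ (by rw [length_runA]), eS _ (by rw [length_runA, hP.1])] at a3'
    rcases a3' with h | ⟨h, h'⟩
    · left
      intro e
      exact h (by rw [e])
    · right
      constructor
      · intro e
        exact h (by rw [e])
      · intro e
        exact h' (by rw [e, hz])

end Pool.Agent.H74.PPAD
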