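import Pool.Agent.H74.SymNEAnalysis

set_option autoImplicit false

namespace Pool.Agent.H74.RankTwoGame

open Finset Pool.Agent.H74.RankTwo

/-- Strategies of the game. -/
inductive Idx (K N n : ℕ) : Type
  | one : Idx K N n
  | c : Idx K N n
  | d : Idx K N n
  | v : Fin K → Idx K N n
  | w : Fin K → Idx K N n
  | s : Fin K → Idx K N n
  | t : Fin K → Fin n → Idx K N n
  | al : Fin K → Fin n → Idx K N n
  | be : Fin K → Fin n → Idx K N n
  | z : Fin N → Idx K N n
  | y : Fin N → Idx K N n
  deriving DecidableEq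

namespace Idx

variable {K N n : ℕ}

/-- the strategy set as a sum type -/
def equiv : Idx K N n ≃ (Unit ⊕ Unit ⊕ Unit) ⊕ (Fin K ⊕ Fin K ⊕ Fin K) ⊕
    ((Fin K × Fin n) ⊕ (Fin K × Fin n) ⊕ (Fin K × Fin n)) ⊕ (Fin N ⊕ Fin N) where
  toFun i := match i with
    | one => Sum.inl (Sum.inl ())
    | c => Sum.inl (Sum.inr (Sum.inl ()))
    | d => Sum.inl (Sum.inr (Sum.inr ()))
    | v k => Sum.inr (Sum.inl (Sum.inl k))
    | w k => Sum.inr (Sum.inl (Sum.inr (Sum.inl k)))
    | s k => Sum.inr (Sum.inl (Sum.inr (Sum.inr k)))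
    | t k j => Sum.inr (Sum.inr (Sum.inl (Sum.inl (k, j))))
    | al k j => Sum.inr (Sum.inr (Sum.inl (Sum.inr (Sum.inl (k, j)))))
    | be k j => Sum.inr (Sum.inr (Sum.inl (Sum.inr (Sum.inr (k, j)))))
    | z i => Sum.inr (Sum.inr (Sum.inr (Sum.inl i)))
    | y i => Sum.inr (Sum.inr (Sum.inr (Sum.inr i)))
  invFun i := match i with
    | Sum.inl (Sum.inl ()) => one
    | Sum.inl (Sum.inr (Sum.inl ())) => c
    | Sum.inl (Sum.inr (Sum.inr ())) => d
    | Sum.inr (Sum.inl (Sum.inl k)) => v k
    | Sum.inr (Sum.inl (Sum.inr (Sum.inl k))) => w k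
    | Sum.inr (Sum.inl (Sum.inr (Sum.inr k))) => s k
    | Sum.inr (Sum.inr (Sum.inl (Sum.inl (k, j)))) => t k j
    | Sum.inr (Sum.inr (Sum.inl (Sum.inr (Sum.inl (k, j))))) => al k j
    | Sum.inr (Sum.inr (Sum.inl (Sum.inr (Sum.inr (k, j))))) => be k j
    | Sum.inr (Sum.inr (Sum.inr (Sum.inl i))) => z i
    | Sum.inr (Sum.inr (Sum.inr (Sum.inr i))) => y i
  left_inv i := by cases i <;> rfl
  right_inv i := by
    rcases i with (⟨⟩ | ⟨⟩ | ⟨⟩) | (k | k | k) | (⟨k, j⟩ | ⟨k, j⟩ | ⟨k, j⟩) | (i | i) <;> rfl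

instance : Fintype (Idx K N n) := Fintype.ofEquiv _ equiv.symm

lemma card_eq : Fintype.card (Idx K N n) = 3 + 3 * K + 3 * (K * n) + 2 * N := by
  rw [Fintype.card_congr equiv]
  simp only [Fintype.card_sum, Fintype.card_unit, Fintype.card_fin, Fintype.card_prod]
  ring

lemma sum_eq (f : Idx K N n → ℝ) : ∑ i, f i = f one + f c + f d + ∑ k, f (v k) + ∑ k, f (w k)
    + ∑ k, f (s k) + ∑ k, ∑ j, f (t k j) + ∑ k, ∑ j, f (al k j) + ∑ k, ∑ j, f (be k j)
    + ∑ i, f (z i) + ∑ i, f (y i) := by
  rw [← equiv.symm.sum_comp f]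
  simp only [Fintype.sum_sum_type, Fintype.sum_prod_type, univ_unique, sum_singleton]
  simp only [equiv, Equiv.coe_fn_symm_mk]
  ring

end Idx


/-- A ReLU network with `K` inputs, `N` gates, `K` outputs and rational weights: gate `i` has bias
`b i`, weight `c i k` for input `k` and weight `a i j` for each earlier gate `j < i`; output `k` is
the linear combination of the gates with weights `o k i`. -/
structure Net (K N : ℕ) where
  a : Fin N → Fin N → ℚ
  c : Fin N → Fin K → ℚ
  b : Fin N → ℚ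
  o : Fin K → Fin N → ℚ

variable {K N : ℕ}

/-- value of gate `i` on input `u`:
`max 0 (b i + ∑ k, c i k * u k + ∑ j < i, a i j * gate j)`. -/
noncomputable def Net.gate (G : Net K N) (u : Fin K → ℝ) (i : Fin N) : ℝ :=
  max 0 ((G.b i : ℝ) + ∑ k, (G.c i k : ℝ) * u k
    + ∑ j : Fin i.1, (G.a i (Fin.castLE i.2.le j) : ℝ) * G.gate u (Fin.castLE i.2.le j))
termination_by i.1
decreasing_by exact j.2

/-- output `k` of the network on input `u` -/
noncomputable def Net.out (G : Net K N) (u : Fin K → ℝ) (k : Fin K) : ℝ :=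
  ∑ i, (G.o k i : ℝ) * G.gate u i

/-- numerator and denominator of `q` are at most `2 ^ L` in absolute value -/
def Small (L : ℕ) (q : ℚ) : Prop := |q.num| ≤ 2 ^ L ∧ q.den ≤ 2 ^ L

/-- all weights have numerator and denominator at most `2 ^ L` in absolute value -/
def Net.BoundedBy (G : Net K N) (L : ℕ) : Prop :=
  (∀ i j, Small L (G.a i j)) ∧ (∀ i k, Small L (G.c i k)) ∧ (∀ i, Small L (G.b i)) ∧
    (∀ k i, Small L (G.o k i))

/-- clipping to `[0,1]` -/
noncomputable def clip (x : ℝ) : ℝ := max 0 (min 1 x)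

/-- Auxiliary matrix with explicit entries; the game matrix is `U - Uᵀ` plus a diagonal matrix.
(Row player strategy first. `one` is the unit, `(c, d)` make the total mass huge, `v k` carries the
`k`-th coordinate of the point, `s k` keeps `v k ≤ 1`, `w k` is a buffered copy of `v k`,
`t, al, be` form a linear-programming gadget whose value function approximates a parabola, `z i` and
`y i` are the value of gate `i` and its dual variable.) -/
def U (G : Net K N) (L p n : ℕ) : Idx K N n → Idx K N n → ℚ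
  | .al k j, .t k' j' => if k = k' then (if j = j' then 1 else if j.1 = j'.1 + 1 then -2 else 0) else 0
  | .al k j, .v k' => if k = k' then (if j.1 = 0 then 2 else 0) else 0
  | .al k j, .w k' => if k = k' then (if j.1 = 0 then -4 else 0) else 0
  | .al _ j, .one => if j.1 = 0 then -8 else 0
  | .be k j, .t k' j' => if k = k' then (if j = j' then 1 else if j.1 = j'.1 + 1 then 2 else 0) else 0
  | .be k j, .v k' => if k = k' then (if j.1 = 0 then -2 else 0) else 0
  | .be k j, .w k' => if k = k' then (if j.1 = 0 then 4 else 0) else 0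
  | .be _ j, .one => if j.1 = 0 then -8 else -16
  | .t _ j, .one => 4 ^ (n - j.1)
  | .w k, .v k' => if k = k' then 2 * 4 ^ n else 0
  | .v k, .z i => 2 ^ (n + p + 6) * G.o k i
  | .s k, .v k' => if k = k' then 2 * 4 ^ n else 0
  | .s _, .one => -(2 * 4 ^ n)
  | .y i, .z j => (if j < i then G.a i j else 0) - (if i = j then 1 else 0)
  | .y i, .w k => G.c i k
  | .y i, .one => G.b i
  | .z i, .one => -(2 ^ (n + p + 6) * (2 ^ om K N L) ^ (N - i.1))
  | .c, .one => 4 * 4 ^ n
  | .d, .c => 1
  | .d, .one => -(2 ^ (6 * n + 2))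
  | _, _ => 0

/-- the diagonal entries of the game matrix -/
def diag (p n : ℕ) : Idx K N n → ℚ
  | .v _ => 4 ^ n - 2 ^ (n + p + 6)
  | _ => 0

/-- The game matrix: skew-symmetric plus a diagonal matrix with `K` nonzero entries. -/
def game (G : Net K N) (L p n : ℕ) : Matrix (Idx K N n) (Idx K N n) ℚ :=
  fun i j => U G L p n i j - U G L p n j i + if i = j then diag p n i else 0

section rows

variable {n : ℕ} (G : Net K N) (L p : ℕ) (x : Idx K N n → ℝ)

/-- payoff of row `i` -/
noncomputable def row (i : Idx K N n) : ℝ :=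
  ∑ j, (((U G L p n i j - U G L p n j i + if i = j then diag p n i else 0 : ℚ)) : ℝ) * x j

/-- sequences of the gadget -/
noncomputable def T (k : Fin K) (j : ℕ) : ℝ :=
  match j with
  | 0 => 4 * x .one + 2 * x (.w k) - x (.v k)
  | j + 1 => if h : j < n then x (.t k ⟨j, h⟩) else 0

/-- see `T` -/
noncomputable def Al (k : Fin K) (j : ℕ) : ℝ := if h : j < n then x (.al k ⟨j, h⟩) else 0

/-- see `T` -/
noncomputable def Be (k : Fin K) (j : ℕ) : ℝ := if h : j < n then x (.be k ⟨j, h⟩) else 0

lemma cast_ite_q (P : Prop) [Decidable P] (a b : ℚ) :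
    ((if P then a else b : ℚ) : ℝ) = if P then (a : ℝ) else (b : ℝ) := by
  split_ifs <;> rfl

lemma sum_prev (j : Fin n) (f g : Fin n → ℝ) :
    ∑ j' : Fin n, (if j = j' then f j' else if j.1 = j'.1 + 1 then g j' else 0)
      = f j + if h : 1 ≤ j.1 then g ⟨j.1 - 1, by omega⟩ else 0 := by
  have h1 : ∀ j' : Fin n, (if j = j' then f j' else if j.1 = j'.1 + 1 then g j' else 0)
      = (if j = j' then f j' else 0) + (if j.1 = j'.1 + 1 then g j' else 0) := by
    intro j'
    by_cases h : j = j'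
    · subst h; simp
    · simp [h]
  simp only [h1]
  rw [sum_add_distrib]
  congr 1
  · simp
  · split_ifs with h
    · rw [sum_eq_single (⟨j.1 - 1, by omega⟩ : Fin n)]
      · rw [if_pos (by simp; omega)]
      · intro b _ hb
        rw [if_neg]
        intro hj
        apply hb
        ext; simp; omega
      · simp
    · apply sum_eq_zero
      intro b _
      rw [if_neg]
      omega

lemma sum_next (j : Fin n) (f g : Fin n → ℝ) :
    ∑ j' : Fin n, (if j' = j then f j' else if j'.1 = j.1 + 1 then g j' else 0)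
      = f j + if h : j.1 + 1 < n then g ⟨j.1 + 1, h⟩ else 0 := by
  have h1 : ∀ j' : Fin n, (if j' = j then f j' else if j'.1 = j.1 + 1 then g j' else 0)
      = (if j' = j then f j' else 0) + (if j'.1 = j.1 + 1 then g j' else 0) := by
    intro j'
    by_cases h : j' = j
    · subst h; simp
    · simp [h]
  simp only [h1]
  rw [sum_add_distrib]
  congr 1
  · simp
  · split_ifs with h
    · rw [sum_eq_single (⟨j.1 + 1, h⟩ : Fin n)]
      · rw [if_pos (by simp)]
      · intro b _ hb
        rw [if_neg]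
        intro hj
        apply hb
        ext; simp; omega
      · simp
    · apply sum_eq_zero
      intro b _
      rw [if_neg]
      have := b.2
      omega

lemma row_al (k : Fin K) (j : Fin n) : row G L p x (.al k j) = T x k (j.1 + 1) - 2 * T x k j.1 := by
  unfold row
  rw [Idx.sum_eq]
  simp [U, diag, cast_ite_q]
  rw [sum_prev j (fun j' => x (.t k j')) (fun j' => -(2 * x (.t k j')))]
  obtain ⟨j, hj⟩ := j
  cases j with
  | zero => simp [T, hj]; ring
  | succ j =>
    have h1 : j < n := by omega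
    simp [T, hj, h1]; ring

lemma row_be (k : Fin K) (j : Fin n) :
    row G L p x (.be k j) = T x k (j.1 + 1) + 2 * T x k j.1 - 16 * x .one := by
  unfold row
  rw [Idx.sum_eq]
  simp [U, diag, cast_ite_q]
  rw [sum_prev j (fun j' => x (.t k j')) (fun j' => 2 * x (.t k j'))]
  obtain ⟨j, hj⟩ := j
  cases j with
  | zero => simp [T, hj]; ring
  | succ j =>
    have h1 : j < n := by omega
    simp [T, hj, h1]; ring

lemma row_t (k : Fin K) (j : Fin n) :
    row G L p x (.t k j) = 4 ^ (n - j.1) * x .one - Al x k j.1 - Be x k j.1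
      + 2 * Al x k (j.1 + 1) - 2 * Be x k (j.1 + 1) := by
  unfold row
  rw [Idx.sum_eq]
  simp [U, diag, cast_ite_q]
  rw [sum_next j (fun j' => x (.al k j')) (fun j' => -(2 * x (.al k j'))),
    sum_next j (fun j' => x (.be k j')) (fun j' => 2 * x (.be k j'))]
  have hj : j.1 < n := j.2
  by_cases h : j.1 + 1 < n
  · simp [Al, Be, h, hj]; ring
  · simp [Al, Be, h, hj]; ring

lemma row_c : row G L p x .c = 4 * 4 ^ n * x .one - x .d := by
  unfold row
  rw [Idx.sum_eq]
  simp [U, diag, cast_ite_q]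
  ring

lemma row_d : row G L p x .d = x .c - 2 ^ (6 * n + 2) * x .one := by
  unfold row
  rw [Idx.sum_eq]
  simp [U, diag, cast_ite_q]
  ring

lemma row_s (k : Fin K) : row G L p x (.s k) = 2 * 4 ^ n * (x (.v k) - x .one) := by
  unfold row
  rw [Idx.sum_eq]
  simp [U, diag, cast_ite_q]
  ring

lemma sum_zero_idx (f : Fin n → ℝ) (hn : 0 < n) :
    ∑ j' : Fin n, (if j'.1 = 0 then f j' else 0) = f ⟨0, hn⟩ := by
  rw [sum_eq_single (⟨0, hn⟩ : Fin n)]
  · simp
  · intro b _ hb
    rw [if_neg]
    intro hj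
    apply hb
    ext; simp; omega
  · simp

lemma row_w (hn : 0 < n) (k : Fin K) : row G L p x (.w k) =
    4 * (Al x k 0 - Be x k 0) + 2 * 4 ^ n * x (.v k) - ∑ i, (G.c i k : ℝ) * x (.y i) := by
  unfold row
  rw [Idx.sum_eq]
  simp [U, diag, cast_ite_q]
  rw [sum_zero_idx (fun j' => -(4 * x (.al k j'))) hn, sum_zero_idx (fun j' => 4 * x (.be k j')) hn]
  simp [Al, Be, hn]; ring

lemma row_v (hn : 0 < n) (k : Fin K) : row G L p x (.v k) =
    -(2 * (Al x k 0 - Be x k 0)) - 2 * 4 ^ n * x (.w k) + (4 ^ n - 2 ^ (n + p + 6)) * x (.v k)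
      + 2 ^ (n + p + 6) * ∑ i, (G.o k i : ℝ) * x (.z i) - 2 * 4 ^ n * x (.s k) := by
  unfold row
  rw [Idx.sum_eq]
  simp [U, diag, cast_ite_q]
  rw [sum_zero_idx (fun j' => 2 * x (.al k j')) hn, sum_zero_idx (fun j' => -(2 * x (.be k j'))) hn]
  rw [mul_sum]
  simp only [mul_assoc]
  simp [Al, Be, hn]; ring

lemma row_y (i : Fin N) : row G L p x (.y i) = (G.b i : ℝ) * x .one + ∑ k, (G.c i k : ℝ) * x (.w k)
    + ∑ j, (if j < i then (G.a i j : ℝ) * x (.z j) else 0) - x (.z i) := by
  unfold row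
  rw [Idx.sum_eq]
  simp [U, diag, cast_ite_q]
  simp only [sub_mul, sum_sub_distrib, ite_mul, zero_mul, one_mul]
  simp; ring

lemma row_z (i : Fin N) : row G L p x (.z i) =
    -(2 ^ (n + p + 6) * (2 ^ om K N L) ^ (N - i.1)) * x .one + x (.y i)
    - ∑ j, (if i < j then (G.a j i : ℝ) * x (.y j) else 0)
    - 2 ^ (n + p + 6) * ∑ k, (G.o k i : ℝ) * x (.v k) := by
  unfold row
  rw [Idx.sum_eq]
  simp [U, diag, cast_ite_q]
  rw [mul_sum]
  simp only [sub_mul, sum_sub_distrib, ite_mul, zero_mul, one_mul, mul_assoc]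
  simp; ring

lemma row_one : row G L p x .one = ∑ k, ∑ j : Fin n, (if j.1 = 0 then 8 * x (.al k j) else 0)
    + ∑ k, ∑ j : Fin n, (if j.1 = 0 then 8 * x (.be k j) else 16 * x (.be k j))
    - ∑ k, ∑ j : Fin n, 4 ^ (n - j.1) * x (.t k j)
    + 2 * 4 ^ n * ∑ k, x (.s k) - ∑ i, (G.b i : ℝ) * x (.y i)
    + ∑ i : Fin N, (2 ^ (n + p + 6) * (2 ^ om K N L) ^ (N - i.1)) * x (.z i)
    - 4 * 4 ^ n * x .c + 2 ^ (6 * n + 2) * x .d := by
  unfold row
  rw [Idx.sum_eq]
  simp [U, diag, cast_ite_q]
  rw [mul_sum]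
  have h1 : ∀ (k : Fin K), ∑ j : Fin n, (if j.1 = 0 then -(8 * x (.al k j)) else 0)
      = - ∑ j : Fin n, (if j.1 = 0 then 8 * x (.al k j) else 0) := by
    intro k; rw [← sum_neg_distrib]; apply sum_congr rfl; intro j _; split_ifs <;> simp
  have h2 : ∀ (k : Fin K), ∑ j : Fin n, (if j.1 = 0 then -(8 * x (.be k j)) else -(16 * x (.be k j)))
      = - ∑ j : Fin n, (if j.1 = 0 then 8 * x (.be k j) else 16 * x (.be k j)) := by
    intro k; rw [← sum_neg_distrib]; apply sum_congr rfl; intro j _; split_ifs <;> simp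
  simp only [h1, h2, sum_neg_distrib]
  ring

/-- the quadratic form of the game -/
lemma quad : ∑ i, x i * row G L p x i = (4 ^ n - 2 ^ (n + p + 6)) * ∑ k, x (.v k) ^ 2 := by
  have h1 : ∀ i, x i * row G L p x i = ∑ j, ((U G L p n i j : ℝ) * (x i * x j))
      - ∑ j, ((U G L p n j i : ℝ) * (x j * x i)) + (diag p n i : ℝ) * x i ^ 2 := by
    intro i
    unfold row
    rw [mul_sum, ← sum_sub_distrib]
    have h2 : (diag p n i : ℝ) * x i ^ 2 = ∑ j, (if i = j then (diag p n i : ℝ) * x i ^ 2 else 0) := by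
      simp
    rw [h2, ← sum_add_distrib]
    apply sum_congr rfl
    intro j _
    by_cases h : i = j
    · subst h; push_cast; simp; ring
    · simp [h]; ring
  simp only [h1]
  rw [sum_add_distrib, sum_sub_distrib]
  rw [sum_comm (f := fun i j => (U G L p n j i : ℝ) * (x j * x i))]
  rw [sub_self, zero_add, Idx.sum_eq, mul_sum]
  simp [diag]

end rows


/-- `(x, y)` is a Nash equilibrium of the bimatrix game `(A, B)`. -/
def IsNE {ι κ : Type} [Fintype ι] [Fintype κ] (A B : Matrix ι κ ℝ) (x : ι → ℝ) (y : κ → ℝ) :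
    Prop :=
  x ∈ stdSimplex ℝ ι ∧ y ∈ stdSimplex ℝ κ ∧
  (∀ x' ∈ stdSimplex ℝ ι, x' ⬝ᵥ A.mulVec y ≤ x ⬝ᵥ A.mulVec y) ∧
  (∀ y' ∈ stdSimplex ℝ κ, x ⬝ᵥ B.mulVec y' ≤ x ⬝ᵥ B.mulVec y)

/-- `(x, x)` is a symmetric Nash equilibrium of the symmetric game `(A, Aᵀ)`. -/
def IsSymNE {ι : Type} [Fintype ι] (A : Matrix ι ι ℝ) (x : ι → ℝ) : Prop :=
  IsNE A A.transpose x x

lemma gate_eq (G : Net K N) (u : Fin K → ℝ) (i : Fin N) : G.gate u i =
    max 0 ((G.b i : ℝ) + ∑ k, (G.c i k : ℝ) * u k + ∑ j, (if j < i then (G.a i j : ℝ) * G.gate u j else 0)) := by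
  rw [Net.gate]
  congr 2
  set F : ℕ → ℝ := fun m => if h : m < N then (G.a i ⟨m, h⟩ : ℝ) * G.gate u ⟨m, h⟩ else 0 with hF
  have h1 : ∑ j : Fin i.1, (G.a i (Fin.castLE i.2.le j) : ℝ) * G.gate u (Fin.castLE i.2.le j)
      = ∑ j : Fin i.1, F j.1 := by
    apply sum_congr rfl
    intro j _
    have : j.1 < N := by have := j.2; have := i.2; omega
    simp only [hF, this, dif_pos]
    rfl
  have h2 : ∑ j : Fin N, (if j < i then (G.a i j : ℝ) * G.gate u j else 0)
      = ∑ j : Fin N, (fun m : ℕ => if m < i.1 then F m else 0) j.1 := by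
    apply sum_congr rfl
    intro j _
    simp only [hF, j.2, dif_pos, Fin.lt_def]
  rw [h1, h2, Fin.sum_univ_eq_sum_range F, Fin.sum_univ_eq_sum_range (fun m => if m < i.1 then F m else 0)]
  rw [← sum_filter]
  apply sum_congr _ (fun _ _ => rfl)
  ext m
  have := i.2
  simp only [mem_range, mem_filter]
  omega

section main

variable (G : Net K N) (L p : ℕ)

lemma lev_ge : 7 ≤ lev K N L p := by unfold lev; omega

lemma small_abs {L : ℕ} {q : ℚ} (h : Small L q) : |(q : ℝ)| ≤ 2 ^ L := by
  have h1 : |q| ≤ 2 ^ L := by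
    have h2 : |q| * q.den = |(q.num : ℚ)| := by
      have h3 : (0:ℚ) < q.den := by exact_mod_cast q.den_pos
      rw [← abs_of_pos h3, ← abs_mul, Rat.mul_den_eq_num]
    have h4 : (1:ℚ) ≤ q.den := by exact_mod_cast q.den_pos
    have h5 : |(q.num : ℚ)| ≤ 2 ^ L := by exact_mod_cast h.1
    calc |q| ≤ |q| * q.den := le_mul_of_one_le_right (abs_nonneg _) h4
      _ ≤ _ := by rw [h2]; exact h5
  exact_mod_cast h1

lemma row_smul {n : ℕ} (x : Idx K N n → ℝ) (ξ : ℝ) (i : Idx K N n) :
    row G L p (fun j => x j / ξ) i = row G L p x i / ξ := by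
  unfold row
  rw [sum_div]
  apply sum_congr rfl
  intro j _
  ring

/-- a solution with no weight on the unit strategy is impossible -/
lemma one_pos_of_sol {n : ℕ} (hn : 1 ≤ n) (he : (2:ℝ) ^ (n + p + 6) ≤ 4 ^ n) (x : Idx K N n → ℝ)
    (hx0 : ∀ i, 0 ≤ x i) (hx1 : ∑ i, x i = 1)
    (val : ℝ) (hval : val = (4 ^ n - 2 ^ (n + p + 6)) * ∑ k, x (.v k) ^ 2)
    (hrow : ∀ i, row G L p x i ≤ val) : 0 < x .one := by
  by_contra hone
  have hone : x .one = 0 := le_antisymm (not_lt.1 hone) (hx0 _)
  have h4 : (0:ℝ) < 4 ^ n := by positivity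
  have he0 : (0:ℝ) < 2 ^ (n + p + 6) := by positivity
  -- the coordinates `v` vanish
  have hsumv : ∑ k, x (.v k) ≤ 1 := by
    rw [← hx1, Idx.sum_eq]
    have a1 := hx0 .one
    have a2 := hx0 .c
    have a3 := hx0 .d
    have a4 : 0 ≤ ∑ k, x (.w k) := sum_nonneg (fun _ _ => hx0 _)
    have a5 : 0 ≤ ∑ k, x (.s k) := sum_nonneg (fun _ _ => hx0 _)
    have a6 : 0 ≤ ∑ k, ∑ j, x (.t k j) := sum_nonneg (fun _ _ => sum_nonneg (fun _ _ => hx0 _))
    have a7 : 0 ≤ ∑ k, ∑ j, x (.al k j) := sum_nonneg (fun _ _ => sum_nonneg (fun _ _ => hx0 _))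
    have a8 : 0 ≤ ∑ k, ∑ j, x (.be k j) := sum_nonneg (fun _ _ => sum_nonneg (fun _ _ => hx0 _))
    have a9 : 0 ≤ ∑ k, x (.z k) := sum_nonneg (fun _ _ => hx0 _)
    have a10 : 0 ≤ ∑ k, x (.y k) := sum_nonneg (fun _ _ => hx0 _)
    linarith
  have hval0 : 0 ≤ val := by
    rw [hval]
    exact mul_nonneg (by linarith) (sum_nonneg (fun _ _ => sq_nonneg _))
  have hsv : ∀ k, 2 * 4 ^ n * x (.v k) ≤ val := by
    intro k
    have := hrow (.s k)
    rw [row_s, hone, sub_zero] at this
    exact this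
  have hsq : 2 * 4 ^ n * ∑ k, x (.v k) ^ 2 ≤ val := by
    calc 2 * 4 ^ n * ∑ k, x (.v k) ^ 2 = ∑ k, (2 * 4 ^ n * x (.v k)) * x (.v k) := by
          rw [mul_sum]; apply sum_congr rfl; intros; ring
      _ ≤ ∑ k, val * x (.v k) := by
          apply sum_le_sum
          intro k _
          exact mul_le_mul_of_nonneg_right (hsv k) (hx0 _)
      _ = val * ∑ k, x (.v k) := by rw [mul_sum]
      _ ≤ val * 1 := mul_le_mul_of_nonneg_left hsumv hval0
      _ = val := mul_one _
  have hsq0 : 0 ≤ ∑ k, x (.v k) ^ 2 := sum_nonneg (fun _ _ => sq_nonneg _)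
  have hsqz : ∑ k, x (.v k) ^ 2 = 0 := by nlinarith
  have hvz : ∀ k, x (.v k) = 0 := by
    intro k
    have := (sum_eq_zero_iff_of_nonneg (fun k _ => sq_nonneg (x (.v k)))).1 hsqz k (mem_univ k)
    exact pow_eq_zero_iff (two_ne_zero) |>.1 this
  have hvalz : val = 0 := by rw [hval, hsqz, mul_zero]
  rw [hvalz] at hrow
  -- `c`
  have hc : x .c = 0 := by
    have := hrow .d
    rw [row_d, hone, mul_zero, sub_zero] at this
    exact le_antisymm this (hx0 _)
  -- gadget primal variables
  have hT0 : ∀ k, T x k 0 = 2 * x (.w k) := by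
    intro k; simp only [T, hone, hvz k]; ring
  have hTpos : ∀ k j, 0 ≤ T x k (j+1) := by
    intro k j
    simp only [T]
    split_ifs
    · exact hx0 _
    · exact le_rfl
  have hw : ∀ k, x (.w k) = 0 := by
    intro k
    have h2 := hrow (.be k ⟨0, hn⟩)
    rw [row_be, hone] at h2
    have h3 := hTpos k 0
    simp only [hT0, mul_zero, sub_zero] at h2
    have := hx0 (.w k)
    linarith
  have hTz : ∀ k j, T x k j = 0 := by
    intro k j
    induction j with
    | zero => rw [hT0, hw, mul_zero]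
    | succ j ih =>
      by_cases hj : j < n
      · have := hrow (.al k ⟨j, hj⟩)
        rw [row_al] at this
        simp only [ih, mul_zero, sub_zero] at this
        exact le_antisymm this (hTpos k j)
      · simp [T, hj]
  have ht : ∀ k j, x (.t k j) = 0 := by
    intro k j
    have := hTz k (j.1 + 1)
    simpa [T, j.2] using this
  -- duals of the gates
  have hy : ∀ m : ℕ, ∀ i : Fin N, N - i.1 = m → x (.y i) = 0 := by
    intro m
    induction m using Nat.strong_induction_on with
    | _ m ih =>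
      intro i him
      have h1 := hrow (.z i)
      rw [row_z, hone] at h1
      have h2 : ∑ j, (if i < j then (G.a j i : ℝ) * x (.y j) else 0) = 0 := by
        apply sum_eq_zero
        intro j _
        split_ifs with hij
        · have hij' : i.1 < j.1 := hij
          rw [ih (N - j.1) (by have := j.2; omega) j rfl, mul_zero]
        · rfl
      have h3 : ∑ k, (G.o k i : ℝ) * x (.v k) = 0 := by
        apply sum_eq_zero
        intro k _
        rw [hvz, mul_zero]
      rw [h2, h3] at h1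
      have := hx0 (.y i)
      linarith
  have hy' : ∀ i, x (.y i) = 0 := fun i => hy _ i rfl
  -- row one
  have h1 := hrow .one
  rw [row_one, hc] at h1
  have e1 : ∑ k, ∑ j : Fin n, (4:ℝ) ^ (n - j.1) * x (.t k j) = 0 :=
    sum_eq_zero (fun k _ => sum_eq_zero (fun j _ => by rw [ht, mul_zero]))
  have e2 : ∑ i, (G.b i : ℝ) * x (.y i) = 0 := sum_eq_zero (fun i _ => by rw [hy', mul_zero])
  rw [e1, e2] at h1
  have p1 : 0 ≤ ∑ k, ∑ j : Fin n, (if j.1 = 0 then 8 * x (.al k j) else 0) :=
    sum_nonneg (fun k _ => sum_nonneg (fun j _ => by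
      have := hx0 (.al k j)
      split_ifs <;> positivity))
  have p2 : 0 ≤ ∑ k, ∑ j : Fin n, (if j.1 = 0 then 8 * x (.be k j) else 16 * x (.be k j)) :=
    sum_nonneg (fun k _ => sum_nonneg (fun j _ => by
      have := hx0 (.be k j)
      split_ifs <;> positivity))
  have p3 : 0 ≤ ∑ k, x (.s k) := sum_nonneg (fun _ _ => hx0 _)
  have p4 : 0 ≤ ∑ i : Fin N, ((2:ℝ) ^ (n + p + 6) * (2 ^ om K N L) ^ (N - i.1)) * x (.z i) :=
    sum_nonneg (fun i _ => mul_nonneg (by positivity) (hx0 _))
  have p5 : 0 ≤ (2:ℝ) ^ (6 * n + 2) * x .d := mul_nonneg (by positivity) (hx0 _)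
  have p3' : 0 ≤ 2 * (4:ℝ) ^ n * ∑ k, x (.s k) := mul_nonneg (by positivity) p3
  have z1 : ∑ k, ∑ j : Fin n, (if j.1 = 0 then 8 * x (.al k j) else 0) = 0 := by linarith
  have z2 : ∑ k, ∑ j : Fin n, (if j.1 = 0 then 8 * x (.be k j) else 16 * x (.be k j)) = 0 := by
    linarith
  have z3 : ∑ k, x (.s k) = 0 := by
    have : 2 * (4:ℝ) ^ n * ∑ k, x (.s k) = 0 := by linarith
    rcases mul_eq_zero.1 this with h | h
    · linarith
    · exact h
  have z4 : ∑ i : Fin N, ((2:ℝ) ^ (n + p + 6) * (2 ^ om K N L) ^ (N - i.1)) * x (.z i) = 0 := by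
    linarith
  have z5 : x .d = 0 := by
    have : (2:ℝ) ^ (6 * n + 2) * x .d = 0 := by linarith
    rcases mul_eq_zero.1 this with h | h
    · have : (0:ℝ) < 2 ^ (6 * n + 2) := by positivity
      linarith
    · exact h
  have hz : ∀ i, x (.z i) = 0 := by
    intro i
    have := (sum_eq_zero_iff_of_nonneg (fun i _ => mul_nonneg (by positivity) (hx0 (.z i)))).1 z4 i
      (mem_univ i)
    rcases mul_eq_zero.1 this with h | h
    · have : (0:ℝ) < 2 ^ (n + p + 6) * (2 ^ om K N L) ^ (N - i.1) := by positivity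
      linarith
    · exact h
  have hs : ∀ k, x (.s k) = 0 := fun k =>
    (sum_eq_zero_iff_of_nonneg (fun k _ => hx0 (.s k))).1 z3 k (mem_univ k)
  have hbe : ∀ k j, x (.be k j) = 0 := by
    intro k j
    have h2 := (sum_eq_zero_iff_of_nonneg (fun k _ => sum_nonneg (fun j _ => by
      have := hx0 (.be k j)
      split_ifs <;> positivity))).1 z2 k (mem_univ k)
    have h3 := (sum_eq_zero_iff_of_nonneg (fun j _ => by
      have := hx0 (.be k j)
      split_ifs <;> positivity)).1 h2 j (mem_univ j)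
    split_ifs at h3 <;> linarith
  have hal0 : ∀ k, x (.al k ⟨0, hn⟩) = 0 := by
    intro k
    have h2 := (sum_eq_zero_iff_of_nonneg (fun k _ => sum_nonneg (fun j _ => by
      have := hx0 (.al k j)
      split_ifs <;> positivity))).1 z1 k (mem_univ k)
    have h3 := (sum_eq_zero_iff_of_nonneg (fun j _ => by
      have := hx0 (.al k j)
      split_ifs <;> positivity)).1 h2 ⟨0, hn⟩ (mem_univ _)
    simp at h3
    exact h3
  have hBe : ∀ k j, Be x k j = 0 := by
    intro k j
    unfold Be
    split_ifs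
    · exact hbe _ _
    · rfl
  have hAlpos : ∀ k j, 0 ≤ Al x k j := by
    intro k j
    unfold Al
    split_ifs
    · exact hx0 _
    · exact le_rfl
  have hAl : ∀ k j, Al x k j = 0 := by
    intro k j
    induction j with
    | zero =>
      have h0 : 0 < n := hn
      simp only [Al, h0, dif_pos]; exact hal0 k
    | succ j ih =>
      by_cases hj : j < n
      · have := hrow (.t k ⟨j, hj⟩)
        rw [row_t, hone] at this
        simp only [ih, hBe] at this
        have h2 := hAlpos k (j+1)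
        linarith
      · have : ¬ (j + 1 < n) := by omega
        simp [Al, this]
  have hal : ∀ k j, x (.al k j) = 0 := by
    intro k j
    have := hAl k j.1
    simpa [Al, j.2] using this
  rw [Idx.sum_eq] at hx1
  simp [hone, hc, z5, hvz, hw, hs, ht, hal, hbe, hz, hy'] at hx1


lemma pow_facts (n : ℕ) (hn : n = lev K N L p) : (2:ℝ) ^ (n + p + 6) ≤ 4 ^ n := by
  have : (4:ℝ) ^ n = 2 ^ (2 * n) := by rw [pow_mul]; norm_num
  rw [this]
  apply pow_le_pow_right₀ (by norm_num)
  have : 2 * p + 7 ≤ lev K N L p := by unfold lev; omega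
  omega

/-- The symmetric equilibria of the game encode approximate fixed points. -/
lemma sound (hG : G.BoundedBy L) (n : ℕ) (hn : n = lev K N L p) (x : Idx K N n → ℝ)
    (hx : IsSymNE ((game G L p n).map (Rat.cast : ℚ → ℝ)) x) :
    0 < x .one ∧ ∀ k, |x (.v k) / x .one - clip (G.out (fun k' => x (.v k') / x .one) k)|
      ≤ (1/2) ^ p := by
  have hn7 : 7 ≤ n := by rw [hn]; exact lev_ge L p
  obtain ⟨hxs, -, hne, -⟩ := hx
  have hx0 : ∀ i, 0 ≤ x i := hxs.1
  have hx1 : ∑ i, x i = 1 := hxs.2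
  set val := x ⬝ᵥ ((game G L p n).map (Rat.cast : ℚ → ℝ)).mulVec x with hval
  have hmul : ∀ i, ((game G L p n).map (Rat.cast : ℚ → ℝ)).mulVec x i = row G L p x i := by
    intro i; rfl
  have hrow : ∀ i, row G L p x i ≤ val := by
    intro i
    have := hne (Pi.single i 1) (single_mem_stdSimplex ℝ i)
    rw [single_dotProduct, one_mul, hmul] at this
    exact this
  have hsum : ∑ i, x i * row G L p x i = val := by
    rw [hval]; rfl
  have hcomp : ∀ i, x i * (row G L p x i - val) = 0 := by
    have h1 : ∑ i, x i * (row G L p x i - val) = 0 := by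
      simp only [mul_sub, sum_sub_distrib]
      rw [hsum, ← sum_mul, hx1, one_mul, sub_self]
    intro i
    have h2 : ∀ i ∈ univ, x i * (row G L p x i - val) ≤ 0 := fun i _ =>
      mul_nonpos_of_nonneg_of_nonpos (hx0 i) (sub_nonpos.2 (hrow i))
    exact (sum_eq_zero_iff_of_nonpos h2).1 h1 i (mem_univ i)
  have hquad : val = (4 ^ n - 2 ^ (n + p + 6)) * ∑ k, x (.v k) ^ 2 := by rw [← hsum, quad]
  have hepow : (2:ℝ) ^ (n + p + 6) ≤ 4 ^ n := pow_facts (K := K) (N := N) L p n hn
  have hone : 0 < x .one := one_pos_of_sol G L p (by omega) hepow x hx0 hx1 val hquad hrow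
  refine ⟨hone, ?_⟩
  set ξ := x .one with hξ
  set X : Idx K N n → ℝ := fun i => x i / ξ with hX
  set π := val / ξ with hπ
  have hX0 : ∀ i, 0 ≤ X i := fun i => div_nonneg (hx0 i) hone.le
  have hXone : X .one = 1 := div_self hone.ne'
  have hXrow : ∀ i, row G L p X i ≤ π := by
    intro i
    rw [hX, row_smul]
    exact div_le_div_of_nonneg_right (hrow i) hone.le
  have hXcomp : ∀ i, X i * (row G L p X i - π) = 0 := by
    intro i
    have h1 := hcomp i
    have h2 : X i * (row G L p X i - π) = x i * (row G L p x i - val) / ξ ^ 2 := by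
      have h3 : row G L p X i = row G L p x i / ξ := row_smul G L p x ξ i
      rw [h3, hπ]
      simp only [hX]
      field_simp
    rw [h2, h1, zero_div]
  set S := ∑ i, X i with hSdef
  have hπS : π * S = (4 ^ n - 2 ^ (n + p + 6)) * ∑ k, X (.v k) ^ 2 := by
    rw [← quad G L p X, hSdef, mul_sum]
    apply sum_congr rfl
    intro i _
    have := hXcomp i
    linarith
  have hSv : 1 + ∑ k, X (.v k) ≤ S := by
    rw [hSdef, Idx.sum_eq, hXone]
    have a2 := hX0 .c
    have a3 := hX0 .d
    have a4 : 0 ≤ ∑ k, X (.w k) := sum_nonneg (fun _ _ => hX0 _)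
    have a5 : 0 ≤ ∑ k, X (.s k) := sum_nonneg (fun _ _ => hX0 _)
    have a6 : 0 ≤ ∑ k, ∑ j, X (.t k j) := sum_nonneg (fun _ _ => sum_nonneg (fun _ _ => hX0 _))
    have a7 : 0 ≤ ∑ k, ∑ j, X (.al k j) := sum_nonneg (fun _ _ => sum_nonneg (fun _ _ => hX0 _))
    have a8 : 0 ≤ ∑ k, ∑ j, X (.be k j) := sum_nonneg (fun _ _ => sum_nonneg (fun _ _ => hX0 _))
    have a9 : 0 ≤ ∑ k, X (.z k) := sum_nonneg (fun _ _ => hX0 _)
    have a10 : 0 ≤ ∑ k, X (.y k) := sum_nonneg (fun _ _ => hX0 _)
    linarith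
  have hSc : X .c ≤ S := single_le_sum (fun i _ => hX0 i) (mem_univ _)
  have hAl0 : ∀ k j, 0 ≤ Al X k j := by
    intro k j; unfold Al; split_ifs
    · exact hX0 _
    · exact le_rfl
  have hBe0 : ∀ k j, 0 ≤ Be X k j := by
    intro k j; unfold Be; split_ifs
    · exact hX0 _
    · exact le_rfl
  have cast_le : ∀ (m : ℚ), Small L m → |(m : ℝ)| ≤ 2 ^ L := fun m hm => small_abs hm
  have hpos : 0 < n := by omega
  have key := analysis K N L p (fun i j => (G.a i j : ℝ)) (fun i k => (G.c i k : ℝ))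
    (fun i => (G.b i : ℝ)) (fun k i => (G.o k i : ℝ))
    (fun i j => cast_le _ (hG.1 i j)) (fun i k => cast_le _ (hG.2.1 i k))
    (fun k i => cast_le _ (hG.2.2.2 k i)) n hn (2 ^ (n + p + 6)) (2 ^ om K N L) rfl rfl
    (fun k => X (.v k)) (fun k => X (.w k)) (fun k => X (.s k)) (T X) (Al X) (Be X)
    (fun i => X (.z i)) (fun i => X (.y i)) (X .c) (X .d) π S
    (fun k => hX0 _) (fun k => hX0 _) (fun k => hX0 _)
    (fun k j hj => by simp only [T, hj, dif_pos]; exact hX0 _)
    (fun k j _ => hAl0 k j) (fun k j _ => hBe0 k j) (fun i => hX0 _) (fun i => hX0 _)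
    hSv hSc hπS (fun k => by simp only [T, hXone]; ring)
    (fun k => by simp [Al]) (fun k => by simp [Be])
    (fun k j hj => by have := hXrow (.al k ⟨j, hj⟩); rw [row_al] at this; exact this)
    (fun k j hj => by
      have := hXcomp (.al k ⟨j, hj⟩); rw [row_al] at this
      simpa only [Al, hj, dif_pos] using this)
    (fun k j hj => by
      have := hXrow (.be k ⟨j, hj⟩); rw [row_be, hXone, mul_one] at this; exact this)
    (fun k j hj => by
      have := hXcomp (.be k ⟨j, hj⟩); rw [row_be, hXone, mul_one] at this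
      simpa only [Be, hj, dif_pos] using this)
    (fun k j hj => by
      have := hXrow (.t k ⟨j, hj⟩); rw [row_t, hXone, mul_one] at this; exact this)
    (fun k j hj => by
      have := hXcomp (.t k ⟨j, hj⟩); rw [row_t, hXone, mul_one] at this
      have h2 : T X k (j+1) = X (.t k ⟨j, hj⟩) := by simp only [T, hj, dif_pos]
      rw [h2]; exact this)
    (fun k => by have := hXrow (.w k); rw [row_w G L p X hpos] at this; exact this)
    (fun k => by have := hXcomp (.w k); rw [row_w G L p X hpos] at this; exact this)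
    (fun k => by have := hXrow (.v k); rw [row_v G L p X hpos] at this; exact this)
    (fun k => by have := hXcomp (.v k); rw [row_v G L p X hpos] at this; exact this)
    (fun k => by have := hXrow (.s k); rw [row_s, hXone] at this; exact this)
    (fun k => by have := hXcomp (.s k); rw [row_s, hXone] at this; exact this)
    (fun i => by
      have := hXrow (.y i); rw [row_y, hXone, mul_one] at this; exact this)
    (fun i => by
      have := hXcomp (.y i); rw [row_y, hXone, mul_one] at this; exact this)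
    (fun i => by
      have := hXrow (.z i); rw [row_z, hXone, mul_one] at this; exact this)
    (fun i => by
      have := hXcomp (.z i); rw [row_z, hXone, mul_one] at this; exact this)
    (by have := hXrow .c; rw [row_c, hXone, mul_one] at this; exact this)
    (by have := hXcomp .d; rw [row_d, hXone, mul_one] at this; exact this)
    (fun i => G.gate (fun k => X (.v k)) i) (fun i => gate_eq G _ i)
  exact key

lemma symm_part (n : ℕ) : game G L p n + (game G L p n).transpose =
    Matrix.diagonal (fun i => 2 * diag p n i) := by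
  ext i j
  simp only [Matrix.add_apply, Matrix.transpose_apply, game, Matrix.diagonal_apply]
  by_cases h : i = j
  · subst h; simp; ring
  · have h' : ¬ j = i := fun e => h e.symm
    simp [h, h']

lemma rank_le (n : ℕ) : (game G L p n + (game G L p n).transpose).rank ≤ K := by
  rw [symm_part, Matrix.rank_diagonal, Fintype.card_subtype]
  calc (univ.filter (fun i : Idx K N n => 2 * diag p n i ≠ 0)).card
      ≤ (univ.image (fun k : Fin K => (Idx.v k : Idx K N n))).card := by
        apply card_le_card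
        intro i hi
        rw [mem_filter] at hi
        cases i with
        | v k => exact mem_image_of_mem _ (mem_univ k)
        | _ => exact absurd hi.2 (by simp [diag])
    _ ≤ K := by
        refine card_image_le.trans ?_
        simp

lemma small_int {M : ℕ} (m : ℤ) (h : |m| ≤ 2 ^ M) : Small M (m : ℚ) := by
  constructor
  · rw [Rat.num_intCast]; exact h
  · rw [Rat.den_intCast]; exact Nat.one_le_two_pow

lemma small_mono {L M : ℕ} {q : ℚ} (h : Small L q) (hLM : L ≤ M) : Small M q :=
  ⟨h.1.trans (pow_le_pow_right₀ (by norm_num) hLM), h.2.trans (Nat.pow_le_pow_right (by norm_num) hLM)⟩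

lemma small_neg {M : ℕ} {q : ℚ} (h : Small M q) : Small M (-q) := by
  constructor
  · rw [Rat.num_neg_eq_neg_num, abs_neg]; exact h.1
  · rw [Rat.den_neg_eq_den]; exact h.2

lemma small_mul {L M : ℕ} {q : ℚ} (h : Small L q) : Small (M + L) (2 ^ M * q) := by
  have h1 : (2:ℚ) ^ M * q = Rat.divInt (2 ^ M * q.num) (q.den : ℤ) := by
    rw [Rat.divInt_eq_div]
    push_cast
    have := Rat.num_div_den q
    rw [mul_div_assoc, this]
  have hd : (q.den : ℤ) ≠ 0 := by exact_mod_cast q.den_nz
  have h2 : ((2:ℚ) ^ M * q).num ∣ (2 ^ M * q.num) := by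
    rw [h1]; exact Rat.num_dvd _ hd
  have h3 : ((((2:ℚ) ^ M * q).den : ℕ) : ℤ) ∣ (q.den : ℤ) := by
    rw [h1]; exact Rat.den_dvd _ _
  constructor
  · by_cases h0 : (2 ^ M * q.num) = 0
    · have : q.num = 0 := by
        rcases mul_eq_zero.1 h0 with h | h
        · exact absurd h (by positivity)
        · exact h
      have : q = 0 := Rat.num_eq_zero.1 this
      rw [this]; simp
    · calc |((2:ℚ) ^ M * q).num| ≤ |2 ^ M * q.num| := by
            rw [Int.abs_eq_natAbs, Int.abs_eq_natAbs]
            exact_mod_cast Nat.le_of_dvd (Int.natAbs_pos.2 h0) (Int.natAbs_dvd_natAbs.2 h2)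
        _ = 2 ^ M * |q.num| := by rw [abs_mul, abs_of_pos (by positivity)]
        _ ≤ 2 ^ M * 2 ^ L := mul_le_mul_of_nonneg_left h.1 (by positivity)
        _ = 2 ^ (M + L) := by rw [pow_add]
  · have h4 : ((2:ℚ) ^ M * q).den ≤ q.den := Nat.le_of_dvd q.den_pos (by exact_mod_cast h3)
    exact h4.trans (h.2.trans (Nat.pow_le_pow_right (by norm_num) (by omega)))

lemma U_bound (hG : G.BoundedBy L) (n : ℕ) (hn : n = lev K N L p) (i j : Idx K N n) :
    Small (6 * n + 2) (U G L p n i j) := by
  have hn7 : 7 ≤ n := by rw [hn]; exact lev_ge L p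
  have hpow : ∀ m : ℕ, m ≤ 6 * n + 2 → (2:ℤ) ^ m ≤ 2 ^ (6 * n + 2) := fun m hm =>
    pow_le_pow_right₀ (by norm_num) hm
  have h16 : (16:ℤ) ≤ 2 ^ (6 * n + 2) := by
    calc (16:ℤ) = 2 ^ 4 := by norm_num
      _ ≤ _ := hpow 4 (by omega)
  have h4 : ∀ m : ℕ, (4:ℤ) ^ m = 2 ^ (2 * m) := fun m => by rw [pow_mul]; norm_num
  have hlev : n = 2 * p + 7 + om K N L * (2 * N + 3) := hn
  have hom : om K N L = L + K + N + 5 := rfl
  have hLn : L ≤ n := by
    rw [hlev, hom]; nlinarith
  have hpn : 2 * p ≤ n := by rw [hlev]; omega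
  obtain ⟨ha, hc, hb, ho⟩ := hG
  have h0 : Small (6 * n + 2) 0 := by
    have := small_int (M := 6 * n + 2) 0 (by simp)
    exact_mod_cast this
  have h44 : 2 * (4:ℤ) ^ n ≤ 2 ^ (6 * n + 2) := by
    rw [h4, ← pow_succ']; exact hpow _ (by omega)
  have h4pos : (0:ℤ) < 4 ^ n := by positivity
  have hint : ∀ (q : ℚ) (m : ℤ), q = m → |m| ≤ 2 ^ (6 * n + 2) → Small (6 * n + 2) q := by
    intro q m hq hm; rw [hq]; exact small_int m hm
  have hsmallint : ∀ (q : ℚ) (m : ℤ), q = m → |m| ≤ 16 → Small (6 * n + 2) q := by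
    intro q m hq hm; exact hint q m hq (hm.trans h16)
  have n1 : Small (6 * n + 2) 1 := hsmallint 1 1 (by norm_num) (by norm_num)
  have n2 : Small (6 * n + 2) 2 := hsmallint 2 2 (by norm_num) (by norm_num)
  have n2' : Small (6 * n + 2) (-2) := hsmallint (-2) (-2) (by norm_num) (by norm_num)
  have n4 : Small (6 * n + 2) 4 := hsmallint 4 4 (by norm_num) (by norm_num)
  have n4' : Small (6 * n + 2) (-4) := hsmallint (-4) (-4) (by norm_num) (by norm_num)
  have n8' : Small (6 * n + 2) (-8) := hsmallint (-8) (-8) (by norm_num) (by norm_num)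
  have n16' : Small (6 * n + 2) (-16) := hsmallint (-16) (-16) (by norm_num) (by norm_num)
  have n24 : Small (6 * n + 2) (2 * 4 ^ n) := by
    apply hint _ (2 * 4 ^ n) (by push_cast; rfl)
    rw [abs_of_pos (by positivity)]; exact h44
  cases i <;> cases j <;> simp only [U, h0]
  · apply hint _ (4 * 4 ^ n) (by push_cast; rfl)
    rw [abs_of_pos (by positivity), h4]
    calc (4:ℤ) * 2 ^ (2 * n) = 2 ^ (2 * n + 2) := by rw [pow_add]; ring
      _ ≤ _ := hpow _ (by omega)
  · apply hint _ (-(2 ^ (6 * n + 2))) (by push_cast; rfl)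
    rw [abs_neg, abs_of_pos (by positivity)]
  · exact n1
  · rename_i k i
    exact small_mono (small_mul (M := n + p + 6) (ho k i)) (by omega)
  · split_ifs
    · exact n24
    · exact h0
  · exact small_neg n24
  · split_ifs
    · exact n24
    · exact h0
  · rename_i k j
    apply hint _ (4 ^ (n - j.1)) (by push_cast; rfl)
    rw [abs_of_pos (by positivity), h4]
    exact hpow _ (by omega)
  · split_ifs <;> assumption
  · split_ifs <;> assumption
  · split_ifs <;> assumption
  · split_ifs <;> assumption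
  · split_ifs <;> assumption
  · split_ifs <;> assumption
  · split_ifs <;> assumption
  · split_ifs <;> assumption
  · rename_i i
    apply small_neg
    apply hint _ (2 ^ (n + p + 6) * (2 ^ om K N L) ^ (N - i.1)) (by push_cast; rfl)
    rw [abs_of_pos (by positivity), ← pow_mul, ← pow_add]
    apply hpow
    have h5 : om K N L * (N - i.1) ≤ om K N L * (2 * N + 3) := Nat.mul_le_mul_left _ (by omega)
    omega
  · rename_i i
    exact small_mono (hb i) (by omega)
  · rename_i i k
    exact small_mono (hc i k) (by omega)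
  · rename_i i j
    by_cases hij : i = j
    · subst hij
      simp only [lt_irrefl, if_false, if_true]
      exact hsmallint _ (-1) (by norm_num) (by norm_num)
    · simp only [hij, if_false, sub_zero]
      split_ifs
      · exact small_mono (ha i j) (by omega)
      · exact h0

lemma U_zero (n : ℕ) (i j : Idx K N n) : U G L p n i j = 0 ∨ U G L p n j i = 0 := by
  cases i <;> cases j <;> simp [U]

lemma game_bound (hG : G.BoundedBy L) (n : ℕ) (hn : n = lev K N L p) (i j : Idx K N n) :
    Small (6 * n + 2) (game G L p n i j) := by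
  have h1 := U_bound G L p hG n hn i j
  have h2 := U_bound G L p hG n hn j i
  unfold game
  by_cases hij : i = j
  · subst hij
    rw [sub_self, zero_add, if_pos rfl]
    cases i with
    | v k =>
      simp only [diag]
      have he : (2:ℤ) ^ (n + p + 6) ≤ 4 ^ n := by
        have := pow_facts (K := K) (N := N) L p n hn
        exact_mod_cast this
      have he0 : (0:ℤ) < 2 ^ (n + p + 6) := by positivity
      have h4 : (4:ℤ) ^ n ≤ 2 ^ (6 * n + 2) := by
        have : (4:ℤ) ^ n = 2 ^ (2 * n) := by rw [pow_mul]; norm_num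
        rw [this]
        exact pow_le_pow_right₀ (by norm_num) (by omega)
      have := small_int (M := 6 * n + 2) (4 ^ n - 2 ^ (n + p + 6)) (by
        rw [abs_of_nonneg (by linarith)]; linarith)
      push_cast at this
      exact this
    | _ =>
      simp only [diag]
      have := small_int (M := 6 * n + 2) 0 (by simp)
      exact_mod_cast this
  · rw [if_neg hij, add_zero]
    rcases U_zero G L p n i j with h | h
    · rw [h, zero_sub]; exact small_neg h2
    · rw [h, sub_zero]; exact h1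

lemma lev_le : lev K N L p ≤ 34 * (K + N + L + p + 1) ^ 2 := by
  unfold lev om
  nlinarith [Nat.zero_le K, Nat.zero_le N, Nat.zero_le L, Nat.zero_le p, Nat.zero_le (K * N),
    Nat.zero_le (L * N), Nat.zero_le (K * L), Nat.zero_le (K * p), Nat.zero_le (N * p),
    Nat.zero_le (L * p), Nat.zero_le (N * N), Nat.zero_le (K * K), Nat.zero_le (L * L),
    Nat.zero_le (p * p)]

end main

/-- **Reduction.** For every ReLU network `G` with `K` inputs and outputs and `N` gates, rational
weights with numerators and denominators at most `2 ^ L`, and every precision `p`, the explicit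
rational matrix `A = game G L p n` (`n = lev K N L p`) satisfies: `A + Aᵀ` is a diagonal matrix all
of whose nonzero entries sit at the `K` strategies `v k`; in particular its rank is at most `K`; the
size of `A` and the bit length of its entries are polynomially bounded; and every symmetric Nash
equilibrium `x` of the symmetric game `(A, Aᵀ)` gives, by `u k = x (v k) / x one`, a point `u` with
`|u k - clip (G.out u k)| ≤ 2 ^ (-p)` for all `k`. -/
theorem reduction (K N L p : ℕ) (G : Net K N) (hG : G.BoundedBy L) :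
    let n := lev K N L p
    let A := game G L p n
    A + A.transpose = Matrix.diagonal (fun i => 2 * diag p n i) ∧
    (A + A.transpose).rank ≤ K ∧
    Fintype.card (Idx K N n) ≤ 110 * (K + N + L + p + 1) ^ 3 ∧
    (∀ i j, Small (206 * (K + N + L + p + 1) ^ 2) (A i j)) ∧
    ∀ x : Idx K N n → ℝ, IsSymNE (A.map (Rat.cast : ℚ → ℝ)) x →
      0 < x .one ∧
      ∀ k, |x (.v k) / x .one - clip (G.out (fun k' => x (.v k') / x .one) k)| ≤ (1 / 2) ^ p := by
  intro n A
  have hlev : n ≤ 34 * (K + N + L + p + 1) ^ 2 := lev_le L p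
  refine ⟨symm_part G L p n, rank_le G L p n, ?_, ?_, ?_⟩
  · rw [Idx.card_eq]
    set s := K + N + L + p + 1 with hs
    have hs1 : 1 ≤ s := by omega
    have h1 : K * n ≤ s * (34 * s ^ 2) := Nat.mul_le_mul (by omega) hlev
    have h2 : K ≤ s := by omega
    have h3 : N ≤ s := by omega
    have h4 : s ≤ s ^ 3 := Nat.le_self_pow (by norm_num) s
    have h5 : s * (34 * s ^ 2) = 34 * s ^ 3 := by ring
    have h6 : 1 ≤ s ^ 3 := Nat.one_le_pow _ _ hs1
    omega
  · intro i j
    refine small_mono (game_bound G L p hG n rfl i j) ?_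
    have h1 : 1 ≤ (K + N + L + p + 1) ^ 2 := Nat.one_le_pow _ _ (by omega)
    omega
  · intro x hx
    exact sound G L p hG n rfl x hx

end Pool.Agent.H74.RankTwoGame
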