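import Pool.Agent.H74.PPADPoly
import Pool.Agent.H74.RankTwoGame

/-!
# The game matrix as a list of lists of binary integers
-/

set_option autoImplicit false

namespace Pool.Agent.H74.PPAD

open TMLib Pool.Agent.H74.RankTwoGame Pool.Agent.H74.RankTwo

/-- Strategies are coded by a tag and two numbers. -/
abbrev Code := ℕ × ℕ × ℕ

/-- code of a strategy -/
def cod {K N n : ℕ} : Idx K N n → Code
  | .one => (0, 0, 0)
  | .c => (1, 0, 0)
  | .d => (2, 0, 0)
  | .v k => (3, k.1, 0)
  | .w k => (4, k.1, 0)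
  | .s k => (5, k.1, 0)
  | .t k j => (6, k.1, j.1)
  | .al k j => (7, k.1, j.1)
  | .be k j => (8, k.1, j.1)
  | .z i => (9, 0, i.1)
  | .y i => (10, 0, i.1)

lemma cod_inj {K N n : ℕ} : Function.Injective (cod : Idx K N n → Code) := by
  intro i j h
  cases i <;> cases j <;> simp_all [cod, Fin.ext_iff]

/-- multiplication by `2 ^ e` -/
def shl (e : ℕ) (q : BInt) : BInt := (q.1, List.replicate e false ++ q.2)

/-- negation -/
def bneg (q : BInt) : BInt := (!q.1, q.2)

lemma bval_shl (e : ℕ) (q : BInt) : bval (shl e q) = 2 ^ e * bval q := by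
  unfold bval shl
  simp only [num_append, num_replicate_false, List.length_replicate]
  split_ifs <;> push_cast <;> ring

lemma bval_bneg (q : BInt) : bval (bneg q) = - bval q := by
  unfold bval bneg
  cases q.1 <;> simp

/-- parameters of the game: gates, output weights, levels, `p`, `om` -/
abbrev Par := List RG × (List (ℕ × BInt) × List (ℕ × BInt)) × ℕ × ℕ × ℕ

/-- gate `i` -/
def gateOf (gs : List RG) (i : ℕ) : RG := gs.getD i (bz, (bz, bz), [])

/-- which pairs of tags have an entry in the matrix `U` -/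
def hasU (a b : ℕ) : Bool :=
  decide ((a, b) ∈ [((7 : ℕ), (6 : ℕ)), (7, 3), (7, 4), (7, 0), (8, 6), (8, 3), (8, 4), (8, 0),
    (6, 0), (4, 3), (3, 9), (5, 3), (5, 0), (10, 9), (10, 4), (10, 0), (9, 0), (1, 0), (2, 1), (2, 0)])

/-- entries of the matrix `U` -/
def entU (gs : List RG) (o₀ o₁ : List (ℕ × BInt)) (n p om : ℕ) (i j : Code) : BInt :=
  if i.1 = 7 ∧ j.1 = 6 then
    (if i.2.1 = j.2.1 then (if i.2.2 = j.2.2 then b1 else if i.2.2 = j.2.2 + 1 then npow2 1 else bz)
      else bz)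
  else if i.1 = 7 ∧ j.1 = 3 then (if i.2.1 = j.2.1 ∧ i.2.2 = 0 then pow2 1 else bz)
  else if i.1 = 7 ∧ j.1 = 4 then (if i.2.1 = j.2.1 ∧ i.2.2 = 0 then npow2 2 else bz)
  else if i.1 = 7 ∧ j.1 = 0 then (if i.2.2 = 0 then npow2 3 else bz)
  else if i.1 = 8 ∧ j.1 = 6 then
    (if i.2.1 = j.2.1 then (if i.2.2 = j.2.2 then b1 else if i.2.2 = j.2.2 + 1 then pow2 1 else bz)
      else bz)
  else if i.1 = 8 ∧ j.1 = 3 then (if i.2.1 = j.2.1 ∧ i.2.2 = 0 then npow2 1 else bz)
  else if i.1 = 8 ∧ j.1 = 4 then (if i.2.1 = j.2.1 ∧ i.2.2 = 0 then pow2 2 else bz)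
  else if i.1 = 8 ∧ j.1 = 0 then (if i.2.2 = 0 then npow2 3 else npow2 4)
  else if i.1 = 6 ∧ j.1 = 0 then pow2 (2 * (n - i.2.2))
  else if i.1 = 4 ∧ j.1 = 3 then (if i.2.1 = j.2.1 then pow2 (2 * n + 1) else bz)
  else if i.1 = 3 ∧ j.1 = 9 then shl (n + p + 6) (coef (if i.2.1 = 0 then o₀ else o₁) j.2.2)
  else if i.1 = 5 ∧ j.1 = 3 then (if i.2.1 = j.2.1 then pow2 (2 * n + 1) else bz)
  else if i.1 = 5 ∧ j.1 = 0 then npow2 (2 * n + 1)
  else if i.1 = 10 ∧ j.1 = 9 then
    (if j.2.2 < i.2.2 then coef (gateOf gs i.2.2).2.2 j.2.2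
      else if i.2.2 = j.2.2 then bm1 else bz)
  else if i.1 = 10 ∧ j.1 = 4 then
    (if j.2.1 = 0 then (gateOf gs i.2.2).2.1.1 else (gateOf gs i.2.2).2.1.2)
  else if i.1 = 10 ∧ j.1 = 0 then (gateOf gs i.2.2).1
  else if i.1 = 9 ∧ j.1 = 0 then npow2 (n + p + 6 + om * (gs.length - i.2.2))
  else if i.1 = 1 ∧ j.1 = 0 then pow2 (2 * n + 2)
  else if i.1 = 2 ∧ j.1 = 1 then b1
  else if i.1 = 2 ∧ j.1 = 0 then npow2 (6 * n + 2)
  else bz

/-- entries of the game matrix -/
def entA (gs : List RG) (o₀ o₁ : List (ℕ × BInt)) (n p om : ℕ) (i j : Code) : BInt :=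
  if hasU i.1 j.1 = true then entU gs o₀ o₁ n p om i j
  else if hasU j.1 i.1 = true then bneg (entU gs o₀ o₁ n p om j i)
  else if i = j ∧ i.1 = 3 then
    (false, List.replicate (n + p + 6) false ++ List.replicate (n - p - 6) true)
  else bz

/-- the network given by lists of gates and output weights -/
def netOf (gs : List RG) (o₀ o₁ : List (ℕ × BInt)) : Net 2 gs.length where
  a i j := (bval (coef (gateOf gs i.1).2.2 j.1) : ℚ)
  c i k := (bval (if k.1 = 0 then (gateOf gs i.1).2.1.1 else (gateOf gs i.1).2.1.2) : ℚ)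
  b i := (bval (gateOf gs i.1).1 : ℚ)
  o k i := (bval (coef (if k.1 = 0 then o₀ else o₁) i.1) : ℚ)

lemma four_pow (n : ℕ) : (4:ℚ) ^ n = 2 ^ (2 * n) := by rw [pow_mul]; norm_num

lemma diag_bval (n p : ℕ) (hn : p + 6 ≤ n) :
    ((bval (false, List.replicate (n + p + 6) false ++ List.replicate (n - p - 6) true) : ℤ) : ℚ) =
      4 ^ n - 2 ^ (n + p + 6) := by
  have h1 : (false, List.replicate (n + p + 6) false ++ List.replicate (n - p - 6) true) =
      shl (n + p + 6) (ones (n - p - 6)) := rfl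
  rw [h1, bval_shl, bval_ones, four_pow]
  push_cast
  have h2 : 2 * n = (n + p + 6) + (n - p - 6) := by omega
  rw [h2, pow_add]; ring

lemma entU_eq (gs : List RG) (o₀ o₁ : List (ℕ × BInt)) (L p n : ℕ)
    (i j : Idx 2 gs.length n) (h : hasU (cod i).1 (cod j).1 = true) :
    ((bval (entU gs o₀ o₁ n p (om 2 gs.length L) (cod i) (cod j)) : ℤ) : ℚ) =
      U (netOf gs o₀ o₁) L p n i j := by
  cases i <;> cases j <;> simp only [cod] at h <;> first | exact absurd h (by decide) | skip
  all_goals clear h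
  all_goals simp [cod, entU, U, bval_bz, bval_b1, bval_bm1, bval_pow2, bval_npow2, bval_shl, netOf,
    four_pow]
  case c.one => rw [pow_add]; ring
  case s.one => rw [pow_succ]; ring
  case z.one => rw [pow_add, pow_mul]
  case y.z a b =>
    by_cases h : b < a
    · have h' : ¬ a = b := fun e => by subst e; exact lt_irrefl _ h
      simp [h, h']
    · by_cases h' : a = b
      · subst h'; simp [bval_bm1]
      · have h'' : ¬ (a : ℕ) = b := fun e => h' (Fin.ext e)
        simp [h, h', h'', bval_bz]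
  all_goals
    split_ifs <;> simp_all [Fin.ext_iff, bval_bz, bval_b1, bval_pow2, bval_npow2, pow_succ] <;> ring

lemma U_of_not (gs : List RG) (o₀ o₁ : List (ℕ × BInt)) (L p n : ℕ)
    (i j : Idx 2 gs.length n) (h : hasU (cod i).1 (cod j).1 = false) :
    U (netOf gs o₀ o₁) L p n i j = 0 := by
  cases i <;> cases j <;> simp only [cod] at h <;> first | exact absurd h (by decide) | simp [U]

lemma diag_of (n p : ℕ) {K N : ℕ} (i : Idx K N n) (hn : p + 6 ≤ n) :
    ((bval (if (cod i).1 = 3 then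
      (false, List.replicate (n + p + 6) false ++ List.replicate (n - p - 6) true) else bz) : ℤ) : ℚ)
      = diag p n i := by
  cases i <;> simp [cod, diag, bval_bz, diag_bval n p hn]

lemma hasU_self (a : ℕ) : hasU a a = false := by
  unfold hasU
  simp; omega

/-- the entries are those of the game matrix -/
lemma entA_eq (gs : List RG) (o₀ o₁ : List (ℕ × BInt)) (L p n : ℕ) (hn : p + 6 ≤ n)
    (i j : Idx 2 gs.length n) :
    ((bval (entA gs o₀ o₁ n p (om 2 gs.length L) (cod i) (cod j)) : ℤ) : ℚ) =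
      game (netOf gs o₀ o₁) L p n i j := by
  unfold entA game
  by_cases h1 : hasU (cod i).1 (cod j).1 = true
  · have h2 : ¬ i = j := by
      rintro rfl
      rw [hasU_self] at h1
      simp at h1
    have h3 : hasU (cod j).1 (cod i).1 = false := by
      revert h1
      generalize (cod i).1 = a
      generalize (cod j).1 = b
      unfold hasU
      simp only [decide_eq_true_eq, decide_eq_false_iff_not, List.mem_cons, Prod.mk.injEq,
        List.not_mem_nil, or_false]
      omega
    rw [if_pos h1, entU_eq gs o₀ o₁ L p n i j h1, U_of_not gs o₀ o₁ L p n j i h3, if_neg h2]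
    ring
  · rw [if_neg h1]
    rw [Bool.not_eq_true] at h1
    by_cases h3 : hasU (cod j).1 (cod i).1 = true
    · have h2 : ¬ i = j := by
        rintro rfl
        rw [hasU_self] at h3
        simp at h3
      rw [if_pos h3, bval_bneg, U_of_not gs o₀ o₁ L p n i j h1, if_neg h2]
      push_cast
      rw [entU_eq gs o₀ o₁ L p n j i h3]
      ring
    · rw [if_neg h3]
      rw [Bool.not_eq_true] at h3
      rw [U_of_not gs o₀ o₁ L p n i j h1, U_of_not gs o₀ o₁ L p n j i h3, sub_zero, zero_add]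
      by_cases h2 : i = j
      · subst h2
        rw [if_pos rfl, ← diag_of n p i hn]
        simp
      · have h4 : ¬ cod i = cod j := fun e => h2 (cod_inj e)
        rw [if_neg h2]
        simp [h4, bval_bz]

end Pool.Agent.H74.PPAD
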