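import Pool.Agent.H74.PPADGame

/-!
# The game given by a list of lists; solutions
-/

set_option autoImplicit false

namespace Pool.Agent.H74.PPAD

open TMLib Pool.Agent.H74.RankTwoGame Pool.Agent.H74.RankTwo

/-- all codes of strategies -/
def codes (N n : ℕ) : List Code :=
  [(0, 0, 0), (1, 0, 0), (2, 0, 0), (3, 0, 0), (3, 1, 0), (4, 0, 0), (4, 1, 0), (5, 0, 0),
    (5, 1, 0)] ++ (List.range n).map (fun j => (6, 0, j)) ++ (List.range n).map (fun j => (6, 1, j))
    ++ (List.range n).map (fun j => (7, 0, j)) ++ (List.range n).map (fun j => (7, 1, j))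
    ++ (List.range n).map (fun j => (8, 0, j)) ++ (List.range n).map (fun j => (8, 1, j))
    ++ (List.range N).map (fun i => (9, 0, i)) ++ (List.range N).map (fun i => (10, 0, i))

lemma mem_codes {N n : ℕ} (c : Code) : c ∈ codes N n ↔ ∃ i : Idx 2 N n, cod i = c := by
  unfold codes
  simp only [List.mem_append, List.mem_cons, List.not_mem_nil, or_false, List.mem_map,
    List.mem_range]
  constructor
  · rintro ((((((((h | h) | h) | h) | h) | h) | h) | h) | h)
    · rcases h with rfl | rfl | rfl | rfl | rfl | rfl | rfl | rfl | rfl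
      · exact ⟨.one, rfl⟩
      · exact ⟨.c, rfl⟩
      · exact ⟨.d, rfl⟩
      · exact ⟨.v 0, rfl⟩
      · exact ⟨.v 1, rfl⟩
      · exact ⟨.w 0, rfl⟩
      · exact ⟨.w 1, rfl⟩
      · exact ⟨.s 0, rfl⟩
      · exact ⟨.s 1, rfl⟩
    · obtain ⟨j, hj, rfl⟩ := h; exact ⟨.t 0 ⟨j, hj⟩, rfl⟩
    · obtain ⟨j, hj, rfl⟩ := h; exact ⟨.t 1 ⟨j, hj⟩, rfl⟩
    · obtain ⟨j, hj, rfl⟩ := h; exact ⟨.al 0 ⟨j, hj⟩, rfl⟩
    · obtain ⟨j, hj, rfl⟩ := h; exact ⟨.al 1 ⟨j, hj⟩, rfl⟩
    · obtain ⟨j, hj, rfl⟩ := h; exact ⟨.be 0 ⟨j, hj⟩, rfl⟩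
    · obtain ⟨j, hj, rfl⟩ := h; exact ⟨.be 1 ⟨j, hj⟩, rfl⟩
    · obtain ⟨j, hj, rfl⟩ := h; exact ⟨.z ⟨j, hj⟩, rfl⟩
    · obtain ⟨j, hj, rfl⟩ := h; exact ⟨.y ⟨j, hj⟩, rfl⟩
  · rintro ⟨i, rfl⟩
    cases i with
    | one => simp [cod]
    | c => simp [cod]
    | d => simp [cod]
    | v k => fin_cases k <;> simp [cod]
    | w k => fin_cases k <;> simp [cod]
    | s k => fin_cases k <;> simp [cod]
    | t k j => fin_cases k <;> simp [cod, j.2]
    | al k j => fin_cases k <;> simp [cod, j.2]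
    | be k j => fin_cases k <;> simp [cod, j.2]
    | z i => simp [cod, i.2]
    | y i => simp [cod, i.2]

lemma nodup_codes (N n : ℕ) : (codes N n).Nodup := by
  have h : ∀ (a b m : ℕ), ((List.range m).map (fun j => ((a, b, j) : Code))).Nodup := fun a b m =>
    (List.nodup_range).map (fun x y h => by simpa using h)
  unfold codes
  simp only [List.nodup_append, h, List.mem_append, List.mem_cons, List.not_mem_nil, or_false,
    List.mem_map, List.mem_range]
  refine ⟨⟨⟨⟨⟨⟨⟨⟨by decide, trivial, ?_⟩, trivial, ?_⟩, trivial, ?_⟩, trivial, ?_⟩, trivial, ?_⟩,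
    trivial, ?_⟩, trivial, ?_⟩, trivial, ?_⟩
  all_goals
    rintro a ha b ⟨j, _, rfl⟩ rfl
    simp at ha

/-- the strategy with a given number -/
noncomputable def idxOf (N n : ℕ) (t : Fin (codes N n).length) : Idx 2 N n :=
  ((mem_codes ((codes N n)[t.1])).1 (List.getElem_mem _)).choose

lemma cod_idxOf (N n : ℕ) (t : Fin (codes N n).length) : cod (idxOf N n t) = (codes N n)[t.1] :=
  ((mem_codes ((codes N n)[t.1])).1 (List.getElem_mem _)).choose_spec

/-- numbering of the strategies -/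
noncomputable def eqv (N n : ℕ) : Fin (codes N n).length ≃ Idx 2 N n :=
  Equiv.ofBijective (idxOf N n) (by
    constructor
    · intro s t h
      have h1 := congrArg cod h
      rw [cod_idxOf, cod_idxOf] at h1
      exact Fin.ext ((List.Nodup.getElem_inj_iff (nodup_codes N n)).1 h1)
    · intro i
      obtain ⟨t, ht, h⟩ := List.mem_iff_getElem.1 ((mem_codes (N := N) (n := n) (cod i)).2 ⟨i, rfl⟩)
      exact ⟨⟨t, ht⟩, cod_inj (by rw [cod_idxOf]; exact h)⟩)

lemma cod_eqv (N n : ℕ) (t : Fin (codes N n).length) : cod (eqv N n t) = (codes N n)[t.1] :=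
  cod_idxOf N n t

/-- A rational number in binary: sign, numerator, denominator. -/
abbrev BRat := Bool × List Bool × List Bool

/-- value of a binary rational -/
def rval (q : BRat) : ℚ := (if q.1 then -(num q.2.1 : ℚ) else (num q.2.1 : ℚ)) / (num q.2.2 : ℚ)

/-- an integer as a rational -/
def toR (q : BInt) : BRat := (q.1, q.2, [true])

lemma rval_toR (q : BInt) : rval (toR q) = bval q := by
  unfold rval toR bval
  have : ((num [true] : ℕ) : ℚ) = 1 := by simp [num]
  simp only [this, div_one]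
  split_ifs <;> push_cast <;> rfl

/-- zero -/
abbrev rz : BRat := (false, [], [])

/-- the matrix with rows `A` -/
noncomputable def matOf (A : List (List BRat)) : Matrix (Fin A.length) (Fin A.length) ℝ :=
  fun i j => ((rval ((A.getD i.1 []).getD j.1 rz) : ℚ) : ℝ)

/-- the vector with entries `x` -/
noncomputable def vecOf (M : ℕ) (x : List BRat) : Fin M → ℝ :=
  fun i => ((rval (x.getD i.1 rz) : ℚ) : ℝ)

/-- all denominators are positive and the matrix is square -/
def okMat (A : List (List BRat)) : Prop :=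
  ∀ r ∈ A, r.length = A.length ∧ ∀ q ∈ r, num q.2.2 ≠ 0

/-- the game matrix as lists -/
def gameL (gs : List RG) (o₀ o₁ : List (ℕ × BInt)) (n p om : ℕ) : List (List BRat) :=
  (codes gs.length n).map fun i => (codes gs.length n).map fun j => toR (entA gs o₀ o₁ n p om i j)

lemma length_gameL (gs : List RG) (o₀ o₁ : List (ℕ × BInt)) (n p om : ℕ) :
    (gameL gs o₀ o₁ n p om).length = (codes gs.length n).length := by simp [gameL]

lemma okMat_gameL (gs : List RG) (o₀ o₁ : List (ℕ × BInt)) (n p om : ℕ) :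
    okMat (gameL gs o₀ o₁ n p om) := by
  intro r hr
  rw [length_gameL]
  unfold gameL at hr
  obtain ⟨i, _, rfl⟩ := List.mem_map.1 hr
  refine ⟨by simp, fun q hq => ?_⟩
  obtain ⟨j, _, rfl⟩ := List.mem_map.1 hq
  simp [toR, num]

section reindex

variable {ι κ : Type} [Fintype ι] [Fintype κ]

lemma simplex_comp (e : κ ≃ ι) (x : ι → ℝ) : x ∘ e ∈ stdSimplex ℝ κ ↔ x ∈ stdSimplex ℝ ι := by
  simp only [stdSimplex, Set.mem_setOf_eq, Function.comp]
  rw [e.sum_comp x]
  constructor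
  · rintro ⟨h1, h2⟩
    exact ⟨fun i => by have := h1 (e.symm i); simpa using this, h2⟩
  · rintro ⟨h1, h2⟩
    exact ⟨fun i => h1 _, h2⟩

lemma dot_comp (e : κ ≃ ι) (A : Matrix ι ι ℝ) (x y : ι → ℝ) :
    (x ∘ e) ⬝ᵥ (A.submatrix e e).mulVec (y ∘ e) = x ⬝ᵥ A.mulVec y := by
  simp only [dotProduct, Matrix.mulVec, Matrix.submatrix_apply, Function.comp]
  have h1 : ∀ i, ∑ j, A (e i) (e j) * y (e j) = ∑ j, A (e i) j * y j := fun i =>
    e.sum_comp fun j => A (e i) j * y j
  simp only [h1]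
  exact e.sum_comp fun i => x i * ∑ j, A i j * y j

lemma isSymNE_submatrix (e : κ ≃ ι) (A : Matrix ι ι ℝ) (x : ι → ℝ)
    (h : IsSymNE (A.submatrix e e) (x ∘ e)) : IsSymNE A x := by
  obtain ⟨h1, h2, h3, h4⟩ := h
  refine ⟨(simplex_comp e x).1 h1, (simplex_comp e x).1 h2, fun x' hx' => ?_, fun y' hy' => ?_⟩
  · have := h3 (x' ∘ e) ((simplex_comp e x').2 hx')
    rwa [dot_comp, dot_comp] at this
  · have := h4 (y' ∘ e) ((simplex_comp e y').2 hy')
    rwa [Matrix.transpose_submatrix, dot_comp, dot_comp] at this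

end reindex

lemma matOf_gameL (gs : List RG) (o₀ o₁ : List (ℕ × BInt)) (L p n : ℕ) (hn : p + 6 ≤ n)
    (i j : Fin (codes gs.length n).length)
    (h : (gameL gs o₀ o₁ n p (om 2 gs.length L)).length = (codes gs.length n).length) :
    matOf (gameL gs o₀ o₁ n p (om 2 gs.length L)) (Fin.cast h.symm i) (Fin.cast h.symm j) =
      ((game (netOf gs o₀ o₁) L p n (eqv gs.length n i) (eqv gs.length n j) : ℚ) : ℝ) := by
  unfold matOf
  rw [← entA_eq gs o₀ o₁ L p n hn, cod_eqv, cod_eqv]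
  have e1 : ((gameL gs o₀ o₁ n p (om 2 gs.length L)).getD (Fin.cast h.symm i).1 []).getD
      (Fin.cast h.symm j).1 rz = toR (entA gs o₀ o₁ n p (om 2 gs.length L)
        ((codes gs.length n)[i.1]) ((codes gs.length n)[j.1])) := by
    simp [gameL, List.getD_eq_getElem?_getD]
  rw [e1, rval_toR]

end Pool.Agent.H74.PPAD
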