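import Pool.Agent.H74.PPADFinal

/-!
# Both maps of the reduction are computable in polynomial time
-/

set_option autoImplicit false

namespace Pool.Agent.H74.PPAD

open TMLib N487b59b3 N68a2faeb Pool.Agent.H74.RankTwoGame Pool.Agent.H74.RankTwo

/-- bit strings -/
abbrev LB := List Bool

/-- circuits with binary numbers -/
abbrev DC := List (LB × LB × LB) × List LB

/-- read a circuit -/
def decC : List Bool → DC := decP (decL (decP id (decP id id))) (decL id)

/-- binary form of a circuit -/
def convC (C : ACirc) : DC := (C.1.map fun g => (g.1.bits, g.2.1.bits, g.2.2.bits), C.2.map Nat.bits)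

lemma bitEncode_nat (n : ℕ) : bitEncode n = n.bits := encodeNat_eq n

lemma decC_enc (C : ACirc) : decC (bitEncode C) = convC C := by
  obtain ⟨gs, os⟩ := C
  unfold decC convC
  rw [decP_enc, decL_enc, decL_enc]
  refine Prod.ext ?_ ?_
  · refine List.map_congr_left fun g _ => ?_
    obtain ⟨a, b, c⟩ := g
    rw [decP_enc, decP_enc, bitEncode_nat, bitEncode_nat, bitEncode_nat]
    rfl
  · refine List.map_congr_left fun i _ => ?_
    rw [bitEncode_nat]
    rfl

lemma ptime_id' : PTime (id : LB → LB) := PTime.id

lemma ptime_decC : PTime decC :=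
  ptime_decP (ptime_decL (ptime_decP ptime_id' (ptime_decP ptime_id' ptime_id')))
    (ptime_decL ptime_id')

/-- capped numbers -/
def capD (n : ℕ) (D : DC) : ACirc :=
  (D.1.map fun g => (capN 2 g.1, capN (n + D.1.length) g.2.1, capN (n + D.1.length) g.2.2),
    D.2.map fun i => capN (n + D.1.length) i)

lemma capD_conv (n : ℕ) (C : ACirc) : capD n (convC C) = capC n C := by
  unfold capD convC capC
  refine Prod.ext ?_ ?_
  · simp only [List.map_map, List.length_map]
    refine List.map_congr_left fun g _ => ?_
    simp only [Function.comp, capN_eq, num_nat_bits]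
  · simp only [List.map_map, List.length_map]
    refine List.map_congr_left fun g _ => ?_
    simp only [Function.comp, capN_eq, num_nat_bits]

/-- the pair of NOR circuits, from the binary form -/
def inD (D : DC × DC) : Circ × Circ :=
  (norC D.1.2.length (capD D.1.2.length D.1), norC D.1.2.length (capD D.1.2.length D.2))

lemma inD_conv (x : ACirc × ACirc) : inD (convC x.1, convC x.2) = inX x := by
  have h : (convC x.1).2.length = x.1.2.length := by simp [convC]
  unfold inD inX toNor
  simp only [h, capD_conv]

/-- code of a matrix of integers -/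
def encM (Z : List (List BInt)) : List Bool :=
  ((Z.map fun r => ((r.map encZ).map delimit).flatten).map delimit).flatten

lemma encM_eq (Z : List (List BInt)) :
    encM Z = bitEncode (Z.map fun r => r.map fun z => ((bval z : ℤ) : ℚ)) := by
  have h1 : ∀ r : List BInt, ((r.map encZ).map delimit).flatten =
      bitEncode (r.map fun z => ((bval z : ℤ) : ℚ)) := by
    intro r
    rw [show bitEncode (r.map fun z => ((bval z : ℤ) : ℚ)) =
      (((r.map fun z => ((bval z : ℤ) : ℚ)).map bitEncode).map delimit).flatten from rfl]
    congr 2
    rw [List.map_map]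
    refine List.map_congr_left fun z _ => ?_
    rw [encZ_eq]; rfl
  rw [show bitEncode (Z.map fun r => r.map fun z => ((bval z : ℤ) : ℚ)) =
    (((Z.map fun r => r.map fun z => ((bval z : ℤ) : ℚ)).map bitEncode).map delimit).flatten
    from rfl]
  unfold encM
  congr 2
  rw [List.map_map]
  refine List.map_congr_left fun r _ => ?_
  rw [h1]; rfl

/-- read a pair of circuits -/
def decX : List Bool → DC × DC := decP decC decC

lemma decX_enc (x : ACirc × ACirc) : decX (bitEncode x) = (convC x.1, convC x.2) := by
  obtain ⟨S, P⟩ := x
  unfold decX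
  rw [decP_enc, decC_enc, decC_enc]

lemma ptime_decX : PTime decX := ptime_decP ptime_decC ptime_decC

/-- the forward map on bit strings -/
noncomputable def fwdB (z : List Bool) : List Bool := encM (redZ (inD (decX z)))

lemma fwdB_eq (x : ACirc × ACirc) : bitEncode (fwd x) = fwdB (bitEncode x) := by
  unfold fwdB fwd
  rw [decX_enc, inD_conv, encM_eq]

/-- read a rational number -/
def decQ : List Bool → (LB × LB) × LB := decP (decP id id) id

lemma ptime_decQ : PTime decQ := ptime_decP (ptime_decP ptime_id' ptime_id') ptime_id'

lemma decQ_enc (q : ℚ) : decQ (bitEncode q) = ((q.num.toNat.bits, (-q.num).toNat.bits), q.den.bits) := by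
  have h : bitEncode q = bitEncode (q.num, q.den) := rfl
  have h' : bitEncode q.num = bitEncode (q.num.toNat, (-q.num).toNat) := rfl
  unfold decQ
  rw [h, decP_enc, h', decP_enc, bitEncode_nat, bitEncode_nat, bitEncode_nat]
  rfl

/-- read the argument of the backward map -/
def decG : List Bool → (DC × DC) × List ((LB × LB) × LB) := decP decX (decL decQ)

lemma ptime_decG : PTime decG := ptime_decP ptime_decX (ptime_decL ptime_decQ)

/-- the backward map on decoded arguments -/
def bwdD (p : (DC × DC) × List ((LB × LB) × LB)) : List Bool :=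
  divB p.1.1.2.length
    (mulB (p.2.getD 3 (([], []), [true])).1.1 (p.2.getD 0 (([], []), [true])).2)
    (mulB (p.2.getD 3 (([], []), [true])).2 (p.2.getD 0 (([], []), [true])).1.1)

/-- the backward map on bit strings -/
def bwdB (z : List Bool) : List Bool := bitEncode (bwdD (decG z))

lemma bwdB_eq (p : (ACirc × ACirc) × List ℚ) : bitEncode (bwd p) = bwdB (bitEncode p) := by
  obtain ⟨x, y⟩ := p
  unfold bwdB decG
  rw [decP_enc, decX_enc, decL_enc]
  congr 1
  unfold bwd bwdD
  have h : ∀ t, (y.map fun q => decQ (bitEncode q)).getD t (([], []), [true]) =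
      decQ (bitEncode (y.getD t 0)) := by
    intro t
    have : ((([] : LB), ([] : LB)), [true]) = decQ (bitEncode (0 : ℚ)) := by
      rw [decQ_enc]; simp
    rw [this]
    exact List.getD_map y 0 (fun q => decQ (bitEncode q))
  dsimp only
  rw [h, h]
  simp only [decQ_enc]
  have e : (convC x.1).2.length = x.1.2.length := by simp [convC]
  rw [e]

section ptime

variable {α : Type} [Enc α]

@[fun_prop] lemma ptime_capD {n : α → ℕ} {D : α → DC} (h : PTime n) (h' : PTime D) :
    PTime (fun x => capD (n x) (D x)) := by
  unfold capD; fun_prop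

attribute [local irreducible] capD norC

@[fun_prop] lemma ptime_inD {D : α → DC × DC} (h' : PTime D) :
    PTime (fun x => inD (D x)) := by
  unfold inD; fun_prop

@[fun_prop] lemma ptime_encM {Z : α → List (List BInt)} (h' : PTime Z) :
    PTime (fun x => encM (Z x)) := by
  unfold encM; fun_prop

attribute [local irreducible] inD encM codes gatesOf outOf lv entA

@[fun_prop] lemma ptime_redZ {x : α → Circ × Circ} (h' : PTime x) :
    PTime (fun a => redZ (x a)) := by
  unfold redZ LL pp; fun_prop

attribute [local irreducible] redZ divB mulB decX decG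

lemma ptime_fwdB : PTime fwdB := by
  have h : PTime (fun D : DC × DC => encM (redZ (inD D))) := by fun_prop
  exact h.comp ptime_decX

lemma ptime_bwdB : PTime bwdB := by
  have h : PTime (fun p : (DC × DC) × List ((LB × LB) × LB) => bitEncode (bwdD p)) := by
    unfold bwdD; fun_prop
  exact h.comp ptime_decG

end ptime

/-- the forward map is computable in polynomial time -/
theorem isPolyTime_fwd : IsPolyTime fwd :=
  tm2_of_ptime (ea := (N487b59b3.toEncoding (α := ACirc × ACirc)).encode)
    (eb := (N487b59b3.toEncoding (α := List (List ℚ))).encode) ptime_fwdB fwdB_eq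

/-- the backward map is computable in polynomial time -/
theorem isPolyTime_bwd : IsPolyTime bwd :=
  tm2_of_ptime (ea := (N487b59b3.toEncoding (α := (ACirc × ACirc) × List ℚ)).encode)
    (eb := (N487b59b3.toEncoding (α := List Bool)).encode) ptime_bwdB bwdB_eq

end Pool.Agent.H74.PPAD
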