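import Pool.Agent.H74.PPADColor

/-!
# Straight-line programs of ReLU gates
-/

set_option autoImplicit false

namespace Pool.Agent.H74.PPAD

open Finset

/-- Integers in binary: sign (`true` is minus) and absolute value. -/
abbrev BInt := Bool × List Bool

/-- value of a binary integer -/
def bval (q : BInt) : ℤ := if q.1 then -(num q.2 : ℤ) else (num q.2 : ℤ)

/-- A ReLU gate: bias, weights of the two inputs, weights of earlier gates. -/
abbrev RG := BInt × (BInt × BInt) × List (ℕ × BInt)

/-- weight of gate `j` in a list of weights (the first entry counts) -/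
def coef (l : List (ℕ × BInt)) (j : ℕ) : BInt :=
  ((l.filter fun p => decide (p.1 = j)).head?.getD (0, (false, []))).2

lemma coef_nil (j : ℕ) : bval (coef [] j) = 0 := by simp [coef, bval, num]

lemma coef_cons (i : ℕ) (q : BInt) (l : List (ℕ × BInt)) (j : ℕ) :
    coef ((i, q) :: l) j = if i = j then q else coef l j := by
  unfold coef
  by_cases h : i = j
  · simp [h]
  · simp [h]

lemma coef_not_mem (l : List (ℕ × BInt)) (j : ℕ) (h : j ∉ l.map Prod.fst) : bval (coef l j) = 0 := by
  induction l with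
  | nil => exact coef_nil j
  | cons p l ih =>
    obtain ⟨i, q⟩ := p
    simp only [List.map_cons, List.mem_cons, not_or] at h
    rw [coef_cons, if_neg (fun e => h.1 e.symm)]
    exact ih h.2

/-- weighted sum of wire values -/
noncomputable def dotp (l : List (ℕ × BInt)) (w : List ℝ) : ℝ :=
  ∑ j ∈ range w.length, (bval (coef l j) : ℝ) * w.getD j 0

lemma dotp_nil (w : List ℝ) : dotp [] w = 0 := by
  unfold dotp
  apply sum_eq_zero
  intro j _
  rw [coef_nil]; simp

lemma dotp_cons (i : ℕ) (q : BInt) (l : List (ℕ × BInt)) (w : List ℝ) (h : i ∉ l.map Prod.fst) :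
    dotp ((i, q) :: l) w = (bval q : ℝ) * w.getD i 0 + dotp l w := by
  unfold dotp
  have h1 : ∀ j, (bval (coef ((i, q) :: l) j) : ℝ) * w.getD j 0 =
      (if i = j then (bval q : ℝ) * w.getD i 0 else 0) + (bval (coef l j) : ℝ) * w.getD j 0 := by
    intro j
    rw [coef_cons]
    by_cases hij : i = j
    · subst hij
      rw [if_pos rfl, if_pos rfl, coef_not_mem l i h]; simp
    · rw [if_neg hij, if_neg hij]; ring
  simp only [h1]
  rw [sum_add_distrib]
  congr 1
  rw [sum_ite_eq]
  split_ifs with h2
  · rfl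
  · rw [mem_range, not_lt] at h2
    rw [List.getD_eq_default _ _ h2]; simp

/-- append the value of a gate -/
noncomputable def rstep (u₀ u₁ : ℝ) (w : List ℝ) (g : RG) : List ℝ :=
  w ++ [max 0 ((bval g.1 : ℝ) + bval g.2.1.1 * u₀ + bval g.2.1.2 * u₁ + dotp g.2.2 w)]

/-- values of all gates -/
noncomputable def rrun (u₀ u₁ : ℝ) (gs : List RG) : List ℝ := gs.foldl (rstep u₀ u₁) []

section

variable (u₀ u₁ : ℝ)

lemma rrun_concat (gs : List RG) (g : RG) :
    rrun u₀ u₁ (gs ++ [g]) = rstep u₀ u₁ (rrun u₀ u₁ gs) g := by simp [rrun]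

@[simp] lemma length_rrun (gs : List RG) : (rrun u₀ u₁ gs).length = gs.length := by
  induction gs using List.reverseRecOn with
  | nil => rfl
  | append_singleton gs g ih => rw [rrun_concat]; simp [rstep, ih]

lemma rrun_prefix (gs hs : List RG) : ∃ t, rrun u₀ u₁ (gs ++ hs) = rrun u₀ u₁ gs ++ t := by
  induction hs using List.reverseRecOn with
  | nil => exact ⟨[], by simp⟩
  | append_singleton hs g ih =>
    obtain ⟨t, ht⟩ := ih
    rw [← List.append_assoc, rrun_concat, ht]
    exact ⟨t ++ [_], by rw [rstep, List.append_assoc]⟩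

lemma getD_rrun_append (gs hs : List RG) {i : ℕ} (hi : i < gs.length) :
    (rrun u₀ u₁ (gs ++ hs)).getD i 0 = (rrun u₀ u₁ gs).getD i 0 := by
  obtain ⟨t, ht⟩ := rrun_prefix u₀ u₁ gs hs
  rw [ht, List.getD_append _ _ _ _ (by simpa using hi)]

lemma getD_rrun_concat (gs : List RG) (g : RG) :
    (rrun u₀ u₁ (gs ++ [g])).getD gs.length 0 =
      max 0 ((bval g.1 : ℝ) + bval g.2.1.1 * u₀ + bval g.2.1.2 * u₁ + dotp g.2.2 (rrun u₀ u₁ gs)) := by
  rw [rrun_concat, rstep, List.getD_append_right _ _ _ _ (by simp)]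
  simp

/-- wire `i` exists and has value `r` -/
def RV (gs : List RG) (i : ℕ) (r : ℝ) : Prop := i < gs.length ∧ (rrun u₀ u₁ gs).getD i 0 = r

variable {u₀ u₁}

lemma RV.append {gs : List RG} {i : ℕ} {r : ℝ} (h : RV u₀ u₁ gs i r) (hs : List RG) :
    RV u₀ u₁ (gs ++ hs) i r :=
  ⟨by rw [List.length_append]; have := h.1; omega, by rw [getD_rrun_append _ _ _ _ h.1, h.2]⟩

lemma RV.nonneg {gs : List RG} {i : ℕ} {r : ℝ} (h : RV u₀ u₁ gs i r) : 0 ≤ r := by
  obtain ⟨h1, rfl⟩ := h
  have e : gs = gs.take i ++ [gs[i]] ++ gs.drop (i + 1) := by simp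
  rw [e, getD_rrun_append _ _ _ _ (by simp; omega)]
  have hl : (gs.take i).length = i := by simp; omega
  have := getD_rrun_concat u₀ u₁ (gs.take i) gs[i]
  rw [hl] at this
  rw [this]
  exact le_max_left _ _

lemma RV.new (gs : List RG) (g : RG) : RV u₀ u₁ (gs ++ [g]) gs.length
    (max 0 ((bval g.1 : ℝ) + bval g.2.1.1 * u₀ + bval g.2.1.2 * u₁ + dotp g.2.2 (rrun u₀ u₁ gs))) :=
  ⟨by simp, getD_rrun_concat _ _ _ _⟩

/-- zero -/
abbrev bz : BInt := (false, [])
/-- one -/
abbrev b1 : BInt := (false, [true])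
/-- minus one -/
abbrev bm1 : BInt := (true, [true])

lemma bval_bz : bval bz = 0 := rfl
lemma bval_b1 : bval b1 = 1 := rfl
lemma bval_bm1 : bval bm1 = -1 := rfl

/-- gate without direct inputs -/
def gt (β : BInt) (l : List (ℕ × BInt)) : RG := (β, (bz, bz), l)

lemma RV.const (gs : List RG) (β : BInt) : RV u₀ u₁ (gs ++ [gt β []]) gs.length
    (max 0 (bval β : ℝ)) := by
  have := RV.new (u₀ := u₀) (u₁ := u₁) gs (gt β [])
  simpa [gt, bval_bz, dotp_nil] using this

lemma RV.one {gs : List RG} {i : ℕ} {r : ℝ} (h : RV u₀ u₁ gs i r) (β q : BInt) :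
    RV u₀ u₁ (gs ++ [gt β [(i, q)]]) gs.length (max 0 ((bval β : ℝ) + bval q * r)) := by
  have := RV.new (u₀ := u₀) (u₁ := u₁) gs (gt β [(i, q)])
  have e : dotp [(i, q)] (rrun u₀ u₁ gs) = bval q * r := by
    rw [dotp_cons _ _ _ _ (by simp), dotp_nil, h.2, add_zero]
  simpa [gt, bval_bz, e] using this

lemma RV.two {gs : List RG} {i j : ℕ} {r s : ℝ} (h : RV u₀ u₁ gs i r) (h' : RV u₀ u₁ gs j s)
    (hij : i ≠ j) (β q q' : BInt) : RV u₀ u₁ (gs ++ [gt β [(i, q), (j, q')]]) gs.length
      (max 0 ((bval β : ℝ) + bval q * r + bval q' * s)) := by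
  have := RV.new (u₀ := u₀) (u₁ := u₁) gs (gt β [(i, q), (j, q')])
  have e : dotp [(i, q), (j, q')] (rrun u₀ u₁ gs) = bval q * r + bval q' * s := by
    rw [dotp_cons _ _ _ _ (by simpa using hij), dotp_cons _ _ _ _ (by simp), dotp_nil, h.2, h'.2,
      add_zero]
  rw [show (gt β [(i, q), (j, q')]).2.2 = [(i, q), (j, q')] from rfl, e] at this
  simpa [gt, bval_bz, add_assoc] using this

/-- real value of a bit -/
def b2r (b : Bool) : ℝ := if b then 1 else 0

/-- a NOR gate as a ReLU gate -/
def norR (g : ℕ × ℕ) : RG := gt b1 [(g.1, bm1), (g.2, bm1)]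

/-- wires `is` have values `rs` -/
def RVs (gs : List RG) (is : List ℕ) (rs : List ℝ) : Prop :=
  (∀ i ∈ is, i < gs.length) ∧ is.map (fun i => (rrun u₀ u₁ gs).getD i 0) = rs

lemma dotp_nor (w : List ℝ) (i j : ℕ) (a b : Bool) (hi : w.getD i 0 = b2r a)
    (hj : w.getD j 0 = b2r b) :
    max 0 (1 + dotp [(i, bm1), (j, bm1)] w) = b2r (!(a || b)) := by
  by_cases hij : i = j
  · subst hij
    have e : dotp [(i, bm1), (i, bm1)] w = dotp [(i, bm1)] w := by
      unfold dotp
      refine sum_congr rfl fun k _ => ?_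
      rw [coef_cons, coef_cons]
      by_cases h : i = k <;> simp [h]
    rw [e, dotp_cons _ _ _ _ (by simp), dotp_nil, hi, bval_bm1]
    rw [hi] at hj
    cases a <;> cases b <;> simp_all [b2r]
  · rw [dotp_cons _ _ _ _ (by simpa using hij), dotp_cons _ _ _ _ (by simp), dotp_nil, hi, hj,
      bval_bm1]
    cases a <;> cases b <;> simp [b2r]

/-- **Embedding of NOR circuits** into ReLU programs. -/
lemma rrun_inst (cg : Gates) (gs : List RG) (is : List ℕ) (bs : List Bool)
    (h : RVs (u₀ := u₀) (u₁ := u₁) gs is (bs.map b2r)) :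
    ∀ i, (rrun u₀ u₁ (gs ++ (inst cg is gs.length).map norR)).getD (reloc is gs.length i) 0 =
      b2r ((evG cg bs).getD i false) := by
  have hl : is.length = bs.length := by
    have := congrArg List.length h.2
    simpa using this
  induction cg using List.reverseRecOn with
  | nil =>
    intro i
    simp only [inst, List.map_nil, List.append_nil, evG_nil]
    unfold reloc
    split_ifs with hi
    · have hib : i < bs.length := by omega
      have h2 : (is.map (fun i => (rrun u₀ u₁ gs).getD i 0))[i]? = (bs.map b2r)[i]? := by rw [h.2]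
      rw [List.getElem?_map, List.getElem?_map, List.getElem?_eq_getElem hi,
        List.getElem?_eq_getElem hib] at h2
      simp only [Option.map_some, Option.some.injEq] at h2
      rw [List.getD_eq_getElem _ _ hi, List.getD_eq_getElem _ _ hib, h2]
    · rw [List.getD_eq_default _ _ (by simp), List.getD_eq_default _ _ (by omega)]
      simp [b2r]
  | append_singleton cg g ih =>
    intro i
    have e : gs ++ (inst (cg ++ [g]) is gs.length).map norR = (gs ++ (inst cg is gs.length).map norR)
        ++ [norR (reloc is gs.length g.1, reloc is gs.length g.2)] := by simp [inst]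
    have hW : (gs ++ (inst cg is gs.length).map norR).length = gs.length + cg.length := by simp
    have hU : (evG cg bs).length = is.length + cg.length := by rw [length_evG, hl]
    rw [e, evG_concat, nstep]
    rcases lt_trichotomy i (is.length + cg.length) with hi | hi | hi
    · rw [getD_rrun_append _ _ _ _ (by rw [hW]; exact reloc_lt _ _ _ _ h.1 hi),
        List.getD_append _ _ _ _ (by rw [hU]; exact hi)]
      exact ih i
    · have h1 : reloc is gs.length i = (gs ++ (inst cg is gs.length).map norR).length := by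
        unfold reloc
        rw [if_neg (by omega), hW]; omega
      rw [h1, getD_rrun_concat, hi, ← hU]
      have h2 := dotp_nor (rrun u₀ u₁ (gs ++ (inst cg is gs.length).map norR)) _ _ _ _
        (ih g.1) (ih g.2)
      simp only [norR, gt, bval_bz, bval_b1]
      simp only [Int.cast_zero, zero_mul, add_zero, Int.cast_one]
      rw [h2]
      simp [List.getD_eq_getElem?_getD]
    · have h1 : (gs ++ (inst cg is gs.length).map norR).length < reloc is gs.length i := by
        unfold reloc
        rw [if_neg (by omega), hW]; omega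
      rw [List.getD_eq_default _ _ (by simp at h1 ⊢; omega), List.getD_eq_default _ _ (by simp; omega)]
      simp [b2r]

lemma RVs.circ {gs : List RG} {is : List ℕ} {bs : List Bool}
    (h : RVs (u₀ := u₀) (u₁ := u₁) gs is (bs.map b2r)) (C : Circ) (hC : okOut is.length C) :
    RVs (u₀ := u₀) (u₁ := u₁) (gs ++ (inst C.1 is gs.length).map norR)
      (C.2.map (reloc is gs.length)) ((evC C bs).map b2r) := by
  refine ⟨fun i hi => ?_, ?_⟩
  · obtain ⟨j, hj, rfl⟩ := List.mem_map.1 hi
    have := reloc_lt is gs.length j C.1.length h.1 (hC j hj)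
    simp; omega
  · rw [evC, List.map_map, List.map_map]
    refine List.map_congr_left fun i _ => ?_
    exact rrun_inst C.1 gs is bs h i

end

end Pool.Agent.H74.PPAD
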