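import Pool.Agent.H74.PPADCorrect
import Pool.Agent.TM.BitEnc

/-!
# The construction is computable in polynomial time
-/

set_option autoImplicit false

namespace Pool.Agent.H74.PPAD

open TMLib

variable {α : Type} [Enc α]

@[fun_prop] lemma ptime_reloc {inp : α → List ℕ} {b i : α → ℕ} (h1 : PTime inp) (h2 : PTime b)
    (h3 : PTime i) : PTime (fun x => reloc (inp x) (b x) (i x)) := by
  unfold reloc; fun_prop

@[fun_prop] lemma ptime_inst {gs : α → Gates} {inp : α → List ℕ} {b : α → ℕ} (h0 : PTime gs)
    (h1 : PTime inp) (h2 : PTime b) : PTime (fun x => inst (gs x) (inp x) (b x)) := by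
  unfold inst; fun_prop

@[fun_prop] lemma ptime_cw1 {b i : α → ℕ} (h2 : PTime b) (h3 : PTime i) :
    PTime (fun x => (cw (b x) (i x)).1) := by
  have h : PTime (fun x => if i x = 0 then 0 else
    b x + cmpLen * (i x - 1) + (cmpT.2.getD 0 0 - 4)) := by fun_prop
  refine h.congr fun x => ?_
  unfold cw; split_ifs <;> rfl

@[fun_prop] lemma ptime_cw2 {b i : α → ℕ} (h2 : PTime b) (h3 : PTime i) :
    PTime (fun x => (cw (b x) (i x)).2) := by
  have h : PTime (fun x => if i x = 0 then 1 else
    b x + cmpLen * (i x - 1) + (cmpT.2.getD 1 0 - 4)) := by fun_prop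
  refine h.congr fun x => ?_
  unfold cw; split_ifs <;> rfl

@[fun_prop] lemma ptime_cmpG {as bs : α → List ℕ} {n b : α → ℕ} (h0 : PTime as) (h1 : PTime bs)
    (h2 : PTime n) (h3 : PTime b) : PTime (fun x => cmpG (as x) (bs x) (n x) (b x)) := by
  unfold cmpG; fun_prop


lemma ptime_exI {n : α → ℕ} {S P : α → Circ} {k : α → ℕ} {st : α → Gates × List (List ℕ)}
    (h0 : PTime n) (h1 : PTime S) (h2 : PTime P) (h3 : PTime k) (h4 : PTime st) (i : Ins) :
    PTime (fun x => exI (n x) (S x) (P x) (k x) (st x) i) := by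
  cases i with
  | circ s src => cases s <;> (simp only [exI]; fun_prop)
  | cmp a b => simp only [exI]; fun_prop

lemma ptime_foldI {n : α → ℕ} {S P : α → Circ} {k : α → ℕ}
    (h0 : PTime n) (h1 : PTime S) (h2 : PTime P) (h3 : PTime k) (L : List Ins) :
    ∀ {st : α → Gates × List (List ℕ)}, PTime st →
    PTime (fun x => L.foldl (exI (n x) (S x) (P x) (k x)) (st x)) := by
  induction L with
  | nil => intro st h; exact h
  | cons i L ih => intro st h; exact ih (ptime_exI h0 h1 h2 h3 h i)

@[fun_prop] lemma ptime_regs {n : α → ℕ} (h0 : PTime n) : PTime (fun x => regs (n x)) := by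
  unfold regs; fun_prop

@[fun_prop] lemma ptime_stP {n : α → ℕ} {S P : α → Circ} (h0 : PTime n) (h1 : PTime S)
    (h2 : PTime P) : PTime (fun x => stP (n x) (S x) (P x)) := by
  unfold stP
  exact ptime_foldI h0 h1 h2 (by fun_prop) prog (by fun_prop)

@[fun_prop] lemma ptime_finI {n : α → ℕ} {e : α → List (List ℕ)} (h0 : PTime n) (h1 : PTime e) :
    PTime (fun x => finI (n x) (e x)) := by
  unfold finI; fun_prop

attribute [local irreducible] stP finI

@[fun_prop] lemma ptime_colorC {n : α → ℕ} {S P : α → Circ} (h0 : PTime n) (h1 : PTime S)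
    (h2 : PTime P) : PTime (fun x => colorC (n x) (S x) (P x)) := by
  unfold colorC; fun_prop

attribute [local irreducible] colorC

@[fun_prop] lemma ptime_pow2 {j : α → ℕ} (h : PTime j) : PTime (fun x => pow2 (j x)) := by
  unfold pow2; fun_prop

@[fun_prop] lemma ptime_npow2 {j : α → ℕ} (h : PTime j) : PTime (fun x => npow2 (j x)) := by
  unfold npow2; fun_prop

@[fun_prop] lemma ptime_ones {j : α → ℕ} (h : PTime j) : PTime (fun x => ones (j x)) := by
  unfold ones; fun_prop

@[fun_prop] lemma ptime_nones {j : α → ℕ} (h : PTime j) : PTime (fun x => nones (j x)) := by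
  unfold nones; fun_prop

attribute [local irreducible] pow2 npow2 ones nones

@[fun_prop] lemma ptime_gt {β : α → BInt} {l : α → List (ℕ × BInt)} (h : PTime β) (h' : PTime l) :
    PTime (fun x => gt (β x) (l x)) := by
  unfold gt; fun_prop

attribute [local irreducible] gt

@[fun_prop] lemma ptime_norR {g : α → ℕ × ℕ} (h : PTime g) : PTime (fun x => norR (g x)) := by
  unfold norR; fun_prop

attribute [local irreducible] norR

@[fun_prop] lemma ptime_headG (k : Bool) {m b : α → ℕ} (h0 : PTime m) (h1 : PTime b) :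
    PTime (fun x => headG k (m x) (b x)) := by
  unfold headG
  cases k
  · simp only [Bool.false_eq_true, if_false]; fun_prop
  · simp only [if_true]; fun_prop

@[fun_prop] lemma ptime_foldS {i j s : α → ℕ} (h0 : PTime i) (h1 : PTime j) (h2 : PTime s) :
    PTime (fun x => foldS (i x) (j x) (s x)) := by
  unfold foldS; fun_prop

@[fun_prop] lemma ptime_foldG {m b t : α → ℕ} (h0 : PTime m) (h1 : PTime b) (h2 : PTime t) :
    PTime (fun x => foldG (m x) (b x) (t x)) := by
  unfold foldG; fun_prop

@[fun_prop] lemma ptime_wG {m b : α → ℕ} (h0 : PTime m) (h1 : PTime b) :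
    PTime (fun x => wG (m x) (b x)) := by
  unfold wG; fun_prop

@[fun_prop] lemma ptime_bitS {i j s : α → ℕ} (h0 : PTime i) (h1 : PTime j) (h2 : PTime s) :
    PTime (fun x => bitS (i x) (j x) (s x)) := by
  unfold bitS; fun_prop

@[fun_prop] lemma ptime_bitG {m b t : α → ℕ} (h0 : PTime m) (h1 : PTime b) (h2 : PTime t) :
    PTime (fun x => bitG (m x) (b x) (t x)) := by
  unfold bitG; fun_prop

@[fun_prop] lemma ptime_parG (a : Bool) {m b e : α → ℕ} (h0 : PTime m) (h1 : PTime b)
    (h2 : PTime e) : PTime (fun x => parG a (m x) (b x) (e x)) := by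
  unfold parG; fun_prop

@[fun_prop] lemma ptime_bitW (a : Bool) {m e : α → ℕ} (h0 : PTime m) (h1 : PTime e) :
    PTime (fun x => bitW a (m x) (e x)) := by
  unfold bitW; fun_prop

@[fun_prop] lemma ptime_coordG (k : Bool) {m b : α → ℕ} (h0 : PTime m) (h1 : PTime b) :
    PTime (fun x => coordG k (m x) (b x)) := by
  unfold coordG; fun_prop

attribute [local irreducible] headG foldS foldG wG bitS bitG parG bitW coordG

@[fun_prop] lemma ptime_Lc {m : α → ℕ} (h0 : PTime m) : PTime (fun x => Lc (m x)) := by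
  unfold Lc; fun_prop

attribute [local irreducible] Lc

@[fun_prop] lemma ptime_preG {m : α → ℕ} (h0 : PTime m) : PTime (fun x => preG (m x)) := by
  unfold preG; fun_prop

@[fun_prop] lemma ptime_isW {m : α → ℕ} (a b : Bool) (h0 : PTime m) :
    PTime (fun x => isW (m x) a b) := by
  unfold isW; fun_prop

@[fun_prop] lemma ptime_wW {m b : α → ℕ} (a : Bool) (h0 : PTime m) (h1 : PTime b) :
    PTime (fun x => wW (m x) (b x) a) := by
  unfold wW
  cases a
  · simp only [Bool.false_eq_true, if_false]; fun_prop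
  · simp only [if_true]; fun_prop

attribute [local irreducible] preG isW wW

@[fun_prop] lemma ptime_blockG {C : α → Circ} {is : α → List ℕ} {wx wy s : α → ℕ} (h0 : PTime C)
    (h1 : PTime is) (h2 : PTime wx) (h3 : PTime wy) (h4 : PTime s) :
    PTime (fun x => blockG (C x) (is x) (wx x) (wy x) (s x)) := by
  unfold blockG; fun_prop

attribute [local irreducible] blockG

@[fun_prop] lemma ptime_totG {C : α → Circ} {m : α → ℕ} (h0 : PTime C) (h1 : PTime m) :
    PTime (fun x => totG (C x) (m x)) := by
  unfold totG blkG; fun_prop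

@[fun_prop] lemma ptime_outG {C : α → Circ} {m i : α → ℕ} (h0 : PTime C) (h1 : PTime m)
    (h2 : PTime i) (c : ℕ) : PTime (fun x => outG (C x) (m x) (i x) c) := by
  unfold outG pW; fun_prop

attribute [local irreducible] totG outG

end Pool.Agent.H74.PPAD
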