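import Pool.Agent.H74.PPADList

/-!
# Symmetric equilibria of the game solve the end of the line problem
-/

set_option autoImplicit false

namespace Pool.Agent.H74.PPAD

open TMLib Pool.Agent.H74.RankTwoGame Pool.Agent.H74.RankTwo Finset

lemma getD_rrun_eq (u₀ u₁ : ℝ) (gs : List RG) (i : ℕ) (hi : i < gs.length) :
    (rrun u₀ u₁ gs).getD i 0 = max 0 ((bval (gateOf gs i).1 : ℝ) + bval (gateOf gs i).2.1.1 * u₀ +
      bval (gateOf gs i).2.1.2 * u₁ +
      ∑ j ∈ range i, (bval (coef (gateOf gs i).2.2 j) : ℝ) * (rrun u₀ u₁ gs).getD j 0) := by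
  have e : gs = gs.take i ++ [gs[i]] ++ gs.drop (i + 1) := by simp
  have hl : (gs.take i).length = i := by simp; omega
  have hg : gateOf gs i = gs[i] := by unfold gateOf; rw [List.getD_eq_getElem _ _ hi]
  have h1 : (rrun u₀ u₁ gs).getD i 0 = (rrun u₀ u₁ (gs.take i ++ [gs[i]])).getD i 0 := by
    conv_lhs => rw [e]
    rw [getD_rrun_append _ _ _ _ (by simp; omega)]
  have h2 := getD_rrun_concat u₀ u₁ (gs.take i) gs[i]
  rw [hl] at h2
  rw [h1, h2, hg]
  congr 2
  unfold dotp
  rw [length_rrun, hl]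
  refine sum_congr rfl fun j hj => ?_
  have hj' : j < i := mem_range.1 hj
  congr 1
  conv_rhs => rw [e]
  rw [List.append_assoc, getD_rrun_append _ _ _ _ (by rw [hl]; exact hj')]

lemma gate_netOf (gs : List RG) (o₀ o₁ : List (ℕ × BInt)) (u : Fin 2 → ℝ) (i : Fin gs.length) :
    (netOf gs o₀ o₁).gate u i = (rrun (u 0) (u 1) gs).getD i.1 0 := by
  obtain ⟨i, hi⟩ := i
  induction i using Nat.strong_induction_on with
  | _ i ih =>
    rw [gate_eq, getD_rrun_eq _ _ _ _ hi]
    congr 1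
    have h1 : ∑ k, (((netOf gs o₀ o₁).c ⟨i, hi⟩ k : ℚ) : ℝ) * u k =
        bval (gateOf gs i).2.1.1 * u 0 + bval (gateOf gs i).2.1.2 * u 1 := by
      rw [Fin.sum_univ_two]
      simp [netOf]
    have h2 : ∑ j, (if j < (⟨i, hi⟩ : Fin gs.length) then (((netOf gs o₀ o₁).a ⟨i, hi⟩ j : ℚ) : ℝ) *
        (netOf gs o₀ o₁).gate u j else 0) =
        ∑ j ∈ range i, (bval (coef (gateOf gs i).2.2 j) : ℝ) * (rrun (u 0) (u 1) gs).getD j 0 := by
      set F : ℕ → ℝ := fun j => if j < i then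
        (bval (coef (gateOf gs i).2.2 j) : ℝ) * (rrun (u 0) (u 1) gs).getD j 0 else 0 with hF
      have h3 : ∀ j : Fin gs.length, (if j < (⟨i, hi⟩ : Fin gs.length) then
          (((netOf gs o₀ o₁).a ⟨i, hi⟩ j : ℚ) : ℝ) * (netOf gs o₀ o₁).gate u j else 0) = F j.1 := by
        intro j
        simp only [hF, Fin.lt_def]
        split_ifs with hj
        · rw [ih j.1 hj j.2]
          simp [netOf]
        · rfl
      rw [sum_congr rfl fun j _ => h3 j, Fin.sum_univ_eq_sum_range F gs.length]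
      simp only [hF]
      rw [← sum_filter]
      refine sum_congr ?_ fun _ _ => rfl
      ext j
      simp only [mem_filter, mem_range]
      omega
    rw [h1, h2]
    simp only [netOf]
    push_cast
    ring

lemma out_netOf (gs : List RG) (o₀ o₁ : List (ℕ × BInt)) (u : Fin 2 → ℝ) (k : Fin 2) :
    (netOf gs o₀ o₁).out u k = dotp (if k.1 = 0 then o₀ else o₁) (rrun (u 0) (u 1) gs) := by
  unfold Net.out dotp
  rw [length_rrun]
  rw [← Fin.sum_univ_eq_sum_range (fun j => (bval (coef (if k.1 = 0 then o₀ else o₁) j) : ℝ) *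
    (rrun (u 0) (u 1) gs).getD j 0)]
  refine sum_congr rfl fun i _ => ?_
  rw [gate_netOf]
  simp [netOf]

/-! ### Bounds on the weights -/

/-- at most `L` bits -/
def sml (L : ℕ) (q : BInt) : Prop := q.2.length ≤ L

/-- all weights have at most `L` bits -/
def smlG (L : ℕ) (g : RG) : Prop :=
  sml L g.1 ∧ sml L g.2.1.1 ∧ sml L g.2.1.2 ∧ ∀ p ∈ g.2.2, sml L p.2

lemma small_of_sml {L : ℕ} {q : BInt} (h : sml L q) : Small L (bval q : ℚ) := by
  refine small_int (bval q) ?_
  have h1 := num_lt q.2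
  have h2 : 2 ^ q.2.length ≤ 2 ^ L := Nat.pow_le_pow_right (by norm_num) h
  have h3 : num q.2 ≤ 2 ^ L := by omega
  have h4 : |bval q| = (num q.2 : ℤ) := by
    unfold bval; split_ifs <;> simp
  rw [h4]
  exact_mod_cast h3

lemma sml_bz (L : ℕ) : sml L bz := by simp [sml]

lemma sml_coef {L : ℕ} {l : List (ℕ × BInt)} (h : ∀ p ∈ l, sml L p.2) (j : ℕ) :
    sml L (coef l j) := by
  induction l with
  | nil => simp [coef, sml]
  | cons p l ih =>
    obtain ⟨i, q⟩ := p
    rw [coef_cons]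
    split_ifs
    · exact h (i, q) (by simp)
    · exact ih fun p hp => h p (by simp [hp])

lemma smlG_gateOf {L : ℕ} {gs : List RG} (h : ∀ g ∈ gs, smlG L g) (i : ℕ) :
    smlG L (gateOf gs i) := by
  unfold gateOf
  rcases Nat.lt_or_ge i gs.length with hi | hi
  · rw [List.getD_eq_getElem _ _ hi]
    exact h _ (List.getElem_mem _)
  · rw [List.getD_eq_default _ _ hi]
    exact ⟨sml_bz L, sml_bz L, sml_bz L, by simp⟩

lemma bounded_netOf {L : ℕ} {gs : List RG} {o₀ o₁ : List (ℕ × BInt)} (h : ∀ g ∈ gs, smlG L g)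
    (h0 : ∀ p ∈ o₀, sml L p.2) (h1 : ∀ p ∈ o₁, sml L p.2) : (netOf gs o₀ o₁).BoundedBy L := by
  refine ⟨fun i j => ?_, fun i k => ?_, fun i => ?_, fun k i => ?_⟩
  · exact small_of_sml (sml_coef (smlG_gateOf h i.1).2.2.2 j.1)
  · simp only [netOf]
    split_ifs
    · exact small_of_sml (smlG_gateOf h i.1).2.1
    · exact small_of_sml (smlG_gateOf h i.1).2.2.1
  · exact small_of_sml (smlG_gateOf h i.1).1
  · simp only [netOf]
    split_ifs
    · exact small_of_sml (sml_coef h0 i.1)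
    · exact small_of_sml (sml_coef h1 i.1)

lemma smlG_gt {L : ℕ} {β : BInt} {l : List (ℕ × BInt)} (h : sml L β) (h' : ∀ p ∈ l, sml L p.2) :
    smlG L (gt β l) := ⟨h, sml_bz L, sml_bz L, h'⟩

lemma smlG_foldS {L i j s : ℕ} (h : j + 1 ≤ L) : ∀ g ∈ foldS i j s, smlG L g := by
  simp [foldS, smlG, sml, gt, npow2, pow2]
  exact ⟨⟨by omega, by omega⟩, by rintro a b (⟨-, rfl⟩ | ⟨-, rfl⟩) <;> simp <;> omega⟩

lemma smlG_bitS {L i j s : ℕ} (h : j + 2 ≤ L) (hL : 3 ≤ L) : ∀ g ∈ bitS i j s, smlG L g := by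
  simp [bitS, smlG, sml, gt, npow2, pow2, nones]
  exact ⟨⟨by omega, hL⟩, by omega, fun a => ⟨fun _ => by omega, fun _ => by omega⟩⟩

lemma smlG_headG (k : Bool) {L m b : ℕ} (h : m + 1 ≤ L) : ∀ g ∈ headG k m b, smlG L g := by
  cases k <;> (simp [headG, smlG, sml, gt, npow2, ones]; omega)

lemma smlG_wG {L m b : ℕ} (h : 3 ≤ L) : ∀ g ∈ wG m b, smlG L g := by
  simp [wG, smlG, sml, gt, npow2, pow2, ones]; omega

lemma smlG_foldG {L m b t : ℕ} (h : m + 1 ≤ L) : ∀ g ∈ foldG m b t, smlG L g := by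
  intro g hg
  obtain ⟨i, _, hi⟩ := List.mem_flatMap.1 hg
  exact smlG_foldS (by omega) g hi

lemma smlG_bitG {L m e t : ℕ} (h : m + 2 ≤ L) (hL : 3 ≤ L) : ∀ g ∈ bitG m e t, smlG L g := by
  intro g hg
  obtain ⟨i, _, hi⟩ := List.mem_flatMap.1 hg
  exact smlG_bitS (by omega) hL g hi

lemma smlG_parG (a : Bool) {L m b e : ℕ} (h : m + 2 ≤ L) (hL : 3 ≤ L) :
    ∀ g ∈ parG a m b e, smlG L g := by
  intro g hg
  rcases List.mem_cons.1 hg with rfl | hg
  · cases a <;> (simp [smlG, sml, gt]; omega)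
  · exact smlG_bitG h hL g hg

lemma smlG_coordG (k : Bool) {L m b : ℕ} (h : m + 2 ≤ L) (hL : 3 ≤ L) :
    ∀ g ∈ coordG k m b, smlG L g := by
  intro g hg
  simp only [coordG, List.mem_append] at hg
  rcases hg with (((hg | hg) | hg) | hg) | hg
  · exact smlG_headG k (by omega) g hg
  · exact smlG_foldG (by omega) g hg
  · exact smlG_wG hL g hg
  · exact smlG_parG _ h hL g hg
  · exact smlG_parG _ h hL g hg

lemma smlG_preG {L m : ℕ} (h : m + 2 ≤ L) (hL : 3 ≤ L) : ∀ g ∈ preG m, smlG L g := by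
  intro g hg
  simp only [preG, List.mem_append] at hg
  rcases hg with ((hg | hg) | hg) | hg
  · revert g
    simp [smlG, sml, gt]; omega
  · exact smlG_coordG _ h hL g hg
  · exact smlG_coordG _ h hL g hg
  · revert g
    simp [smlG, sml]; omega

lemma smlG_blockG (C : Circ) (is : List ℕ) {L wx wy s : ℕ} (hL : 3 ≤ L) :
    ∀ g ∈ blockG C is wx wy s, smlG L g := by
  intro g hg
  simp only [blockG, List.mem_append] at hg
  rcases hg with hg | hg
  · obtain ⟨c, _, rfl⟩ := List.mem_map.1 hg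
    refine smlG_gt ?_ ?_
    · simp only [sml, List.length_cons, List.length_nil]; omega
    · intro p hp
      simp only [List.mem_cons, List.not_mem_nil, or_false] at hp
      rcases hp with rfl | rfl <;> (simp only [sml, List.length_cons, List.length_nil]; omega)
  · simp only [List.mem_cons, List.not_mem_nil, or_false] at hg
    rcases hg with rfl | rfl | rfl | rfl | rfl <;>
    · refine smlG_gt (sml_bz _) ?_
      intro p hp
      simp only [List.mem_cons, List.not_mem_nil, or_false] at hp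
      rcases hp with rfl | rfl <;> (simp only [sml, List.length_cons, List.length_nil]; omega)

lemma smlG_totG (C : Circ) {L m : ℕ} (h : m + 2 ≤ L) (hL : 3 ≤ L) :
    ∀ g ∈ totG C m, smlG L g := by
  intro g hg
  simp only [totG, blkG, List.mem_append] at hg
  rcases hg with (((hg | hg) | hg) | hg) | hg
  · exact smlG_preG h hL g hg
  all_goals exact smlG_blockG _ _ hL g hg

lemma sml_outG (C : Circ) {L m i c : ℕ} (hL : 3 ≤ L) : ∀ p ∈ outG C m i c, sml L p.2 := by
  intro p hp
  simp only [outG, List.mem_cons, List.not_mem_nil, or_false] at hp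
  rcases hp with rfl | rfl | rfl | rfl | rfl | rfl | rfl | rfl | rfl <;>
    (simp only [sml, List.length_cons, List.length_nil]; omega)

/-- number of bits of the weights -/
def LL (n : ℕ) : ℕ := n + 7
/-- precision -/
def pp (n : ℕ) : ℕ := n + 8
/-- number of levels -/
def lv (n N : ℕ) : ℕ := lev 2 N (LL n) (pp n)

/-- the gates for a pair of circuits -/
noncomputable def gatesOf (x : Circ × Circ) : List RG :=
  totG (colorC x.1.2.length x.1 x.2) (x.1.2.length + 5)

/-- the output weights -/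
noncomputable def outOf (x : Circ × Circ) (c : ℕ) : List (ℕ × BInt) :=
  outG (colorC x.1.2.length x.1 x.2) (x.1.2.length + 5)
    (if c = 1 then 2 + 2 * Lc (x.1.2.length + 5) else 3 + 2 * Lc (x.1.2.length + 5)) c

/-- **The reduction**: the game matrix for a pair of circuits. -/
noncomputable def redF (x : Circ × Circ) : List (List BRat) :=
  gameL (gatesOf x) (outOf x 1) (outOf x 2) (lv x.1.2.length (gatesOf x).length) (pp x.1.2.length)
    (om 2 (gatesOf x).length (LL x.1.2.length))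

/-- symmetric equilibria of the game given by lists -/
theorem gameL_symNE (gs : List RG) (o₀ o₁ : List (ℕ × BInt)) (L p n : ℕ)
    (hn : n = lev 2 gs.length L p) (hb : (netOf gs o₀ o₁).BoundedBy L)
    (A : List (List BRat)) (hA : A = gameL gs o₀ o₁ n p (om 2 gs.length L)) :
    (matOf A + (matOf A).transpose).rank ≤ 2 ∧
    ∀ y : List BRat, IsSymNE (matOf A) (vecOf A.length y) →
      ∃ u₀ u₁ : ℝ, u₀ = ((rval (y.getD 3 rz) : ℚ) : ℝ) / (rval (y.getD 0 rz) : ℚ) ∧
      0 ≤ rval (y.getD 3 rz) ∧ 0 < rval (y.getD 0 rz) ∧ 0 ≤ u₀ ∧ 0 ≤ u₁ ∧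
      |u₀ - max 0 (min 1 (dotp o₀ (rrun u₀ u₁ gs)))| ≤ (1 / 2) ^ p ∧
      |u₁ - max 0 (min 1 (dotp o₁ (rrun u₀ u₁ gs)))| ≤ (1 / 2) ^ p := by
  have hlv : p + 6 ≤ n := by simp only [hn, lev]; omega
  obtain ⟨hdiag, hrank, -, -, hNE⟩ := reduction 2 gs.length L p (netOf gs o₀ o₁) hb
  rw [← hn] at hrank hNE hdiag
  have hlen : A.length = (codes gs.length n).length := by rw [hA]; exact length_gameL _ _ _ _ _ _
  obtain ⟨e, he⟩ : ∃ e : Fin A.length ≃ Idx 2 gs.length n,
      e = (finCongr hlen).trans (eqv gs.length n) := ⟨_, rfl⟩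
  have hmat : matOf A = ((game (netOf gs o₀ o₁) L p n).map
      (Rat.cast : ℚ → ℝ)).submatrix e e := by
    subst hA
    ext i j
    have := matOf_gameL gs o₀ o₁ L p n hlv (Fin.cast hlen i) (Fin.cast hlen j) hlen
    rw [he]
    exact this
  constructor
  · have h1 : matOf A + (matOf A).transpose = ((game (netOf gs o₀ o₁) L p n +
        (game (netOf gs o₀ o₁) L p n).transpose).map (Rat.cast : ℚ → ℝ)).submatrix e e := by
      rw [hmat]
      ext i j
      simp
    have h2 : (Matrix.diagonal (fun i => 2 * diag p n i)).map (Rat.cast : ℚ → ℝ) =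
        Matrix.diagonal (fun i : Idx 2 gs.length n => (((2 * diag p n i : ℚ)) : ℝ)) := by
      ext i j
      simp only [Matrix.map_apply, Matrix.diagonal_apply]
      split_ifs <;> simp
    rw [h1, Matrix.rank_submatrix, hdiag, h2, Matrix.rank_diagonal]
    rw [hdiag, Matrix.rank_diagonal] at hrank
    refine le_trans (le_of_eq ?_) hrank
    refine Fintype.card_congr (Equiv.subtypeEquivRight fun i => ?_)
    rw [Ne, Ne, Rat.cast_eq_zero]
  · intro y hy
    have h2 : vecOf A.length y = (fun i => vecOf A.length y (e.symm i)) ∘ e := by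
      ext i; simp
    obtain ⟨x, hx⟩ : ∃ x : Idx 2 gs.length n → ℝ, x = fun i => vecOf A.length y (e.symm i) :=
      ⟨_, rfl⟩
    rw [← hx] at h2
    rw [hmat, h2] at hy
    have hy' := isSymNE_submatrix e _ x hy
    obtain ⟨h3, h4⟩ := hNE x hy'
    have hx0 : ∀ i, 0 ≤ x i := hy'.1.1
    have key : ∀ (i : Idx 2 gs.length n) (t : ℕ) (ht : t < (codes gs.length n).length),
        (codes gs.length n)[t] = cod i → x i = ((rval (y.getD t rz) : ℚ) : ℝ) := by
      intro i t ht hti
      have h5 : eqv gs.length n ⟨t, ht⟩ = i := by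
        apply cod_inj
        rw [cod_eqv]
        exact hti
      have h6 : e.symm i = Fin.cast hlen.symm ⟨t, ht⟩ := by
        rw [Equiv.symm_apply_eq, he, ← h5]
        rfl
      rw [hx]
      simp only [h6]
      rfl
    have l9 : 9 ≤ (codes gs.length n).length := by
      unfold codes; simp
    have k0 := key .one 0 (by omega) (by simp [codes, cod])
    have k3 := key (.v 0) 3 (by omega) (by simp [codes, cod])
    have k4 := key (.v 1) 4 (by omega) (by simp [codes, cod])
    have f0 := h4 0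
    have f1 := h4 1
    rw [out_netOf] at f0 f1
    simp only [Fin.val_zero, Fin.val_one, if_true, one_ne_zero, if_false] at f0 f1
    refine ⟨x (.v 0) / x .one, x (.v 1) / x .one, ?_, ?_, ?_, ?_, ?_, ?_, ?_⟩
    · rw [k0, k3]
    · have := hx0 (.v 0); rw [k3] at this; exact_mod_cast this
    · rw [k0] at h3; exact_mod_cast h3
    · exact div_nonneg (hx0 _) (hx0 _)
    · exact div_nonneg (hx0 _) (hx0 _)
    · exact f0
    · exact f1

theorem redF_correct (x : Circ × Circ) (hS : okOut x.1.2.length x.1)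
    (hP : okOut x.1.2.length x.2) (lP : x.2.2.length = x.1.2.length)
    (h0 : natF x.1.2.length x.2 0 = 0) (h1 : natF x.1.2.length x.1 0 ≠ 0) :
    okMat (redF x) ∧ (matOf (redF x) + (matOf (redF x)).transpose).rank ≤ 2 ∧
    ∀ y : List BRat, IsSymNE (matOf (redF x)) (vecOf (redF x).length y) →
      0 ≤ rval (y.getD 3 rz) ∧ 0 < rval (y.getD 0 rz) ∧
      isSol (natF x.1.2.length x.1) (natF x.1.2.length x.2)
        (⌊min (2 ^ (x.1.2.length + 5) * (((rval (y.getD 3 rz) : ℚ) : ℝ) / (rval (y.getD 0 rz) : ℚ)))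
          (2 ^ (x.1.2.length + 5) - 1)⌋₊ / 32) := by
  have hb : (netOf (gatesOf x) (outOf x 1) (outOf x 2)).BoundedBy (LL x.1.2.length) :=
    bounded_netOf (smlG_totG _ (by unfold LL; omega) (by unfold LL; omega))
      (sml_outG _ (by unfold LL; omega)) (sml_outG _ (by unfold LL; omega))
  obtain ⟨hr, hNE⟩ := gameL_symNE (gatesOf x) (outOf x 1) (outOf x 2) (LL x.1.2.length)
    (pp x.1.2.length) _ rfl hb (redF x) rfl
  refine ⟨okMat_gameL _ _ _ _ _ _, hr, fun y hy => ?_⟩
  obtain ⟨u₀, u₁, hu, a1, a2, b0, b1, f0, f1⟩ := hNE y hy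
  refine ⟨a1, a2, ?_⟩
  rw [← hu]
  refine sol_of_fix hS hP rfl lP h0 h1 b0 b1 ((1 / 2) ^ pp x.1.2.length) (by positivity) ?_ f0 f1
  have e : pp x.1.2.length = (x.1.2.length + 5) + 3 := by unfold pp; ring
  rw [e, pow_add (1 / 2 : ℝ) (x.1.2.length + 5) 3, ← mul_assoc, ← mul_pow]
  norm_num

end Pool.Agent.H74.PPAD
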