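import Mathlib

/-!
# A planar embedding of the line graph

Tiles of side 16; a path is a band of width 2 with colour 1 on its left and colour 2 on its right.
Crossings are removed locally.
-/

set_option autoImplicit false

namespace Pool.Agent.H74.PPAD

/-- swap the colours 1 and 2 -/
def sw (st : ℕ) : ℕ := if st = 1 then 2 else if st = 2 then 1 else 0

/-- colours on a horizontal side crossed by a vertical path (1: up, 2: down) -/
def vs (st l : ℕ) : ℕ := if l = 7 then st else if l = 8 then sw st else 0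

/-- colours on a vertical side crossed by a horizontal path (1: right, 2: left) -/
def hs (st k : ℕ) : ℕ := if k = 8 then st else if k = 7 then sw st else 0

/-- the north-west arc with inner colour `ci` and outer colour `co` -/
def arc (ci co l k : ℕ) : ℕ :=
  if (k = 7 ∧ l ≤ 4) ∨ (l = 4 ∧ 7 ≤ k ∧ k ≤ 11) ∨ (k = 11 ∧ 4 ≤ l ∧ l ≤ 8) ∨ (l = 8 ∧ 11 ≤ k) then
    co
  else if (k = 8 ∧ l ≤ 3) ∨ (l = 3 ∧ 8 ≤ k ∧ k ≤ 12) ∨ (k = 12 ∧ 3 ≤ l ∧ l ≤ 7) ∨
      (l = 7 ∧ 12 ≤ k) then ci
  else 0

/-- colour inside a tile: `fl`: first column, `fb`: first row, states of the four sides, local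
coordinates -/
def tcol (fl fb : Bool) (N E S W l k : ℕ) : ℕ :=
  if fl = true ∧ fb = true then
    if k = 0 then 2 else if l = 0 then 1 else if E = 0 then 0
    else if (k = 1 ∧ l ≤ 7) ∨ (l = 7 ∧ 1 ≤ k ∧ k ≤ 8) ∨ (k = 8 ∧ 7 ≤ l) then 1
    else if (l = 8 ∧ k ≤ 7) ∨ (k = 7 ∧ 8 ≤ l) then 2 else 0
  else if fl = true ∧ l = 0 then 1
  else if fb = true ∧ k = 0 then 2
  else if N ≠ 0 ∧ S ≠ 0 then
    if E ≠ 0 ∧ W ≠ 0 then
      if N = E then
        if l ≤ k then arc (vs N 7) (vs N 8) l k else arc (vs S 8) (vs S 7) k l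
      else if k + l ≤ 15 then arc (vs S 7) (vs S 8) l (15 - k) else arc (vs N 8) (vs N 7) (15 - l) k
    else vs N l
  else if E ≠ 0 ∧ W ≠ 0 then hs E k
  else if S ≠ 0 ∧ E ≠ 0 then
    if l ≤ 8 ∧ k ≤ 7 then vs S l else if 7 ≤ l then hs E k else 0
  else if S ≠ 0 ∧ W ≠ 0 then
    if 7 ≤ l ∧ k ≤ 7 then vs S l else if l ≤ 8 then hs W k else 0
  else if N ≠ 0 ∧ E ≠ 0 then
    if l ≤ 8 ∧ 8 ≤ k then vs N l else if 7 ≤ l then hs E k else 0
  else if N ≠ 0 ∧ W ≠ 0 then
    if 7 ≤ l ∧ 8 ≤ k then vs N l else if l ≤ 8 then hs W k else 0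
  else 0

/-- extension of `tcol` to the closed tile -/
def ecol (fl fb : Bool) (N E S W l k : ℕ) : ℕ :=
  if l = 16 then
    if k = 16 then 0 else if fb = true ∧ k = 0 then 2 else hs E k
  else if k = 16 then
    if fl = true ∧ l = 0 then 1 else vs N l
  else tcol fl fb N E S W l k

/-- a unit cell misses a colour -/
def okCell (fl fb : Bool) (N E S W l k : ℕ) : Bool :=
  let a := ecol fl fb N E S W l k
  let b := ecol fl fb N E S W (l + 1) k
  let c := ecol fl fb N E S W l (k + 1)
  let d := ecol fl fb N E S W (l + 1) (k + 1)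
  (a != 0 && b != 0 && c != 0 && d != 0) || (a != 1 && b != 1 && c != 1 && d != 1) ||
    (a != 2 && b != 2 && c != 2 && d != 2)

/-- the tile has the right colours on the west and south sides -/
def okSide (fl fb : Bool) (N E S W : ℕ) : Bool :=
  ((List.range 16).all fun k => tcol fl fb N E S W 0 k ==
    (if fb && k == 0 then 2 else if fl then 1 else hs W k)) &&
  ((List.range 16).all fun l => tcol fl fb N E S W l 0 ==
    (if fb then 2 else if fl && l == 0 then 1 else vs S l))

/-- the tile has no trichromatic cell and has the right colours on the west and south sides -/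
def okTile (fl fb : Bool) (N E S W : ℕ) : Bool :=
  ((List.range 16).all fun l => (List.range 16).all fun k => okCell fl fb N E S W l k) &&
    okSide fl fb N E S W

lemma okTile_cell {fl fb : Bool} {N E S W : ℕ} (h : okTile fl fb N E S W = true) {l k : ℕ}
    (hl : l < 16) (hk : k < 16) : okCell fl fb N E S W l k = true := by
  unfold okTile at h
  rw [Bool.and_eq_true, List.all_eq_true] at h
  have := h.1 l (List.mem_range.2 hl)
  rw [List.all_eq_true] at this
  exact this k (List.mem_range.2 hk)

lemma okTile_side {fl fb : Bool} {N E S W : ℕ} (h : okTile fl fb N E S W = true) :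
    okSide fl fb N E S W = true := by
  unfold okTile at h
  rw [Bool.and_eq_true] at h
  exact h.2

lemma okSide_w {fl fb : Bool} {N E S W : ℕ} (h : okSide fl fb N E S W = true) {k : ℕ}
    (hk : k < 16) : tcol fl fb N E S W 0 k =
      (if fb && k == 0 then 2 else if fl then 1 else hs W k) := by
  unfold okSide at h
  rw [Bool.and_eq_true, List.all_eq_true] at h
  have := h.1 k (List.mem_range.2 hk)
  rwa [beq_iff_eq] at this

lemma okSide_s {fl fb : Bool} {N E S W : ℕ} (h : okSide fl fb N E S W = true) {l : ℕ}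
    (hl : l < 16) : tcol fl fb N E S W l 0 =
      (if fb then 2 else if fl && l == 0 then 1 else vs S l) := by
  unfold okSide at h
  rw [Bool.and_eq_true, List.all_eq_true, List.all_eq_true] at h
  have := h.2 l (List.mem_range.2 hl)
  rwa [beq_iff_eq] at this

lemma ok1 : okTile false false 1 0 1 0 = true := by decide +kernel
lemma ok2 : okTile false false 2 0 2 0 = true := by decide +kernel
lemma ok3 : okTile false false 0 1 0 1 = true := by decide +kernel
lemma ok4 : okTile false false 0 2 0 2 = true := by decide +kernel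
lemma ok5 : okTile false false 1 1 1 1 = true := by decide +kernel
lemma ok6 : okTile false false 1 2 1 2 = true := by decide +kernel
lemma ok7 : okTile false false 2 1 2 1 = true := by decide +kernel
lemma ok8 : okTile false false 2 2 2 2 = true := by decide +kernel
lemma ok9 : okTile false false 0 0 0 0 = true := by decide +kernel
lemma ok10 : okTile false false 0 1 1 0 = true := by decide +kernel
lemma ok11 : okTile false false 0 0 1 2 = true := by decide +kernel
lemma ok12 : okTile false false 0 0 2 1 = true := by decide +kernel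
lemma ok13 : okTile false false 0 2 2 0 = true := by decide +kernel
lemma ok14 : okTile false true 2 1 0 0 = true := by decide +kernel
lemma ok15 : okTile false true 1 0 0 1 = true := by decide +kernel
lemma ok16 : okTile false true 0 0 0 0 = true := by decide +kernel
lemma ok17 : okTile true false 0 0 0 0 = true := by decide +kernel
lemma ok18 : okTile true true 0 1 0 0 = true := by decide +kernel

section

variable (S P : ℕ → ℕ)

/-- `v` has an outgoing edge -/
def hasS (v : ℕ) : Prop := S v ≠ v ∧ P (S v) = v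

/-- `v` has an incoming edge -/
def hasP (v : ℕ) : Prop := P v ≠ v ∧ S (P v) = v

instance (v : ℕ) : Decidable (hasS S P v) := by unfold hasS; infer_instance
instance (v : ℕ) : Decidable (hasP S P v) := by unfold hasP; infer_instance

/-- `v` is a solution of the end of the line problem -/
def isSol (v : ℕ) : Prop := P (S v) ≠ v ∨ (S (P v) ≠ v ∧ v ≠ 0)

/-- state of the north side of the tile in column `(v, t)` and row `(u, s)` -/
def stN (v t u s : ℕ) : ℕ :=
  if t = 1 then (if hasS S P v ∧ (u < v ∨ (u = v ∧ s = 0)) then 1 else 0)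
  else (if hasP S P v ∧ (u < P v ∨ (u = P v ∧ s = 0)) then 2 else 0)

/-- state of the south side -/
def stS (v t u s : ℕ) : ℕ :=
  if t = 1 then (if hasS S P v ∧ (u < v ∨ u = v) ∧ ¬ (u = 0 ∧ s = 0) then 1 else 0)
  else (if hasP S P v ∧ (u < P v ∨ u = P v) ∧ ¬ (u = 0 ∧ s = 0) then 2 else 0)

/-- state of the east side -/
def stE (v t u s : ℕ) : ℕ :=
  if s = 1 then
    (if hasS S P u ∧ (u < v ∨ (u = v ∧ t = 1)) ∧ v < S u then 1
    else if hasS S P u ∧ ¬ v < S u ∧ ((¬ u < v ∧ ¬ u = v) ∨ (u = v ∧ t = 0)) then 2 else 0)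
  else if u = 0 ∧ (v = 0 ∨ hasP S P v) ∧ hasS S P v ∧ t = 0 then 1 else 0

/-- state of the west side -/
def stW (v t u s : ℕ) : ℕ :=
  if s = 1 then
    (if hasS S P u ∧ u < v ∧ (v < S u ∨ (v = S u ∧ t = 0)) then 1
    else if hasS S P u ∧ ((¬ v < S u ∧ ¬ v = S u) ∨ (v = S u ∧ t = 1)) ∧ ¬ u < v then 2 else 0)
  else if u = 0 ∧ (v = 0 ∨ hasP S P v) ∧ hasS S P v ∧ t = 1 then 1 else 0

/-- colour of the grid point `(x, y)` -/
def color (x y : ℕ) : ℕ :=
  tcol (decide (x / 16 = 0)) (decide (y / 16 = 0))
    (stN S P (x / 32) (x / 16 % 2) (y / 32) (y / 16 % 2))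
    (stE S P (x / 32) (x / 16 % 2) (y / 32) (y / 16 % 2))
    (stS S P (x / 32) (x / 16 % 2) (y / 32) (y / 16 % 2))
    (stW S P (x / 32) (x / 16 % 2) (y / 32) (y / 16 % 2)) (x % 16) (y % 16)

variable {S P : ℕ → ℕ}

lemma hasP_of {u v : ℕ} (h : hasS S P u) (e : S u = v) : hasP S P v ∧ P v = u := by
  obtain ⟨h1, h2⟩ := h
  rw [e] at h1 h2
  exact ⟨⟨fun h => h1 (by rw [← h2, h]), by rw [h2, e]⟩, h2⟩

lemma hasS_of {u v : ℕ} (h : hasP S P v) (e : P v = u) : hasS S P u ∧ S u = v := by
  obtain ⟨h1, h2⟩ := h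
  rw [e] at h1 h2
  exact ⟨⟨fun h => h1 (by rw [← h2, h]), by rw [h2, e]⟩, h2⟩

lemma not_hasP_zero (h0 : P 0 = 0) : ¬ hasP S P 0 := fun h => h.1 h0

lemma nonsol_iff {v : ℕ} (h1 : S 0 ≠ 0) (h : ¬ isSol S P v) :
    hasS S P v ↔ v = 0 ∨ hasP S P v := by
  unfold isSol at h
  push Not at h
  obtain ⟨h2, h3⟩ := h
  by_cases hv : v = 0
  · subst hv
    exact ⟨fun _ => Or.inl rfl, fun _ => ⟨h1, h2⟩⟩
  · have h4 : S (P v) = v := by
      by_contra h5
      exact hv (h3 h5)
    constructor
    · intro h5
      refine Or.inr ⟨fun h6 => h5.1 ?_, h4⟩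
      rw [h6] at h4
      exact h4
    · rintro (h5 | h5)
      · exact absurd h5 hv
      · refine ⟨fun h6 => h5.1 ?_, h2⟩
        rw [h6] at h2
        exact h2

/-- every tile which does not belong to a solution is fine -/
lemma tile_ok (h0 : P 0 = 0) (h1 : S 0 ≠ 0) (v t u s : ℕ) (ht : t < 2) (hs : s < 2)
    (hsol : u = 0 → s = 0 → ¬ isSol S P v) (fl fb : Bool) (hfl : fl = decide (v = 0 ∧ t = 0))
    (hfb : fb = decide (u = 0 ∧ s = 0)) :
    okTile fl fb (stN S P v t u s) (stE S P v t u s) (stS S P v t u s) (stW S P v t u s) = true := by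
  have hP0 := not_hasP_zero (S := S) h0
  have ht' : t = 0 ∨ t = 1 := by omega
  have hs' : s = 0 ∨ s = 1 := by omega
  rcases hs' with rfl | rfl
  · -- s = 0
    by_cases hu : u = 0
    · subst hu
      have hns := nonsol_iff h1 (hsol rfl rfl)
      rcases ht' with rfl | rfl
      · by_cases hv : v = 0
        · subst hv
          have h2 : hasS S P 0 := hns.2 (Or.inl rfl)
          simpa [hfl, hfb, stN, stE, stS, stW, hP0, h2] using ok18
        · by_cases h3 : hasP S P v
          · have h2 : hasS S P v := hns.2 (Or.inr h3)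
            have h4 : 0 < P v ∨ 0 = P v := by omega
            simpa [hfl, hfb, stN, stE, stS, stW, h2, h3, h4, hv] using ok14
          · have h2 : ¬ hasS S P v := fun h => by
              rcases hns.1 h with h | h
              · exact hv h
              · exact h3 h
            simpa [hfl, hfb, stN, stE, stS, stW, h2, h3, hv] using ok16
      · have h4 : 0 < v ∨ 0 = v := by omega
        by_cases h2 : hasS S P v
        · have h3 := hns.1 h2
          simpa [hfl, hfb, stN, stE, stS, stW, h2, h3, h4] using ok15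
        · simpa [hfl, hfb, stN, stE, stS, stW, h2] using ok16
    · rcases ht' with rfl | rfl
      · by_cases hv : v = 0
        · subst hv
          simpa [hfl, hfb, stN, stE, stS, stW, hP0, hu] using ok17
        · by_cases h3 : hasP S P v ∧ (u < P v ∨ u = P v)
          · simpa [hfl, hfb, stN, stE, stS, stW, hu, h3, hv] using ok2
          · simpa [hfl, hfb, stN, stE, stS, stW, hu, h3, hv] using ok9
      · by_cases h3 : hasS S P v ∧ (u < v ∨ u = v)
        · simpa [hfl, hfb, stN, stE, stS, stW, hu, h3] using ok1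
        · simpa [hfl, hfb, stN, stE, stS, stW, hu, h3] using ok9
  · -- s = 1
    rcases ht' with rfl | rfl
    · -- t = 0
      by_cases hp : hasP S P v
      · have hv : v ≠ 0 := fun h => hP0 (h ▸ hp)
        rcases lt_trichotomy u (P v) with h | h | h
        · have hne : hasS S P u → S u ≠ v := fun h2 h3 => by
            have := (hasP_of h2 h3).2
            omega
          have hnu : ¬ u = P v := by omega
          by_cases h2 : hasS S P u
          · have h3 : ¬ v = S u := fun h4 => hne h2 h4.symm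
            rcases lt_trichotomy u v with h4 | h4 | h4
            · by_cases h5 : v < S u
              · simpa [hfl, hfb, stN, stE, stS, stW, hp, h, h2, h3, h4, h5, hv, hnu] using ok7
              · have h6 : ¬ u = v := by omega
                simpa [hfl, hfb, stN, stE, stS, stW, hp, h, h2, h3, h4, h5, h6, hv, hnu] using ok2
            · subst h4
              by_cases h5 : u < S u
              · simpa [hfl, hfb, stN, stE, stS, stW, hp, h, h2, h3, h5, hv, hnu] using ok2
              · simpa [hfl, hfb, stN, stE, stS, stW, hp, h, h2, h3, h5, hv, hnu] using ok8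
            · have h6 : ¬ u < v := by omega
              have h7 : ¬ u = v := by omega
              by_cases h5 : v < S u
              · simpa [hfl, hfb, stN, stE, stS, stW, hp, h, h2, h3, h5, h6, h7, hv, hnu] using ok2
              · simpa [hfl, hfb, stN, stE, stS, stW, hp, h, h2, h3, h5, h6, h7, hv, hnu] using ok8
          · simpa [hfl, hfb, stN, stE, stS, stW, hp, h, h2, hv, hnu] using ok2
        · obtain ⟨h2, h3⟩ := hasS_of hp h.symm
          have hlt : ¬ u < P v := by omega
          have h3' : ¬ v < S u := by omega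
          have h3'' : v = S u := h3.symm
          have hne : u ≠ v := fun h4 => h2.1 (by omega)
          rcases lt_or_gt_of_ne hne with h4 | h4
          · have e1 : stN S P v 0 u 1 = 0 := by simp [stN, hlt]
            have e2 : stE S P v 0 u 1 = 0 := by simp [stE, h3', h4, hne]
            have e3 : stS S P v 0 u 1 = 2 := by simp [stS, hp, h]
            have e4 : stW S P v 0 u 1 = 1 := by simp [stW, h2, h3'']; omega
            rw [e1, e2, e3, e4, hfl, hfb]
            simpa [hv] using ok12
          · have h5 : ¬ u < v := by omega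
            have e1 : stN S P v 0 u 1 = 0 := by simp [stN, hlt]
            have e2 : stE S P v 0 u 1 = 2 := by simp [stE, h2, h3', h5, hne]
            have e3 : stS S P v 0 u 1 = 2 := by simp [stS, hp, h]
            have e4 : stW S P v 0 u 1 = 0 := by simp [stW, h3.symm]; intro _; omega
            rw [e1, e2, e3, e4, hfl, hfb]
            simpa [hv] using ok13
        · have hne : hasS S P u → S u ≠ v := fun h2 h3 => by
            have := (hasP_of h2 h3).2
            omega
          have hnu : ¬ u = P v := by omega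
          have hnl : ¬ u < P v := by omega
          by_cases h2 : hasS S P u
          · have h3 : ¬ v = S u := fun h4 => hne h2 h4.symm
            rcases lt_trichotomy u v with h4 | h4 | h4
            · by_cases h5 : v < S u
              · simpa [hfl, hfb, stN, stE, stS, stW, hp, h2, h3, h4, h5, hv, hnu, hnl] using ok3
              · have h6 : ¬ u = v := by omega
                simpa [hfl, hfb, stN, stE, stS, stW, hp, h2, h3, h4, h5, h6, hv, hnu, hnl] using ok9
            · subst h4
              by_cases h5 : u < S u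
              · simpa [hfl, hfb, stN, stE, stS, stW, hp, h2, h3, h5, hv, hnu, hnl] using ok9
              · simpa [hfl, hfb, stN, stE, stS, stW, hp, h2, h3, h5, hv, hnu, hnl] using ok4
            · have h6 : ¬ u < v := by omega
              have h7 : ¬ u = v := by omega
              by_cases h5 : v < S u
              · simpa [hfl, hfb, stN, stE, stS, stW, hp, h2, h3, h5, h6, h7, hv, hnu, hnl] using ok9
              · simpa [hfl, hfb, stN, stE, stS, stW, hp, h2, h3, h5, h6, h7, hv, hnu, hnl] using ok4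
          · simpa [hfl, hfb, stN, stE, stS, stW, hp, h2, hv, hnu, hnl] using ok9
      · by_cases h2 : hasS S P u
        · have h3 : ¬ v = S u := fun h4 => hp (hasP_of h2 h4.symm).1
          by_cases hv : v = 0
          · subst hv
            have h5 : 0 < S u := by omega
            simpa [hfl, hfb, stN, stE, stS, stW, hp, h2, h3, h5] using ok17
          · rcases lt_trichotomy u v with h4 | h4 | h4
            · by_cases h5 : v < S u
              · simpa [hfl, hfb, stN, stE, stS, stW, hp, h2, h3, h4, h5, hv] using ok3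
              · have h6 : ¬ u = v := by omega
                simpa [hfl, hfb, stN, stE, stS, stW, hp, h2, h3, h4, h5, h6, hv] using ok9
            · subst h4
              by_cases h5 : u < S u
              · simpa [hfl, hfb, stN, stE, stS, stW, hp, h2, h3, h5, hv] using ok9
              · simpa [hfl, hfb, stN, stE, stS, stW, hp, h2, h3, h5, hv] using ok4
            · have h6 : ¬ u < v := by omega
              have h7 : ¬ u = v := by omega
              by_cases h5 : v < S u
              · simpa [hfl, hfb, stN, stE, stS, stW, hp, h2, h3, h5, h6, h7, hv] using ok9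
              · simpa [hfl, hfb, stN, stE, stS, stW, hp, h2, h3, h5, h6, h7, hv] using ok4
        · by_cases hv : v = 0
          · subst hv
            simpa [hfl, hfb, stN, stE, stS, stW, hp, h2] using ok17
          · simpa [hfl, hfb, stN, stE, stS, stW, hp, h2, hv] using ok9
    · -- t = 1
      rcases lt_trichotomy u v with h | h | h
      · have h' : ¬ u = v := by omega
        by_cases h2 : hasS S P v <;> by_cases h3 : hasS S P u <;> by_cases h4 : v < S u
        · simpa [hfl, hfb, stN, stE, stS, stW, h, h', h2, h3, h4] using ok5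
        · simpa [hfl, hfb, stN, stE, stS, stW, h, h', h2, h3, h4] using ok1
        · simpa [hfl, hfb, stN, stE, stS, stW, h, h', h2, h3, h4] using ok1
        · simpa [hfl, hfb, stN, stE, stS, stW, h, h', h2, h3, h4] using ok1
        · simpa [hfl, hfb, stN, stE, stS, stW, h, h', h2, h3, h4] using ok3
        · simpa [hfl, hfb, stN, stE, stS, stW, h, h', h2, h3, h4] using ok9
        · simpa [hfl, hfb, stN, stE, stS, stW, h, h', h2, h3, h4] using ok9
        · simpa [hfl, hfb, stN, stE, stS, stW, h, h', h2, h3, h4] using ok9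
      · subst h
        by_cases h2 : hasS S P u
        · have h3 : ¬ u = S u := fun h => h2.1 h.symm
          by_cases h4 : u < S u
          · simpa [hfl, hfb, stN, stE, stS, stW, h2, h3, h4] using ok10
          · simpa [hfl, hfb, stN, stE, stS, stW, h2, h3, h4] using ok11
        · simpa [hfl, hfb, stN, stE, stS, stW, h2] using ok9
      · have h' : ¬ u = v := by omega
        have h'' : ¬ u < v := by omega
        by_cases h2 : hasS S P u
        · rcases lt_trichotomy v (S u) with h4 | h4 | h4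
          · have h5 : ¬ v = S u := by omega
            simpa [hfl, hfb, stN, stE, stS, stW, h', h'', h2, h4, h5] using ok9
          · have h5 : ¬ v < S u := by omega
            have e1 : stN S P v 1 u 1 = 0 := by simp [stN, h'']
            have e2 : stE S P v 1 u 1 = 2 := by simp [stE, h2, h', h'', h5]
            have e3 : stS S P v 1 u 1 = 0 := by simp [stS, h', h'']
            have e4 : stW S P v 1 u 1 = 2 := by simp [stW, h2, h4]; omega
            rw [e1, e2, e3, e4, hfl, hfb]
            simpa using ok4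
          · have h5 : ¬ v < S u := by omega
            have h6 : ¬ v = S u := by omega
            simpa [hfl, hfb, stN, stE, stS, stW, h', h'', h2, h5, h6] using ok4
        · simpa [hfl, hfb, stN, stE, stS, stW, h', h'', h2] using ok9

lemma div32 (x : ℕ) : x / 32 = x / 16 / 2 := by omega

/-- consistency of the states across a vertical side -/
lemma stW_succ (X Y : ℕ) : stW S P ((X + 1) / 2) ((X + 1) % 2) (Y / 2) (Y % 2) =
    stE S P (X / 2) (X % 2) (Y / 2) (Y % 2) := by
  have hX : (X % 2 = 0 ∧ (X + 1) / 2 = X / 2 ∧ (X + 1) % 2 = 1) ∨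
      (X % 2 = 1 ∧ (X + 1) / 2 = X / 2 + 1 ∧ (X + 1) % 2 = 0) := by omega
  have hY : Y % 2 = 0 ∨ Y % 2 = 1 := by omega
  generalize X / 2 = v at hX ⊢
  generalize Y / 2 = u
  rcases hX with ⟨a, b, c⟩ | ⟨a, b, c⟩ <;> rcases hY with d | d <;> rw [a, b, c, d] <;>
    unfold stW stE
  · rw [if_neg (by omega : ¬ (0:ℕ) = 1), if_neg (by omega : ¬ (0:ℕ) = 1)]
    exact if_congr (and_congr_right fun _ => and_congr_right fun _ => and_congr_right fun _ =>
      by omega) rfl rfl
  · rw [if_pos rfl, if_pos rfl]
    refine if_congr (and_congr_right fun _ => ?_) rfl (if_congr (and_congr_right fun _ => ?_) rfl rfl)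
    · omega
    · omega
  · simp
  · rw [if_pos rfl, if_pos rfl]
    refine if_congr (and_congr_right fun _ => ?_) rfl (if_congr (and_congr_right fun _ => ?_) rfl rfl)
    · omega
    · omega

/-- consistency of the states across a horizontal side -/
lemma stS_succ (X Y : ℕ) : stS S P (X / 2) (X % 2) ((Y + 1) / 2) ((Y + 1) % 2) =
    stN S P (X / 2) (X % 2) (Y / 2) (Y % 2) := by
  have hY : (Y % 2 = 0 ∧ (Y + 1) / 2 = Y / 2 ∧ (Y + 1) % 2 = 1) ∨
      (Y % 2 = 1 ∧ (Y + 1) / 2 = Y / 2 + 1 ∧ (Y + 1) % 2 = 0) := by omega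
  have hX : X % 2 = 0 ∨ X % 2 = 1 := by omega
  generalize X / 2 = v
  generalize Y / 2 = u at hY ⊢
  rcases hY with ⟨a, b, c⟩ | ⟨a, b, c⟩ <;> rcases hX with d | d <;> rw [a, b, c, d] <;>
    unfold stN stS
  · rw [if_neg (by omega : ¬ (0:ℕ) = 1), if_neg (by omega : ¬ (0:ℕ) = 1)]
    exact if_congr (and_congr_right fun _ => by omega) rfl rfl
  · rw [if_pos rfl, if_pos rfl]
    exact if_congr (and_congr_right fun _ => by omega) rfl rfl
  · rw [if_neg (by omega : ¬ (0:ℕ) = 1), if_neg (by omega : ¬ (0:ℕ) = 1)]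
    exact if_congr (and_congr_right fun _ => by omega) rfl rfl
  · rw [if_pos rfl, if_pos rfl]
    exact if_congr (and_congr_right fun _ => by omega) rfl rfl

lemma tile_side (h0 : P 0 = 0) (h1 : S 0 ≠ 0) (v t u s : ℕ) (ht : t < 2) (hs : s < 2)
    (fl fb : Bool) (hfl : fl = decide (v = 0 ∧ t = 0))
    (hfb : fb = decide (u = 0 ∧ s = 0)) :
    okSide fl fb (stN S P v t u s) (stE S P v t u s) (stS S P v t u s) (stW S P v t u s) = true := by
  by_cases hY : u = 0 ∧ s = 0
  · obtain ⟨rfl, rfl⟩ := hY
    have ht' : t = 0 ∨ t = 1 := by omega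
    rcases ht' with rfl | rfl
    · have e3 : stS S P v 0 0 0 = 0 := by simp [stS]
      have e4 : stW S P v 0 0 0 = 0 := by simp [stW]
      have e1 : stN S P v 0 0 0 = 0 ∨ stN S P v 0 0 0 = 2 := by
        unfold stN; rw [if_neg (by omega)]; split_ifs <;> simp
      have e2 : stE S P v 0 0 0 = 0 ∨ stE S P v 0 0 0 = 1 := by
        unfold stE; rw [if_neg (by omega)]; split_ifs <;> simp
      have e5 : fl = true ∨ fl = false := by cases fl <;> simp
      have e6 : fb = true := by rw [hfb]; simp
      rw [e3, e4, e6]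
      rcases e1 with e1 | e1 <;> rcases e2 with e2 | e2 <;> rcases e5 with e5 | e5 <;>
        rw [e1, e2, e5] <;> decide +kernel
    · have e3 : stS S P v 1 0 0 = 0 := by simp [stS]
      have e4 : stE S P v 1 0 0 = 0 := by simp [stE]
      have e5 : fl = false := by rw [hfl]; simp
      have e6 : fb = true := by rw [hfb]; simp
      rw [e3, e4, e6, e5]
      by_cases h : hasS S P v
      · have h2 : 0 < v ∨ 0 = v := by omega
        have e1 : stN S P v 1 0 0 = 1 := by simp [stN, h, h2]
        have e2 : stW S P v 1 0 0 = 0 ∨ stW S P v 1 0 0 = 1 := by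
          unfold stW; rw [if_neg (by omega)]; split_ifs <;> simp
        rw [e1]
        rcases e2 with e2 | e2 <;> rw [e2] <;> decide +kernel
      · have e1 : stN S P v 1 0 0 = 0 := by simp [stN, h]
        have e2 : stW S P v 1 0 0 = 0 := by simp [stW, h]
        rw [e1, e2]
        decide +kernel
  · exact okTile_side (tile_ok h0 h1 v t u s ht hs (fun h h' => absurd ⟨h, h'⟩ hY) fl fb hfl hfb)

lemma color_eq (X Y l k : ℕ) (hl : l < 16) (hk : k < 16) : color S P (16 * X + l) (16 * Y + k) =
    tcol (decide (X = 0)) (decide (Y = 0)) (stN S P (X / 2) (X % 2) (Y / 2) (Y % 2))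
      (stE S P (X / 2) (X % 2) (Y / 2) (Y % 2)) (stS S P (X / 2) (X % 2) (Y / 2) (Y % 2))
      (stW S P (X / 2) (X % 2) (Y / 2) (Y % 2)) l k := by
  have a1 : (16 * X + l) / 16 = X := by omega
  have a2 : (16 * X + l) / 32 = X / 2 := by omega
  have a3 : (16 * X + l) % 16 = l := by omega
  have b1 : (16 * Y + k) / 16 = Y := by omega
  have b2 : (16 * Y + k) / 32 = Y / 2 := by omega
  have b3 : (16 * Y + k) % 16 = k := by omega
  unfold color
  rw [a1, a2, a3, b1, b2, b3]

lemma flag_eq (X : ℕ) : decide (X = 0) = decide (X / 2 = 0 ∧ X % 2 = 0) := by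
  rw [decide_eq_decide]; omega

lemma side_at (h0 : P 0 = 0) (h1 : S 0 ≠ 0) (X Y : ℕ) :
    okSide (decide (X = 0)) (decide (Y = 0)) (stN S P (X / 2) (X % 2) (Y / 2) (Y % 2))
      (stE S P (X / 2) (X % 2) (Y / 2) (Y % 2)) (stS S P (X / 2) (X % 2) (Y / 2) (Y % 2))
      (stW S P (X / 2) (X % 2) (Y / 2) (Y % 2)) = true :=
  tile_side h0 h1 _ _ _ _ (Nat.mod_lt _ (by norm_num)) (Nat.mod_lt _ (by norm_num)) _ _
    (flag_eq X) (flag_eq Y)

lemma color_ecol (h0 : P 0 = 0) (h1 : S 0 ≠ 0) (X Y l k : ℕ) (hl : l ≤ 16) (hk : k ≤ 16) :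
    color S P (16 * X + l) (16 * Y + k) =
    ecol (decide (X = 0)) (decide (Y = 0)) (stN S P (X / 2) (X % 2) (Y / 2) (Y % 2))
      (stE S P (X / 2) (X % 2) (Y / 2) (Y % 2)) (stS S P (X / 2) (X % 2) (Y / 2) (Y % 2))
      (stW S P (X / 2) (X % 2) (Y / 2) (Y % 2)) l k := by
  rcases Nat.lt_or_ge l 16 with hl' | hl' <;> rcases Nat.lt_or_ge k 16 with hk' | hk'
  · rw [color_eq X Y l k hl' hk', ecol, if_neg (by omega), if_neg (by omega)]
  · have e : k = 16 := by omega
    subst e
    have e2 : 16 * Y + 16 = 16 * (Y + 1) + 0 := by ring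
    have e3 : l ≠ 16 := by omega
    rw [e2, color_eq X (Y + 1) l 0 hl' (by norm_num), okSide_s (side_at h0 h1 X (Y + 1)) hl',
      stS_succ]
    simp [ecol, e3]
  · have e : l = 16 := by omega
    subst e
    have e2 : 16 * X + 16 = 16 * (X + 1) + 0 := by ring
    have e3 : k ≠ 16 := by omega
    rw [e2, color_eq (X + 1) Y 0 k (by norm_num) hk', okSide_w (side_at h0 h1 (X + 1) Y) hk',
      stW_succ]
    simp [ecol, e3]
  · have e : l = 16 := by omega
    have e' : k = 16 := by omega
    subst e e'
    have e2 : 16 * X + 16 = 16 * (X + 1) + 0 := by ring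
    have e3 : 16 * Y + 16 = 16 * (Y + 1) + 0 := by ring
    rw [e2, e3, color_eq (X + 1) (Y + 1) 0 0 (by norm_num) (by norm_num),
      okSide_w (side_at h0 h1 (X + 1) (Y + 1)) (by norm_num), ecol, if_pos rfl, if_pos rfl]
    simp [hs]

/-- **Main combinatorial lemma**: the four corners of a unit cell miss a colour unless the cell
belongs to a solution. -/
theorem cell (h0 : P 0 = 0) (h1 : S 0 ≠ 0) (x y : ℕ) (hsol : ¬ isSol S P (x / 32)) :
    ∃ c < 3, ∀ a ≤ 1, ∀ b ≤ 1, color S P (x + a) (y + b) ≠ c := by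
  obtain ⟨X, l, hl, rfl⟩ : ∃ X l, l < 16 ∧ x = 16 * X + l := ⟨x / 16, x % 16, by omega, by omega⟩
  obtain ⟨Y, k, hk, rfl⟩ : ∃ Y k, k < 16 ∧ y = 16 * Y + k := ⟨y / 16, y % 16, by omega, by omega⟩
  have e : (16 * X + l) / 32 = X / 2 := by omega
  rw [e] at hsol
  have h2 := okTile_cell (tile_ok h0 h1 (X / 2) (X % 2) (Y / 2) (Y % 2)
    (Nat.mod_lt _ (by norm_num)) (Nat.mod_lt _ (by norm_num)) (fun _ _ => hsol) _ _
    (flag_eq X) (flag_eq Y)) hl hk
  have key : ∀ a ≤ 1, ∀ b ≤ 1, color S P (16 * X + l + a) (16 * Y + k + b) =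
      ecol (decide (X = 0)) (decide (Y = 0)) (stN S P (X / 2) (X % 2) (Y / 2) (Y % 2))
      (stE S P (X / 2) (X % 2) (Y / 2) (Y % 2)) (stS S P (X / 2) (X % 2) (Y / 2) (Y % 2))
      (stW S P (X / 2) (X % 2) (Y / 2) (Y % 2)) (l + a) (k + b) := by
    intro a ha b hb
    rw [Nat.add_assoc, Nat.add_assoc]
    exact color_ecol h0 h1 X Y _ _ (by omega) (by omega)
  have k00 := key 0 (by norm_num) 0 (by norm_num)
  have k10 := key 1 (by norm_num) 0 (by norm_num)
  have k01 := key 0 (by norm_num) 1 (by norm_num)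
  have k11 := key 1 (by norm_num) 1 (by norm_num)
  unfold okCell at h2
  simp only [Nat.add_zero] at k00 k10 k01 k11
  simp only [← k00, ← k10, ← k01, ← k11, Bool.or_eq_true, Bool.and_eq_true, bne_iff_ne] at h2
  rcases h2 with (h | h) | h
  · refine ⟨0, by norm_num, fun a ha b hb => ?_⟩
    have ha' : a = 0 ∨ a = 1 := by omega
    have hb' : b = 0 ∨ b = 1 := by omega
    rcases ha' with rfl | rfl <;> rcases hb' with rfl | rfl <;> (try simp only [Nat.add_zero]) <;> tauto
  · refine ⟨1, by norm_num, fun a ha b hb => ?_⟩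
    have ha' : a = 0 ∨ a = 1 := by omega
    have hb' : b = 0 ∨ b = 1 := by omega
    rcases ha' with rfl | rfl <;> rcases hb' with rfl | rfl <;> (try simp only [Nat.add_zero]) <;> tauto
  · refine ⟨2, by norm_num, fun a ha b hb => ?_⟩
    have ha' : a = 0 ∨ a = 1 := by omega
    have hb' : b = 0 ∨ b = 1 := by omega
    rcases ha' with rfl | rfl <;> rcases hb' with rfl | rfl <;> (try simp only [Nat.add_zero]) <;> tauto

lemma color_bottom (h0 : P 0 = 0) (h1 : S 0 ≠ 0) (x : ℕ) : color S P x 0 = 2 := by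
  obtain ⟨X, l, hl, rfl⟩ : ∃ X l, l < 16 ∧ x = 16 * X + l := ⟨x / 16, x % 16, by omega, by omega⟩
  have := color_eq (S := S) (P := P) X 0 l 0 hl (by norm_num)
  rw [Nat.mul_zero, Nat.zero_add] at this
  rw [this, okSide_s (side_at h0 h1 X 0) hl]
  simp

lemma color_left (h0 : P 0 = 0) (h1 : S 0 ≠ 0) (y : ℕ) (hy : y ≠ 0) : color S P 0 y = 1 := by
  obtain ⟨Y, k, hk, rfl⟩ : ∃ Y k, k < 16 ∧ y = 16 * Y + k := ⟨y / 16, y % 16, by omega, by omega⟩
  have := color_eq (S := S) (P := P) 0 Y 0 k (by norm_num) hk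
  rw [Nat.mul_zero, Nat.zero_add] at this
  rw [this, okSide_w (side_at h0 h1 0 Y) hk]
  have : ¬ (Y = 0 ∧ k = 0) := by omega
  simp [this]

omit S P in
lemma tcol_right (fb : Bool) (N S W k : ℕ) : tcol false fb N 0 S W 15 k ≠ 1 := by
  have h1 : ∀ st, vs st 15 = 0 := fun st => by simp [vs]
  unfold tcol
  simp only [h1, Bool.false_eq_true, false_and, if_false, ne_eq, not_true_eq_false, and_false]
  norm_num
  split_ifs <;> simp

omit S P in
lemma tcol_top (fl : Bool) (E S W l : ℕ) : tcol fl false 0 E S W l 15 ≠ 2 := by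
  have h1 : ∀ st, hs st 15 = 0 := fun st => by simp [hs]
  unfold tcol
  simp only [h1, Bool.false_eq_true, false_and, if_false, ne_eq, not_true_eq_false, and_false]
  norm_num
  split_ifs <;> simp

/-- the last column has no colour 1 -/
lemma color_right (n : ℕ) (hS : ∀ v < 2 ^ n, S v < 2 ^ n) (y : ℕ) (hy : y < 32 * 2 ^ n) :
    color S P (32 * 2 ^ n - 1) y ≠ 1 := by
  have hn : 1 ≤ 2 ^ n := Nat.one_le_two_pow
  have a1 : (32 * 2 ^ n - 1) / 16 = 2 * 2 ^ n - 1 := by omega
  have a2 : (32 * 2 ^ n - 1) / 32 = 2 ^ n - 1 := by omega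
  have a3 : (32 * 2 ^ n - 1) % 16 = 15 := by omega
  have a4 : (2 * 2 ^ n - 1) % 2 = 1 := by omega
  have hE : stE S P (2 ^ n - 1) 1 (y / 32) (y / 16 % 2) = 0 := by
    have hu : y / 32 < 2 ^ n := by omega
    have hSu := hS _ hu
    unfold stE
    by_cases hs : y / 16 % 2 = 1
    · rw [if_pos hs, if_neg, if_neg]
      · rintro ⟨-, -, ⟨h1, h2⟩ | ⟨h1, h2⟩⟩ <;> omega
      · rintro ⟨-, -, h⟩; omega
    · rw [if_neg hs, if_neg]
      rintro ⟨-, -, -, h⟩; omega
  unfold color
  rw [a1, a2, a3, a4, hE]
  have a5 : ¬ 2 * 2 ^ n - 1 = 0 := by omega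
  rw [decide_eq_false a5]
  exact tcol_right _ _ _ _ _

/-- the last row has no colour 2 -/
lemma color_top (n : ℕ) (hP : ∀ v < 2 ^ n, P v < 2 ^ n) (x : ℕ) (hx : x < 32 * 2 ^ n) :
    color S P x (32 * 2 ^ n - 1) ≠ 2 := by
  have hn : 1 ≤ 2 ^ n := Nat.one_le_two_pow
  have a1 : (32 * 2 ^ n - 1) / 16 = 2 * 2 ^ n - 1 := by omega
  have a2 : (32 * 2 ^ n - 1) / 32 = 2 ^ n - 1 := by omega
  have a3 : (32 * 2 ^ n - 1) % 16 = 15 := by omega
  have a4 : (2 * 2 ^ n - 1) % 2 = 1 := by omega
  have hN : stN S P (x / 32) (x / 16 % 2) (2 ^ n - 1) 1 = 0 := by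
    have hu : x / 32 < 2 ^ n := by omega
    have hPu := hP _ hu
    unfold stN
    by_cases ht : x / 16 % 2 = 1
    · rw [if_pos ht, if_neg]
      rintro ⟨-, h | ⟨-, h⟩⟩ <;> omega
    · rw [if_neg ht, if_neg]
      rintro ⟨-, h | ⟨-, h⟩⟩ <;> omega
  unfold color
  rw [a1, a2, a3, a4, hN]
  have a5 : ¬ 2 * 2 ^ n - 1 = 0 := by omega
  rw [decide_eq_false a5]
  exact tcol_top _ _ _ _ _

lemma color_lt (x y : ℕ) : color S P x y < 3 := by
  have h : ∀ (fl fb : Bool) (N E S' W l k : ℕ), N < 3 → E < 3 → S' < 3 → W < 3 →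
      tcol fl fb N E S' W l k < 3 := by
    intro fl fb N E S' W l k hN hE hS hW
    have hsw : ∀ st, sw st < 3 := by intro st; unfold sw; split_ifs <;> omega
    have hvs : ∀ st l, st < 3 → vs st l < 3 := by
      intro st l h; unfold vs; split_ifs
      · exact h
      · exact hsw st
      · omega
    have hhs : ∀ st l, st < 3 → hs st l < 3 := by
      intro st l h; unfold hs; split_ifs
      · exact h
      · exact hsw st
      · omega
    have harc : ∀ a b l k, a < 3 → b < 3 → arc a b l k < 3 := by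
      intro a b l k ha hb; unfold arc; split_ifs <;> omega
    unfold tcol
    split_ifs <;> first | omega | exact hvs _ _ ‹_› | exact hhs _ _ ‹_› |
      exact harc _ _ _ _ (hvs _ _ ‹_›) (hvs _ _ ‹_›)
  unfold color
  apply h
  · unfold stN; split_ifs <;> omega
  · unfold stE; split_ifs <;> omega
  · unfold stS; split_ifs <;> omega
  · unfold stW; split_ifs <;> omega

end

end Pool.Agent.H74.PPAD
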