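import Pool.Agent.H74.PPADBlock
import Pool.Agent.H74.PPADAnalysis

/-!
# The complete network
-/

set_option autoImplicit false

namespace Pool.Agent.H74.PPAD

/-- number of gates for one coordinate -/
def Lc (m : ℕ) : ℕ := 4 + 3 * m + 2 * (4 * (m - 1) + 1)

/-- constants, both coordinates, copies of the inputs -/
def preG (m : ℕ) : List RG :=
  [gt bz [], gt b1 []] ++ coordG true m 2 ++ coordG false m (2 + Lc m) ++
    [(bz, (b1, bz), []), (bz, (bz, b1), [])]

/-- wires with the bits of the rounded coordinates -/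
def isW (m : ℕ) (a b : Bool) : List ℕ :=
  [0, 1] ++ bitW a m (if a then 2 + 4 + 3 * m + (4 * (m - 1) + 1) else 2 + 4 + 3 * m) ++
    bitW b m (if b then 2 + Lc m + 4 + 3 * m + (4 * (m - 1) + 1) else 2 + Lc m + 4 + 3 * m)

/-- wire of a weight, coordinate part at `b` -/
def wW (m b : ℕ) (a : Bool) : ℕ := if a then b + 3 + 3 * m else b + 2 + 3 * m

/-- the gates of block `t` -/
def blkG (C : Circ) (m t : ℕ) (a b : Bool) : List RG :=
  blockG C (isW m a b) (wW m 2 a) (wW m (2 + Lc m) b) (4 + 2 * Lc m + t * (C.1.length + 5))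

/-- all gates -/
def totG (C : Circ) (m : ℕ) : List RG :=
  preG m ++ blkG C m 0 false false ++ blkG C m 1 false true ++ blkG C m 2 true false ++
    blkG C m 3 true true

/-- wire with the product of block `t` for colour `c` -/
def pW (C : Circ) (m t c : ℕ) : ℕ := 4 + 2 * Lc m + t * (C.1.length + 5) + C.1.length + 2 + c

/-- weights of output `k`, for the colour `c` -/
def outG (C : Circ) (m i c : ℕ) : List (ℕ × BInt) :=
  [(i, b1), (pW C m 0 c, b1), (pW C m 0 0, bm1), (pW C m 1 c, b1), (pW C m 1 0, bm1),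
    (pW C m 2 c, b1), (pW C m 2 0, bm1), (pW C m 3 c, b1), (pW C m 3 0, bm1)]

lemma length_preG (m : ℕ) : (preG m).length = 4 + 2 * Lc m := by
  simp [preG, length_coordG, Lc]; ring

lemma length_blkG (C : Circ) (m t : ℕ) (a b : Bool) :
    (blkG C m t a b).length = C.1.length + 5 := length_blockG _ _ _ _ _

lemma length_totG (C : Circ) (m : ℕ) :
    (totG C m).length = 4 + 2 * Lc m + 4 * (C.1.length + 5) := by
  simp [totG, length_preG, length_blkG]; ring

lemma length_isW (m : ℕ) (hm : 1 ≤ m) (a b : Bool) : (isW m a b).length = 2 + 2 * m := by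
  simp [isW, bitW]; omega

lemma isW_lt (m : ℕ) (hm : 2 ≤ m) (a b : Bool) : ∀ i ∈ isW m a b, i < 4 + 2 * Lc m := by
  intro i hi
  have hL : Lc m = 4 + 3 * m + 2 * (4 * (m - 1) + 1) := rfl
  have hb : ∀ (c : Bool) (e : ℕ), ∀ i ∈ bitW c m e, i < 2 ∨ (i < e + 4 * (m - 1) + 1) := by
    intro c e i hi
    rcases List.mem_cons.1 hi with rfl | hi
    · left; split_ifs <;> omega
    · obtain ⟨j, hj, rfl⟩ := List.mem_map.1 hi
      have := List.mem_range.1 hj
      right; omega
  unfold isW at hi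
  rcases List.mem_append.1 hi with hi | hi
  · rcases List.mem_append.1 hi with hi | hi
    · simp at hi; omega
    · rcases hb a _ i hi with h | h
      · omega
      · split_ifs at h <;> omega
  · rcases hb b _ i hi with h | h
    · omega
    · split_ifs at h <;> omega

section

variable {u₀ u₁ : ℝ}

lemma RVs.concat {gs : List RG} {is is' : List ℕ} {rs rs' : List ℝ}
    (h : RVs (u₀ := u₀) (u₁ := u₁) gs is rs) (h' : RVs (u₀ := u₀) (u₁ := u₁) gs is' rs') :
    RVs (u₀ := u₀) (u₁ := u₁) gs (is ++ is') (rs ++ rs') := by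
  refine ⟨fun i hi => ?_, ?_⟩
  · rcases List.mem_append.1 hi with hi | hi
    · exact h.1 i hi
    · exact h'.1 i hi
  · rw [List.map_append, h.2, h'.2]

lemma RV.inp₀ (gs : List RG) (hu : 0 ≤ u₀) : RV u₀ u₁ (gs ++ [(bz, (b1, bz), [])]) gs.length u₀ := by
  convert RV.new (u₀ := u₀) (u₁ := u₁) gs (bz, (b1, bz), []) using 1
  simp only [bval_bz, bval_b1, dotp_nil]
  push_cast
  rw [max_eq_right (by linarith)]; ring

lemma RV.inp₁ (gs : List RG) (hu : 0 ≤ u₁) : RV u₀ u₁ (gs ++ [(bz, (bz, b1), [])]) gs.length u₁ := by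
  convert RV.new (u₀ := u₀) (u₁ := u₁) gs (bz, (bz, b1), []) using 1
  simp only [bval_bz, bval_b1, dotp_nil]
  push_cast
  rw [max_eq_right (by linarith)]; ring

/-- values in the first part -/
theorem pre_sum (m : ℕ) (hm : 2 ≤ m) (hu₀ : 0 ≤ u₀) (hu₁ : 0 ≤ u₁) :
    ∃ Wx Wy : Bool → ℝ, ∃ rx ry : Bool → ℕ,
      (∀ a, 0 ≤ Wx a) ∧ (∀ a, 0 ≤ Wy a) ∧ (∀ a, Wx a ≤ 3) ∧ (∃ a, 1 ≤ Wx a) ∧ (∃ a, 1 ≤ Wy a) ∧
      (∀ a, 0 < Wx a → rx a < 2 ^ m ∧ |min (2 ^ m * u₀) (2 ^ m - 1) - rx a| < 3 / 4) ∧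
      (∀ a, 0 < Wy a → ry a < 2 ^ m ∧ |min (2 ^ m * u₁) (2 ^ m - 1) - ry a| < 3 / 4) ∧
      (∀ a, RV u₀ u₁ (preG m) (wW m 2 a) (Wx a)) ∧
      (∀ a, RV u₀ u₁ (preG m) (wW m (2 + Lc m) a) (Wy a)) ∧
      RV u₀ u₁ (preG m) (2 + 2 * Lc m) u₀ ∧ RV u₀ u₁ (preG m) (3 + 2 * Lc m) u₁ ∧
      ∀ a b, 0 < Wx a → 0 < Wy b → RVs (u₀ := u₀) (u₁ := u₁) (preG m) (isW m a b)
        (([false, true] ++ bits m (rx a) ++ bits m (ry b)).map b2r) := by
  have hc0 : RV u₀ u₁ [gt bz [], gt b1 []] 0 0 := by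
    have := (RV.const (u₀ := u₀) (u₁ := u₁) [] bz).append [gt b1 []]
    simpa [bval_bz] using this
  have hc1 : RV u₀ u₁ [gt bz [], gt b1 []] 1 1 := by
    have := (RV.const (u₀ := u₀) (u₁ := u₁) [gt bz []] b1)
    simpa [bval_b1] using this
  obtain ⟨Wx, X, hX, x0, x1, x2, x3, x4⟩ := coord_sum (u₀ := u₀) (u₁ := u₁) true m 2
    [gt bz [], gt b1 []] hm rfl hc0 hc1 (by simpa using hu₀)
  have l1 : ([gt bz [], gt b1 []] ++ coordG true m 2).length = 2 + Lc m := by
    rw [List.length_append, length_coordG]; rfl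
  obtain ⟨Wy, Y, hY, y0, y1, y2, y3, y4⟩ := coord_sum (u₀ := u₀) (u₁ := u₁) false m (2 + Lc m)
    ([gt bz [], gt b1 []] ++ coordG true m 2) hm l1 (hc0.append _) (hc1.append _)
    (by simpa using hu₁)
  simp only [if_true, Bool.false_eq_true, if_false] at hX hY
  have hx : ∀ a, ∃ r : ℕ, 0 < Wx a → r < 2 ^ m ∧ |X - r| < 3 / 4 ∧
      RVs (u₀ := u₀) (u₁ := u₁) ([gt bz [], gt b1 []] ++ coordG true m 2)
        (bitW a m (if a then 2 + 4 + 3 * m + (4 * (m - 1) + 1) else 2 + 4 + 3 * m))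
        ((bits m r).map b2r) := by
    intro a
    by_cases h : 0 < Wx a
    · obtain ⟨r, hr⟩ := x4 a h
      exact ⟨r, fun _ => hr⟩
    · exact ⟨0, fun h' => absurd h' h⟩
  have hy : ∀ a, ∃ r : ℕ, 0 < Wy a → r < 2 ^ m ∧ |Y - r| < 3 / 4 ∧
      RVs (u₀ := u₀) (u₁ := u₁) ([gt bz [], gt b1 []] ++ coordG true m 2 ++ coordG false m (2 + Lc m))
        (bitW a m (if a then 2 + Lc m + 4 + 3 * m + (4 * (m - 1) + 1) else 2 + Lc m + 4 + 3 * m))
        ((bits m r).map b2r) := by
    intro a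
    by_cases h : 0 < Wy a
    · obtain ⟨r, hr⟩ := y4 a h
      exact ⟨r, fun _ => hr⟩
    · exact ⟨0, fun h' => absurd h' h⟩
  choose rx hrx using hx
  choose ry hry using hy
  have e : preG m = [gt bz [], gt b1 []] ++ coordG true m 2 ++ coordG false m (2 + Lc m) ++
    [(bz, (b1, bz), [])] ++ [(bz, (bz, b1), [])] := by simp [preG]
  have l2 : ([gt bz [], gt b1 []] ++ coordG true m 2 ++ coordG false m (2 + Lc m)).length =
    2 + 2 * Lc m := by
    rw [List.length_append, l1, length_coordG]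
    change 2 + Lc m + Lc m = _
    ring
  refine ⟨Wx, Wy, rx, ry, fun a => (x2 a).1, fun a => (y2 a).1, fun a => (x2 a).2, x3, y3,
    fun a h => ?_, fun a h => ?_, fun a => ?_, fun a => ?_, ?_, ?_, fun a b ha hb => ?_⟩
  · rw [← hX]; exact ⟨(hrx a h).1, (hrx a h).2.1⟩
  · rw [← hY]; exact ⟨(hry a h).1, (hry a h).2.1⟩
  · rw [e]
    cases a
    · exact ((x0.append _).append _).append _
    · exact ((x1.append _).append _).append _
  · rw [e]
    cases a
    · exact (y0.append _).append _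
    · exact (y1.append _).append _
  · rw [e]
    have := RV.inp₀ (u₀ := u₀) (u₁ := u₁)
      ([gt bz [], gt b1 []] ++ coordG true m 2 ++ coordG false m (2 + Lc m)) hu₀
    rw [l2] at this
    exact this.append _
  · rw [e]
    have := RV.inp₁ (u₀ := u₀) (u₁ := u₁)
      ([gt bz [], gt b1 []] ++ coordG true m 2 ++ coordG false m (2 + Lc m) ++ [(bz, (b1, bz), [])])
      hu₁
    rw [List.length_append, l2] at this
    have e3 : 2 + 2 * Lc m + [((bz, (b1, bz), []) : RG)].length = 3 + 2 * Lc m := by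
      simp only [List.length_cons, List.length_nil]; ring
    rw [e3] at this
    exact this
  · have h01 : RVs (u₀ := u₀) (u₁ := u₁) (preG m) [0, 1] [0, 1] := by
      have a0 : RV u₀ u₁ (preG m) 0 0 := by
        rw [e]; exact (((hc0.append _).append _).append _).append _
      have a1 : RV u₀ u₁ (preG m) 1 1 := by
        rw [e]; exact (((hc1.append _).append _).append _).append _
      refine ⟨?_, ?_⟩
      · intro i hi
        simp only [List.mem_cons, List.not_mem_nil, or_false] at hi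
        rcases hi with rfl | rfl
        · exact a0.1
        · exact a1.1
      · rw [List.map_cons, List.map_cons, List.map_nil, a0.2, a1.2]
    have hxx : RVs (u₀ := u₀) (u₁ := u₁) (preG m)
        (bitW a m (if a then 2 + 4 + 3 * m + (4 * (m - 1) + 1) else 2 + 4 + 3 * m))
        ((bits m (rx a)).map b2r) := by
      rw [e]; exact (((hrx a ha).2.2.append _).append _).append _
    have hyy : RVs (u₀ := u₀) (u₁ := u₁) (preG m)
        (bitW b m (if b then 2 + Lc m + 4 + 3 * m + (4 * (m - 1) + 1) else 2 + Lc m + 4 + 3 * m))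
        ((bits m (ry b)).map b2r) := by
      rw [e]; exact ((hry b hb).2.2.append _).append _
    have := (h01.concat hxx).concat hyy
    rw [List.map_append, List.map_append]
    have e4 : ([false, true] : List Bool).map b2r = [0, 1] := by simp [b2r]
    rw [e4]
    exact this

end

end Pool.Agent.H74.PPAD
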