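import Pool.Agent.TM.Sim
import Pool.Agent.H74.PPADMaps

/-!
# Polynomial time maps of the prelude are closed under composition
-/

set_option autoImplicit false

namespace Pool.Agent.H74.PPAD

open TMLib N487b59b3 N68a2faeb

variable {α β γ δ ε : Type} [N487b59b3 α] [N487b59b3 β] [N487b59b3 γ] [N487b59b3 δ] [N487b59b3 ε]

lemma exists_ptime {f : α → β} (h : IsPolyTime f) :
    ∃ F : List Bool → List Bool, PTime F ∧ ∀ a, F (bitEncode a) = bitEncode (f a) :=
  ptime_of_tm2 h

lemma isPolyTime_of {f : α → β} {F : List Bool → List Bool} (hF : PTime F)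
    (h : ∀ a, bitEncode (f a) = F (bitEncode a)) : IsPolyTime f :=
  tm2_of_ptime (ea := (N487b59b3.toEncoding (α := α)).encode)
    (eb := (N487b59b3.toEncoding (α := β)).encode) hF h

/-- composition -/
theorem isPolyTime_comp {g : β → γ} {f : α → β} (hg : IsPolyTime g) (hf : IsPolyTime f) :
    IsPolyTime fun x => g (f x) := by
  obtain ⟨F, hF, hF'⟩ := exists_ptime hf
  obtain ⟨G, hG, hG'⟩ := exists_ptime hg
  exact isPolyTime_of (F := fun z => G (F z)) (hG.comp hF) fun a => by rw [hF', hG']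

/-- composition of the backward maps of two reductions -/
theorem isPolyTime_back {f : α → β} {g₁ : α × δ → γ} {g₂ : β × ε → δ} (hf : IsPolyTime f)
    (h₁ : IsPolyTime g₁) (h₂ : IsPolyTime g₂) :
    IsPolyTime fun p : α × ε => g₁ (p.1, g₂ (f p.1, p.2)) := by
  obtain ⟨F, hF, hF'⟩ := exists_ptime hf
  obtain ⟨G₁, hG₁, hG₁'⟩ := exists_ptime h₁
  obtain ⟨G₂, hG₂, hG₂'⟩ := exists_ptime h₂
  refine isPolyTime_of (F := fun z => G₁ (delimit (unblk z).1 ++
    G₂ (delimit (F (unblk z).1) ++ (unblk z).2))) ?_ ?_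
  · have h1 : PTime (fun z : List Bool => delimit (F (unblk z).1) ++ (unblk z).2) :=
      PTime.append (PTime.delimit (hF.comp (by fun_prop))) (by fun_prop)
    exact hG₁.comp (PTime.append (by fun_prop) (hG₂.comp h1))
  · rintro ⟨x, y⟩
    have e : bitEncode (x, y) = delimit (bitEncode x) ++ bitEncode y := rfl
    have e1 : ∀ (a : α) (d : δ), delimit (bitEncode a) ++ bitEncode d = bitEncode (a, d) :=
      fun _ _ => rfl
    have e2 : ∀ (b : β) (d : ε), delimit (bitEncode b) ++ bitEncode d = bitEncode (b, d) :=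
      fun _ _ => rfl
    dsimp only
    rw [e, unblk_delimit]
    dsimp only
    rw [hF', e2, hG₂', e1, hG₁']

end Pool.Agent.H74.PPAD
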