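import Pool.Agent.H74.SymNEParams

set_option autoImplicit false

namespace Pool.Agent.H74.RankTwo

/-- tent map on `[0,8]` -/
noncomputable def tent (x : ℝ) : ℝ := min (2 * x) (16 - 2 * x)

/-- the parabola -/
noncomputable def par (x : ℝ) : ℝ := x - x ^ 2 / 8

lemma par_tent (x : ℝ) : 4 * par x = tent x + par (tent x) := by
  unfold tent par
  rcases le_total (2 * x) (16 - 2 * x) with h | h
  · rw [min_eq_left h]; ring
  · rw [min_eq_right h]; ring

lemma tent_mem {x : ℝ} (h0 : 0 ≤ x) (h8 : x ≤ 8) : 0 ≤ tent x ∧ tent x ≤ 8 := by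
  unfold tent
  constructor
  · apply le_min <;> linarith
  · rcases le_total x 4 with h | h
    · exact (min_le_left _ _).trans (by linarith)
    · exact (min_le_right _ _).trans (by linarith)

lemma iter_mem {x : ℝ} (h0 : 0 ≤ x) (h8 : x ≤ 8) (j : ℕ) : 0 ≤ tent^[j] x ∧ tent^[j] x ≤ 8 := by
  induction j with
  | zero => exact ⟨h0, h8⟩
  | succ j ih =>
    rw [Function.iterate_succ_apply']
    exact tent_mem ih.1 ih.2

lemma iter_sum (x : ℝ) (n m : ℕ) (hm : m ≤ n) :
    ∑ j ∈ Finset.range m, (4:ℝ) ^ (n - j) * tent^[j+1] x =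
      4 ^ (n + 1) * par x - 4 ^ (n + 1 - m) * par (tent^[m] x) := by
  induction m with
  | zero => simp
  | succ m ih =>
    rw [Finset.sum_range_succ, ih (by omega)]
    rw [Function.iterate_succ_apply']
    have h1 : n + 1 - m = (n - m) + 1 := by omega
    have h2 : n + 1 - (m + 1) = n - m := by omega
    rw [h1, h2, pow_succ]
    have := par_tent (tent^[m] x)
    linear_combination (-(4:ℝ) ^ (n - m)) * this

lemma par_step (p t t' : ℝ) (hp0 : 0 ≤ p) (hp : p ≤ 4) (h0 : 0 ≤ t') (h1 : t' - 2 * t ≤ p) (h2 : t' + 2 * t - 16 ≤ p) :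
    t' + par t' ≤ 4 * par t + 3 * p := by
  have key : 4 * par t = tent t + par (tent t) := par_tent t
  rw [key]
  set s := tent t with hs
  have hs8 : s ≤ 8 := by
    rw [hs]; unfold tent
    rcases le_total t 4 with h | h
    · exact (min_le_left _ _).trans (by linarith)
    · exact (min_le_right _ _).trans (by linarith)
  have hts : t' ≤ s + p := by
    rw [hs]; unfold tent
    rcases le_total (2 * t) (16 - 2 * t) with h | h
    · rw [min_eq_left h]; linarith
    · rw [min_eq_right h]; linarith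
  unfold par
  -- 2 t' - t'^2/8 ≤ 2 s - s^2/8 + 3p
  nlinarith [mul_nonneg (sub_nonneg.2 hs8) (sub_nonneg.2 hts), sq_nonneg (t' - s), mul_nonneg hp0 h0,
    mul_nonneg hp0 (sub_nonneg.2 hs8)]

/-- the supergradient inequality of the gadget -/
lemma gadget (n : ℕ) (hn : 1 ≤ n) (p : ℝ) (hp0 : 0 ≤ p) (hp : p ≤ 4) (t α β : ℕ → ℝ)
    (ht0 : ∀ j < n, 0 ≤ t (j+1)) (hα0 : ∀ j < n, 0 ≤ α j) (hβ0 : ∀ j < n, 0 ≤ β j)
    (hαn : α n = 0) (hβn : β n = 0)
    (hα : ∀ j < n, t (j+1) - 2 * t j ≤ p) (hαc : ∀ j < n, α j * (t (j+1) - 2 * t j - p) = 0)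
    (hβ : ∀ j < n, t (j+1) + 2 * t j - 16 ≤ p) (hβc : ∀ j < n, β j * (t (j+1) + 2 * t j - 16 - p) = 0)
    (ht : ∀ j < n, (4:ℝ) ^ (n - j) - α j - β j + 2 * α (j+1) - 2 * β (j+1) ≤ p)
    (htc : ∀ j < n, t (j+1) * ((4:ℝ) ^ (n - j) - α j - β j + 2 * α (j+1) - 2 * β (j+1) - p) = 0)
    (x : ℝ) (hx0 : 0 ≤ x) (hx8 : x ≤ 8) :
    4 ^ (n+1) * (par x - par (t 0)) - 8 - (2 * 4 ^ (n+1) + 8 * n + 8) * p
      ≤ 2 * (α 0 - β 0) * (x - t 0) := by
  -- comparison point
  set u : ℕ → ℝ := fun j => tent^[j] x with hu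
  have hu0 : ∀ j, 0 ≤ u j := fun j => (iter_mem hx0 hx8 j).1
  have hu8 : ∀ j, u j ≤ 8 := fun j => (iter_mem hx0 hx8 j).2
  have hus : ∀ j, u (j+1) = tent (u j) := fun j => by
    simp only [hu]; rw [Function.iterate_succ_apply']
  have hu1 : ∀ j, u (j+1) - 2 * u j ≤ 0 := fun j => by
    rw [hus]; unfold tent; have := min_le_left (2 * u j) (16 - 2 * u j); linarith
  have hu2 : ∀ j, u (j+1) + 2 * u j - 16 ≤ 0 := fun j => by
    rw [hus]; unfold tent; have := min_le_right (2 * u j) (16 - 2 * u j); linarith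
  -- termwise duality
  have step : ∀ j < n, (4:ℝ) ^ (n - j) * (u (j+1) - t (j+1)) ≤
      8 * p + (2 * α j * (u j - t j) - 2 * β j * (u j - t j))
        - (2 * α (j+1) * (u (j+1) - t (j+1)) - 2 * β (j+1) * (u (j+1) - t (j+1))) := by
    intro j hj
    have a1 := mul_nonneg (hu0 (j+1)) (sub_nonneg.2 (ht j hj))
    have a2 := htc j hj
    have a3 := mul_nonneg (hα0 j hj) (sub_nonneg.2 (hu1 j))
    have a4 := hαc j hj
    have a5 := mul_nonneg (hβ0 j hj) (sub_nonneg.2 (hu2 j))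
    have a6 := hβc j hj
    have a7 := mul_nonneg hp0 (sub_nonneg.2 (hu8 (j+1)))
    have a8 := mul_nonneg hp0 (ht0 j hj)
    have a9 := mul_nonneg hp0 (hα0 j hj)
    have a10 := mul_nonneg hp0 (hβ0 j hj)
    nlinarith
  have sum1 : ∀ m ≤ n, ∑ j ∈ Finset.range m, (4:ℝ) ^ (n - j) * (u (j+1) - t (j+1)) ≤
      m * (8 * p) + (2 * α 0 * (u 0 - t 0) - 2 * β 0 * (u 0 - t 0))
        - (2 * α m * (u m - t m) - 2 * β m * (u m - t m)) := by
    intro m
    induction m with
    | zero => intro _; simp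
    | succ m ih =>
      intro hm
      rw [Finset.sum_range_succ]
      have h1 := ih (by omega)
      have h2 := step m (by omega)
      push_cast
      linarith
  have s1 := sum1 n le_rfl
  rw [hαn, hβn] at s1
  -- value of the comparison point
  have s2 := iter_sum x n n le_rfl
  have h3 : n + 1 - n = 1 := by omega
  rw [h3] at s2
  have s2' : ∑ j ∈ Finset.range n, (4:ℝ) ^ (n - j) * u (j+1) ≥ 4 ^ (n+1) * par x - 8 := by
    rw [s2]
    have : par (tent^[n] x) ≤ 2 := by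
      unfold par; nlinarith [sq_nonneg (tent^[n] x - 4)]
    linarith
  -- value at the solution
  have sum3 : ∀ m ≤ n, ∑ j ∈ Finset.range m, (4:ℝ) ^ (n - j) * t (j+1) ≤
      4 ^ (n + 1) * par (t 0) - 4 ^ (n + 1 - m) * par (t m) + (4 ^ (n+1) - 4 ^ (n + 1 - m)) * p := by
    intro m
    induction m with
    | zero => intro _; simp
    | succ m ih =>
      intro hm
      rw [Finset.sum_range_succ]
      have h1 := ih (by omega)
      have h2 := par_step p (t m) (t (m+1)) hp0 hp (ht0 m (by omega)) (hα m (by omega)) (hβ m (by omega))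
      have e1 : n + 1 - m = (n - m) + 1 := by omega
      have e2 : n + 1 - (m + 1) = n - m := by omega
      rw [e1, pow_succ (4:ℝ) (n - m)] at h1
      rw [e2]
      have h4 : (0:ℝ) < 4 ^ (n - m) := by positivity
      nlinarith [mul_le_mul_of_nonneg_left h2 h4.le]
  have s3 := sum3 n le_rfl
  rw [h3] at s3
  have s4 : - par (t n) ≤ 2 * p := by
    obtain ⟨m, rfl⟩ : ∃ m, n = m + 1 := ⟨n - 1, by omega⟩
    have b1 := hα m (by omega)
    have b2 := hβ m (by omega)
    have b3 := ht0 m (by omega)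
    have b4 : t (m+1) ≤ 8 + p := by linarith
    unfold par
    nlinarith
  have s5 : ∑ j ∈ Finset.range n, (4:ℝ) ^ (n - j) * (u (j+1) - t (j+1)) =
      ∑ j ∈ Finset.range n, (4:ℝ) ^ (n - j) * u (j+1) - ∑ j ∈ Finset.range n, (4:ℝ) ^ (n - j) * t (j+1) := by
    rw [← Finset.sum_sub_distrib]
    apply Finset.sum_congr rfl
    intros; ring
  rw [s5] at s1
  have hu00 : u 0 = x := rfl
  rw [hu00] at s1
  have h5 : (0:ℝ) ≤ 4 ^ (n+1) * p := by positivity
  nlinarith

open Finset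

lemma stepA {K : ℕ} (v : Fin K → ℝ) (κ B p S c C E d : ℝ) (hκ : 0 ≤ κ) (hB : 2 * κ ≤ B)
    (hB0 : 0 < B) (hS : 1 + ∑ k, v k ≤ S) (hSc : c ≤ S) (hv : ∀ k, 0 ≤ v k)
    (hp : p * S = κ * ∑ k, v k ^ 2) (hs : ∀ k, B * (v k - 1) ≤ p) (hE : 2 * κ < E)
    (hc : E - d ≤ p) (hd : d * (c - C - p) = 0) (_hC : 0 < C) :
    0 ≤ p ∧ p ≤ 2 * κ ∧ (∀ k, v k ≤ 1 + p / B) ∧ (∀ k, v k ≤ 2) ∧ p * C ≤ 4 * K * κ := by
  have hsum : 0 ≤ ∑ k, v k := sum_nonneg (fun k _ => hv k)
  have hS0 : 0 < S := by linarith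
  have hsq : 0 ≤ ∑ k, v k ^ 2 := sum_nonneg (fun k _ => sq_nonneg _)
  have hp0 : 0 ≤ p := by
    by_contra h
    push Not at h
    nlinarith [mul_nonneg hκ hsq]
  have hvb : ∀ k, v k ≤ 1 + p / B := by
    intro k
    have := hs k
    rw [← sub_le_iff_le_add', le_div_iff₀ hB0]
    linarith
  have h1 : ∑ k, v k ^ 2 ≤ (1 + p / B) * ∑ k, v k := by
    rw [mul_sum]
    apply sum_le_sum
    intro k _
    nlinarith [hv k, hvb k]
  have hq : 0 ≤ p / B := div_nonneg hp0 hB0.le
  have h2 : p * S ≤ κ * (1 + p / B) * S := by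
    rw [hp]
    have h3 : (1 + p / B) * ∑ k, v k ≤ (1 + p / B) * S := by
      apply mul_le_mul_of_nonneg_left _ (by linarith)
      linarith
    calc κ * ∑ k, v k ^ 2 ≤ κ * ((1 + p / B) * S) := mul_le_mul_of_nonneg_left (h1.trans h3) hκ
      _ = _ := by ring
  have h3 : p ≤ κ * (1 + p / B) := le_of_mul_le_mul_right h2 hS0
  have h4 : κ * (p / B) ≤ p / 2 := by
    rw [mul_div_assoc', div_le_iff₀ hB0]
    nlinarith
  have hp2 : p ≤ 2 * κ := by linarith
  have hv2 : ∀ k, v k ≤ 2 := by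
    intro k
    have h5 : p / B ≤ 1 := by rw [div_le_one hB0]; linarith
    linarith [hvb k]
  have hd0 : 0 < d := by linarith
  have hcC : c - C - p = 0 := by
    rcases mul_eq_zero.1 hd with h | h
    · linarith
    · exact h
  have hSC : C ≤ S := by linarith
  refine ⟨hp0, hp2, hvb, hv2, ?_⟩
  calc p * C ≤ p * S := mul_le_mul_of_nonneg_left hSC hp0
    _ = κ * ∑ k, v k ^ 2 := hp
    _ ≤ κ * ∑ k : Fin K, 4 := by
        apply mul_le_mul_of_nonneg_left _ hκ
        apply sum_le_sum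
        intro k _
        nlinarith [hv k, hv2 k]
    _ = 4 * K * κ := by simp; ring

/-- lexicographic weights: bound for the dual variables -/
lemma stepB {K N : ℕ} (H W e p : ℝ) (hH : 1 ≤ H) (hW : 8 * H * N ≤ W) (hW2 : 16 * H * K ≤ W)
    (hW3 : 16 ≤ W)
    (he : 1 ≤ e) (hp0 : 0 ≤ p) (hp : p ≤ 1)
    (a : Fin N → Fin N → ℝ) (o : Fin K → Fin N → ℝ)
    (ha : ∀ i j, |a i j| ≤ H) (ho : ∀ k i, |o k i| ≤ H)
    (v : Fin K → ℝ) (hv0 : ∀ k, 0 ≤ v k) (hv2 : ∀ k, v k ≤ 2)
    (y z : Fin N → ℝ) (hy : ∀ i, 0 ≤ y i) (_hz : ∀ i, 0 ≤ z i)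
    (hrow : ∀ i, -(e * W ^ (N - i.1)) + y i - ∑ j, (if i < j then a j i * y j else 0)
        - e * ∑ k, o k i * v k ≤ p)
    (hcomp : ∀ i, z i * (-(e * W ^ (N - i.1)) + y i - ∑ j, (if i < j then a j i * y j else 0)
        - e * ∑ k, o k i * v k - p) = 0) :
    (∀ i, y i ≤ 2 * (e * W ^ (N - i.1))) ∧ (∀ i, 0 < z i → 0 < y i) := by
  have hW0 : (0:ℝ) < W := by linarith
  -- weight comparison
  have hw : ∀ i : Fin N, e * W ≤ e * W ^ (N - i.1) := by
    intro i
    apply mul_le_mul_of_nonneg_left _ (by linarith)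
    have h1 : 1 ≤ N - i.1 := by have := i.2; omega
    calc W = W ^ 1 := (pow_one W).symm
      _ ≤ W ^ (N - i.1) := pow_le_pow_right₀ (by linarith) h1
  have hww : ∀ i j : Fin N, i < j → W * W ^ (N - j.1) ≤ W ^ (N - i.1) := by
    intro i j hij
    have h1 : (N - j.1) + 1 ≤ N - i.1 := by
      have := j.2
      have : i.1 < j.1 := hij
      omega
    calc W * W ^ (N - j.1) = W ^ ((N - j.1) + 1) := by rw [pow_succ]; ring
      _ ≤ W ^ (N - i.1) := pow_le_pow_right₀ (by linarith) h1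
  have ho' : ∀ i, |e * ∑ k, o k i * v k| ≤ e * W ^ (N - i.1) / 8 := by
    intro i
    have h1 : |∑ k, o k i * v k| ≤ 2 * H * K := by
      calc |∑ k, o k i * v k| ≤ ∑ k, |o k i * v k| := abs_sum_le_sum_abs _ _
        _ ≤ ∑ k : Fin K, 2 * H := by
            apply sum_le_sum
            intro k _
            rw [abs_mul, abs_of_nonneg (hv0 k)]
            nlinarith [ho k i, hv0 k, hv2 k, abs_nonneg (o k i)]
        _ = 2 * H * K := by simp; ring
    rw [abs_mul, abs_of_nonneg (by linarith : (0:ℝ) ≤ e)]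
    have h2 := hw i
    have h3 : e * |∑ k, o k i * v k| ≤ e * (2 * H * K) := mul_le_mul_of_nonneg_left h1 (by linarith)
    have h4 : e * (2 * H * K) ≤ e * (W / 8) := by
      apply mul_le_mul_of_nonneg_left _ (by linarith)
      linarith
    linarith
  -- the sum of later dual variables is small once they are bounded
  have hsum : ∀ i : Fin N, (∀ j, i < j → y j ≤ 2 * (e * W ^ (N - j.1))) →
      |∑ j, (if i < j then a j i * y j else 0)| ≤ e * W ^ (N - i.1) / 4 := by
    intro i hi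
    calc |∑ j, (if i < j then a j i * y j else 0)|
        ≤ ∑ j, |if i < j then a j i * y j else 0| := abs_sum_le_sum_abs _ _
      _ ≤ ∑ j : Fin N, 2 * H * (e * W ^ (N - i.1)) / W := by
          apply sum_le_sum
          intro j _
          split_ifs with hij
          · rw [abs_mul, abs_of_nonneg (hy j), le_div_iff₀ hW0]
            have h1 := hi j hij
            have h2 := hww i j hij
            have h3 := ha j i
            have h4 := hy j
            have h5 : |a j i| * y j ≤ H * (2 * (e * W ^ (N - j.1))) :=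
              mul_le_mul h3 h1 h4 (by linarith)
            have h6 : e * (W * W ^ (N - j.1)) ≤ e * W ^ (N - i.1) :=
              mul_le_mul_of_nonneg_left h2 (by linarith)
            have h7 : H * (e * (W * W ^ (N - j.1))) ≤ H * (e * W ^ (N - i.1)) :=
              mul_le_mul_of_nonneg_left h6 (by linarith)
            nlinarith
          · rw [abs_zero]; positivity
      _ = 2 * H * N / W * (e * W ^ (N - i.1)) := by
          simp only [sum_const, card_univ, Fintype.card_fin, nsmul_eq_mul]; ring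
      _ ≤ (1/4) * (e * W ^ (N - i.1)) := by
          apply mul_le_mul_of_nonneg_right _ (by positivity)
          rw [div_le_iff₀ hW0]; linarith
      _ = _ := by ring
  have hy2 : ∀ m : ℕ, ∀ i : Fin N, N - i.1 = m → y i ≤ 2 * (e * W ^ (N - i.1)) := by
    intro m
    induction m using Nat.strong_induction_on with
    | _ m ih =>
      intro i him
      have h1 : ∀ j, i < j → y j ≤ 2 * (e * W ^ (N - j.1)) := by
        intro j hij
        have hij' : i.1 < j.1 := hij
        exact ih (N - j.1) (by have := j.2; omega) j rfl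
      have h2 := hsum i h1
      have h3 := ho' i
      have h4 := hrow i
      have h5 := hw i
      have h6 := abs_le.1 h2
      have h7 := abs_le.1 h3
      have h8 : 16 ≤ e * W := by nlinarith
      linarith [h6.2, h7.2]
  have hy2' : ∀ i, y i ≤ 2 * (e * W ^ (N - i.1)) := fun i => hy2 _ i rfl
  refine ⟨hy2', ?_⟩
  intro i hzi
  have h2 := hsum i (fun j _ => hy2' j)
  have h3 := ho' i
  have h4 := hcomp i
  have h4' : -(e * W ^ (N - i.1)) + y i - ∑ j, (if i < j then a j i * y j else 0)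
        - e * ∑ k, o k i * v k - p = 0 := by
    rcases mul_eq_zero.1 h4 with h | h
    · linarith
    · exact h
  have h5 := hw i
  have h6 := abs_le.1 h2
  have h7 := abs_le.1 h3
  have h8 : 16 ≤ e * W := by nlinarith
  linarith [h6.1, h7.1]

/-- gates are evaluated up to `p` -/
lemma stepC (ℓ z y p : ℝ) (hp0 : 0 ≤ p) (hz : 0 ≤ z) (hrow : ℓ - z ≤ p) (hcomp : y * (ℓ - z - p) = 0)
    (hpos : 0 < z → 0 < y) : |z - max 0 ℓ| ≤ p := by
  rcases hz.lt_or_eq with h | h
  · have hy := hpos h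
    have h1 : ℓ - z - p = 0 := by
      rcases mul_eq_zero.1 hcomp with h' | h'
      · linarith
      · exact h'
    have h2 : 0 ≤ ℓ := by linarith
    rw [max_eq_right h2, abs_le]
    constructor <;> linarith
  · rw [← h] at hrow ⊢
    rw [zero_sub, abs_neg, abs_of_nonneg (le_max_left _ _)]
    exact max_le hp0 (by linarith)

/-- error propagation through the circuit -/
lemma stepG {K N : ℕ} (H W p δ : ℝ) (hH : 1 ≤ H) (hW : 1 + H * N ≤ W) (hp0 : 0 ≤ p) (hδ : 0 ≤ δ)
    (a : Fin N → Fin N → ℝ) (c : Fin N → Fin K → ℝ) (b : Fin N → ℝ)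
    (ha : ∀ i j, |a i j| ≤ H) (hc : ∀ i k, |c i k| ≤ H)
    (v w : Fin K → ℝ) (hvw : ∀ k, |w k - v k| ≤ δ) (z r : Fin N → ℝ)
    (hz : ∀ i, |z i - max 0 (b i + ∑ k, c i k * w k + ∑ j, (if j < i then a i j * z j else 0))| ≤ p)
    (hr : ∀ i, r i = max 0 (b i + ∑ k, c i k * v k + ∑ j, (if j < i then a i j * r j else 0))) :
    ∀ i : Fin N, |z i - r i| ≤ (p + K * H * δ) * W ^ i.1 := by
  have hW1 : 1 ≤ W := by
    have : (0:ℝ) ≤ H * N := by positivity
    linarith
  intro i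
  obtain ⟨m, hm⟩ : ∃ m, m = i.1 := ⟨_, rfl⟩
  induction m using Nat.strong_induction_on generalizing i with
  | _ m ih =>
    have ih' : ∀ j : Fin N, j < i → |z j - r j| ≤ (p + K * H * δ) * W ^ j.1 := by
      intro j hj
      have : j.1 < i.1 := hj
      exact ih j.1 (by omega) j rfl
    have h1 := hz i
    rw [hr i]
    set A := b i + ∑ k, c i k * w k + ∑ j, (if j < i then a i j * z j else 0) with hA
    set B := b i + ∑ k, c i k * v k + ∑ j, (if j < i then a i j * r j else 0) with hB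
    have h2 : |max 0 A - max 0 B| ≤ |A - B| := by
      have := abs_max_sub_max_le_abs A B 0
      rw [max_comm 0 A, max_comm 0 B]
      exact this
    have h3 : |A - B| ≤ K * H * δ + H * ∑ j : Fin N, (if j < i then |z j - r j| else 0) := by
      have e1 : A - B = ∑ k, c i k * (w k - v k) + ∑ j, (if j < i then a i j * (z j - r j) else 0) := by
        rw [hA, hB]
        have e2 : ∑ k, c i k * (w k - v k) = ∑ k, c i k * w k - ∑ k, c i k * v k := by
          rw [← sum_sub_distrib]; apply sum_congr rfl; intros; ring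
        have e3 : ∑ j, (if j < i then a i j * (z j - r j) else 0)
            = ∑ j, (if j < i then a i j * z j else 0) - ∑ j, (if j < i then a i j * r j else 0) := by
          rw [← sum_sub_distrib]; apply sum_congr rfl; intro j _; split_ifs <;> ring
        rw [e2, e3]; ring
      rw [e1]
      refine (abs_add_le _ _).trans (add_le_add ?_ ?_)
      · calc |∑ k, c i k * (w k - v k)| ≤ ∑ k, |c i k * (w k - v k)| := abs_sum_le_sum_abs _ _
          _ ≤ ∑ k : Fin K, H * δ := by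
              apply sum_le_sum
              intro k _
              rw [abs_mul]
              exact mul_le_mul (hc i k) (hvw k) (abs_nonneg _) (by linarith)
          _ = K * H * δ := by simp; ring
      · rw [mul_sum]
        refine (abs_sum_le_sum_abs _ _).trans (sum_le_sum ?_)
        intro j _
        split_ifs with hj
        · rw [abs_mul]
          exact mul_le_mul_of_nonneg_right (ha i j) (abs_nonneg _)
        · simp
    set q := p + K * H * δ with hq
    have hq0 : 0 ≤ q := by positivity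
    have h4 : ∑ j : Fin N, (if j < i then |z j - r j| else 0) ≤ if i.1 = 0 then 0 else N * (q * W ^ (i.1 - 1)) := by
      split_ifs with hi0
      · apply le_of_eq
        apply sum_eq_zero
        intro j _
        rw [if_neg]
        intro hj
        have : j.1 < i.1 := hj
        omega
      · calc ∑ j : Fin N, (if j < i then |z j - r j| else 0) ≤ ∑ j : Fin N, q * W ^ (i.1 - 1) := by
              apply sum_le_sum
              intro j _
              split_ifs with hj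
              · refine (ih' j hj).trans ?_
                apply mul_le_mul_of_nonneg_left _ hq0
                have : j.1 < i.1 := hj
                exact pow_le_pow_right₀ hW1 (by omega)
              · positivity
          _ = N * (q * W ^ (i.1 - 1)) := by simp
    have h5 : |z i - max 0 B| ≤ p + |A - B| := by
      calc |z i - max 0 B| = |(z i - max 0 A) + (max 0 A - max 0 B)| := by ring_nf
        _ ≤ |z i - max 0 A| + |max 0 A - max 0 B| := abs_add_le _ _
        _ ≤ _ := add_le_add h1 h2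
    refine h5.trans ?_
    by_cases hi0 : i.1 = 0
    · rw [if_pos hi0] at h4
      rw [hi0, pow_zero, mul_one]
      have : H * ∑ j : Fin N, (if j < i then |z j - r j| else 0) ≤ 0 := by
        have := mul_le_mul_of_nonneg_left h4 (by linarith : (0:ℝ) ≤ H)
        linarith
      linarith
    · rw [if_neg hi0] at h4
      have h6 : H * ∑ j : Fin N, (if j < i then |z j - r j| else 0) ≤ H * (N * (q * W ^ (i.1 - 1))) :=
        mul_le_mul_of_nonneg_left h4 (by linarith)
      obtain ⟨l, hl⟩ : ∃ l, i.1 = l + 1 := ⟨i.1 - 1, by omega⟩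
      rw [hl] at h6 ⊢
      rw [Nat.add_sub_cancel] at h6
      have h7 : (1:ℝ) ≤ W ^ l := one_le_pow₀ hW1
      have h8 : q + H * (N * (q * W ^ l)) ≤ q * W ^ (l + 1) := by
        rw [pow_succ]
        have h9 : q ≤ q * W ^ l := by nlinarith
        have h10 : 0 ≤ q * W ^ l := by positivity
        nlinarith [mul_le_mul_of_nonneg_left hW h10]
      linarith


/-- per-coordinate analysis of the gadget and of the buffer node -/
lemma stepD (n : ℕ) (hn : 4 ≤ n) (p v w Sg S0 : ℝ) (hp0 : 0 ≤ p)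
    (hp : (2 * 4 ^ (n+1) + 8 * n + 8) * p ≤ 1) (t α β : ℕ → ℝ)
    (ht00 : t 0 = 4 + 2 * w - v) (hv0 : 0 ≤ v) (hv2 : v ≤ 2) (hw0 : 0 ≤ w)
    (ht0 : ∀ j < n, 0 ≤ t (j+1)) (hα0 : ∀ j < n, 0 ≤ α j) (hβ0 : ∀ j < n, 0 ≤ β j)
    (hαn : α n = 0) (hβn : β n = 0)
    (hα : ∀ j < n, t (j+1) - 2 * t j ≤ p) (hαc : ∀ j < n, α j * (t (j+1) - 2 * t j - p) = 0)
    (hβ : ∀ j < n, t (j+1) + 2 * t j - 16 ≤ p) (hβc : ∀ j < n, β j * (t (j+1) + 2 * t j - 16 - p) = 0)
    (ht : ∀ j < n, (4:ℝ) ^ (n - j) - α j - β j + 2 * α (j+1) - 2 * β (j+1) ≤ p)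
    (htc : ∀ j < n, t (j+1) * ((4:ℝ) ^ (n - j) - α j - β j + 2 * α (j+1) - 2 * β (j+1) - p) = 0)
    (hw : 4 * (α 0 - β 0) + 2 * 4 ^ n * v - Sg ≤ p)
    (hwc : w * (4 * (α 0 - β 0) + 2 * 4 ^ n * v - Sg - p) = 0)
    (hSg : |Sg| ≤ S0) (hS0 : S0 ≤ 4 ^ n / 2) :
    |2 * (α 0 - β 0) + 4 ^ n * (2 * w - v)| ≤ 5 * 2 ^ n ∧
    |w - v| * (4 * 4 ^ n) ≤ 10 * 2 ^ n + S0 + 1 := by
  have hn1 : 1 ≤ n := by omega
  set G : ℝ := 2 ^ n with hG
  have hG2 : (4:ℝ) ^ n = G ^ 2 := by
    rw [hG, ← pow_mul, mul_comm, pow_mul]; norm_num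
  have hG16 : 16 ≤ G := by
    rw [hG]
    calc (16:ℝ) = 2 ^ 4 := by norm_num
      _ ≤ 2 ^ n := pow_le_pow_right₀ (by norm_num) hn
  have hG0 : 0 < G := by linarith
  have hG2' : (4:ℝ) ^ (n+1) = 4 * G ^ 2 := by rw [pow_succ, hG2]; ring
  have hp1 : p ≤ 1 / (8 * G ^ 2) := by
    rw [hG2'] at hp
    rw [le_div_iff₀ (by positivity)]
    have : 0 ≤ (8 * (n:ℝ) + 8) * p := by positivity
    nlinarith
  have hG256 : 256 ≤ G ^ 2 := by nlinarith
  have hp2 : p ≤ 1 / 2048 := by
    refine hp1.trans ?_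
    apply one_div_le_one_div_of_le (by norm_num)
    nlinarith
  have key := gadget n hn1 p hp0 (by linarith) t α β ht0 hα0 hβ0 hαn hβn hα hαc hβ hβc ht htc
  set D := 2 * (α 0 - β 0) with hD
  have hS0' : 0 ≤ S0 := (abs_nonneg _).trans hSg
  have hSg2 := abs_le.1 hSg
  rw [hG2'] at key
  rw [hG2'] at hp
  rw [hG2] at hw hwc hS0
  rw [hG2]
  -- h = 4 / G
  set h : ℝ := 4 / G with hh
  have hhG : h * G = 4 := by rw [hh]; field_simp
  have hh0 : 0 < h := by positivity
  have hh1 : h ≤ 1 / 4 := by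
    rw [hh, div_le_iff₀ hG0]; linarith
  have hpar : ∀ s : ℝ, par (t 0 + s) - par (t 0) = s * (1 - t 0 / 4) - s ^ 2 / 8 := by
    intro s; unfold par; ring
  have hGh2 : 4 * G ^ 2 * (h ^ 2 / 8) = 8 := by
    have : (h * G) ^ 2 = 16 := by rw [hhG]; norm_num
    nlinarith
  -- upper bound
  have hub0 : t 0 ≤ 8 + p / 2 := by
    have h1 := hβ 0 (by omega)
    have h2 := ht0 0 (by omega)
    linarith
  have hD1 : D * h ≤ 4 * G ^ 2 * (h * (1 - t 0 / 4)) + 17 := by
    have h1 := key (t 0 - h) (by rw [ht00]; linarith) (by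
      have : p / 2 ≤ h := by
        have h3 : p ≤ h := by
          refine hp1.trans ?_
          rw [hh, div_le_div_iff₀ (by positivity) hG0]
          nlinarith
        linarith
      linarith)
    have h2 := hpar (-h)
    rw [← sub_eq_add_neg] at h2
    have h3 : t 0 - h - t 0 = -h := by ring
    rw [h2, h3, neg_sq] at h1
    linarith
  have e1 : 4 * G ^ 2 * (h * (1 - t 0 / 4)) = - (G ^ 2 * (2 * w - v)) * h := by
    rw [ht00]; ring
  have hD1' : D ≤ - (G ^ 2 * (2 * w - v)) + 17 / 4 * G := by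
    have h3 : 17 = (17 / 4 * G) * h := by
      have : (17 / 4 * G) * h = 17 / 4 * (h * G) := by ring
      rw [this, hhG]; norm_num
    rw [e1] at hD1
    have h4 : D * h ≤ (- (G ^ 2 * (2 * w - v)) + 17 / 4 * G) * h := by
      rw [add_mul, ← h3]; exact hD1
    exact le_of_mul_le_mul_right h4 hh0
  -- w is not much larger than v
  have hwv : 4 * G ^ 2 * (w - v) ≤ 17 / 2 * G + S0 := by
    rcases hw0.lt_or_eq with hw1 | hw1
    · have h1 : 4 * (α 0 - β 0) + 2 * G ^ 2 * v - Sg - p = 0 := by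
        rcases mul_eq_zero.1 hwc with h | h
        · linarith
        · exact h
      have h2 : 2 * D + 2 * G ^ 2 * v - Sg = p := by rw [hD]; linarith
      have h3 := hSg2.1
      linarith
    · rw [← hw1]
      have h2 : 0 ≤ 4 * G ^ 2 * v := by positivity
      have h3 : 0 ≤ 17 / 2 * G + S0 := by positivity
      linarith
  have hwb : w ≤ v + 1 / 2 := by
    have h1 : 4 * G ^ 2 * (w - v) ≤ 4 * G ^ 2 * (1/2) := by
      have h3 : 16 * G ≤ G ^ 2 := by nlinarith
      linarith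
    have h2 : w - v ≤ 1 / 2 := le_of_mul_le_mul_left h1 (by positivity)
    linarith
  have hD2 : 4 * G ^ 2 * (h * (1 - t 0 / 4)) - 17 ≤ D * h := by
    have h1 := key (t 0 + h) (by rw [ht00]; linarith) (by rw [ht00]; linarith)
    rw [hpar h, add_sub_cancel_left] at h1
    linarith
  have hD2' : - (G ^ 2 * (2 * w - v)) - 17 / 4 * G ≤ D := by
    have h3 : 17 = (17 / 4 * G) * h := by
      have : (17 / 4 * G) * h = 17 / 4 * (h * G) := by ring
      rw [this, hhG]; norm_num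
    rw [e1] at hD2
    have h4 : (- (G ^ 2 * (2 * w - v)) - 17 / 4 * G) * h ≤ D * h := by
      rw [sub_mul, ← h3]; exact hD2
    exact le_of_mul_le_mul_right h4 hh0
  have hwv2 : -(17 / 2 * G + S0 + 1) ≤ 4 * G ^ 2 * (w - v) := by
    have h2 : 2 * D + 2 * G ^ 2 * v - Sg ≤ p := by rw [hD]; linarith
    have h3 := hSg2.2
    linarith
  constructor
  · rw [abs_le]; constructor <;> linarith
  · have h4 : |w - v| * (4 * G ^ 2) = |4 * G ^ 2 * (w - v)| := by
      rw [abs_mul, abs_of_pos (by positivity : (0:ℝ) < 4 * G ^ 2)]; ring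
    rw [h4, abs_le]; constructor <;> linarith

/-- feedback rows -/
lemma stepF (D g w v e o B s p η : ℝ) (hp0 : 0 ≤ p) (he : 0 < e) (hB : 0 < B)
    (hD : |D + g * (2 * w - v)| ≤ η) (hv0 : 0 ≤ v) (hs0 : 0 ≤ s)
    (hrow : -D - 2 * g * w + (g - e) * v + e * o - B * s ≤ p)
    (hcomp : v * (-D - 2 * g * w + (g - e) * v + e * o - B * s - p) = 0)
    (hlim : B * (v - 1) ≤ p) (hlimc : s * (B * (v - 1) - p) = 0) :
    |v - max 0 (min 1 o)| ≤ (η + p) / e + p / B := by
  have h1 := abs_le.1 hD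
  have hη : 0 ≤ η := (abs_nonneg _).trans hD
  have hq : 0 ≤ (η + p) / e := by positivity
  have hq' : 0 ≤ p / B := by positivity
  have hv1 : v ≤ 1 + p / B := by
    rw [← sub_le_iff_le_add', le_div_iff₀ hB]; linarith
  rcases hv0.lt_or_eq with hv | hv
  · have h2 : -D - 2 * g * w + (g - e) * v + e * o - B * s - p = 0 := by
      rcases mul_eq_zero.1 hcomp with h | h
      · linarith
      · exact h
    rcases hs0.lt_or_eq with hs | hs
    · -- limiter active
      have h3 : B * (v - 1) - p = 0 := by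
        rcases mul_eq_zero.1 hlimc with h | h
        · linarith
        · exact h
      have h4 : v = 1 + p / B := by
        rw [← sub_eq_iff_eq_add', eq_div_iff hB.ne']; linarith
      have h5 : v - (η + p) / e ≤ o := by
        have : e * v - η ≤ e * o := by nlinarith
        have h6 : v - (η + p) / e ≤ v - η / e := by
          have : η / e ≤ (η + p) / e := by gcongr; linarith
          linarith
        refine h6.trans ?_
        rw [← mul_le_mul_iff_right₀ he, mul_sub, mul_div_cancel₀ _ he.ne']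
        exact this
      have h6 : 1 - (η + p) / e ≤ min 1 o := le_min (by linarith) (by linarith)
      have h7 : max 0 (min 1 o) ≤ 1 := max_le (by norm_num) (min_le_left _ _)
      have h8 : 1 - (η + p) / e ≤ max 0 (min 1 o) := h6.trans (le_max_right _ _)
      rw [abs_le]; constructor <;> linarith
    · rw [← hs] at h2
      have h3 : |v - o| ≤ (η + p) / e := by
        rw [le_div_iff₀ he]
        have h5 : |v - o| * e = |(v - o) * e| := by rw [abs_mul, abs_of_pos he]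
        rw [h5, abs_le]
        constructor <;> nlinarith
      have h4 := abs_le.1 h3
      rw [abs_le]
      constructor
      · have : max 0 (min 1 o) ≤ v + (η + p) / e :=
          max_le (by linarith) ((min_le_right _ _).trans (by linarith))
        linarith
      · have : v - (η + p) / e - p / B ≤ max 0 (min 1 o) := by
          apply le_max_of_le_right
          apply le_min <;> linarith
        linarith
  · rw [← hv] at h1 hrow hlimc ⊢
    have hs : s = 0 := by
      rcases mul_eq_zero.1 hlimc with h | h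
      · exact h
      · nlinarith
    rw [hs] at hrow
    have h3 : o ≤ (η + p) / e := by
      rw [le_div_iff₀ he]; nlinarith
    rw [zero_sub, abs_neg, abs_of_nonneg (le_max_left _ _)]
    exact max_le (by linarith) ((min_le_right _ _).trans (by linarith))


lemma lt_two_pow_real (m : ℕ) : (m : ℝ) ≤ 2 ^ m := by
  have : m < 2 ^ m := Nat.lt_two_pow_self
  exact_mod_cast this.le

lemma num_eW (G P e Y : ℝ) (hG : 0 < G) (he : e = 64 * (G * P)) (h : 128 * P * Y ≤ G) :
    e * Y ≤ G ^ 2 / 2 := by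
  have := mul_le_mul_of_nonneg_left h hG.le
  rw [he]; nlinarith

lemma num_e1 (G P : ℝ) (hG : 128 ≤ G) (hP : 1 ≤ P) : 1 ≤ 64 * (G * P) := by nlinarith

lemma num_GP (G P : ℝ) (hG : 128 ≤ G) (hP : 1 ≤ P) : 64 * G ≤ 64 * (G * P) := by nlinarith

lemma num_P2 (P : ℝ) (hP : 1 ≤ P) : P ≤ P ^ 2 := by nlinarith

lemma num_128 (P : ℝ) (hP : 1 ≤ P) : 1 ≤ 128 * P ^ 2 := by nlinarith

lemma num_pi1 (G π : ℝ) (hG : 128 ≤ G) (hπ : 0 ≤ π) (h : π * G ^ 3 ≤ 1) :
    π * G ≤ 1 / 16384 ∧ π ≤ 1 / 2097152 ∧ π * G ^ 2 ≤ 1 / 128 := by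
  have h1 : (π * G) * (G ^ 2) ≤ 1 := by
    calc (π * G) * (G ^ 2) = π * G ^ 3 := by ring
      _ ≤ 1 := h
  have h2 : (16384:ℝ) ≤ G ^ 2 := by nlinarith
  have h3 : 0 ≤ π * G := by positivity
  have h4 : π * G ≤ 1 / 16384 := by nlinarith
  have h5 : (π * G ^ 2) * G ≤ 1 := by
    calc (π * G ^ 2) * G = π * G ^ 3 := by ring
      _ ≤ 1 := h
  have h6 : 0 ≤ π * G ^ 2 := by positivity
  refine ⟨h4, by nlinarith, by nlinarith⟩

lemma num_small (n G π : ℝ) (h1 : π * G ^ 2 ≤ 1 / 128) (h2 : n * π ≤ 1 / 16384) (h3 : π ≤ 1 / 2097152) :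
    (2 * (G ^ 2 * 4) + 8 * n + 8) * π ≤ 1 := by
  nlinarith

lemma num_f2 (G P π : ℝ) (hG : 128 ≤ G) (hP : 1 ≤ P) (hPG : 128 * P ≤ G) (hπ : π ≤ 1 / 2097152) :
    π ≤ (1/8) * (1 / P) * (2 * G ^ 2) := by
  have hP0 : 0 < P := by linarith
  have h5 : 1 ≤ 1 / P * G ^ 2 := by
    rw [one_div, ← div_eq_inv_mul, le_div_iff₀ hP0]; nlinarith
  nlinarith

theorem analysis (K N L p : ℕ) (a : Fin N → Fin N → ℝ) (c : Fin N → Fin K → ℝ) (b : Fin N → ℝ)
    (o : Fin K → Fin N → ℝ)
    (ha : ∀ i j, |a i j| ≤ 2 ^ L) (hc : ∀ i k, |c i k| ≤ 2 ^ L) (ho : ∀ k i, |o k i| ≤ 2 ^ L)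
    (n : ℕ) (hn : n = lev K N L p) (e W : ℝ) (he : e = 2 ^ (n + p + 6)) (hW : W = 2 ^ (om K N L))
    (v w s : Fin K → ℝ) (t α β : Fin K → ℕ → ℝ) (z y : Fin N → ℝ) (cc dd π S : ℝ)
    (hv0 : ∀ k, 0 ≤ v k) (hw0 : ∀ k, 0 ≤ w k) (hs0 : ∀ k, 0 ≤ s k)
    (ht0 : ∀ k, ∀ j < n, 0 ≤ t k (j+1)) (hα0 : ∀ k, ∀ j < n, 0 ≤ α k j)
    (hβ0 : ∀ k, ∀ j < n, 0 ≤ β k j) (hz0 : ∀ i, 0 ≤ z i) (hy0 : ∀ i, 0 ≤ y i)
    (hS : 1 + ∑ k, v k ≤ S) (hSc : cc ≤ S)
    (hπ : π * S = (4 ^ n - e) * ∑ k, v k ^ 2)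
    (ht00 : ∀ k, t k 0 = 4 + 2 * w k - v k) (hαn : ∀ k, α k n = 0) (hβn : ∀ k, β k n = 0)
    (hα : ∀ k, ∀ j < n, t k (j+1) - 2 * t k j ≤ π)
    (hαc : ∀ k, ∀ j < n, α k j * (t k (j+1) - 2 * t k j - π) = 0)
    (hβ : ∀ k, ∀ j < n, t k (j+1) + 2 * t k j - 16 ≤ π)
    (hβc : ∀ k, ∀ j < n, β k j * (t k (j+1) + 2 * t k j - 16 - π) = 0)
    (ht : ∀ k, ∀ j < n, (4:ℝ) ^ (n - j) - α k j - β k j + 2 * α k (j+1) - 2 * β k (j+1) ≤ π)
    (htc : ∀ k, ∀ j < n,
      t k (j+1) * ((4:ℝ) ^ (n - j) - α k j - β k j + 2 * α k (j+1) - 2 * β k (j+1) - π) = 0)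
    (hw : ∀ k, 4 * (α k 0 - β k 0) + 2 * 4 ^ n * v k - ∑ i, c i k * y i ≤ π)
    (hwc : ∀ k, w k * (4 * (α k 0 - β k 0) + 2 * 4 ^ n * v k - ∑ i, c i k * y i - π) = 0)
    (hv : ∀ k, -(2 * (α k 0 - β k 0)) - 2 * 4 ^ n * w k + (4 ^ n - e) * v k + e * ∑ i, o k i * z i
      - 2 * 4 ^ n * s k ≤ π)
    (hvc : ∀ k, v k * (-(2 * (α k 0 - β k 0)) - 2 * 4 ^ n * w k + (4 ^ n - e) * v k
      + e * ∑ i, o k i * z i - 2 * 4 ^ n * s k - π) = 0)
    (hs : ∀ k, 2 * 4 ^ n * (v k - 1) ≤ π) (hsc : ∀ k, s k * (2 * 4 ^ n * (v k - 1) - π) = 0)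
    (hy : ∀ i, (b i + ∑ k, c i k * w k + ∑ j, (if j < i then a i j * z j else 0)) - z i ≤ π)
    (hyc : ∀ i, y i * ((b i + ∑ k, c i k * w k + ∑ j, (if j < i then a i j * z j else 0)) - z i - π)
      = 0)
    (hz : ∀ i, -(e * W ^ (N - i.1)) + y i - ∑ j, (if i < j then a j i * y j else 0)
        - e * ∑ k, o k i * v k ≤ π)
    (hzc : ∀ i, z i * (-(e * W ^ (N - i.1)) + y i - ∑ j, (if i < j then a j i * y j else 0)
        - e * ∑ k, o k i * v k - π) = 0)
    (hcc : 4 * 4 ^ n - dd ≤ π) (hdd : dd * (cc - 2 ^ (6 * n + 2) - π) = 0)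
    (r : Fin N → ℝ)
    (hr : ∀ i, r i = max 0 (b i + ∑ k, c i k * v k + ∑ j, (if j < i then a i j * r j else 0))) :
    ∀ k, |v k - max 0 (min 1 (∑ i, o k i * r i))| ≤ (1/2) ^ p := by
  intro k0
  -- facts on the parameters
  set G : ℝ := 2 ^ n with hG
  have hG2 : (4:ℝ) ^ n = G ^ 2 := by
    rw [hG, ← pow_mul, mul_comm, pow_mul]; norm_num
  set H : ℝ := 2 ^ L with hH
  set P : ℝ := 2 ^ p with hP
  have hH1 : 1 ≤ H := one_le_pow₀ (by norm_num)
  have hP1 : 1 ≤ P := one_le_pow₀ (by norm_num)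
  have hn7 : 7 ≤ n := by rw [hn]; unfold lev; omega
  have hG128 : 128 ≤ G := by
    rw [hG]
    calc (128:ℝ) = 2 ^ 7 := by norm_num
      _ ≤ 2 ^ n := pow_le_pow_right₀ (by norm_num) hn7
  have heG : e = 64 * (G * P) := by
    rw [he, hG, hP, pow_add, pow_add]; norm_num; ring
  have hWval : W = 32 * (H * 2 ^ K * 2 ^ N) := by
    rw [hW, hH]; unfold om; rw [pow_add, pow_add, pow_add]; norm_num; ring
  have hK : (K:ℝ) ≤ 2 ^ K := lt_two_pow_real K
  have hN : (N:ℝ) ≤ 2 ^ N := lt_two_pow_real N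
  have hK1 : (1:ℝ) ≤ 2 ^ K := one_le_pow₀ (by norm_num)
  have hN1 : (1:ℝ) ≤ 2 ^ N := one_le_pow₀ (by norm_num)
  have hHK : H * K ≤ H * 2 ^ K * 2 ^ N := by
    calc H * K ≤ H * 2 ^ K := mul_le_mul_of_nonneg_left hK (by linarith)
      _ ≤ H * 2 ^ K * 2 ^ N := le_mul_of_one_le_right (by positivity) hN1
  have hHN : H * N ≤ H * 2 ^ K * 2 ^ N := by
    calc H * N ≤ H * 2 ^ N := mul_le_mul_of_nonneg_left hN (by linarith)
      _ ≤ H * 2 ^ N * 2 ^ K := le_mul_of_one_le_right (by positivity) hK1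
      _ = _ := by ring
  have hH1' : 1 ≤ H * 2 ^ K * 2 ^ N := by
    calc (1:ℝ) = 1 * 1 * 1 := by norm_num
      _ ≤ _ := by gcongr
  have hWa : 8 * H * N ≤ W := by rw [hWval]; linarith
  have hWb : 16 * H * K ≤ W := by rw [hWval]; linarith
  have hWc : 16 ≤ W := by rw [hWval]; linarith
  have hWd : 1 + H * N ≤ W := by rw [hWval]; linarith
  have hWe : K * H ≤ W := by rw [hWval]; linarith
  -- `2 ^ n = 2 ^ (2p+7) * W ^ (2N+3)`
  have hGW : G = 128 * P ^ 2 * W ^ (2 * N + 3) := by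
    have h1 : (2:ℝ) ^ (2 * p) = (2 ^ p) ^ 2 := by rw [mul_comm, pow_mul]
    have h2 : (2:ℝ) ^ (om K N L * (2 * N + 3)) = (2 ^ om K N L) ^ (2 * N + 3) := by rw [pow_mul]
    rw [hG, hn, hP, hW]
    unfold lev
    rw [pow_add, pow_add, h1, h2]
    norm_num; ring
  have hW1 : 1 ≤ W := by linarith
  have hWN : (1:ℝ) ≤ W ^ (N + 1) := one_le_pow₀ hW1
  have hWN2 : W ^ (N+1) * W ^ (N+2) = W ^ (2 * N + 3) := by rw [← pow_add]; congr 1; omega
  have hWN2' : (1:ℝ) ≤ W ^ (N + 2) := one_le_pow₀ hW1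
  have hGe : e * W ^ (N+1) ≤ G ^ 2 / 2 := by
    have h1 : 128 * P * W ^ (N+1) ≤ G := by
      rw [hGW, ← hWN2]
      have : P * W ^ (N+1) ≤ P ^ 2 * (W ^ (N+1) * W ^ (N+2)) := by
        calc P * W ^ (N+1) ≤ P ^ 2 * W ^ (N+1) :=
              mul_le_mul_of_nonneg_right (num_P2 P hP1) (by positivity)
          _ ≤ P ^ 2 * W ^ (N+1) * W ^ (N+2) := le_mul_of_one_le_right (by positivity) hWN2'
          _ = _ := by ring
      linarith
    exact num_eW G P e _ (by linarith) heG h1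
  have he1 : 1 ≤ e := by rw [heG]; exact num_e1 G P hG128 hP1
  have heg : e ≤ 4 ^ n := by
    rw [hG2]
    have : e ≤ e * W ^ (N+1) := le_mul_of_one_le_right (by linarith) hWN
    have h0 : 0 ≤ G ^ 2 := sq_nonneg G
    linarith
  have hKG : (K:ℝ) ≤ G := by
    have h1 : (2:ℝ) ^ K ≤ W := by
      rw [hWval]
      have : (2:ℝ) ^ K ≤ H * 2 ^ K * 2 ^ N := by
        calc (2:ℝ) ^ K ≤ H * 2 ^ K := le_mul_of_one_le_left (by positivity) hH1
          _ ≤ _ := le_mul_of_one_le_right (by positivity) hN1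
      linarith
    have h2 : W ≤ W ^ (2 * N + 3) := by
      calc W = W ^ 1 := (pow_one W).symm
        _ ≤ _ := pow_le_pow_right₀ hW1 (by omega)
    have h3 : W ^ (2 * N + 3) ≤ G := by
      rw [hGW]
      exact le_mul_of_one_le_left (by positivity) (num_128 P hP1)
    linarith
  have hnG : (n:ℝ) ≤ G := lt_two_pow_real n
  -- step A
  have hCval : (2:ℝ) ^ (6 * n + 2) = 4 * G ^ 6 := by
    rw [hG, pow_add, mul_comm 6 n, pow_mul]; norm_num; ring
  obtain ⟨hπ0, hπ1, hvb, hv2, hπC⟩ := stepA v (4 ^ n - e) (2 * 4 ^ n) π S cc (2 ^ (6 * n + 2))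
    (4 * 4 ^ n) dd (by linarith) (by linarith) (by positivity) hS hSc hv0 hπ hs
    (by have : (0:ℝ) < 4 ^ n := by positivity
        linarith) hcc hdd (by positivity)
  have hG0 : 0 < G := by linarith
  have hπ3 : π * G ^ 3 ≤ 1 := by
    rw [hCval] at hπC
    have h1 : 4 * (K:ℝ) * (4 ^ n - e) ≤ 4 * G * G ^ 2 := by
      rw [hG2] at heg ⊢
      have h2 : (G ^ 2 - e) ≤ G ^ 2 := by linarith
      have h3 : 0 ≤ G ^ 2 - e := by linarith
      calc 4 * (K:ℝ) * (G ^ 2 - e) ≤ 4 * G * (G ^ 2 - e) := by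
            apply mul_le_mul_of_nonneg_right _ h3; linarith
        _ ≤ 4 * G * G ^ 2 := by
            apply mul_le_mul_of_nonneg_left h2; linarith
    have h2 : (π * G ^ 3) * (4 * G ^ 3) ≤ 1 * (4 * G ^ 3) := by
      calc (π * G ^ 3) * (4 * G ^ 3) = π * (4 * G ^ 6) := by ring
        _ ≤ 4 * G * G ^ 2 := hπC.trans h1
        _ = 1 * (4 * G ^ 3) := by ring
    exact le_of_mul_le_mul_right h2 (by positivity)
  obtain ⟨hπG, hπs, hπG2⟩ := num_pi1 G π hG128 hπ0 hπ3
  have hπsmall : (2 * 4 ^ (n+1) + 8 * n + 8) * π ≤ 1 := by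
    rw [pow_succ, hG2]
    have h2 : (n:ℝ) * π ≤ 1 / 16384 := by
      calc (n:ℝ) * π ≤ G * π := mul_le_mul_of_nonneg_right hnG hπ0
        _ = π * G := by ring
        _ ≤ _ := hπG
    exact num_small n G π hπG2 h2 hπs
  -- step B
  obtain ⟨hyb, hypos⟩ := stepB H W e π hH1 hWa hWb hWc he1 hπ0 (by linarith) a o ha ho v hv0 hv2 y z
    hy0 hz0 hz hzc
  -- step C
  have hgates : ∀ i, |z i - max 0 (b i + ∑ k, c i k * w k + ∑ j, (if j < i then a i j * z j else 0))|
      ≤ π := fun i => stepC _ _ (y i) π hπ0 (hz0 i) (hy i) (hyc i) (hypos i)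
  -- bound of the load
  have hload : ∀ k, |∑ i, c i k * y i| ≤ e * W ^ (N+1) := by
    intro k
    calc |∑ i, c i k * y i| ≤ ∑ i, |c i k * y i| := abs_sum_le_sum_abs _ _
      _ ≤ ∑ i : Fin N, H * (2 * (e * W ^ N)) := by
          apply sum_le_sum
          intro i _
          rw [abs_mul, abs_of_nonneg (hy0 i)]
          apply mul_le_mul (hc i k) _ (hy0 i) (by linarith)
          refine (hyb i).trans ?_
          have : W ^ (N - i.1) ≤ W ^ N := pow_le_pow_right₀ hW1 (by omega)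
          have := mul_le_mul_of_nonneg_left this (by linarith : (0:ℝ) ≤ e)
          linarith
      _ = (2 * (H * N)) * (e * W ^ N) := by
          simp only [sum_const, card_univ, Fintype.card_fin, nsmul_eq_mul]; ring
      _ ≤ W * (e * W ^ N) := by
          apply mul_le_mul_of_nonneg_right _ (by positivity)
          linarith
      _ = e * W ^ (N+1) := by rw [pow_succ]; ring
  -- step D
  have hD : ∀ k, |2 * (α k 0 - β k 0) + 4 ^ n * (2 * w k - v k)| ≤ 5 * 2 ^ n ∧
      |w k - v k| * (4 * 4 ^ n) ≤ 10 * 2 ^ n + e * W ^ (N+1) + 1 := by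
    intro k
    exact stepD n (by omega) π (v k) (w k) (∑ i, c i k * y i) (e * W ^ (N+1)) hπ0 hπsmall (t k) (α k)
      (β k) (ht00 k) (hv0 k) (hv2 k) (hw0 k) (ht0 k) (hα0 k) (hβ0 k) (hαn k) (hβn k) (hα k) (hαc k)
      (hβ k) (hβc k) (ht k) (htc k) (hw k) (hwc k) (hload k) (by rw [hG2]; exact hGe)
  -- step E : closeness of w and v
  set δ : ℝ := e * W ^ (N+1) / (2 * G ^ 2) with hδ
  have hδ0 : 0 ≤ δ := by positivity
  have hwv : ∀ k, |w k - v k| ≤ δ := by
    intro k
    have h1 := (hD k).2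
    rw [hG2] at h1
    rw [hδ, le_div_iff₀ (by positivity)]
    have h2 : 10 * 2 ^ n + 1 ≤ e * W ^ (N+1) := by
      have h3 : e ≤ e * W ^ (N+1) := le_mul_of_one_le_right (by linarith) hWN
      have h4 : 64 * G ≤ e := by rw [heG]; exact num_GP G P hG128 hP1
      rw [← hG]; linarith
    linarith
  -- step G
  have hprop := stepG H W π δ hH1 hWd hπ0 hδ0 a c b ha hc v w hwv z r hgates hr
  set q : ℝ := π + K * H * δ with hq
  have hq0 : 0 ≤ q := by positivity
  have hout : |∑ i, o k0 i * z i - ∑ i, o k0 i * r i| ≤ q * W ^ (N+1) := by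
    rw [← sum_sub_distrib]
    calc |∑ i, (o k0 i * z i - o k0 i * r i)| ≤ ∑ i, |o k0 i * z i - o k0 i * r i| :=
          abs_sum_le_sum_abs _ _
      _ ≤ ∑ i : Fin N, H * (q * W ^ N) := by
          apply sum_le_sum
          intro i _
          rw [← mul_sub, abs_mul]
          apply mul_le_mul (ho k0 i) _ (abs_nonneg _) (by linarith)
          refine (hprop i).trans ?_
          apply mul_le_mul_of_nonneg_left _ hq0
          exact pow_le_pow_right₀ hW1 i.2.le
      _ = (H * N) * (q * W ^ N) := by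
          simp only [sum_const, card_univ, Fintype.card_fin, nsmul_eq_mul]; ring
      _ ≤ W * (q * W ^ N) := by
          apply mul_le_mul_of_nonneg_right _ (by positivity)
          linarith
      _ = q * W ^ (N+1) := by rw [pow_succ]; ring
  -- step F
  have hF := stepF (2 * (α k0 0 - β k0 0)) (4 ^ n) (w k0) (v k0) e (∑ i, o k0 i * z i) (2 * 4 ^ n)
    (s k0) π (5 * 2 ^ n) hπ0 (by linarith) (by positivity) (hD k0).1 (hv0 k0) (hs0 k0) (hv k0) (hvc k0)
    (hs k0) (hsc k0)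
  have hclip : |max 0 (min 1 (∑ i, o k0 i * z i)) - max 0 (min 1 (∑ i, o k0 i * r i))|
      ≤ |∑ i, o k0 i * z i - ∑ i, o k0 i * r i| := by
    have h1 := abs_max_sub_max_le_abs (min 1 (∑ i, o k0 i * z i)) (min 1 (∑ i, o k0 i * r i)) 0
    rw [max_comm 0, max_comm 0 (min 1 (∑ i, o k0 i * r i))]
    refine h1.trans ?_
    have h2 := abs_min_sub_min_le_max (1:ℝ) (∑ i, o k0 i * z i) 1 (∑ i, o k0 i * r i)
    simpa using h2
  -- numerical conclusion
  have hPinv : (1/2:ℝ) ^ p = 1 / P := by rw [hP, one_div_pow]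
  have f1 : (5 * 2 ^ n + π) / e ≤ (1/8) * (1 / P) := by
    rw [← hG, heG, div_le_iff₀ (by positivity)]
    have : (1/8) * (1 / P) * (64 * (G * P)) = 8 * G := by
      field_simp; ring
    rw [this]; linarith
  have hPG : 128 * P ≤ G := by
    rw [hGW]
    have h3 : (1:ℝ) ≤ W ^ (2 * N + 3) := one_le_pow₀ hW1
    have h4 : P ≤ P ^ 2 * W ^ (2 * N + 3) :=
      (num_P2 P hP1).trans (le_mul_of_one_le_right (by positivity) h3)
    linarith
  have hPpos : 0 < P := by linarith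
  have f2 : π / (2 * 4 ^ n) ≤ (1/8) * (1 / P) := by
    rw [div_le_iff₀ (by positivity), hG2]
    exact num_f2 G P π hG128 hP1 hPG hπs
  have f3 : q * W ^ (N+1) ≤ (1/2) * (1 / P) := by
    have h6 : π * W ^ (N+1) ≤ (1/8) * (1/P) := by
      have h7 : P * W ^ (N+1) ≤ G := by
        rw [hGW, ← hWN2]
        calc P * W ^ (N+1) ≤ P ^ 2 * W ^ (N+1) :=
              mul_le_mul_of_nonneg_right (num_P2 P hP1) (by positivity)
          _ ≤ P ^ 2 * W ^ (N+1) * W ^ (N+2) := le_mul_of_one_le_right (by positivity) hWN2'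
          _ ≤ 128 * (P ^ 2 * W ^ (N+1) * W ^ (N+2)) := by
              have : 0 ≤ P ^ 2 * W ^ (N+1) * W ^ (N+2) := by positivity
              linarith
          _ = _ := by ring
      have h8 : π * W ^ (N+1) * P ≤ 1 / 8 := by
        calc π * W ^ (N+1) * P = π * (P * W ^ (N+1)) := by ring
          _ ≤ π * G := mul_le_mul_of_nonneg_left h7 hπ0
          _ ≤ _ := by linarith
      rw [mul_one_div, le_div_iff₀ hPpos]; exact h8
    have h9 : K * H * δ * W ^ (N+1) ≤ (1/4) * (1/P) := by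
      have h10 : K * H * δ * W ^ (N+1) ≤ W * δ * W ^ (N+1) := by
        apply mul_le_mul_of_nonneg_right _ (by positivity)
        exact mul_le_mul_of_nonneg_right hWe hδ0
      refine h10.trans (le_of_eq ?_)
      rw [hδ]
      have h11 : W * (e * W ^ (N + 1) / (2 * G ^ 2)) * W ^ (N + 1) = e * (W ^ (2 * N + 3)) / (2 * G ^ 2) := by
        have : W ^ (2 * N + 3) = W * W ^ (N+1) * W ^ (N+1) := by
          rw [← pow_succ', ← pow_add]; congr 1; omega
        rw [this]; ring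
      rw [h11, heG]
      have h12 : W ^ (2 * N + 3) = G / (128 * P ^ 2) := by
        rw [hGW]; field_simp
      rw [h12]
      field_simp
      norm_num
    rw [hq, add_mul]; 
    have : 0 ≤ 1 / P := by positivity
    linarith
  rw [hPinv]
  have h20 : |v k0 - max 0 (min 1 (∑ i, o k0 i * r i))| ≤
      |v k0 - max 0 (min 1 (∑ i, o k0 i * z i))| +
      |max 0 (min 1 (∑ i, o k0 i * z i)) - max 0 (min 1 (∑ i, o k0 i * r i))| := abs_sub_le _ _ _
  have : 0 ≤ 1 / P := by positivity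
  linarith

end Pool.Agent.H74.RankTwo
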