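import Mathlib

set_option autoImplicit false

namespace Pool.Agent.H74.RankTwo

/-- exponent of the weight ratio: `om = L + K + N + 5` -/
def om (K N L : ℕ) : ℕ := L + K + N + 5

/-- number of levels of the gadget: `lev = 2 p + 7 + (L + K + N + 5) (2 N + 3)` -/
def lev (K N L p : ℕ) : ℕ := 2 * p + 7 + om K N L * (2 * N + 3)

end Pool.Agent.H74.RankTwo
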